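import Pool.Agent.LibPA39.N10a

/-!
[PA B1s] **A harmonic sum over the classes** (from N10a `cl`).
PROOF. For one residue `r < k`: the `x ∈ [w^5, w^20]` with `x % k = r` are `x = r + k j` with `j ≥ 1` (`x ≥ w^5 > w^2 ≥ k`, `w ≥ 2`), so `1/x ≤ 1/(k j)`, `j ≤ w^20`, sum `≤ (1 + log (w^20))/k ≤ (1 + 20 log w)/k` (`harmonic_le_one_add_log`).
Sum over `R`, `#R ≤ ta k`. The hypothesis `hm`, `he` are those of `cl`.
-/

namespace PA39

open Finset Pasch

theorem hs (w k m e : ℕ) (hw : 2 ≤ w) (hk : 1 ≤ k) (hk2 : k ≤ w ^ 2) (h4 : ¬ 4 ∣ k) (hm : m.Coprime k) (he : e.Coprime k)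
    (S : Finset ℕ) (hS : ∀ x ∈ S, w ^ 5 ≤ x ∧ x ≤ w ^ 20 ∧ (k : ℤ) ∣ ((m : ℤ) * x) ^ 2 - (e : ℤ) ^ 2) :
    ∑ x ∈ S, (1 : ℝ) / x ≤ ta k * (1 + 20 * Real.log w) / k := by
  classical
  obtain ⟨R, hR1, hR2⟩ := cl k m e hk h4 hm he
  have hkr : (0 : ℝ) < k := by exact_mod_cast (by omega : 0 < k)
  have hw1 : (1 : ℝ) ≤ w := by exact_mod_cast (by omega : 1 ≤ w)
  have hlog : 0 ≤ Real.log w := Real.log_nonneg hw1
  have hkx : ∀ x ∈ S, k ≤ x := by
    intro x hx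
    have h1 := (hS x hx).1
    have h2 : w ^ 2 ≤ w ^ 5 := Nat.pow_le_pow_right (by omega) (by norm_num)
    omega
  have hinj : Set.InjOn (fun x : ℕ => ((x % k, x / k) : ℕ × ℕ)) (S : Set ℕ) := by
    intro x _ y _ hxy
    have h1 : x % k = y % k := congrArg Prod.fst hxy
    have h2 : x / k = y / k := congrArg Prod.snd hxy
    rw [← Nat.mod_add_div x k, ← Nat.mod_add_div y k, h1, h2]
  have hsub : S.image (fun x : ℕ => ((x % k, x / k) : ℕ × ℕ)) ⊆ R ×ˢ Icc 1 (w ^ 20) := by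
    intro z hz
    rw [Finset.mem_image] at hz
    obtain ⟨x, hx, rfl⟩ := hz
    rw [Finset.mem_product, Finset.mem_Icc]
    refine ⟨hR2 x (hS x hx).2.2, ?_, ?_⟩
    · exact Nat.div_pos (hkx x hx) (by omega)
    · exact (Nat.div_le_self x k).trans (hS x hx).2.1
  have hharm : ∑ j ∈ Icc 1 (w ^ 20), (1 : ℝ) / j ≤ 1 + 20 * Real.log w := by
    have h1 := harmonic_le_one_add_log (w ^ 20)
    rw [harmonic_eq_sum_Icc] at h1
    push_cast at h1
    rw [Real.log_pow] at h1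
    have h2 : ∑ j ∈ Icc 1 (w ^ 20), (1 : ℝ) / j = ∑ j ∈ Icc 1 (w ^ 20), ((j : ℝ))⁻¹ :=
      Finset.sum_congr rfl fun j _ => one_div _
    rw [h2]
    refine h1.trans ?_
    norm_num
  calc ∑ x ∈ S, (1 : ℝ) / x ≤ ∑ x ∈ S, (1 : ℝ) / (k * ((x / k : ℕ) : ℝ)) := by
        refine Finset.sum_le_sum fun x hx => ?_
        have h1 : 1 ≤ x / k := Nat.div_pos (hkx x hx) (by omega)
        have h2 : k * (x / k) ≤ x := Nat.mul_div_le x k
        have h3 : (k : ℝ) * ((x / k : ℕ) : ℝ) ≤ x := by exact_mod_cast h2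
        have h4 : (0 : ℝ) < (k : ℝ) * ((x / k : ℕ) : ℝ) := by
          have : (1 : ℝ) ≤ ((x / k : ℕ) : ℝ) := by exact_mod_cast h1
          positivity
        exact one_div_le_one_div_of_le h4 h3
    _ = ∑ z ∈ S.image (fun x : ℕ => ((x % k, x / k) : ℕ × ℕ)), (1 : ℝ) / (k * ((z.2 : ℕ) : ℝ)) := by
        rw [Finset.sum_image hinj]
    _ ≤ ∑ z ∈ R ×ˢ Icc 1 (w ^ 20), (1 : ℝ) / (k * ((z.2 : ℕ) : ℝ)) :=
        Finset.sum_le_sum_of_subset_of_nonneg hsub fun z _ _ => by positivity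
    _ = R.card * ((∑ j ∈ Icc 1 (w ^ 20), (1 : ℝ) / j) / k) := by
        rw [Finset.sum_product]
        simp only
        rw [Finset.sum_const, nsmul_eq_mul, Finset.sum_div]
        congr 1
        refine Finset.sum_congr rfl fun j _ => ?_
        rw [div_div, mul_comm]
    _ ≤ ta k * ((1 + 20 * Real.log w) / k) := by
        refine mul_le_mul hR1 ?_ ?_ ?_
        · exact div_le_div_of_nonneg_right hharm hkr.le
        · exact div_nonneg (Finset.sum_nonneg fun j _ => by positivity) hkr.le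
        · unfold ta; positivity
    _ = ta k * (1 + 20 * Real.log w) / k := by rw [mul_div_assoc]

end PA39
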