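import Pool.Agent.LibPA39.Defs
import Pool.Agent.LibSM47.M_B1

/-!
[PA N8a] Divisor bound, and the choice of the sieve level.
(i) `dv`: `Pool.Agent.LibSM47.card_div_le (η)` with `η = 1/(32 (B+1))`: `τ(n)^16 ≤ C^16 n^(16 η) ≤ C^16 w^(1/2) ≤ w` for `w ≥ C^32`.
(ii) `lv`: `y :=` the largest `y` with `y^TT ≤ w` (`Nat.findGreatest`); `w < (y+1)^TT ≤ (y^2)^TT` for `y ≥ 2`; and `y ≥ max y1 3` as soon as `w ≥ (max y1 3)^TT`.
-/

namespace PA39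

open Finset Pasch

theorem dv (B : ℕ) : ∃ w1 : ℕ, ∀ w : ℕ, w1 ≤ w → ∀ n : ℕ, n ≠ 0 → n ≤ w ^ B → ta n ^ 16 ≤ w := by
  have hB0 : (0 : ℝ) < (B : ℝ) + 1 := by positivity
  obtain ⟨C, hC, h⟩ := Pool.Agent.LibSM47.card_div_le (1 / (32 * ((B : ℝ) + 1))) (by positivity)
  refine ⟨max 1 ⌈C ^ 32⌉₊, fun w hw n hn hnw => ?_⟩
  have hw1 : (1 : ℝ) ≤ w := by exact_mod_cast (le_max_left _ _).trans hw
  have hw0 : (0 : ℝ) < w := by linarith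
  have hwC : C ^ 32 ≤ (w : ℝ) :=
    (Nat.le_ceil _).trans (by exact_mod_cast (le_max_right _ _).trans hw)
  have h1 : ta n ≤ C * (n : ℝ) ^ (1 / (32 * ((B : ℝ) + 1))) := h n (by omega)
  have h2 : (n : ℝ) ^ (1 / (32 * ((B : ℝ) + 1))) ≤ ((w : ℝ) ^ B) ^ (1 / (32 * ((B : ℝ) + 1))) :=
    Real.rpow_le_rpow (Nat.cast_nonneg n) (by exact_mod_cast hnw) (by positivity)
  have h3 : (((w : ℝ) ^ B) ^ (1 / (32 * ((B : ℝ) + 1)))) ^ 16 ≤ (w : ℝ) ^ (1 / 2 : ℝ) := by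
    rw [← Real.rpow_natCast (w : ℝ) B, ← Real.rpow_mul hw0.le,
      ← Real.rpow_natCast ((w : ℝ) ^ ((B : ℝ) * (1 / (32 * ((B : ℝ) + 1))))) 16,
      ← Real.rpow_mul hw0.le]
    refine Real.rpow_le_rpow_of_exponent_le hw1 ?_
    push_cast
    rw [show (B : ℝ) * (1 / (32 * ((B : ℝ) + 1))) * 16 = (B : ℝ) / (2 * ((B : ℝ) + 1)) by
      field_simp; ring]
    rw [div_le_div_iff₀ (by positivity) (by norm_num)]
    linarith
  have h4 : C ^ 16 ≤ (w : ℝ) ^ (1 / 2 : ℝ) := by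
    rw [← Real.sqrt_eq_rpow]
    apply Real.le_sqrt_of_sq_le
    calc (C ^ 16) ^ 2 = (C ^ 32 : ℝ) := by ring
      _ ≤ (w : ℝ) := hwC
  have h0 : 0 ≤ ta n := by
    unfold ta
    positivity
  have h5 : ta n ≤ C * ((w : ℝ) ^ B) ^ (1 / (32 * ((B : ℝ) + 1))) :=
    h1.trans (mul_le_mul_of_nonneg_left h2 hC.le)
  calc ta n ^ 16 ≤ (C * ((w : ℝ) ^ B) ^ (1 / (32 * ((B : ℝ) + 1)))) ^ 16 :=
        pow_le_pow_left₀ h0 h5 16
    _ = C ^ 16 * (((w : ℝ) ^ B) ^ (1 / (32 * ((B : ℝ) + 1)))) ^ 16 := mul_pow _ _ _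
    _ ≤ (w : ℝ) ^ (1 / 2 : ℝ) * (w : ℝ) ^ (1 / 2 : ℝ) :=
        mul_le_mul h4 h3 (by positivity) (by positivity)
    _ = w := by
        rw [← Real.rpow_add hw0]
        norm_num

theorem lv (y1 : ℕ) : ∃ w1 : ℕ, ∀ w : ℕ, w1 ≤ w → ∃ y : ℕ, y1 ≤ y ∧ Lev y w := by
  classical
  refine ⟨(max y1 3) ^ TT, fun w hw => ?_⟩
  have hT : TT ≠ 0 := by
    have := TT_pos
    omega
  have hm : max y1 3 ≤ w := (Nat.le_self_pow hT _).trans hw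
  have hge : max y1 3 ≤ Nat.findGreatest (fun y => y ^ TT ≤ w) w := Nat.le_findGreatest hm hw
  have hsp : (Nat.findGreatest (fun y => y ^ TT ≤ w) w) ^ TT ≤ w :=
    Nat.findGreatest_spec (P := fun y => y ^ TT ≤ w) hm hw
  have hlt : w < (Nat.findGreatest (fun y => y ^ TT ≤ w) w + 1) ^ TT := by
    rcases Nat.lt_or_ge w (Nat.findGreatest (fun y => y ^ TT ≤ w) w + 1) with h | h
    · exact lt_of_lt_of_le h (Nat.le_self_pow hT _)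
    · have := Nat.findGreatest_is_greatest (P := fun y => y ^ TT ≤ w) (Nat.lt_succ_self _) h
      exact not_le.1 this
  have h3 : 3 ≤ Nat.findGreatest (fun y => y ^ TT ≤ w) w := (le_max_right _ _).trans hge
  refine ⟨Nat.findGreatest (fun y => y ^ TT ≤ w) w, (le_max_left _ _).trans hge, h3, hsp, ?_⟩
  generalize Nat.findGreatest (fun y => y ^ TT ≤ w) w = y at h3 hlt
  rw [pow_mul]
  refine hlt.le.trans (Nat.pow_le_pow_left ?_ _)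
  nlinarith

end PA39
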