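import Pool.Agent.LibPA39.Defs2
import Pool.Agent.LibPA39.B1s
import Pool.Agent.LibPA39.N8a

/-!
[PA B1f] **Case B, keys with `m < w^5`** (from B1s `hs`, N8a `dv`); by symmetry also the keys with `g < w^5`.
PROOF. (i) `m < w^5`: then `c1, c2 ≥ w^5` (`m c1 ≥ w^10`). `T` is contained in the set of tuples with `k ∈ [w, w^2]`, `m, g, e1, e2 ∈ [1, w^20]`. For fixed `(k, m, g, e1, e2)` the sum over `c1` with
`k ∣ (m c1)^2 - (g e1)^2` of `1/c1` is `≤ ta k (1 + 20 log w)/k` (`hs`; sign of the difference irrelevant), the same for `c2`. So the total is at most `∑_{k ≥ w} (ta k)^2 (1 + 20 log w)^2/k^2 * (1 + 20 log w)^4`, `(ta k)^2 ≤ w^(1/8)` (`dv 2`),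
`∑_{k ≥ w} 1/k^2 ≤ 2/w`: `≤ 2 (1 + 20 log w)^6 w^(1/8 - 1) ≤ w^(-1/2)/3` for large `w`.
(ii) `g < w^5`: apply (i) to the image of `T` under the swap `(k, m, c1, c2, g, e1, e2) ↦ (k, g, e1, e2, m, c1, c2)`, which preserves `V7` and `pr7`.
(State a private lemma with fewer structure fields if convenient.)
-/

namespace PA39

open Finset Pasch

private theorem b1f_ps {α β : Type*} (s : Finset α) (t : Finset β) (f : α → ℝ) (g : β → ℝ) :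
    ∑ x ∈ s ×ˢ t, f x.1 * g x.2 = (∑ a ∈ s, f a) * ∑ b ∈ t, g b := by
  rw [Finset.sum_mul_sum, Finset.sum_product]

private theorem b1f_harm (w : ℕ) :
    ∑ n ∈ Icc 1 (w ^ 20), (1 : ℝ) / n ≤ 1 + 20 * Real.log w := by
  have h1 := harmonic_le_one_add_log (w ^ 20)
  rw [harmonic_eq_sum_Icc] at h1
  push_cast at h1
  rw [Real.log_pow] at h1
  simpa [one_div] using h1

private theorem b1f_sq (w : ℕ) (hw : 1 ≤ w) :
    ∑ k ∈ Icc w (w ^ 2), (1 : ℝ) / (k : ℝ) ^ 2 ≤ 2 / w := by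
  have h1 := sum_Ioo_inv_sq_le (α := ℝ) (w - 1) (w ^ 2 + 1)
  have h2 : Ioo (w - 1) (w ^ 2 + 1) = Icc w (w ^ 2) := by
    ext k
    simp only [Finset.mem_Ioo, Finset.mem_Icc]
    omega
  rw [h2] at h1
  have h3 : ((w - 1 : ℕ) : ℝ) + 1 = w := by
    have : ((w - 1 : ℕ) : ℝ) = (w : ℝ) - 1 := by
      rw [Nat.cast_sub hw, Nat.cast_one]
    rw [this]
    ring
  rw [h3] at h1
  simpa [one_div] using h1

private theorem b1f_asy : ∃ w1 : ℕ, ∀ w : ℕ, w1 ≤ w →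
    6 * (1 + 20 * Real.log w) ^ 6 ≤ (w : ℝ) ^ (3 / 8 : ℝ) := by
  have h1 : Filter.Tendsto (fun w : ℕ => (w : ℝ) ^ (3 / 16 : ℝ)) Filter.atTop Filter.atTop :=
    (tendsto_rpow_atTop (by norm_num)).comp tendsto_natCast_atTop_atTop
  obtain ⟨w1, hw1⟩ := Filter.eventually_atTop.mp
    (h1.eventually_ge_atTop (6 * 641 ^ 6))
  refine ⟨max w1 1, fun w hw => ?_⟩
  have h2 := hw1 w (le_trans (le_max_left _ _) hw)
  have hw0 : (1 : ℝ) ≤ w := by exact_mod_cast le_trans (le_max_right _ _) hw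
  have h3 := Real.log_le_rpow_div (le_trans zero_le_one hw0) (show (0:ℝ) < 1 / 32 by norm_num)
  have h4 : (1 : ℝ) ≤ (w : ℝ) ^ (1 / 32 : ℝ) := Real.one_le_rpow hw0 (by norm_num)
  have h5 : 1 + 20 * Real.log w ≤ 641 * (w : ℝ) ^ (1 / 32 : ℝ) := by
    have : (w : ℝ) ^ (1 / 32 : ℝ) / (1 / 32) = 32 * (w : ℝ) ^ (1 / 32 : ℝ) := by ring
    rw [this] at h3
    linarith
  have h6 : 0 ≤ 1 + 20 * Real.log w := by
    have := Real.log_nonneg hw0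
    linarith
  calc 6 * (1 + 20 * Real.log w) ^ 6 ≤ 6 * (641 * (w : ℝ) ^ (1 / 32 : ℝ)) ^ 6 := by
        have := pow_le_pow_left₀ h6 h5 6
        linarith
    _ = 6 * 641 ^ 6 * (w : ℝ) ^ (3 / 16 : ℝ) := by
        rw [mul_pow, ← Real.rpow_natCast ((w : ℝ) ^ (1 / 32 : ℝ)) 6, ← Real.rpow_mul (by linarith)]
        norm_num
        ring
    _ ≤ (w : ℝ) ^ (3 / 16 : ℝ) * (w : ℝ) ^ (3 / 16 : ℝ) :=
        mul_le_mul_of_nonneg_right h2 (by positivity)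
    _ = (w : ℝ) ^ (3 / 8 : ℝ) := by
        rw [← Real.rpow_add (by linarith)]
        norm_num

theorem b1f : ∃ w1 : ℕ, ∀ w : ℕ, w1 ≤ w → ∀ T : Finset K7, (∀ z ∈ T, V7 w z ∧ z.m < w ^ 5) →
    ∑ z ∈ T, (1 : ℝ) / (pr7 z : ℝ) ≤ 1 / (3 * Real.sqrt w) := by
  classical
  obtain ⟨w1, hw1⟩ := dv 2
  obtain ⟨w2, hw2⟩ := b1f_asy
  refine ⟨max (max w1 w2) 2, fun w hw T hT => ?_⟩
  have hd := hw1 w (le_trans (le_trans (le_max_left _ _) (le_max_left _ _)) hw)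
  have ha := hw2 w (le_trans (le_trans (le_max_right _ _) (le_max_left _ _)) hw)
  have hw2' : 2 ≤ w := le_trans (le_max_right _ _) hw
  have hwR : (2 : ℝ) ≤ w := by exact_mod_cast hw2'
  have hlog : 0 ≤ Real.log w := Real.log_nonneg (by linarith)
  set L : ℝ := 1 + 20 * Real.log w with hL
  have hL0 : 0 ≤ L := by rw [hL]; linarith
  -- the box
  let B : Finset (ℕ × (ℕ × (ℕ × (ℕ × ℕ)))) :=
    Icc w (w ^ 2) ×ˢ (Icc 1 (w ^ 20) ×ˢ (Icc 1 (w ^ 20) ×ˢ (Icc 1 (w ^ 20) ×ˢ Icc 1 (w ^ 20))))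
  let B' : Finset (ℕ × (ℕ × (ℕ × (ℕ × ℕ)))) := B.filter (fun p =>
    ¬ 4 ∣ p.1 ∧ p.2.1.Coprime p.1 ∧ (p.2.2.1 * p.2.2.2.1).Coprime p.1 ∧ (p.2.2.1 * p.2.2.2.2).Coprime p.1)
  let S1 : (ℕ × (ℕ × (ℕ × (ℕ × ℕ)))) → Finset ℕ := fun p => (Icc (w ^ 5) (w ^ 20)).filter
    (fun x => (p.1 : ℤ) ∣ ((p.2.1 : ℤ) * x) ^ 2 - ((p.2.2.1 * p.2.2.2.1 : ℕ) : ℤ) ^ 2)
  let S2 : (ℕ × (ℕ × (ℕ × (ℕ × ℕ)))) → Finset ℕ := fun p => (Icc (w ^ 5) (w ^ 20)).filter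
    (fun x => (p.1 : ℤ) ∣ ((p.2.1 : ℤ) * x) ^ 2 - ((p.2.2.1 * p.2.2.2.2 : ℕ) : ℤ) ^ 2)
  let F : (Σ _ : ℕ × (ℕ × (ℕ × (ℕ × ℕ))), ℕ × ℕ) → ℝ := fun q =>
    (1 / (q.1.2.1 : ℝ) * (1 / (q.1.2.2.1 : ℝ) * (1 / (q.1.2.2.2.1 : ℝ) * (1 / (q.1.2.2.2.2 : ℝ))))) *
      (1 / (q.2.1 : ℝ) * (1 / (q.2.2 : ℝ)))
  let φ : K7 → (Σ _ : ℕ × (ℕ × (ℕ × (ℕ × ℕ))), ℕ × ℕ) := fun z =>
    ⟨(z.k, z.m, z.g, z.e1, z.e2), (z.c1, z.c2)⟩
  have hφ : Function.Injective φ := by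
    intro z z' h
    cases z
    cases z'
    simp only [φ, Sigma.mk.injEq, Prod.mk.injEq, heq_eq_eq] at h
    obtain ⟨⟨h1, h2, h3, h4, h5⟩, h6, h7⟩ := h
    subst h1 h2 h3 h4 h5 h6 h7
    rfl
  have hF0 : ∀ q, 0 ≤ F q := fun q => by positivity
  have hFφ : ∀ z, F (φ z) = 1 / (pr7 z : ℝ) := by
    intro z
    simp only [F, φ, pr7]
    push_cast
    simp only [one_div, mul_inv]
    ring
  have hsub : T.image φ ⊆ B'.sigma (fun p => S1 p ×ˢ S2 p) := by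
    intro q hq
    rw [Finset.mem_image] at hq
    obtain ⟨z, hz, rfl⟩ := hq
    obtain ⟨hV, hm⟩ := hT z hz
    have hw5 : w ^ 5 * w ^ 5 = w ^ 10 := by rw [← pow_add]
    have hw10 : 0 < w ^ 10 := by positivity
    have hc1 : w ^ 5 ≤ z.c1 := by
      by_contra hcon
      push Not at hcon
      have h1 := Nat.mul_lt_mul'' hm hcon
      have h2 := hV.a1.1
      omega
    have hc2 : w ^ 5 ≤ z.c2 := by
      by_contra hcon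
      push Not at hcon
      have h1 := Nat.mul_lt_mul'' hm hcon
      have h2 := hV.a2.1
      omega
    have hpos1 : 0 < z.m * z.c1 := lt_of_lt_of_le hw10 hV.a1.1
    have hpos2 : 0 < z.m * z.c2 := lt_of_lt_of_le hw10 hV.a2.1
    have hpos3 : 0 < z.g * z.e1 := lt_of_lt_of_le hw10 hV.a3.1
    have hpos4 : 0 < z.g * z.e2 := lt_of_lt_of_le hw10 hV.a4.1
    have hm0 : 0 < z.m := Nat.pos_of_mul_pos_right hpos1
    have hc10 : 0 < z.c1 := Nat.pos_of_mul_pos_left hpos1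
    have hc20 : 0 < z.c2 := Nat.pos_of_mul_pos_left hpos2
    have hg0 : 0 < z.g := Nat.pos_of_mul_pos_right hpos3
    have he10 : 0 < z.e1 := Nat.pos_of_mul_pos_left hpos3
    have he20 : 0 < z.e2 := Nat.pos_of_mul_pos_left hpos4
    have hmle : z.m ≤ w ^ 20 := (Nat.le_mul_of_pos_right _ hc10).trans hV.a1.2
    have hc1le : z.c1 ≤ w ^ 20 := (Nat.le_mul_of_pos_left _ hm0).trans hV.a1.2
    have hc2le : z.c2 ≤ w ^ 20 := (Nat.le_mul_of_pos_left _ hm0).trans hV.a2.2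
    have hgle : z.g ≤ w ^ 20 := (Nat.le_mul_of_pos_right _ he10).trans hV.a3.2
    have he1le : z.e1 ≤ w ^ 20 := (Nat.le_mul_of_pos_left _ hg0).trans hV.a3.2
    have he2le : z.e2 ≤ w ^ 20 := (Nat.le_mul_of_pos_left _ hg0).trans hV.a4.2
    rw [Finset.mem_sigma]
    refine ⟨?_, ?_⟩
    · refine Finset.mem_filter.mpr ⟨?_, hV.k4, Nat.Coprime.coprime_mul_right hV.kc, hV.ke, hV.ke'⟩
      simp only [B, φ, Finset.mem_product, Finset.mem_Icc]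
      exact ⟨⟨hV.k1, hV.k2⟩, ⟨hm0, hmle⟩, ⟨hg0, hgle⟩, ⟨he10, he1le⟩, he20, he2le⟩
    · rw [Finset.mem_product]
      refine ⟨Finset.mem_filter.mpr ⟨Finset.mem_Icc.mpr ⟨hc1, hc1le⟩, ?_⟩,
        Finset.mem_filter.mpr ⟨Finset.mem_Icc.mpr ⟨hc2, hc2le⟩, ?_⟩⟩
      · have := hV.q1
        rw [← dvd_neg, neg_sub] at this
        simp only [φ]
        push_cast
        exact this
      · have := hV.q2
        rw [← dvd_neg, neg_sub] at this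
        simp only [φ]
        push_cast
        exact this
  have hstep1 : ∑ z ∈ T, (1 : ℝ) / (pr7 z : ℝ) ≤ ∑ q ∈ B'.sigma (fun p => S1 p ×ˢ S2 p), F q := by
    calc ∑ z ∈ T, (1 : ℝ) / (pr7 z : ℝ) = ∑ q ∈ T.image φ, F q := by
          rw [Finset.sum_image (fun a _ b _ h => hφ h)]
          exact Finset.sum_congr rfl fun z _ => (hFφ z).symm
      _ ≤ _ := Finset.sum_le_sum_of_subset_of_nonneg hsub fun q _ _ => hF0 q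
  have hinner : ∀ p ∈ B', ∑ r ∈ S1 p ×ˢ S2 p, F ⟨p, r⟩ ≤
      ((w : ℝ) ^ (1 / 8 : ℝ) * L ^ 2) * (1 / (p.1 : ℝ) ^ 2) *
        (1 / (p.2.1 : ℝ) * (1 / (p.2.2.1 : ℝ) * (1 / (p.2.2.2.1 : ℝ) * (1 / (p.2.2.2.2 : ℝ))))) := by
    intro p hp
    obtain ⟨hpB, h4, hm, he1, he2⟩ := Finset.mem_filter.mp hp
    simp only [B, Finset.mem_product, Finset.mem_Icc] at hpB
    have hk1 : 1 ≤ p.1 := le_trans (by omega) hpB.1.1
    have hk2 : p.1 ≤ w ^ 2 := hpB.1.2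
    have hkR : (0 : ℝ) < p.1 := by exact_mod_cast hk1
    have hs1 := hs w p.1 p.2.1 (p.2.2.1 * p.2.2.2.1) hw2' hk1 hk2 h4 hm he1 (S1 p) (by
      intro x hx
      obtain ⟨hx1, hx2⟩ := Finset.mem_filter.mp hx
      rw [Finset.mem_Icc] at hx1
      exact ⟨hx1.1, hx1.2, hx2⟩)
    have hs2 := hs w p.1 p.2.1 (p.2.2.1 * p.2.2.2.2) hw2' hk1 hk2 h4 hm he2 (S2 p) (by
      intro x hx
      obtain ⟨hx1, hx2⟩ := Finset.mem_filter.mp hx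
      rw [Finset.mem_Icc] at hx1
      exact ⟨hx1.1, hx1.2, hx2⟩)
    have hta : ta p.1 ^ 2 ≤ (w : ℝ) ^ (1 / 8 : ℝ) := by
      have h5 := hd p.1 (by omega) hk2
      have h6 : (0 : ℝ) ≤ ta p.1 := by unfold ta; positivity
      calc ta p.1 ^ 2 = (ta p.1 ^ 16) ^ (1 / 8 : ℝ) := by
            rw [← Real.rpow_natCast (ta p.1) 16, ← Real.rpow_mul h6, ← Real.rpow_natCast (ta p.1) 2]
            norm_num
        _ ≤ _ := Real.rpow_le_rpow (by positivity) h5 (by norm_num)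
    have hprod : ∑ r ∈ S1 p ×ˢ S2 p, F ⟨p, r⟩ =
        (1 / (p.2.1 : ℝ) * (1 / (p.2.2.1 : ℝ) * (1 / (p.2.2.2.1 : ℝ) * (1 / (p.2.2.2.2 : ℝ))))) *
          ((∑ x ∈ S1 p, 1 / (x : ℝ)) * ∑ x ∈ S2 p, 1 / (x : ℝ)) := by
      rw [← b1f_ps (S1 p) (S2 p) (fun x => 1 / (x : ℝ)) (fun x => 1 / (x : ℝ)), Finset.mul_sum]
    rw [hprod]
    have h7 : (∑ x ∈ S1 p, 1 / (x : ℝ)) * ∑ x ∈ S2 p, 1 / (x : ℝ) ≤
        ((w : ℝ) ^ (1 / 8 : ℝ) * L ^ 2) * (1 / (p.1 : ℝ) ^ 2) := by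
      calc (∑ x ∈ S1 p, 1 / (x : ℝ)) * ∑ x ∈ S2 p, 1 / (x : ℝ) ≤
            (ta p.1 * L / p.1) * (ta p.1 * L / p.1) := by
            refine mul_le_mul hs1 hs2 (Finset.sum_nonneg fun x _ => by positivity) ?_
            have : (0 : ℝ) ≤ ta p.1 := by unfold ta; positivity
            positivity
        _ = ta p.1 ^ 2 * (L ^ 2 * (1 / (p.1 : ℝ) ^ 2)) := by
            field_simp
        _ ≤ (w : ℝ) ^ (1 / 8 : ℝ) * (L ^ 2 * (1 / (p.1 : ℝ) ^ 2)) :=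
            mul_le_mul_of_nonneg_right hta (by positivity)
        _ = _ := by ring
    calc _ ≤ (1 / (p.2.1 : ℝ) * (1 / (p.2.2.1 : ℝ) * (1 / (p.2.2.2.1 : ℝ) * (1 / (p.2.2.2.2 : ℝ))))) *
          (((w : ℝ) ^ (1 / 8 : ℝ) * L ^ 2) * (1 / (p.1 : ℝ) ^ 2)) :=
          mul_le_mul_of_nonneg_left h7 (by positivity)
      _ = _ := by ring
  have hstep2 : ∑ q ∈ B'.sigma (fun p => S1 p ×ˢ S2 p), F q ≤
      ∑ p ∈ B, ((w : ℝ) ^ (1 / 8 : ℝ) * L ^ 2) * (1 / (p.1 : ℝ) ^ 2) *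
        (1 / (p.2.1 : ℝ) * (1 / (p.2.2.1 : ℝ) * (1 / (p.2.2.2.1 : ℝ) * (1 / (p.2.2.2.2 : ℝ))))) := by
    rw [Finset.sum_sigma]
    refine (Finset.sum_le_sum hinner).trans ?_
    refine Finset.sum_le_sum_of_subset_of_nonneg (Finset.filter_subset _ _) fun p _ _ => ?_
    positivity
  have hstep3 : ∑ p ∈ B, ((w : ℝ) ^ (1 / 8 : ℝ) * L ^ 2) * (1 / (p.1 : ℝ) ^ 2) *
        (1 / (p.2.1 : ℝ) * (1 / (p.2.2.1 : ℝ) * (1 / (p.2.2.2.1 : ℝ) * (1 / (p.2.2.2.2 : ℝ))))) =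
      (∑ k ∈ Icc w (w ^ 2), ((w : ℝ) ^ (1 / 8 : ℝ) * L ^ 2) * (1 / (k : ℝ) ^ 2)) *
        ((∑ n ∈ Icc 1 (w ^ 20), 1 / (n : ℝ)) * ((∑ n ∈ Icc 1 (w ^ 20), 1 / (n : ℝ)) *
          ((∑ n ∈ Icc 1 (w ^ 20), 1 / (n : ℝ)) * (∑ n ∈ Icc 1 (w ^ 20), 1 / (n : ℝ))))) := by
    rw [← b1f_ps (Icc 1 (w ^ 20)) (Icc 1 (w ^ 20)) (fun n => 1 / (n : ℝ)) (fun n => 1 / (n : ℝ)),
      ← b1f_ps (Icc 1 (w ^ 20)) (Icc 1 (w ^ 20) ×ˢ Icc 1 (w ^ 20)) (fun n => 1 / (n : ℝ))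
        (fun x => 1 / (x.1 : ℝ) * (1 / (x.2 : ℝ))),
      ← b1f_ps (Icc 1 (w ^ 20)) (Icc 1 (w ^ 20) ×ˢ (Icc 1 (w ^ 20) ×ˢ Icc 1 (w ^ 20)))
        (fun n => 1 / (n : ℝ)) (fun x => 1 / (x.1 : ℝ) * (1 / (x.2.1 : ℝ) * (1 / (x.2.2 : ℝ)))),
      ← b1f_ps (Icc w (w ^ 2)) (Icc 1 (w ^ 20) ×ˢ (Icc 1 (w ^ 20) ×ˢ (Icc 1 (w ^ 20) ×ˢ Icc 1 (w ^ 20))))
        (fun k => ((w : ℝ) ^ (1 / 8 : ℝ) * L ^ 2) * (1 / (k : ℝ) ^ 2))
        (fun x => 1 / (x.1 : ℝ) * (1 / (x.2.1 : ℝ) * (1 / (x.2.2.1 : ℝ) * (1 / (x.2.2.2 : ℝ)))))]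
  refine hstep1.trans (hstep2.trans ?_)
  rw [hstep3, ← Finset.mul_sum]
  have hH := b1f_harm w
  have hH0 : 0 ≤ ∑ n ∈ Icc 1 (w ^ 20), 1 / (n : ℝ) := Finset.sum_nonneg fun n _ => by positivity
  have hS := b1f_sq w (by omega)
  have hwp : (0 : ℝ) < w := by linarith
  have hq4 : (∑ n ∈ Icc 1 (w ^ 20), 1 / (n : ℝ)) * ((∑ n ∈ Icc 1 (w ^ 20), 1 / (n : ℝ)) *
      ((∑ n ∈ Icc 1 (w ^ 20), 1 / (n : ℝ)) * (∑ n ∈ Icc 1 (w ^ 20), 1 / (n : ℝ)))) ≤ L ^ 4 := by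
    calc _ = (∑ n ∈ Icc 1 (w ^ 20), 1 / (n : ℝ)) ^ 4 := by ring
      _ ≤ L ^ 4 := pow_le_pow_left₀ hH0 hH 4
  calc (w : ℝ) ^ (1 / 8 : ℝ) * L ^ 2 * (∑ k ∈ Icc w (w ^ 2), 1 / (k : ℝ) ^ 2) *
        ((∑ n ∈ Icc 1 (w ^ 20), 1 / (n : ℝ)) * ((∑ n ∈ Icc 1 (w ^ 20), 1 / (n : ℝ)) *
      ((∑ n ∈ Icc 1 (w ^ 20), 1 / (n : ℝ)) * (∑ n ∈ Icc 1 (w ^ 20), 1 / (n : ℝ))))) ≤
        (w : ℝ) ^ (1 / 8 : ℝ) * L ^ 2 * (2 / w) * L ^ 4 := by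
        refine mul_le_mul (mul_le_mul_of_nonneg_left hS (by positivity)) hq4 (by positivity) (by positivity)
    _ = (6 * L ^ 6) * ((w : ℝ) ^ (1 / 8 : ℝ) / (3 * w)) := by
        field_simp
        ring
    _ ≤ (w : ℝ) ^ (3 / 8 : ℝ) * ((w : ℝ) ^ (1 / 8 : ℝ) / (3 * w)) :=
        mul_le_mul_of_nonneg_right ha (by positivity)
    _ = Real.sqrt w / (3 * w) := by
        rw [← mul_div_assoc, ← Real.rpow_add hwp, Real.sqrt_eq_rpow]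
        norm_num
    _ = 1 / (3 * Real.sqrt w) := by
        have h8 : 0 < Real.sqrt w := Real.sqrt_pos.mpr hwp
        rw [div_eq_div_iff (by positivity) (by positivity)]
        have h9 := Real.mul_self_sqrt hwp.le
        nlinarith

private def b1f_swap (z : K7) : K7 := ⟨z.k, z.g, z.e1, z.e2, z.m, z.c1, z.c2⟩

private theorem b1f_swap_inj : Function.Injective b1f_swap := by
  intro z z' h
  cases z
  cases z'
  simp only [b1f_swap, K7.mk.injEq] at h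
  obtain ⟨h1, h2, h3, h4, h5, h6, h7⟩ := h
  subst h1 h2 h3 h4 h5 h6 h7
  rfl

private theorem b1f_swap_V {w : ℕ} {z : K7} (h : V7 w z) : V7 w (b1f_swap z) where
  k1 := h.k1
  k2 := h.k2
  k4 := h.k4
  a1 := h.a3
  a2 := h.a4
  a3 := h.a1
  a4 := h.a2
  cc := h.ee
  ee := h.cc
  ce := h.ce.symm
  ce' := h.ce'.symm
  kc := h.ke
  kc' := h.ke'
  ke := h.kc
  ke' := h.kc'
  q1 := by
    have := h.q1
    rw [← dvd_neg, neg_sub] at this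
    exact this
  q2 := by
    have := h.q2
    rw [← dvd_neg, neg_sub] at this
    exact this
  ne := fun hh => h.ne ⟨hh.2.2.1, hh.2.2.2, hh.1, hh.2.1⟩

theorem b1f' : ∃ w1 : ℕ, ∀ w : ℕ, w1 ≤ w → ∀ T : Finset K7, (∀ z ∈ T, V7 w z ∧ z.g < w ^ 5) →
    ∑ z ∈ T, (1 : ℝ) / (pr7 z : ℝ) ≤ 1 / (3 * Real.sqrt w) := by
  classical
  obtain ⟨w1, hw1⟩ := b1f
  refine ⟨w1, fun w hw T hT => ?_⟩
  have h1 := hw1 w hw (T.image b1f_swap) (by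
    intro z hz
    rw [Finset.mem_image] at hz
    obtain ⟨z', hz', rfl⟩ := hz
    exact ⟨b1f_swap_V (hT z' hz').1, (hT z' hz').2⟩)
  rw [Finset.sum_image (fun a _ b _ h => b1f_swap_inj h)] at h1
  refine le_trans (le_of_eq ?_) h1
  refine Finset.sum_congr rfl fun z _ => ?_
  have h2 : pr7 (b1f_swap z) = pr7 z := by
    simp only [pr7, b1f_swap]
    ring
  rw [h2]

end PA39
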