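import Pool.Agent.LibPA39.Defs2
import Pool.Agent.LibPA39.B1s
import Pool.Agent.LibPA39.N8a

/-!
[PA B1g] **Case B, keys with `m, g ≥ w^5`** (from B1s `hs`, N8a `dv`).
PROOF. `k ∣ (g e1)^2 - (m c1)^2` and `k ∣ (g e2)^2 - (m c2)^2` give `k ∣ (g m)^2 ((e1 c2)^2 - (e2 c1)^2)`, `g m` is coprime to `k`, so `k ∣ Δ := (e1 c2)^2 - (e2 c1)^2`, and `Δ ≠ 0`: `e1 c2 = e2 c1` with the coprimalities
(`c1,c2`), (`e1,e2`), (`c1,e1`), (`c2,e2`) would give `c1 = c2 = e1 = e2 = 1`. For fixed `(c1, c2, e1, e2)` the possible `k` are divisors of `|Δ| ≤ w^80`, `k ≥ w`; for fixed `(k, c1, c2, e1, e2, g)` the sum over `m ≥ w^5`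
with `k ∣ (c1 m)^2 - (g e1)^2` of `1/m` is `≤ ta k (1 + 20 log w)/k ≤ ta k (1 + 20 log w)/w` (`hs`). Total
`≤ (1 + 20 log w)^6 max(ta |Δ|) max(ta k)/w ≤ (1 + 20 log w)^6 w^(1/8 - 1) ≤ w^(-1/2)/3` (`dv 100`: `ta^16 ≤ w`).
-/

namespace PA39

open Finset Pasch

private lemma b1g_harm (N : ℕ) : ∑ n ∈ Icc 1 N, (1 : ℝ) / n ≤ 1 + Real.log N := by
  have h := harmonic_le_one_add_log N
  rw [harmonic_eq_sum_Icc] at h
  push_cast at h
  simpa [one_div] using h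

private lemma b1g_W {w : ℕ} {n : ℕ} (h : ta n ^ 16 ≤ w) : ta n ≤ (w : ℝ) ^ (1 / 16 : ℝ) := by
  have h0 : (0 : ℝ) ≤ ta n := by unfold ta; positivity
  have hw : (0 : ℝ) ≤ (w : ℝ) := Nat.cast_nonneg w
  have h1 : ((w : ℝ) ^ (1 / 16 : ℝ)) ^ 16 = w := by
    rw [← Real.rpow_natCast, ← Real.rpow_mul hw]
    norm_num
  rw [← pow_le_pow_iff_left₀ h0 (Real.rpow_nonneg hw _) (by norm_num : (16 : ℕ) ≠ 0), h1]
  exact h

private lemma b1g_asy : ∃ w1 : ℕ, ∀ w : ℕ, w1 ≤ w →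
    (1 + 20 * Real.log w) ^ 6 * ((w : ℝ) ^ (1 / 16 : ℝ) * (w : ℝ) ^ (1 / 16 : ℝ)) / w ≤
      1 / (3 * Real.sqrt w) := by
  have h1 : ∀ᶠ x : ℝ in Filter.atTop, Real.log x ≤ (1 / 40) * x ^ (1 / 32 : ℝ) := by
    have h := (isLittleO_log_rpow_atTop (show (0 : ℝ) < 1 / 32 by norm_num)).bound
      (show (0 : ℝ) < 1 / 40 by norm_num)
    filter_upwards [h, Filter.eventually_ge_atTop (1 : ℝ)] with x hx hx1
    rw [Real.norm_of_nonneg (Real.log_nonneg hx1),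
      Real.norm_of_nonneg (Real.rpow_nonneg (by linarith) _)] at hx
    exact hx
  have h2 : ∀ᶠ x : ℝ in Filter.atTop, 3 ≤ x ^ (1 / 32 : ℝ) :=
    (tendsto_rpow_atTop (show (0 : ℝ) < 1 / 32 by norm_num)).eventually_ge_atTop 3
  have h3 := (tendsto_natCast_atTop_atTop (R := ℝ)).eventually
    ((h1.and h2).and (Filter.eventually_ge_atTop (1 : ℝ)))
  obtain ⟨w1, hw1⟩ := Filter.eventually_atTop.1 h3
  refine ⟨w1, fun w hw => ?_⟩
  obtain ⟨⟨a1, a2⟩, a3⟩ := hw1 w hw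
  have hw0 : (0 : ℝ) < w := by linarith
  have hlog : 0 ≤ Real.log w := Real.log_nonneg a3
  set u : ℝ := (w : ℝ) ^ (1 / 32 : ℝ) with hu
  have hu0 : 0 < u := by linarith
  have b1 : 1 + 20 * Real.log w ≤ u := by linarith
  have b2 : (1 + 20 * Real.log w) ^ 6 ≤ u ^ 6 := pow_le_pow_left₀ (by positivity) b1 6
  have c1 : (w : ℝ) ^ (1 / 16 : ℝ) = u ^ 2 := by
    rw [hu, ← Real.rpow_natCast, ← Real.rpow_mul hw0.le]
    norm_num
  have c2 : Real.sqrt w = u ^ 16 := by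
    rw [Real.sqrt_eq_rpow, hu, ← Real.rpow_natCast, ← Real.rpow_mul hw0.le]
    norm_num
  have c3 : (w : ℝ) = u ^ 32 := by
    rw [hu, ← Real.rpow_natCast, ← Real.rpow_mul hw0.le]
    norm_num
  rw [c1, c2]
  rw [div_le_div_iff₀ hw0 (by positivity)]
  have e1 : (1 + 20 * Real.log w) ^ 6 * (u ^ 2 * u ^ 2) * (3 * u ^ 16) ≤
      u ^ 6 * (u ^ 2 * u ^ 2) * (u * u ^ 16) := by
    apply mul_le_mul _ _ (by positivity) (by positivity)
    · exact mul_le_mul_of_nonneg_right b2 (by positivity)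
    · exact mul_le_mul_of_nonneg_right a2 (by positivity)
  have e2 : u ^ 6 * (u ^ 2 * u ^ 2) * (u * u ^ 16) = u ^ 27 := by ring
  have e3 : u ^ 27 ≤ u ^ 32 := pow_le_pow_right₀ (by linarith) (by norm_num)
  rw [one_mul, c3]
  rw [c3] at e1
  linarith

private lemma b1g_dvd {w : ℕ} {z : K7} (h : V7 w z) :
    z.k ∣ (((z.e1 * z.c2 : ℕ) : ℤ) ^ 2 - ((z.e2 * z.c1 : ℕ) : ℤ) ^ 2).natAbs := by
  have hm : z.m.Coprime z.k := Nat.Coprime.coprime_dvd_left (dvd_mul_right _ _) h.kc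
  have hg : z.g.Coprime z.k := Nat.Coprime.coprime_dvd_left (dvd_mul_right _ _) h.ke
  have h1 : (z.k : ℤ) ∣ ((z.g * z.m : ℕ) : ℤ) ^ 2 *
      (((z.e1 * z.c2 : ℕ) : ℤ) ^ 2 - ((z.e2 * z.c1 : ℕ) : ℤ) ^ 2) := by
    have e : ((z.g * z.m : ℕ) : ℤ) ^ 2 *
        (((z.e1 * z.c2 : ℕ) : ℤ) ^ 2 - ((z.e2 * z.c1 : ℕ) : ℤ) ^ 2) =
        (((z.g : ℤ) * z.e1) ^ 2 - ((z.m : ℤ) * z.c1) ^ 2) * ((z.m : ℤ) * z.c2) ^ 2 -
        (((z.g : ℤ) * z.e2) ^ 2 - ((z.m : ℤ) * z.c2) ^ 2) * ((z.m : ℤ) * z.c1) ^ 2 := by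
      push_cast
      ring
    rw [e]
    exact dvd_sub (h.q1.mul_right _) (h.q2.mul_right _)
  have h2 : IsCoprime (z.k : ℤ) (((z.g * z.m : ℕ) : ℤ) ^ 2) := by
    apply IsCoprime.pow_right
    rw [Nat.isCoprime_iff_coprime]
    exact (Nat.Coprime.mul_left hg hm).symm
  have h3 := h2.dvd_of_dvd_mul_left h1
  exact Int.natCast_dvd.1 h3

private lemma b1g_ne {w : ℕ} {z : K7} (h : V7 w z) (hw : 1 ≤ w) :
    (((z.e1 * z.c2 : ℕ) : ℤ) ^ 2 - ((z.e2 * z.c1 : ℕ) : ℤ) ^ 2).natAbs ≠ 0 := by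
  intro h0
  rw [Int.natAbs_eq_zero, sub_eq_zero] at h0
  have h1 : z.e1 * z.c2 = z.e2 * z.c1 := by
    have : (z.e1 * z.c2) ^ 2 = (z.e2 * z.c1) ^ 2 := by exact_mod_cast h0
    exact (Nat.pow_left_injective (by norm_num : (2 : ℕ) ≠ 0)) this
  have ce : z.c1.Coprime z.e1 :=
    (h.ce.coprime_dvd_left (dvd_mul_left _ _)).coprime_dvd_right (dvd_mul_left _ _)
  have ce' : z.c2.Coprime z.e2 :=
    (h.ce'.coprime_dvd_left (dvd_mul_left _ _)).coprime_dvd_right (dvd_mul_left _ _)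
  have a1 : z.e1 = 1 := by
    have : z.e1 ∣ z.e2 * z.c1 := ⟨z.c2, h1.symm⟩
    have h2 : z.e1 ∣ z.c1 := h.ee.dvd_of_dvd_mul_left this
    exact Nat.Coprime.eq_one_of_dvd ce.symm h2
  have a2 : z.c2 = 1 := by
    have : z.c2 ∣ z.e2 * z.c1 := ⟨z.e1, by rw [← h1, mul_comm]⟩
    have h2 : z.c2 ∣ z.c1 := ce'.dvd_of_dvd_mul_left this
    exact Nat.Coprime.eq_one_of_dvd h.cc.symm h2
  rw [a1, a2, one_mul] at h1
  have a3 := Nat.eq_one_of_mul_eq_one_right h1.symm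
  have a4 := Nat.eq_one_of_mul_eq_one_left h1.symm
  exact h.ne ⟨by assumption, a2, a1, by assumption⟩

private lemma b1g_le {a b M : ℕ} (ha : a ≤ M) (hb : b ≤ M) :
    ((a : ℤ) ^ 2 - (b : ℤ) ^ 2).natAbs ≤ M ^ 2 := by
  have h1 : a ^ 2 ≤ M ^ 2 := Nat.pow_le_pow_left ha 2
  have h2 : b ^ 2 ≤ M ^ 2 := Nat.pow_le_pow_left hb 2
  zify at h1 h2
  have h3 : (0 : ℤ) ≤ (a : ℤ) ^ 2 := sq_nonneg _
  have h4 : (0 : ℤ) ≤ (b : ℤ) ^ 2 := sq_nonneg _
  zify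
  rw [abs_le]
  constructor <;> linarith

theorem b1g : ∃ w1 : ℕ, ∀ w : ℕ, w1 ≤ w → ∀ T : Finset K7, (∀ z ∈ T, V7 w z ∧ w ^ 5 ≤ z.m ∧ w ^ 5 ≤ z.g) →
    ∑ z ∈ T, (1 : ℝ) / (pr7 z : ℝ) ≤ 1 / (3 * Real.sqrt w) := by
  classical
  obtain ⟨wa, hwa⟩ := b1g_asy
  obtain ⟨wd, hwd⟩ := dv 80
  refine ⟨max (max wa wd) 2, fun w hw T hT => ?_⟩
  have hw1 : wa ≤ w := le_trans (le_trans (le_max_left _ _) (le_max_left _ _)) hw
  have hw2 : wd ≤ w := le_trans (le_trans (le_max_right _ _) (le_max_left _ _)) hw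
  have hw3 : 2 ≤ w := le_trans (le_max_right _ _) hw
  have hw0 : (0 : ℝ) < w := by exact_mod_cast (by omega : 0 < w)
  have hlog : 0 ≤ Real.log w := Real.log_natCast_nonneg w
  set W : ℝ := (w : ℝ) ^ (1 / 16 : ℝ) with hW
  have hW0 : 0 ≤ W := Real.rpow_nonneg hw0.le _
  set L : Finset ℕ := Icc 1 (w ^ 20) with hL
  set Lg : ℝ := 1 + 20 * Real.log w with hLg
  have hLg0 : 0 ≤ Lg := by positivity
  have harm : ∑ n ∈ L, (1 : ℝ) / n ≤ Lg := by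
    have h := b1g_harm (w ^ 20)
    rw [Nat.cast_pow, Real.log_pow] at h
    exact_mod_cast h
  -- positivity and ranges
  have rng : ∀ z ∈ T, (z.m ≤ w ^ 20 ∧ 1 ≤ z.m) ∧ z.c1 ∈ L ∧ z.c2 ∈ L ∧ z.e1 ∈ L ∧ z.e2 ∈ L ∧ z.g ∈ L := by
    intro z hz
    have h := (hT z hz).1
    have hp : 0 < w ^ 10 := by positivity
    have p1 : 0 < z.m * z.c1 := lt_of_lt_of_le hp h.a1.1
    have p2 : 0 < z.m * z.c2 := lt_of_lt_of_le hp h.a2.1
    have p3 : 0 < z.g * z.e1 := lt_of_lt_of_le hp h.a3.1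
    have p4 : 0 < z.g * z.e2 := lt_of_lt_of_le hp h.a4.1
    have m0 : 0 < z.m := Nat.pos_of_mul_pos_right p1
    have c10 : 0 < z.c1 := Nat.pos_of_mul_pos_left p1
    have c20 : 0 < z.c2 := Nat.pos_of_mul_pos_left p2
    have g0 : 0 < z.g := Nat.pos_of_mul_pos_right p3
    have e10 : 0 < z.e1 := Nat.pos_of_mul_pos_left p3
    have e20 : 0 < z.e2 := Nat.pos_of_mul_pos_left p4
    refine ⟨⟨le_trans (Nat.le_mul_of_pos_right _ c10) h.a1.2, m0⟩, ?_, ?_, ?_, ?_, ?_⟩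
    · exact mem_Icc.2 ⟨c10, le_trans (Nat.le_mul_of_pos_left _ m0) h.a1.2⟩
    · exact mem_Icc.2 ⟨c20, le_trans (Nat.le_mul_of_pos_left _ m0) h.a2.2⟩
    · exact mem_Icc.2 ⟨e10, le_trans (Nat.le_mul_of_pos_left _ g0) h.a3.2⟩
    · exact mem_Icc.2 ⟨e20, le_trans (Nat.le_mul_of_pos_left _ g0) h.a4.2⟩
    · exact mem_Icc.2 ⟨g0, le_trans (Nat.le_mul_of_pos_right _ e10) h.a3.2⟩
  set P : K7 → ℕ × ℕ × ℕ × ℕ × ℕ := fun z => (z.c1, z.c2, z.e1, z.e2, z.g) with hP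
  set L5 : Finset (ℕ × ℕ × ℕ × ℕ × ℕ) := L ×ˢ (L ×ˢ (L ×ˢ (L ×ˢ L))) with hL5
  have hmaps : ∀ z ∈ T, P z ∈ L5 := by
    intro z hz
    obtain ⟨_, h1, h2, h3, h4, h5⟩ := rng z hz
    simp only [hP, hL5, mem_product]
    exact ⟨h1, h2, h3, h4, h5⟩
  set B : ℝ := W * (W * Lg / w) with hB
  have hB0 : 0 ≤ B := by positivity
  -- the sum over `k` and `m`
  have fib : ∀ u ∈ L5, ∑ z ∈ T with P z = u, (1 : ℝ) / z.m ≤ B := by
    intro u hu
    by_cases hne : (T.filter (fun z => P z = u)).Nonempty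
    swap
    · rw [Finset.not_nonempty_iff_eq_empty] at hne
      rw [hne, sum_empty]
      exact hB0
    obtain ⟨z0, hz0⟩ := hne
    obtain ⟨hz0T, hz0u⟩ := mem_filter.1 hz0
    obtain ⟨c1, c2, e1, e2, g⟩ := u
    simp only [hP, Prod.mk.injEq] at hz0u
    obtain ⟨rfl, rfl, rfl, rfl, rfl⟩ := hz0u
    have V0 := (hT z0 hz0T).1
    set D : ℕ := (((z0.e1 * z0.c2 : ℕ) : ℤ) ^ 2 - ((z0.e2 * z0.c1 : ℕ) : ℤ) ^ 2).natAbs with hD
    have hD0 : D ≠ 0 := b1g_ne V0 (by omega)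
    have hDle : D ≤ w ^ 80 := by
      obtain ⟨_, h1, h2, h3, h4, h5⟩ := rng z0 hz0T
      have a1 : z0.e1 * z0.c2 ≤ w ^ 20 * w ^ 20 := Nat.mul_le_mul (mem_Icc.1 h3).2 (mem_Icc.1 h2).2
      have a2 : z0.e2 * z0.c1 ≤ w ^ 20 * w ^ 20 := Nat.mul_le_mul (mem_Icc.1 h4).2 (mem_Icc.1 h1).2
      have h := b1g_le a1 a2
      calc D ≤ (w ^ 20 * w ^ 20) ^ 2 := h
        _ = w ^ 80 := by ring
    have htaD : ta D ≤ W := b1g_W (hwd w hw2 D hD0 hDle)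
    have hmk : ∀ z ∈ T.filter (fun z => P z = (z0.c1, z0.c2, z0.e1, z0.e2, z0.g)), z.k ∈ D.divisors := by
      intro z hz
      obtain ⟨hzT, hzu⟩ := mem_filter.1 hz
      simp only [hP, Prod.mk.injEq] at hzu
      obtain ⟨q1, q2, q3, q4, q5⟩ := hzu
      have h := b1g_dvd (hT z hzT).1
      rw [q1, q2, q3, q4] at h
      exact Nat.mem_divisors.2 ⟨h, hD0⟩
    rw [← sum_fiberwise_of_maps_to hmk]
    have hk : ∀ k ∈ D.divisors, ∑ z ∈ (T.filter (fun z => P z = (z0.c1, z0.c2, z0.e1, z0.e2, z0.g))) with z.k = k,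
        (1 : ℝ) / z.m ≤ W * Lg / w := by
      intro k hkD
      by_cases hne2 : ((T.filter (fun z => P z = (z0.c1, z0.c2, z0.e1, z0.e2, z0.g))).filter
        (fun z => z.k = k)).Nonempty
      swap
      · rw [Finset.not_nonempty_iff_eq_empty] at hne2
        rw [hne2, sum_empty]
        positivity
      obtain ⟨z1, hz1⟩ := hne2
      obtain ⟨hz1', hz1k⟩ := mem_filter.1 hz1
      obtain ⟨hz1T, hz1u⟩ := mem_filter.1 hz1'
      simp only [hP, Prod.mk.injEq] at hz1u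
      obtain ⟨r1, r2, r3, r4, r5⟩ := hz1u
      have V1 := (hT z1 hz1T).1
      set F := (T.filter (fun z => P z = (z0.c1, z0.c2, z0.e1, z0.e2, z0.g))).filter (fun z => z.k = k)
        with hF
      have hinj : Set.InjOn (fun z : K7 => z.m) F := by
        intro x hx y hy hxy
        have hx' := (mem_filter.1 hx)
        have hy' := (mem_filter.1 hy)
        have hx2 := (mem_filter.1 hx'.1).2
        have hy2 := (mem_filter.1 hy'.1).2
        simp only [hP, Prod.mk.injEq] at hx2 hy2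
        obtain ⟨s1, s2, s3, s4, s5⟩ := hx2
        obtain ⟨t1, t2, t3, t4, t5⟩ := hy2
        have hkx : x.k = k := hx'.2
        have hky : y.k = k := hy'.2
        cases x
        cases y
        simp only at *
        subst s1 s2 s3 s4 s5 hkx
        simp only [K7.mk.injEq]
        exact ⟨hky.symm, hxy, t1.symm, t2.symm, t5.symm, t3.symm, t4.symm⟩
      have himg : ∑ z ∈ F, (1 : ℝ) / z.m = ∑ x ∈ F.image (fun z : K7 => z.m), (1 : ℝ) / x := by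
        rw [sum_image hinj]
      rw [himg]
      have kc : z0.c1.Coprime k := by
        have := V1.kc.coprime_dvd_left (dvd_mul_left z1.c1 z1.m)
        rwa [r1, hz1k] at this
      have ke : (z0.g * z0.e1).Coprime k := by
        have := V1.ke
        rwa [r5, r3, hz1k] at this
      have k0 : w ≤ k := by rw [← hz1k]; exact V1.k1
      have k2 : k ≤ w ^ 2 := by rw [← hz1k]; exact V1.k2
      have k4 : ¬ 4 ∣ k := by rw [← hz1k]; exact V1.k4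
      have H := hs w k z0.c1 (z0.g * z0.e1) hw3 (by omega) k2 k4 kc ke (F.image (fun z : K7 => z.m)) (by
        intro x hx
        obtain ⟨z, hz, rfl⟩ := mem_image.1 hx
        obtain ⟨hz', hzk⟩ := mem_filter.1 hz
        obtain ⟨hzT, hzu⟩ := mem_filter.1 hz'
        simp only [hP, Prod.mk.injEq] at hzu
        obtain ⟨q1, q2, q3, q4, q5⟩ := hzu
        refine ⟨(hT z hzT).2.1, (rng z hzT).1.1, ?_⟩
        have h := (hT z hzT).1.q1
        rw [q1, q5, q3, hzk] at h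
        rw [dvd_sub_comm]
        have e : ((z0.c1 : ℤ) * z.m) ^ 2 = ((z.m : ℤ) * z0.c1) ^ 2 := by ring
        rw [e]
        push_cast
        exact h)
      have htak : ta k ≤ W := by
        apply b1g_W
        apply hwd w hw2 k (by omega)
        exact le_trans k2 (Nat.pow_le_pow_right (by omega) (by norm_num))
      have hkr : (w : ℝ) ≤ k := by exact_mod_cast k0
      calc _ ≤ ta k * Lg / k := H
        _ ≤ W * Lg / w := by
          apply div_le_div₀ (by positivity) _ hw0 hkr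
          exact mul_le_mul_of_nonneg_right htak hLg0
    calc _ ≤ ∑ k ∈ D.divisors, W * Lg / w := sum_le_sum hk
      _ = ta D * (W * Lg / w) := by rw [sum_const, nsmul_eq_mul]; rfl
      _ ≤ B := mul_le_mul_of_nonneg_right htaD (by positivity)
  -- the total
  rw [← sum_fiberwise_of_maps_to hmaps]
  have step : ∀ u ∈ L5, ∑ z ∈ T with P z = u, (1 : ℝ) / (pr7 z : ℝ) ≤
      (1 / (u.1 : ℝ)) * ((1 / (u.2.1 : ℝ)) * ((1 / (u.2.2.1 : ℝ)) * ((1 / (u.2.2.2.1 : ℝ)) * (1 / (u.2.2.2.2 : ℝ))))) * B := by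
    intro u hu
    have e : ∑ z ∈ T with P z = u, (1 : ℝ) / (pr7 z : ℝ) =
        (1 / (u.1 : ℝ)) * ((1 / (u.2.1 : ℝ)) * ((1 / (u.2.2.1 : ℝ)) * ((1 / (u.2.2.2.1 : ℝ)) * (1 / (u.2.2.2.2 : ℝ))))) *
          ∑ z ∈ T with P z = u, (1 : ℝ) / z.m := by
      rw [mul_sum]
      refine sum_congr rfl fun z hz => ?_
      obtain ⟨hzT, hzu⟩ := mem_filter.1 hz
      rw [← hzu]
      simp only [hP, pr7]
      push_cast
      simp only [one_div, mul_inv]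
      ring
    rw [e]
    exact mul_le_mul_of_nonneg_left (fib u hu) (by positivity)
  calc _ ≤ ∑ u ∈ L5, (1 / (u.1 : ℝ)) * ((1 / (u.2.1 : ℝ)) * ((1 / (u.2.2.1 : ℝ)) * ((1 / (u.2.2.2.1 : ℝ)) * (1 / (u.2.2.2.2 : ℝ))))) * B :=
        sum_le_sum step
    _ = (∑ n ∈ L, (1 : ℝ) / n) ^ 5 * B := by
        rw [← sum_mul]
        congr 1
        rw [hL5, sum_product]
        simp_rw [← mul_sum]
        rw [← sum_mul, sum_product]
        simp_rw [← mul_sum]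
        rw [← sum_mul, sum_product]
        simp_rw [← mul_sum]
        rw [← sum_mul, sum_product]
        simp_rw [← mul_sum]
        rw [← sum_mul]
        ring
    _ ≤ Lg ^ 5 * B := by
        apply mul_le_mul_of_nonneg_right _ hB0
        exact pow_le_pow_left₀ (sum_nonneg fun _ _ => by positivity) harm 5
    _ = Lg ^ 6 * (W * W) / w := by rw [hB]; ring
    _ ≤ 1 / (3 * Real.sqrt w) := hwa w hw1

end PA39
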