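import Pool.Agent.LibPA39.Defs

/-!
[PA N9a] (ONLY MATHLIB) **Elementary rules** for `om`, `Rough`.
(`Nat.Coprime.primeFactors_mul`/`Nat.Coprime.disjoint_primeFactors`, `Finset.filter_union`, `Nat.primeFactors_mono`.)
-/

namespace PA39

open Finset Pasch

theorem om_mul {z m n : ℕ} (h : m.Coprime n) : om z (m * n) = om z m + om z n := by
  unfold om
  rw [h.primeFactors_mul, Finset.filter_union, Finset.card_union_of_disjoint]
  exact Finset.disjoint_filter_filter h.disjoint_primeFactors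

theorem om_mono {y z n : ℕ} (h : y ≤ z) : om y n ≤ om z n := by
  unfold om
  apply Finset.card_le_card
  intro p hp
  rw [Finset.mem_filter] at hp ⊢
  exact ⟨hp.1, hp.2.trans h⟩

theorem om_le_mul {z m n : ℕ} (hm : m ≠ 0) (hn : n ≠ 0) : om z m ≤ om z (m * n) := by
  unfold om
  apply Finset.card_le_card
  apply Finset.filter_subset_filter
  exact Nat.primeFactors_mono (dvd_mul_right m n) (mul_ne_zero hm hn)

theorem om_rough {z n : ℕ} (h : Rough z n) : om z n = 0 := by
  unfold om
  rw [Finset.card_eq_zero, Finset.filter_eq_empty_iff]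
  intro p hp
  have := h p (Nat.prime_of_mem_primeFactors hp) (Nat.dvd_of_mem_primeFactors hp)
  omega

theorem rough_mono {y z n : ℕ} (h : y ≤ z) (hr : Rough z n) : Rough y n :=
  fun p hp hd => lt_of_le_of_lt h (hr p hp hd)

theorem rough_dvd {z m n : ℕ} (h : m ∣ n) (hr : Rough z n) : Rough z m :=
  fun p hp hd => hr p hp (hd.trans h)

/-- a rough number `≠ 1` is large -/
theorem rough_lt {z n : ℕ} (hr : Rough z n) (h0 : n ≠ 0) (h1 : n ≠ 1) : z < n := by
  obtain ⟨p, hp, hd⟩ := Nat.exists_prime_and_dvd h1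
  exact lt_of_lt_of_le (hr p hp hd) (Nat.le_of_dvd (Nat.pos_of_ne_zero h0) hd)

/-- the weight of a configuration, with any level `y ≤ w^100` -/
theorem wt_le {N w y : ℕ} {q : Cf} (h : IsConf N w q) (hy : y ≤ w ^ 100) :
    wt w q ≤ (1 / 2) ^ (om y q.b + om y q.c + om y q.d + om y q.e) := by
  have hs := h.sqf
  have h1 := (Nat.squarefree_mul_iff.mp hs).2.1
  have h2 : Squarefree (q.b * q.c * q.d * q.e) := by
    refine h1.squarefree_of_dvd ⟨q.a, ?_⟩
    ring
  have e1 := Nat.squarefree_mul_iff.mp h2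
  have e2 := Nat.squarefree_mul_iff.mp e1.2.1
  have e3 := Nat.squarefree_mul_iff.mp e2.2.1
  unfold wt
  rw [om_mul e1.1, om_mul e2.1, om_mul e3.1]
  apply pow_le_pow_of_le_one (by norm_num) (by norm_num)
  have g1 := @om_mono y (w ^ 100) q.b hy
  have g2 := @om_mono y (w ^ 100) q.c hy
  have g3 := @om_mono y (w ^ 100) q.d hy
  have g4 := @om_mono y (w ^ 100) q.e hy
  omega

theorem wt_nonneg (w : ℕ) (q : Cf) : 0 ≤ wt w q := by
  unfold wt
  positivity

theorem wt_le_one (w : ℕ) (q : Cf) : wt w q ≤ 1 := by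
  unfold wt
  exact pow_le_one₀ (by norm_num) (by norm_num)

end PA39
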