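import Pool.Agent.LibPA39.B1a
import Pool.Agent.LibPA39.B1f
import Pool.Agent.LibPA39.B1g
import Pool.Agent.LibPA39.N9a

/-!
[PA B1z] **Case B is negligible** (from B1a, B1f, B1g). Weights `≤ 1` (`wt_le_one`, `wt_nonneg`); group `S` by `key7`, `b1a` on each fibre (`b1k` for `V7`), split the finset of keys into `m < w^5`; `m ≥ w^5, g < w^5`;
`m, g ≥ w^5`. Total `≤ 4 * 10^4 w^N / √w`, and `(log w)^2 ≤ √w * const`.
-/

namespace PA39

open Finset Pasch

theorem b1z (N : ℕ) (hN : 1000 ≤ N) : ∃ C : ℝ, ∃ w1 : ℕ, 0 < C ∧ ∀ w : ℕ, w1 ≤ w → ∀ S : Finset (Cf × Cf),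
    (∀ x ∈ S, PB N w x) → ∑ x ∈ S, wt w x.1 * wt w x.2 ≤ C * (w : ℝ) ^ N / (Real.log w) ^ 2 := by
  obtain ⟨wf, hf⟩ := b1f
  obtain ⟨wf', hf'⟩ := b1f'
  obtain ⟨wg, hg⟩ := b1g
  refine ⟨640000, max (max wf wf') (max wg 10), by norm_num, fun w hw S hS => ?_⟩
  have hwf : wf ≤ w := le_trans (le_trans (le_max_left _ _) (le_max_left _ _)) hw
  have hwf' : wf' ≤ w := le_trans (le_trans (le_max_right _ _) (le_max_left _ _)) hw
  have hwg : wg ≤ w := le_trans (le_trans (le_max_left _ _) (le_max_right _ _)) hw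
  have hw10 : 10 ≤ w := le_trans (le_trans (le_max_right _ _) (le_max_right _ _)) hw
  have hwR : (10 : ℝ) ≤ w := by exact_mod_cast hw10
  have hw0 : (0 : ℝ) < w := by linarith
  have hwN : (0 : ℝ) ≤ (w : ℝ) ^ N := by positivity
  have hsq : 0 < Real.sqrt w := Real.sqrt_pos.mpr hw0
  have hlog : 0 < Real.log w := Real.log_pos (by linarith)
  -- the sum is at most the number of pairs
  have h1 : ∑ x ∈ S, wt w x.1 * wt w x.2 ≤ (S.card : ℝ) := by
    calc ∑ x ∈ S, wt w x.1 * wt w x.2 ≤ ∑ x ∈ S, (1 : ℝ) := by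
          refine Finset.sum_le_sum fun x _ => ?_
          exact mul_le_one₀ (wt_le_one w x.1) (wt_nonneg w x.2) (wt_le_one w x.2)
      _ = (S.card : ℝ) := by simp
  -- group by the key
  have h2 : (S.card : ℝ) = ∑ z ∈ S.image key7, ((S.filter (fun x => key7 x = z)).card : ℝ) := by
    rw [Finset.card_eq_sum_card_image key7 S]
    push_cast
    rfl
  have hV : ∀ z ∈ S.image key7, V7 w z := by
    intro z hz
    obtain ⟨x, hx, rfl⟩ := Finset.mem_image.mp hz
    exact (b1k (by omega) (hS x hx)).1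
  have h3 : (S.card : ℝ) ≤ 4 * 10 ^ 4 * (w : ℝ) ^ N * ∑ z ∈ S.image key7, (1 : ℝ) / (pr7 z : ℝ) := by
    rw [h2, Finset.mul_sum]
    refine Finset.sum_le_sum fun z hz => ?_
    have h := b1a N hN w hw10 z (hV z hz) (S.filter (fun x => key7 x = z)) (by
      intro x hx
      rw [Finset.mem_filter] at hx
      exact ⟨hS x hx.1, hx.2⟩)
    rw [mul_one_div]
    exact h
  -- split the keys
  have h4 : ∑ z ∈ S.image key7, (1 : ℝ) / (pr7 z : ℝ) ≤ 1 / Real.sqrt w := by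
    rw [← Finset.sum_filter_add_sum_filter_not (S.image key7) (fun z => z.m < w ^ 5)]
    rw [← Finset.sum_filter_add_sum_filter_not ((S.image key7).filter (fun z => ¬ z.m < w ^ 5)) (fun z => z.g < w ^ 5)]
    have a1 := hf w hwf ((S.image key7).filter (fun z => z.m < w ^ 5)) (by
      intro z hz
      rw [Finset.mem_filter] at hz
      exact ⟨hV z hz.1, hz.2⟩)
    have a2 := hf' w hwf' (((S.image key7).filter (fun z => ¬ z.m < w ^ 5)).filter (fun z => z.g < w ^ 5)) (by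
      intro z hz
      rw [Finset.mem_filter, Finset.mem_filter] at hz
      exact ⟨hV z hz.1.1, hz.2⟩)
    have a3 := hg w hwg (((S.image key7).filter (fun z => ¬ z.m < w ^ 5)).filter (fun z => ¬ z.g < w ^ 5)) (by
      intro z hz
      rw [Finset.mem_filter, Finset.mem_filter] at hz
      exact ⟨hV z hz.1.1, not_lt.mp hz.1.2, not_lt.mp hz.2⟩)
    have e : 1 / Real.sqrt w = 1 / (3 * Real.sqrt w) + (1 / (3 * Real.sqrt w) + 1 / (3 * Real.sqrt w)) := by
      field_simp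
      norm_num
    rw [e]
    exact add_le_add a1 (add_le_add a2 a3)
  -- logarithm against the square root
  have h5 : (Real.log w) ^ 2 ≤ 16 * Real.sqrt w := by
    have hl := Real.log_le_rpow_div hw0.le (by norm_num : (0 : ℝ) < 1 / 4)
    have e1 : ((w : ℝ) ^ (1 / 4 : ℝ)) ^ 2 = Real.sqrt w := by
      rw [← Real.rpow_natCast, ← Real.rpow_mul hw0.le, Real.sqrt_eq_rpow]
      norm_num
    calc (Real.log w) ^ 2 ≤ ((w : ℝ) ^ (1 / 4 : ℝ) / (1 / 4)) ^ 2 := pow_le_pow_left₀ hlog.le hl 2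
      _ = 16 * ((w : ℝ) ^ (1 / 4 : ℝ)) ^ 2 := by ring
      _ = 16 * Real.sqrt w := by rw [e1]
  have h6 : 1 / Real.sqrt w ≤ 16 / (Real.log w) ^ 2 := by
    rw [div_le_div_iff₀ hsq (by positivity), one_mul]
    exact h5
  calc ∑ x ∈ S, wt w x.1 * wt w x.2 ≤ (S.card : ℝ) := h1
    _ ≤ 4 * 10 ^ 4 * (w : ℝ) ^ N * ∑ z ∈ S.image key7, (1 : ℝ) / (pr7 z : ℝ) := h3
    _ ≤ 4 * 10 ^ 4 * (w : ℝ) ^ N * (16 / (Real.log w) ^ 2) :=
        mul_le_mul_of_nonneg_left (h4.trans h6) (by positivity)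
    _ = 640000 * (w : ℝ) ^ N / (Real.log w) ^ 2 := by ring

end PA39
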