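import Pool.Agent.LibPA39.Defs

/-!
[PA N2] (ONLY MATHLIB) The sum `∑ (log p)^A / p^(3/2)` over any finite set of natural numbers is bounded.
PROOF. `(log n)^A ≤ C n^(1/4)` for `n ≥ 1` (`Real.log_le_rpow_div`, power `A`, with exponent `1/(4A)`; `A = 0` trivial), so
`ph A n / √n ≤ C n^(-5/4)`, summable (`Real.summable_nat_rpow_inv`/`Real.summable_one_div_nat_rpow`); `sum_le_tsum`. For `n = 0` the term is `_ / 0 = 0`.
-/

namespace PA39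

open Finset Pasch

private theorem n2_term (A n : ℕ) :
    ph A n / Real.sqrt n ≤ (4 * ((A : ℝ) + 1)) ^ A * (n : ℝ) ^ (-(5 / 4) : ℝ) := by
  have hA : (0 : ℝ) ≤ A := Nat.cast_nonneg A
  rcases Nat.eq_zero_or_pos n with rfl | hn
  · have h0 : ph A 0 = 0 := by unfold ph; simp
    rw [h0, zero_div]
    positivity
  have hn1 : (1 : ℝ) ≤ n := by exact_mod_cast hn
  have hn0 : (0 : ℝ) < n := by linarith
  set ε : ℝ := 1 / (4 * ((A : ℝ) + 1)) with hε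
  have hεpos : 0 < ε := by positivity
  have hlog : Real.log n ≤ (4 * ((A : ℝ) + 1)) * (n : ℝ) ^ ε := by
    have h := Real.log_le_rpow_div hn0.le hεpos
    have e : (n : ℝ) ^ ε / ε = (4 * ((A : ℝ) + 1)) * (n : ℝ) ^ ε := by
      rw [hε]; field_simp
    rwa [e] at h
  have hpow : Real.log n ^ A ≤ (4 * ((A : ℝ) + 1)) ^ A * (n : ℝ) ^ (1 / 4 : ℝ) := by
    calc Real.log n ^ A ≤ ((4 * ((A : ℝ) + 1)) * (n : ℝ) ^ ε) ^ A :=
          pow_le_pow_left₀ (Real.log_nonneg hn1) hlog A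
      _ = (4 * ((A : ℝ) + 1)) ^ A * ((n : ℝ) ^ ε) ^ A := mul_pow _ _ _
      _ ≤ (4 * ((A : ℝ) + 1)) ^ A * (n : ℝ) ^ (1 / 4 : ℝ) := by
          have h1 : ((n : ℝ) ^ ε) ^ A = (n : ℝ) ^ (ε * A) := by
            rw [Real.rpow_mul hn0.le, Real.rpow_natCast]
          have h2 : ε * A ≤ 1 / 4 := by
            rw [hε, div_mul_eq_mul_div, one_mul, div_le_div_iff₀ (by positivity) (by norm_num)]
            linarith
          have h3 : (n : ℝ) ^ (ε * A) ≤ (n : ℝ) ^ (1 / 4 : ℝ) :=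
            Real.rpow_le_rpow_of_exponent_le hn1 h2
          rw [h1]
          gcongr
  have hs : Real.sqrt n = (n : ℝ) ^ (1 / 2 : ℝ) := Real.sqrt_eq_rpow n
  have e1 : (n : ℝ) ^ (-(5 / 4) : ℝ) * ((n : ℝ) * (n : ℝ) ^ (1 / 2 : ℝ)) = (n : ℝ) ^ (1 / 4 : ℝ) := by
    nth_rewrite 2 [← Real.rpow_one (n : ℝ)]
    rw [← Real.rpow_add hn0, ← Real.rpow_add hn0]
    norm_num
  have e2 : ph A n / Real.sqrt n = Real.log n ^ A / ((n : ℝ) * (n : ℝ) ^ (1 / 2 : ℝ)) := by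
    unfold ph
    rw [div_div, hs]
  rw [e2, div_le_iff₀ (by positivity)]
  calc Real.log n ^ A ≤ (4 * ((A : ℝ) + 1)) ^ A * (n : ℝ) ^ (1 / 4 : ℝ) := hpow
    _ = (4 * ((A : ℝ) + 1)) ^ A * (n : ℝ) ^ (-(5 / 4) : ℝ) * ((n : ℝ) * (n : ℝ) ^ (1 / 2 : ℝ)) := by
        rw [mul_assoc, e1]

theorem ps (A : ℕ) : ∃ C : ℝ, 0 < C ∧ ∀ P : Finset ℕ, ∑ p ∈ P, ph A p / Real.sqrt p ≤ C := by
  have hsum : Summable (fun n : ℕ => (4 * ((A : ℝ) + 1)) ^ A * (n : ℝ) ^ (-(5 / 4) : ℝ)) := by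
    refine Summable.mul_left _ (Real.summable_nat_rpow.2 ?_)
    norm_num
  have hnn : ∀ n : ℕ, 0 ≤ (4 * ((A : ℝ) + 1)) ^ A * (n : ℝ) ^ (-(5 / 4) : ℝ) := by
    intro n
    positivity
  refine ⟨∑' n : ℕ, (4 * ((A : ℝ) + 1)) ^ A * (n : ℝ) ^ (-(5 / 4) : ℝ) + 1, ?_, fun P => ?_⟩
  · have h0 : 0 ≤ ∑' n : ℕ, (4 * ((A : ℝ) + 1)) ^ A * (n : ℝ) ^ (-(5 / 4) : ℝ) := tsum_nonneg hnn
    linarith
  · calc ∑ p ∈ P, ph A p / Real.sqrt p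
        ≤ ∑ p ∈ P, (4 * ((A : ℝ) + 1)) ^ A * (p : ℝ) ^ (-(5 / 4) : ℝ) :=
          sum_le_sum fun p _ => n2_term A p
      _ ≤ ∑' n : ℕ, (4 * ((A : ℝ) + 1)) ^ A * (n : ℝ) ^ (-(5 / 4) : ℝ) :=
          hsum.sum_le_tsum P fun n _ => hnn n
      _ ≤ _ := by linarith

end PA39
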