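import Pool.Agent.LibPA39.Defs

/-!
[PA N3a] (ONLY MATHLIB) **Divisor sums** `∑_{k ≤ K} τ(k)`, also over the multiples of a prime.
PROOF. (i) `∑_{k ≤ K} τ(k) = ∑_{u ≤ K} ⌊K/u⌋ ≤ K (1 + log K)` (swap; `harmonic_le_one_add_log` or direct).
(ii) `k = p k''`: `τ(p k'') ≤ 2 τ(k'')` (`divisors (p k'') ⊆ divisors k'' ∪ image (p * ·) (divisors k'')`), then
(i) for `K/p ≥ 1`; `1/p ≤ 1/√p`, `1 + log K ≤ 3 log K` for `K ≥ 2`.
-/

namespace PA39

open Finset Pasch

theorem tD (K : ℕ) (hK : 1 ≤ K) : ∑ k ∈ Icc 1 K, ta k ≤ K * (1 + Real.log K) := by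
  have hK0 : (0 : ℝ) ≤ K := Nat.cast_nonneg K
  have h1 : ∀ k ∈ Icc 1 K, ta k = ∑ u ∈ Icc 1 K, if u ∣ k then (1 : ℝ) else 0 := by
    intro k hk
    rw [Finset.mem_Icc] at hk
    unfold ta
    rw [Finset.sum_ite, Finset.sum_const_zero, add_zero, Finset.sum_const, nsmul_eq_mul, mul_one]
    congr 2
    ext u
    rw [Nat.mem_divisors, Finset.mem_filter, Finset.mem_Icc]
    constructor
    · rintro ⟨h, h0⟩
      exact ⟨⟨Nat.pos_of_dvd_of_pos h (by omega), (Nat.le_of_dvd (by omega) h).trans hk.2⟩, h⟩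
    · rintro ⟨-, h⟩
      exact ⟨h, by omega⟩
  rw [Finset.sum_congr rfl h1, Finset.sum_comm]
  have h2 : ∀ u ∈ Icc 1 K, ∑ k ∈ Icc 1 K, (if u ∣ k then (1 : ℝ) else 0) ≤ K * (u : ℝ)⁻¹ := by
    intro u hu
    rw [Finset.mem_Icc] at hu
    have e : Icc 1 K = Finset.Ioc 0 K := rfl
    rw [Finset.sum_ite, Finset.sum_const_zero, add_zero, Finset.sum_const, nsmul_eq_mul, mul_one,
      e, Nat.Ioc_filter_dvd_card_eq_div, ← div_eq_mul_inv]
    exact Nat.cast_div_le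
  refine (Finset.sum_le_sum h2).trans ?_
  rw [← Finset.mul_sum]
  refine mul_le_mul_of_nonneg_left ?_ hK0
  have h3 := harmonic_le_one_add_log K
  rw [harmonic_eq_sum_Icc] at h3
  push_cast at h3
  exact h3

theorem tP : ∃ C : ℝ, 0 < C ∧ ∀ K p : ℕ, 2 ≤ K → p.Prime → p ≤ K →
    ∑ k ∈ (Icc 1 K).filter (fun k => p ∣ k), ta k ≤ C * K * Real.log K / Real.sqrt p := by
  refine ⟨6, by norm_num, fun K p hK hp hpK => ?_⟩
  have hp0 : (0 : ℝ) < p := by exact_mod_cast hp.pos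
  have hp1 : (1 : ℝ) ≤ p := by exact_mod_cast hp.one_lt.le
  have hK0 : (0 : ℝ) < K := by
    have : 0 < K := by omega
    exact_mod_cast this
  have hlogK : Real.log 2 ≤ Real.log K :=
    Real.log_le_log (by norm_num) (by exact_mod_cast hK)
  have hl2 := Real.log_two_gt_d9
  have e : (Icc 1 K).filter (fun k => p ∣ k) = (Icc 1 (K / p)).image (fun k => p * k) := by
    ext k
    simp only [Finset.mem_filter, Finset.mem_Icc, Finset.mem_image]
    constructor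
    · rintro ⟨⟨h1, h2⟩, ⟨m, rfl⟩⟩
      refine ⟨m, ⟨Nat.pos_of_ne_zero ?_, ?_⟩, rfl⟩
      · rintro rfl
        simp at h1
      · rw [Nat.le_div_iff_mul_le hp.pos, mul_comm]
        exact h2
    · rintro ⟨m, ⟨h1, h2⟩, rfl⟩
      refine ⟨⟨Nat.mul_pos hp.pos h1, ?_⟩, dvd_mul_right _ _⟩
      rw [Nat.le_div_iff_mul_le hp.pos, mul_comm] at h2
      exact h2
  rw [e, Finset.sum_image (fun a _ b _ h => Nat.eq_of_mul_eq_mul_left hp.pos h)]
  have h1 : ∀ m ∈ Icc 1 (K / p), ta (p * m) ≤ 2 * ta m := by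
    intro m _
    unfold ta
    have h2 : (p * m).divisors.card ≤ 2 * m.divisors.card := by
      rw [Nat.divisors_mul]
      refine Finset.card_mul_le.trans ?_
      rw [hp.divisors, Finset.card_pair hp.one_lt.ne]
    exact_mod_cast h2
  refine (Finset.sum_le_sum h1).trans ?_
  rw [← Finset.mul_sum]
  have hq1 : 1 ≤ K / p := (Nat.le_div_iff_mul_le hp.pos).2 (by omega)
  have h3 := tD (K / p) hq1
  have h4 : ((K / p : ℕ) : ℝ) ≤ K / p := Nat.cast_div_le
  have h5 : (0 : ℝ) < ((K / p : ℕ) : ℝ) := by exact_mod_cast hq1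
  have h6 : Real.log ((K / p : ℕ) : ℝ) ≤ Real.log K := by
    refine Real.log_le_log h5 (h4.trans ?_)
    rw [div_le_iff₀ hp0]
    nlinarith
  have h7 : 1 + Real.log ((K / p : ℕ) : ℝ) ≤ 3 * Real.log K := by linarith
  have h8 : (K : ℝ) / p ≤ K / Real.sqrt p := by
    have h9 : Real.sqrt p ≤ p := by
      rw [Real.sqrt_le_left hp0.le]
      nlinarith
    exact div_le_div_of_nonneg_left hK0.le (Real.sqrt_pos.2 hp0) h9
  have h10 : (0 : ℝ) ≤ 3 * Real.log K := by linarith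
  calc 2 * ∑ m ∈ Icc 1 (K / p), ta m
      ≤ 2 * (((K / p : ℕ) : ℝ) * (1 + Real.log ((K / p : ℕ) : ℝ))) := by linarith
    _ ≤ 2 * ((K / p : ℝ) * (3 * Real.log K)) := by
        have h11 : ((K / p : ℕ) : ℝ) * (1 + Real.log ((K / p : ℕ) : ℝ)) ≤
            (K / p : ℝ) * (3 * Real.log K) :=
          (mul_le_mul_of_nonneg_left h7 h5.le).trans (mul_le_mul_of_nonneg_right h4 h10)
        linarith
    _ ≤ 2 * ((K / Real.sqrt p : ℝ) * (3 * Real.log K)) := by
        have h11 := mul_le_mul_of_nonneg_right h8 h10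
        linarith
    _ = 6 * K * Real.log K / Real.sqrt p := by ring

end PA39
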