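import Pool.Agent.LibPA39.Defs

/-!
[PA N3b] (ONLY MATHLIB) **Divisor sum in a class mod `p`** with the saving `1/√p`.
PROOF. `p ∤ κ`, so `p ∤ k`. `τ(k) ≤ 2 #{u ∣ k, u^2 ≤ k}` (pair `u ↔ k/u`). For `u ≤ √K` (`p ∤ u`, else no `k`), the `k ≤ K` with `u ∣ k`,
`k ≡ κ [MOD p]` lie in one class mod `u p`: at most `K/(u p) + 1`. Sum over `u ≤ √K`: `(K/p) (1 + log K) + √K`, and
`√K ≤ K/√p` because `p ≤ K`; `1 + log K ≤ 3 log K`, `K ≤ 2 K log K`.
-/

namespace PA39

open Finset Pasch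

private theorem n3b_ta (K k : ℕ) (hk1 : 1 ≤ k) (hk : k ≤ K) :
    k.divisors.card ≤ 2 * ((Icc 1 (Nat.sqrt K)).filter (fun u => u ∣ k)).card := by
  have h0 : k ≠ 0 := by omega
  have hsplit : (k.divisors.filter (fun u => u * u ≤ k)).card + (k.divisors.filter (fun u => ¬ u * u ≤ k)).card
      = k.divisors.card := card_filter_add_card_filter_not (s := k.divisors) (fun u => u * u ≤ k)
  have hinj : (k.divisors.filter (fun u => ¬ u * u ≤ k)).card ≤ (k.divisors.filter (fun u => u * u ≤ k)).card := by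
    apply Finset.card_le_card_of_injOn (fun u => k / u)
    · intro u hu
      rw [Finset.mem_coe, mem_filter, Nat.mem_divisors] at hu
      obtain ⟨⟨hud, -⟩, hu2⟩ := hu
      obtain ⟨v, hv⟩ := hud
      have hupos : 0 < u := Nat.pos_of_ne_zero (by rintro rfl; simp at hv; omega)
      have hkv : k / u = v := by rw [hv]; exact Nat.mul_div_cancel_left v hupos
      rw [Finset.mem_coe, mem_filter, Nat.mem_divisors]
      show (k / u ∣ k ∧ k ≠ 0) ∧ k / u * (k / u) ≤ k
      rw [hkv]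
      refine ⟨⟨⟨u, by rw [hv]; ring⟩, h0⟩, ?_⟩
      have h1 : v < u := by
        by_contra hcon
        rw [not_lt] at hcon
        apply hu2
        rw [hv]
        exact Nat.mul_le_mul_left u hcon
      rw [hv]
      exact Nat.mul_le_mul_right v h1.le
    · intro u hu v hv huv
      rw [Finset.mem_coe, mem_filter, Nat.mem_divisors] at hu hv
      have huv' : k / u = k / v := huv
      calc u = k / (k / u) := (Nat.div_div_self hu.1.1 h0).symm
        _ = k / (k / v) := by rw [huv']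
        _ = v := Nat.div_div_self hv.1.1 h0
  have hsub : k.divisors.filter (fun u => u * u ≤ k) ⊆ (Icc 1 (Nat.sqrt K)).filter (fun u => u ∣ k) := by
    intro u hu
    rw [mem_filter, Nat.mem_divisors] at hu
    rw [mem_filter, mem_Icc]
    refine ⟨⟨Nat.pos_of_dvd_of_pos hu.1.1 hk1, ?_⟩, hu.1.1⟩
    exact Nat.le_sqrt.2 (hu.2.trans hk)
  have := Finset.card_le_card hsub
  omega

private theorem n3b_cls (K p κ u : ℕ) (hp : p.Prime) (hκ : ¬ p ∣ κ) :
    (((Icc 1 K).filter (fun k => k ≡ κ [MOD p])).filter (fun k => u ∣ k)).card ≤ K / (u * p) + 1 := by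
  by_cases hpu : p ∣ u
  · have : ((Icc 1 K).filter (fun k => k ≡ κ [MOD p])).filter (fun k => u ∣ k) = ∅ := by
      apply Finset.filter_eq_empty_iff.2
      intro k hk huk
      rw [mem_filter] at hk
      exact hκ ((hk.2.dvd_iff dvd_rfl).1 (hpu.trans huk))
    rw [this]
    simp
  · have hcop : Nat.Coprime u p := ((Nat.Prime.coprime_iff_not_dvd hp).2 hpu).symm
    have hrange : (((Icc 1 K).filter (fun k => k ≡ κ [MOD p])).filter (fun k => u ∣ k)).card ≤
        (range (K / (u * p) + 1)).card := by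
      apply Finset.card_le_card_of_injOn (fun k => k / (u * p))
      · intro k hk
        rw [Finset.mem_coe, mem_filter, mem_filter, mem_Icc] at hk
        rw [Finset.mem_coe, mem_range]
        exact Nat.lt_succ_of_le (Nat.div_le_div_right hk.1.1.2)
      · intro k hk l hl hkl
        rw [Finset.mem_coe, mem_filter, mem_filter, mem_Icc] at hk hl
        have h1 : k ≡ l [MOD p] := hk.1.2.trans hl.1.2.symm
        have h2 : k ≡ l [MOD u] := by
          have e1 : k ≡ 0 [MOD u] := (Nat.modEq_zero_iff_dvd).2 hk.2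
          have e2 : l ≡ 0 [MOD u] := (Nat.modEq_zero_iff_dvd).2 hl.2
          exact e1.trans e2.symm
        have h3 : k ≡ l [MOD (u * p)] := (Nat.modEq_and_modEq_iff_modEq_mul hcop).1 ⟨h2, h1⟩
        have h4 : k / (u * p) = l / (u * p) := hkl
        have h5 : k % (u * p) = l % (u * p) := h3
        calc k = u * p * (k / (u * p)) + k % (u * p) := (Nat.div_add_mod _ _).symm
          _ = u * p * (l / (u * p)) + l % (u * p) := by rw [h4, h5]
          _ = l := Nat.div_add_mod _ _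
    rw [card_range] at hrange
    exact hrange

theorem tA : ∃ C : ℝ, 0 < C ∧ ∀ K p κ : ℕ, 2 ≤ K → p.Prime → p ≤ K → ¬ p ∣ κ →
    ∑ k ∈ (Icc 1 K).filter (fun k => k ≡ κ [MOD p]), ta k ≤ C * K * Real.log K / Real.sqrt p := by
  refine ⟨10, by norm_num, ?_⟩
  intro K p κ hK hp hpK hκ
  set F := (Icc 1 K).filter (fun k => k ≡ κ [MOD p]) with hF
  set s := Nat.sqrt K with hs
  have hKpos : (0 : ℝ) < K := by exact_mod_cast (by omega : 0 < K)
  have hppos : (0 : ℝ) < p := by exact_mod_cast hp.pos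
  have hlog2 : (0.6931471803 : ℝ) < Real.log 2 := Real.log_two_gt_d9
  have hlogK : Real.log 2 ≤ Real.log K := Real.log_le_log (by norm_num) (by exact_mod_cast hK)
  have hs1 : 1 ≤ s := by
    rw [hs]
    exact Nat.le_sqrt.2 (by omega)
  have hsK : s ≤ K := Nat.sqrt_le_self K
  -- step 1, 2
  have h1 : ∑ k ∈ F, ta k ≤ ∑ k ∈ F, 2 * ((((Icc 1 s).filter (fun u => u ∣ k)).card : ℕ) : ℝ) := by
    refine Finset.sum_le_sum fun k hk => ?_
    rw [hF, mem_filter, mem_Icc] at hk
    unfold ta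
    exact_mod_cast n3b_ta K k hk.1.1 hk.1.2
  have h2 : ∑ k ∈ F, (((Icc 1 s).filter (fun u => u ∣ k)).card) = ∑ u ∈ Icc 1 s, (F.filter (fun k => u ∣ k)).card := by
    simp_rw [Finset.card_filter]
    exact Finset.sum_comm
  have h3 : ∑ k ∈ F, 2 * ((((Icc 1 s).filter (fun u => u ∣ k)).card : ℕ) : ℝ)
      = 2 * ((∑ u ∈ Icc 1 s, (F.filter (fun k => u ∣ k)).card : ℕ) : ℝ) := by
    rw [← Finset.mul_sum, ← h2]
    push_cast
    rfl
  have h4 : ((∑ u ∈ Icc 1 s, (F.filter (fun k => u ∣ k)).card : ℕ) : ℝ) ≤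
      ∑ u ∈ Icc 1 s, ((K : ℝ) / p * (u : ℝ)⁻¹ + 1) := by
    push_cast
    refine Finset.sum_le_sum fun u hu => ?_
    rw [mem_Icc] at hu
    have h := n3b_cls K p κ u hp hκ
    have h' : (((F.filter (fun k => u ∣ k)).card : ℕ) : ℝ) ≤ ((K / (u * p) + 1 : ℕ) : ℝ) := by exact_mod_cast h
    refine h'.trans ?_
    push_cast
    have hu0 : (0 : ℝ) < u := by exact_mod_cast hu.1
    have h5 : ((K / (u * p) : ℕ) : ℝ) ≤ (K : ℝ) / ((u * p : ℕ) : ℝ) := Nat.cast_div_le
    have h6 : (K : ℝ) / ((u * p : ℕ) : ℝ) = (K : ℝ) / p * (u : ℝ)⁻¹ := by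
      push_cast
      field_simp
    linarith
  have h7 : ∑ u ∈ Icc 1 s, ((K : ℝ) / p * (u : ℝ)⁻¹ + 1) = (K : ℝ) / p * (harmonic s : ℝ) + s := by
    rw [Finset.sum_add_distrib, ← Finset.mul_sum, harmonic_eq_sum_Icc]
    push_cast
    simp
  have h8 : (harmonic s : ℝ) ≤ 1 + Real.log s := harmonic_le_one_add_log s
  have h9 : Real.log s ≤ Real.log K := Real.log_le_log (by exact_mod_cast hs1) (by exact_mod_cast hsK)
  have hsp : 0 < Real.sqrt p := Real.sqrt_pos.2 hppos
  have hspp : Real.sqrt p * Real.sqrt p = p := Real.mul_self_sqrt hppos.le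
  have hp1 : (1 : ℝ) ≤ p := by exact_mod_cast hp.one_lt.le
  have hsp1 : 1 ≤ Real.sqrt p := Real.one_le_sqrt.2 hp1
  have h10 : (s : ℝ) ≤ K / Real.sqrt p := by
    rw [le_div_iff₀ hsp]
    have e1 : (s : ℝ) ≤ Real.sqrt K := by
      apply Real.le_sqrt_of_sq_le
      have : s * s ≤ K := Nat.sqrt_le K
      have : ((s * s : ℕ) : ℝ) ≤ K := by exact_mod_cast this
      rw [sq]
      exact_mod_cast this
    have e2 : Real.sqrt p ≤ Real.sqrt K := Real.sqrt_le_sqrt (by exact_mod_cast hpK)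
    calc (s : ℝ) * Real.sqrt p ≤ Real.sqrt K * Real.sqrt K := mul_le_mul e1 e2 hsp.le (Real.sqrt_nonneg _)
      _ = K := Real.mul_self_sqrt hKpos.le
  have h11 : (K : ℝ) / p ≤ K / Real.sqrt p := by
    apply div_le_div_of_nonneg_left hKpos.le hsp
    nlinarith
  have hQ : 0 ≤ (K : ℝ) / Real.sqrt p := by positivity
  have h12 : (K : ℝ) / p * (harmonic s : ℝ) ≤ K / Real.sqrt p * (1 + Real.log K) := by
    have e0 : (0 : ℝ) ≤ 1 + Real.log K := by linarith
    calc (K : ℝ) / p * (harmonic s : ℝ) ≤ (K : ℝ) / p * (1 + Real.log K) :=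
          mul_le_mul_of_nonneg_left (by linarith) (by positivity)
      _ ≤ K / Real.sqrt p * (1 + Real.log K) := mul_le_mul_of_nonneg_right h11 e0
  have h13 : K / Real.sqrt p * (1 + Real.log K) + K / Real.sqrt p ≤ 5 * (K / Real.sqrt p * Real.log K) := by
    nlinarith
  have h14 : (10 : ℝ) * K * Real.log K / Real.sqrt p = 2 * (5 * (K / Real.sqrt p * Real.log K)) := by ring
  rw [h14]
  calc ∑ k ∈ F, ta k ≤ 2 * ((∑ u ∈ Icc 1 s, (F.filter (fun k => u ∣ k)).card : ℕ) : ℝ) := h1.trans h3.le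
    _ ≤ 2 * ((K : ℝ) / p * (harmonic s : ℝ) + s) := by
        rw [← h7]
        exact mul_le_mul_of_nonneg_left h4 (by norm_num)
    _ ≤ 2 * (5 * (K / Real.sqrt p * Real.log K)) := by
        apply mul_le_mul_of_nonneg_left _ (by norm_num)
        linarith

end PA39
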