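import Pool.Agent.LibPA39.Defs

/-!
[PA N9b] (ONLY MATHLIB) **Elementary rules** for `sg`, `sgx`.
Everything follows from `Nat.primeFactors_mul`, `Finset.prod_union_inter`/`prod_subset_one_on_sdiff`, and
a product of factors `≥ 1` grows with the index set (all factors `(1+1/p)^A ≥ 1`).
-/

namespace PA39

open Finset Pasch

private theorem n9b_one_le (A p : ℕ) : (1 : ℝ) ≤ (1 + 1 / (p : ℝ)) ^ A := by
  refine one_le_pow₀ ?_
  have : (0 : ℝ) ≤ 1 / (p : ℝ) := by positivity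
  linarith

private theorem n9b_pos (A p : ℕ) : (0 : ℝ) < (1 + 1 / (p : ℝ)) ^ A :=
  lt_of_lt_of_le one_pos (n9b_one_le A p)

private theorem n9b_prod_one_le (A : ℕ) (s : Finset ℕ) : (1 : ℝ) ≤ ∏ p ∈ s, (1 + 1 / (p : ℝ)) ^ A := by
  calc (1 : ℝ) = ∏ p ∈ s, (1 : ℝ) := by simp
    _ ≤ _ := Finset.prod_le_prod (fun _ _ => zero_le_one) (fun p _ => n9b_one_le A p)

private theorem n9b_mono_set (A : ℕ) {s t : Finset ℕ} (h : s ⊆ t) :
    ∏ p ∈ s, (1 + 1 / (p : ℝ)) ^ A ≤ ∏ p ∈ t, (1 + 1 / (p : ℝ)) ^ A := by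
  rw [← Finset.prod_sdiff h]
  have h0 : (0 : ℝ) ≤ ∏ p ∈ s, (1 + 1 / (p : ℝ)) ^ A :=
    Finset.prod_nonneg fun p _ => (n9b_pos A p).le
  nlinarith [n9b_prod_one_le A (t \ s)]

private theorem n9b_union (A : ℕ) (s t : Finset ℕ) :
    ∏ p ∈ s ∪ t, (1 + 1 / (p : ℝ)) ^ A ≤
      (∏ p ∈ s, (1 + 1 / (p : ℝ)) ^ A) * ∏ p ∈ t, (1 + 1 / (p : ℝ)) ^ A := by
  rw [← Finset.prod_union_inter]
  have h0 : (0 : ℝ) ≤ ∏ p ∈ s ∪ t, (1 + 1 / (p : ℝ)) ^ A :=
    Finset.prod_nonneg fun p _ => (n9b_pos A p).le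
  nlinarith [n9b_prod_one_le A (s ∩ t)]

theorem sg_mul_le (A : ℕ) {m n : ℕ} (hm : m ≠ 0) (hn : n ≠ 0) : sg A (m * n) ≤ sg A m * sg A n := by
  unfold sg
  rw [Nat.primeFactors_mul hm hn]
  exact n9b_union A _ _

theorem sg_mul_le_sgx (A : ℕ) {K n : ℕ} (hK : K ≠ 0) (hn : n ≠ 0) : sg A (K * n) ≤ sg A K * sgx A n K := by
  unfold sg sgx
  refine le_trans (n9b_mono_set A (t := K.primeFactors ∪ n.primeFactors.filter (fun p => ¬ p ∣ K)) ?_)
    (n9b_union A _ _)
  intro p hp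
  rw [Nat.primeFactors_mul hK hn, Finset.mem_union] at hp
  rw [Finset.mem_union, Finset.mem_filter]
  by_cases hd : p ∣ K
  · left
    rcases hp with h | h
    · exact h
    · exact Nat.mem_primeFactors.mpr ⟨Nat.prime_of_mem_primeFactors h, hd, hK⟩
  · right
    rcases hp with h | h
    · exact absurd (Nat.dvd_of_mem_primeFactors h) hd
    · exact ⟨h, hd⟩

theorem sg_le_sgx (A : ℕ) {K n : ℕ} (hK : K ≠ 0) : sg A n ≤ sg A K * sgx A n K := by
  by_cases hn : n = 0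
  · subst hn
    have h0 : sg A 0 = 1 := by simp [sg]
    rw [h0]
    have h1 := one_le_sg A K
    have h2 := one_le_sgx A 0 K
    nlinarith
  · refine le_trans ?_ (sg_mul_le_sgx A hK hn)
    unfold sg
    exact n9b_mono_set A (Nat.primeFactors_mono (dvd_mul_left n K) (mul_ne_zero hK hn))

theorem sgx_le_sgx (A : ℕ) {K K' n : ℕ} (h : K ∣ K') : sgx A n K' ≤ sgx A n K := by
  unfold sgx
  apply n9b_mono_set
  intro p hp
  rw [Finset.mem_filter] at hp ⊢
  exact ⟨hp.1, fun hd => hp.2 (hd.trans h)⟩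

theorem sg_add (A B n : ℕ) : sg A n * sg B n = sg (A + B) n := by
  unfold sg
  rw [← Finset.prod_mul_distrib]
  exact Finset.prod_congr rfl fun p _ => (pow_add _ _ _).symm

theorem sg_mono {A B : ℕ} (h : A ≤ B) (n : ℕ) : sg A n ≤ sg B n := by
  unfold sg
  refine Finset.prod_le_prod (fun p _ => (n9b_pos A p).le) fun p _ => ?_
  refine pow_le_pow_right₀ ?_ h
  have : (0 : ℝ) ≤ 1 / (p : ℝ) := by positivity
  linarith

theorem sgx_mono {A B : ℕ} (h : A ≤ B) (n K : ℕ) : sgx A n K ≤ sgx B n K := by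
  unfold sgx
  refine Finset.prod_le_prod (fun p _ => (n9b_pos A p).le) fun p _ => ?_
  refine pow_le_pow_right₀ ?_ h
  have : (0 : ℝ) ≤ 1 / (p : ℝ) := by positivity
  linarith

theorem sgx_le_sg (A n K : ℕ) : sgx A n K ≤ sg A n := by
  unfold sgx sg
  exact n9b_mono_set A (Finset.filter_subset _ _)

theorem sg_one (A : ℕ) : sg A 1 = 1 := by
  simp [sg]

theorem sgx_one_right (A n : ℕ) : sgx A n 1 = sg A n := by
  unfold sgx sg
  rw [Finset.filter_true_of_mem]
  intro p hp h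
  have := (Nat.prime_of_mem_primeFactors hp).one_lt
  rw [Nat.dvd_one] at h
  omega

theorem sgx_sq (A n K : ℕ) : sgx A n K ^ 2 = sgx (2 * A) n K := by
  unfold sgx
  rw [← Finset.prod_pow]
  refine Finset.prod_congr rfl fun p _ => ?_
  rw [← pow_mul, mul_comm]

private theorem n9b_le_two {p : ℕ} (hp : p.Prime) : 1 + 1 / (p : ℝ) ≤ 2 := by
  have h1 : (1 : ℝ) ≤ p := by exact_mod_cast hp.one_lt.le
  have h2 : 1 / (p : ℝ) ≤ 1 := by
    rw [div_le_one (by linarith)]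
    exact h1
  linarith

/-- a prime has a bounded singular factor -/
theorem sg_prime (A : ℕ) {p : ℕ} (hp : p.Prime) : sg A p ≤ 2 ^ A := by
  unfold sg
  rw [hp.primeFactors, Finset.prod_singleton]
  have : (0 : ℝ) ≤ 1 / (p : ℝ) := by positivity
  exact pow_le_pow_left₀ (by linarith) (n9b_le_two hp) A

/-- the singular factor is at most a power of the number of divisors -/
theorem sg_le_ta (A : ℕ) {n : ℕ} (hn : n ≠ 0) : sg A n ≤ ta n ^ A := by
  unfold sg ta
  rw [Finset.prod_pow]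
  have h0 : (0 : ℝ) ≤ ∏ p ∈ n.primeFactors, (1 + 1 / (p : ℝ)) :=
    Finset.prod_nonneg fun p _ => by positivity
  refine pow_le_pow_left₀ h0 ?_ A
  calc ∏ p ∈ n.primeFactors, (1 + 1 / (p : ℝ)) ≤ ∏ p ∈ n.primeFactors, ((n.factorization p + 1 : ℕ) : ℝ) := by
        refine Finset.prod_le_prod (fun p _ => by positivity) fun p hp => ?_
        have hpp := Nat.prime_of_mem_primeFactors hp
        refine (n9b_le_two hpp).trans ?_
        have h1 : 1 ≤ n.factorization p :=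
          (hpp.dvd_iff_one_le_factorization hn).mp (Nat.dvd_of_mem_primeFactors hp)
        have : (1 : ℝ) ≤ n.factorization p := by exact_mod_cast h1
        push_cast
        linarith
    _ = (n.divisors.card : ℝ) := by
        rw [Nat.card_divisors hn]
        push_cast
        rfl

theorem one_le_ta {n : ℕ} (hn : n ≠ 0) : 1 ≤ ta n := by
  unfold ta
  have : 0 < n.divisors.card := Finset.card_pos.mpr ⟨1, Nat.one_mem_divisors.mpr hn⟩
  exact_mod_cast this

end PA39
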