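import Pool.Agent.LibPA39.N1
import Pool.Agent.LibPA39.N2
import Pool.Agent.LibPA39.N9b
import Pool.Agent.LibPA39.N3a
import Pool.Agent.LibPA39.N3b

/-!
[PA N4] **The sum over `k'` in a dyadic range**, with singular factors (from N1 `opt`, N2 `ps`, N3a, N3b).
PROOF. `sg A k = sgx A k 1` (no prime divides 1), `x y ≤ (x^2 + y^2)/2` and `(sgx A ..)^2 = sgx (2 A) ..`: so it is enough to bound
`∑ ta k / k * sgx (2A) k 1` and `∑ ta k / k * sgx (2A) (J k) K1`. For each of them `opt (2A) B` (`k ≤ K ≤ y^B`, `J k ≤ y^B`, both `≠ 0`), swap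
the sums; every prime in `PQ (2A) y ..` is `≤ Λ := (log y)^(2A+2) ≤ y ≤ K` for `y ≥ y1(A)`. The sum without prime:
`∑ ta k / k ≤ (10^16 / K) ∑_{k ≤ K} ta k ≤ 2 * 10^16 * (1 + log K)`, `log K ≤ B log y = B lam y ^ 4` (`lam_pow_four`; `1 ≤ log y`; note
`1/k ≤ 10^16/K`). With the prime `p`: `p ∣ k`: `tP`; `p ∣ J k`, `p ∤ K1`: `k ≡ κ_p`, `tA` (both give the factor `1/√p`; `K ≥ y ≥ 3` if `S` is
nonempty). Finally `∑_{p ≤ Λ} ph (2A) p / √p ≤ C` (`ps`). `S` empty: `0 ≤`.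
-/

namespace PA39

open Finset Pasch

private theorem n4_ph_nonneg (A p : ℕ) : 0 ≤ ph A p := by
  unfold ph
  exact div_nonneg (pow_nonneg (Real.log_natCast_nonneg p) A) (Nat.cast_nonneg p)

private theorem n4_part (A' : ℕ) (S P : Finset ℕ) (g : ℕ → ℝ) (R : ℕ → ℕ → Prop) [∀ p k, Decidable (R p k)]
    (C0 C2 D E : ℝ) (hC0 : 0 ≤ C0) (hD : 0 ≤ D)
    (hg : ∀ k ∈ S, g k ≤ C0 * (1 + ∑ p ∈ P.filter (fun p => R p k), ph A' p))
    (hR : ∀ p ∈ P, ∑ k ∈ S.filter (fun k => R p k), ta k / k ≤ D / Real.sqrt p)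
    (hE : ∑ k ∈ S, ta k / k ≤ E) (h2 : ∑ p ∈ P, ph A' p / Real.sqrt p ≤ C2) :
    ∑ k ∈ S, ta k / k * g k ≤ C0 * (E + C2 * D) := by
  have hpt : ∀ k ∈ S, ta k / k * g k ≤
      C0 * (ta k / k + ∑ p ∈ P, (if R p k then ta k / k * ph A' p else 0)) := by
    intro k hk
    have hq : 0 ≤ ta k / k := div_nonneg (Nat.cast_nonneg _) (Nat.cast_nonneg _)
    have h5 : ∑ p ∈ P, (if R p k then ta k / k * ph A' p else 0) =
        ta k / k * ∑ p ∈ P.filter (fun p => R p k), ph A' p := by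
      rw [Finset.mul_sum]
      exact (Finset.sum_filter (fun p => R p k) (fun p => ta k / k * ph A' p)).symm
    rw [h5]
    calc ta k / k * g k ≤ ta k / k * (C0 * (1 + ∑ p ∈ P.filter (fun p => R p k), ph A' p)) :=
          mul_le_mul_of_nonneg_left (hg k hk) hq
      _ = C0 * (ta k / k + ta k / k * ∑ p ∈ P.filter (fun p => R p k), ph A' p) := by ring
  have h6 : ∑ k ∈ S, ∑ p ∈ P, (if R p k then ta k / k * ph A' p else 0) ≤ C2 * D := by
    rw [Finset.sum_comm]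
    calc ∑ p ∈ P, ∑ k ∈ S, (if R p k then ta k / k * ph A' p else 0)
        ≤ ∑ p ∈ P, D * (ph A' p / Real.sqrt p) := by
          refine Finset.sum_le_sum fun p hp => ?_
          rw [← Finset.sum_filter, ← Finset.sum_mul]
          calc (∑ k ∈ S.filter (fun k => R p k), ta k / k) * ph A' p
              ≤ (D / Real.sqrt p) * ph A' p := mul_le_mul_of_nonneg_right (hR p hp) (n4_ph_nonneg A' p)
            _ = D * (ph A' p / Real.sqrt p) := by ring
      _ = D * ∑ p ∈ P, ph A' p / Real.sqrt p := by rw [Finset.mul_sum]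
      _ ≤ D * C2 := mul_le_mul_of_nonneg_left h2 hD
      _ = C2 * D := by ring
  calc ∑ k ∈ S, ta k / k * g k
      ≤ ∑ k ∈ S, C0 * (ta k / k + ∑ p ∈ P, (if R p k then ta k / k * ph A' p else 0)) :=
        Finset.sum_le_sum hpt
    _ = C0 * (∑ k ∈ S, ta k / k + ∑ k ∈ S, ∑ p ∈ P, (if R p k then ta k / k * ph A' p else 0)) := by
        rw [← Finset.mul_sum, Finset.sum_add_distrib]
    _ ≤ C0 * (E + C2 * D) := mul_le_mul_of_nonneg_left (add_le_add hE h6) hC0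

private theorem n4_evt (n : ℕ) : ∃ y1 : ℕ, ∀ y : ℕ, y1 ≤ y → (Real.log y) ^ n ≤ (y : ℝ) := by
  have h := (Real.isLittleO_pow_log_id_atTop (n := n)).bound (one_pos)
  have h2 := tendsto_natCast_atTop_atTop (R := ℝ) |>.eventually h
  rw [Filter.eventually_atTop] at h2
  obtain ⟨y1, hy1⟩ := h2
  refine ⟨y1, fun y hy => ?_⟩
  have h3 := hy1 y hy
  rw [one_mul, Real.norm_eq_abs, Real.norm_eq_abs] at h3
  have h4 : |id (y : ℝ)| = y := abs_of_nonneg (Nat.cast_nonneg y)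
  rw [h4] at h3
  exact (le_abs_self _).trans h3

/-- a sum over a subset of the range, compared with the sum of the divisor function -/
private theorem n4_sub (K : ℕ) (S T : Finset ℕ) (hK : 1 ≤ K) (hST : S ⊆ T) (hS : ∀ k ∈ S, K ≤ 10 ^ 16 * k) :
    ∑ k ∈ S, ta k / k ≤ 10 ^ 16 / K * ∑ k ∈ T, ta k := by
  have hK0 : (0 : ℝ) < K := by exact_mod_cast hK
  calc ∑ k ∈ S, ta k / k ≤ ∑ k ∈ S, 10 ^ 16 / (K : ℝ) * ta k := by
        refine Finset.sum_le_sum fun k hk => ?_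
        have h1 := hS k hk
        have hk0 : (0 : ℝ) < k := by
          have : 0 < k := by
            rcases Nat.eq_zero_or_pos k with h | h
            · rw [h] at h1
              omega
            · exact h
          exact_mod_cast this
        have h2 : (K : ℝ) ≤ 10 ^ 16 * k := by exact_mod_cast h1
        have h3 : 1 / (k : ℝ) ≤ 10 ^ 16 / K := by
          rw [div_le_div_iff₀ hk0 hK0]
          linarith
        have h4 : 0 ≤ ta k := Nat.cast_nonneg _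
        calc ta k / k = 1 / (k : ℝ) * ta k := by ring
          _ ≤ 10 ^ 16 / (K : ℝ) * ta k := mul_le_mul_of_nonneg_right h3 h4
    _ = 10 ^ 16 / (K : ℝ) * ∑ k ∈ S, ta k := by rw [Finset.mul_sum]
    _ ≤ 10 ^ 16 / (K : ℝ) * ∑ k ∈ T, ta k := by
        apply mul_le_mul_of_nonneg_left _ (by positivity)
        exact Finset.sum_le_sum_of_subset_of_nonneg hST fun k _ _ => Nat.cast_nonneg _

theorem kd (A B : ℕ) : ∃ C : ℝ, ∃ y1 : ℕ, 0 < C ∧ ∀ y : ℕ, y1 ≤ y → ∀ (K K1 : ℕ) (S : Finset ℕ) (J : ℕ → ℕ),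
    K ≤ y ^ B → (∀ k ∈ S, y ≤ k ∧ k ≤ K ∧ K ≤ 10 ^ 16 * k ∧ J k ≠ 0 ∧ J k ≤ y ^ B) →
    (∀ p : ℕ, p.Prime → ¬ p ∣ K1 → ∃ κ : ℕ, ¬ p ∣ κ ∧ ∀ k ∈ S, p ∣ J k → k ≡ κ [MOD p]) →
    ∑ k ∈ S, ta k / k * sg A k * sgx A (J k) K1 ≤ C * lam y ^ 4 := by
  classical
  obtain ⟨C0, hC0, h0⟩ := opt (2 * A) B
  obtain ⟨C1, hC1, h1⟩ := tP
  obtain ⟨C2, hC2, h2⟩ := ps (2 * A)
  obtain ⟨C3, hC3, h3⟩ := tA
  obtain ⟨y1, hy1⟩ := n4_evt (2 * A + 2)
  refine ⟨C0 * 10 ^ 16 * ((1 + B) * (1 + C2 * C1 + C2 * C3)), max y1 3, by positivity, ?_⟩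
  intro y hy K K1 S J hKB hS hJ
  have hy3 : 3 ≤ y := (le_max_right _ _).trans hy
  have hL := hy1 y ((le_max_left _ _).trans hy)
  rcases S.eq_empty_or_nonempty with hemp | ⟨k0, hk0⟩
  · rw [hemp, Finset.sum_empty]
    have : 0 ≤ lam y ^ 4 := by
      rw [lam_pow_four]
      exact Real.log_natCast_nonneg y
    positivity
  have hyK : y ≤ K := (hS k0 hk0).1.trans (hS k0 hk0).2.1
  have hK2 : 2 ≤ K := by omega
  have hK0 : (0 : ℝ) < K := by exact_mod_cast (by omega : 0 < K)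
  have hl1 : 1 ≤ Real.log y := by
    rw [← lam_pow_four]
    exact one_le_pow₀ (one_le_lam hy3)
  have hlK : Real.log K ≤ B * Real.log y := by
    have e1 : Real.log K ≤ Real.log ((y : ℝ) ^ B) := by
      apply Real.log_le_log hK0
      exact_mod_cast hKB
    rwa [Real.log_pow] at e1
  have hlK0 : 0 ≤ Real.log K := Real.log_natCast_nonneg K
  have hSK : S ⊆ Icc 1 K := by
    intro k hk
    rw [mem_Icc]
    have := hS k hk
    exact ⟨by omega, this.2.1⟩
  have hS16 : ∀ k ∈ S, K ≤ 10 ^ 16 * k := fun k hk => (hS k hk).2.2.1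
  set P := (Icc 1 y).filter Nat.Prime with hP
  -- the primes of PQ
  have hPQ : ∀ n m : ℕ, PQ (2 * A) y n m ⊆ P.filter (fun p => p ∣ n ∧ ¬ p ∣ m) := by
    intro n m p hp
    unfold PQ at hp
    rw [mem_filter, Nat.mem_primeFactors] at hp
    rw [mem_filter, hP, mem_filter, mem_Icc]
    refine ⟨⟨⟨hp.1.1.pos, ?_⟩, hp.1.1⟩, hp.1.2.1, hp.2.1⟩
    have : (p : ℝ) ≤ y := hp.2.2.trans hL
    exact_mod_cast this
  have hE : ∑ k ∈ S, ta k / k ≤ 10 ^ 16 * (1 + Real.log K) := by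
    refine (n4_sub K S (Icc 1 K) (by omega) hSK hS16).trans ?_
    calc 10 ^ 16 / (K : ℝ) * ∑ k ∈ Icc 1 K, ta k ≤ 10 ^ 16 / (K : ℝ) * (K * (1 + Real.log K)) :=
          mul_le_mul_of_nonneg_left (tD K (by omega)) (by positivity)
      _ = 10 ^ 16 * (1 + Real.log K) := by field_simp
  have hpart1 : ∑ k ∈ S, ta k / k * sgx (2 * A) k 1 ≤
      C0 * (10 ^ 16 * (1 + Real.log K) + C2 * (10 ^ 16 * (C1 * Real.log K))) := by
    apply n4_part (2 * A) S P (fun k => sgx (2 * A) k 1) (fun p k => p ∣ k) C0 C2 _ _ hC0.le (by positivity) ?_ ?_ hE (h2 P)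
    · intro k hk
      have hk' := hS k hk
      refine (h0 y k 1 hy3 (by omega) (hk'.2.1.trans hKB)).trans ?_
      apply mul_le_mul_of_nonneg_left _ hC0.le
      apply add_le_add le_rfl
      apply Finset.sum_le_sum_of_subset_of_nonneg
      · intro p hp
        have h4 := hPQ k 1 hp
        rw [mem_filter] at h4 ⊢
        exact ⟨h4.1, h4.2.1⟩
      · intro p _ _
        exact n4_ph_nonneg _ p
    · intro p hp
      rw [hP, mem_filter, mem_Icc] at hp
      have e1 := n4_sub K (S.filter (fun k => p ∣ k)) ((Icc 1 K).filter (fun k => p ∣ k)) (by omega)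
        (Finset.filter_subset_filter _ hSK) (fun k hk => hS16 k (mem_filter.1 hk).1)
      have e2 := h1 K p hK2 hp.2 (hp.1.2.trans hyK)
      calc ∑ k ∈ S.filter (fun k => p ∣ k), ta k / k
          ≤ 10 ^ 16 / (K : ℝ) * (C1 * K * Real.log K / Real.sqrt p) :=
            e1.trans (mul_le_mul_of_nonneg_left e2 (by positivity))
        _ = 10 ^ 16 * (C1 * Real.log K) / Real.sqrt p := by field_simp
  have hpart2 : ∑ k ∈ S, ta k / k * sgx (2 * A) (J k) K1 ≤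
      C0 * (10 ^ 16 * (1 + Real.log K) + C2 * (10 ^ 16 * (C3 * Real.log K))) := by
    apply n4_part (2 * A) S P (fun k => sgx (2 * A) (J k) K1) (fun p k => p ∣ J k ∧ ¬ p ∣ K1) C0 C2 _ _ hC0.le
      (by positivity) ?_ ?_ hE (h2 P)
    · intro k hk
      have hk' := hS k hk
      refine (h0 y (J k) K1 hy3 hk'.2.2.2.1 hk'.2.2.2.2).trans ?_
      apply mul_le_mul_of_nonneg_left _ hC0.le
      apply add_le_add le_rfl
      apply Finset.sum_le_sum_of_subset_of_nonneg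
      · intro p hp
        exact hPQ (J k) K1 hp
      · intro p _ _
        exact n4_ph_nonneg _ p
    · intro p hp
      rw [hP, mem_filter, mem_Icc] at hp
      by_cases hpK1 : p ∣ K1
      · have : S.filter (fun k => p ∣ J k ∧ ¬ p ∣ K1) = ∅ :=
          Finset.filter_eq_empty_iff.2 fun k _ h => h.2 hpK1
        rw [this, Finset.sum_empty]
        positivity
      obtain ⟨κ, hκ, hκS⟩ := hJ p hp.2 hpK1
      have e1 := n4_sub K (S.filter (fun k => p ∣ J k ∧ ¬ p ∣ K1)) ((Icc 1 K).filter (fun k => k ≡ κ [MOD p]))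
        (by omega)
        (by
          intro k hk
          rw [mem_filter] at hk ⊢
          exact ⟨hSK hk.1, hκS k hk.1 hk.2.1⟩)
        (fun k hk => hS16 k (mem_filter.1 hk).1)
      have e2 := h3 K p κ hK2 hp.2 (hp.1.2.trans hyK) hκ
      calc ∑ k ∈ S.filter (fun k => p ∣ J k ∧ ¬ p ∣ K1), ta k / k
          ≤ 10 ^ 16 / (K : ℝ) * (C3 * K * Real.log K / Real.sqrt p) :=
            e1.trans (mul_le_mul_of_nonneg_left e2 (by positivity))
        _ = 10 ^ 16 * (C3 * Real.log K) / Real.sqrt p := by field_simp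
  have hpt : ∀ k ∈ S, ta k / k * sg A k * sgx A (J k) K1 ≤
      (ta k / k * sgx (2 * A) k 1 + ta k / k * sgx (2 * A) (J k) K1) / 2 := by
    intro k _
    have hq : 0 ≤ ta k / k := div_nonneg (Nat.cast_nonneg _) (Nat.cast_nonneg _)
    have e1 : sg A k ^ 2 = sgx (2 * A) k 1 := by rw [← sgx_one_right, sgx_sq]
    have e2 : sgx A (J k) K1 ^ 2 = sgx (2 * A) (J k) K1 := sgx_sq _ _ _
    have e3 : sg A k * sgx A (J k) K1 ≤ (sgx (2 * A) k 1 + sgx (2 * A) (J k) K1) / 2 := by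
      rw [← e1, ← e2]
      nlinarith [sq_nonneg (sg A k - sgx A (J k) K1)]
    calc ta k / k * sg A k * sgx A (J k) K1 = ta k / k * (sg A k * sgx A (J k) K1) := by ring
      _ ≤ ta k / k * ((sgx (2 * A) k 1 + sgx (2 * A) (J k) K1) / 2) := mul_le_mul_of_nonneg_left e3 hq
      _ = (ta k / k * sgx (2 * A) k 1 + ta k / k * sgx (2 * A) (J k) K1) / 2 := by ring
  have hsum : ∑ k ∈ S, ta k / k * sg A k * sgx A (J k) K1 ≤
      (∑ k ∈ S, ta k / k * sgx (2 * A) k 1 + ∑ k ∈ S, ta k / k * sgx (2 * A) (J k) K1) / 2 := by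
    rw [← Finset.sum_add_distrib, Finset.sum_div]
    exact Finset.sum_le_sum hpt
  rw [lam_pow_four]
  set l := Real.log y with hldef
  have hB : (0 : ℝ) ≤ B := Nat.cast_nonneg B
  have hX : 1 + Real.log K ≤ (1 + B) * l := by linarith
  have hX2 : Real.log K ≤ (1 + B) * l := by linarith
  have hG : 0 ≤ C0 * 10 ^ 16 := by positivity
  have f1 : C0 * (10 ^ 16 * (1 + Real.log K) + C2 * (10 ^ 16 * (C1 * Real.log K))) ≤
      C0 * 10 ^ 16 * ((1 + B) * l * (1 + C2 * C1)) := by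
    have g1 : C2 * C1 * Real.log K ≤ C2 * C1 * ((1 + B) * l) := mul_le_mul_of_nonneg_left hX2 (by positivity)
    calc C0 * (10 ^ 16 * (1 + Real.log K) + C2 * (10 ^ 16 * (C1 * Real.log K)))
        = C0 * 10 ^ 16 * ((1 + Real.log K) + C2 * C1 * Real.log K) := by ring
      _ ≤ C0 * 10 ^ 16 * ((1 + B) * l + C2 * C1 * ((1 + B) * l)) :=
          mul_le_mul_of_nonneg_left (add_le_add hX g1) hG
      _ = C0 * 10 ^ 16 * ((1 + B) * l * (1 + C2 * C1)) := by ring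
  have f2 : C0 * (10 ^ 16 * (1 + Real.log K) + C2 * (10 ^ 16 * (C3 * Real.log K))) ≤
      C0 * 10 ^ 16 * ((1 + B) * l * (1 + C2 * C3)) := by
    have g1 : C2 * C3 * Real.log K ≤ C2 * C3 * ((1 + B) * l) := mul_le_mul_of_nonneg_left hX2 (by positivity)
    calc C0 * (10 ^ 16 * (1 + Real.log K) + C2 * (10 ^ 16 * (C3 * Real.log K)))
        = C0 * 10 ^ 16 * ((1 + Real.log K) + C2 * C3 * Real.log K) := by ring
      _ ≤ C0 * 10 ^ 16 * ((1 + B) * l + C2 * C3 * ((1 + B) * l)) :=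
          mul_le_mul_of_nonneg_left (add_le_add hX g1) hG
      _ = C0 * 10 ^ 16 * ((1 + B) * l * (1 + C2 * C3)) := by ring
  have f3 : 0 ≤ C0 * 10 ^ 16 * ((1 + B) * l * (C2 * C1 + C2 * C3)) := by positivity
  have f4 : C0 * 10 ^ 16 * ((1 + B) * (1 + C2 * C1 + C2 * C3)) * l =
      (C0 * 10 ^ 16 * ((1 + B) * l * (1 + C2 * C1)) + C0 * 10 ^ 16 * ((1 + B) * l * (1 + C2 * C3))) / 2
        + C0 * 10 ^ 16 * ((1 + B) * l * (C2 * C1 + C2 * C3)) / 2 := by ring
  rw [f4]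
  linarith

end PA39
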