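import Pool.Agent.LibPA39.N1
import Pool.Agent.LibPA39.N2
import Pool.Agent.LibPA39.N9b
import Pool.Agent.LibPA39.N3a
import Pool.Agent.LibPA39.N3b

/-!
[PA N5] **The full sum over `k`** (from N1 `opt`, N2 `ps`): `∑_{k ≤ y^B} τ(k)/k ∏_{p ∣ k} (1+1/p)^A ≤ C (log y)^2`.
PROOF. `sg A k = sgx A k 1 ≤ C (1 + ∑ p ∈ PQ A y k 1, ph A p)` (`opt`, `k ≤ y^B`). `∑_{k ≤ K} τ(k)/k ≤ (∑_{u ≤ K} 1/u)^2 ≤ (1 + log K)^2` with
`K = y^B`, `log K = B log y`, `log y = lam y ^ 4 ≥ 1`. For a prime `p`: `k = p k''`, `τ(k) ≤ 2 τ(k'')`, so `∑_{k ≤ K, p ∣ k} τ(k)/k ≤ (2/p) (1 + log K)^2`, and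
`∑ ph A p / p ≤ ∑ ph A p / √p ≤ C` (`ps`).
-/

namespace PA39

open Finset Pasch

private theorem n5_mult (K u : ℕ) (hu : 1 ≤ u) (f : ℕ → ℝ) (hf : ∀ n, 0 ≤ f n) :
    ∑ k ∈ (Icc 1 K).filter (fun k => u ∣ k), f k ≤ ∑ m ∈ Icc 1 K, f (u * m) := by
  have hinj : Set.InjOn (fun m => u * m) ((Icc 1 K : Finset ℕ) : Set ℕ) := by
    intro a _ b _ hab
    exact Nat.eq_of_mul_eq_mul_left hu hab
  rw [← Finset.sum_image (f := f) (g := fun m => u * m) hinj]
  apply Finset.sum_le_sum_of_subset_of_nonneg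
  · intro k hk
    rw [mem_filter, mem_Icc] at hk
    obtain ⟨m, hm⟩ := hk.2
    rw [mem_image]
    refine ⟨m, ?_, hm.symm⟩
    rw [mem_Icc]
    constructor
    · rcases Nat.eq_zero_or_pos m with h | h
      · rw [h] at hm
        omega
      · exact h
    · calc m = 1 * m := (one_mul m).symm
        _ ≤ u * m := Nat.mul_le_mul_right m hu
        _ ≤ K := by rw [← hm]; exact hk.1.2
  · intro k _ _
    exact hf k

private theorem n5_Hs (K : ℕ) : ∑ k ∈ Icc 1 K, ta k / k ≤ (1 + Real.log K) ^ 2 := by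
  have h1 : ∑ k ∈ Icc 1 K, ta k / k = ∑ u ∈ Icc 1 K, ∑ k ∈ (Icc 1 K).filter (fun k => u ∣ k), 1 / (k : ℝ) := by
    have e1 : ∀ k ∈ Icc 1 K, ta k / k = ∑ u ∈ Icc 1 K, (if u ∣ k then 1 / (k : ℝ) else 0) := by
      intro k hk
      rw [mem_Icc] at hk
      rw [← Finset.sum_filter, Finset.sum_const, nsmul_eq_mul]
      have e2 : k.divisors = (Icc 1 K).filter (fun u => u ∣ k) := by
        ext u
        rw [Nat.mem_divisors, mem_filter, mem_Icc]
        constructor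
        · intro h
          exact ⟨⟨Nat.pos_of_dvd_of_pos h.1 hk.1, (Nat.le_of_dvd hk.1 h.1).trans hk.2⟩, h.1⟩
        · intro h
          exact ⟨h.2, by omega⟩
      unfold ta
      rw [e2]
      ring
    rw [Finset.sum_congr rfl e1, Finset.sum_comm]
    refine Finset.sum_congr rfl fun u _ => ?_
    rw [Finset.sum_filter]
  rw [h1]
  have h2 : ∑ u ∈ Icc 1 K, ∑ k ∈ (Icc 1 K).filter (fun k => u ∣ k), 1 / (k : ℝ) ≤
      ∑ u ∈ Icc 1 K, ∑ m ∈ Icc 1 K, (u : ℝ)⁻¹ * (m : ℝ)⁻¹ := by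
    refine Finset.sum_le_sum fun u hu => ?_
    rw [mem_Icc] at hu
    refine (n5_mult K u hu.1 (fun k => 1 / (k : ℝ)) (fun n => by positivity)).trans (le_of_eq ?_)
    refine Finset.sum_congr rfl fun m _ => ?_
    show 1 / ((u * m : ℕ) : ℝ) = _
    push_cast
    rw [one_div, mul_inv]
  refine h2.trans ?_
  rw [← Finset.sum_mul_sum]
  have h3 : ∑ u ∈ Icc 1 K, (u : ℝ)⁻¹ = (harmonic K : ℝ) := by
    rw [harmonic_eq_sum_Icc]
    push_cast
    rfl
  rw [h3]
  have h4 : (harmonic K : ℝ) ≤ 1 + Real.log K := harmonic_le_one_add_log K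
  have h5 : (0 : ℝ) ≤ (harmonic K : ℝ) := by
    rw [← h3]
    exact Finset.sum_nonneg fun u _ => by positivity
  rw [sq]
  exact mul_le_mul h4 h4 h5 (h5.trans h4)

private theorem n5_ta_mul {p : ℕ} (hp : p.Prime) (m : ℕ) : ta (p * m) ≤ 2 * ta m := by
  unfold ta
  have h1 : (p * m).divisors.card ≤ p.divisors.card * m.divisors.card := by
    rw [Nat.divisors_mul]
    exact Finset.card_mul_le
  have h2 : p.divisors.card = 2 := by
    rw [hp.divisors, Finset.card_pair hp.one_lt.ne]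
  rw [h2] at h1
  exact_mod_cast h1

private theorem n5_ph_nonneg (A p : ℕ) : 0 ≤ ph A p := by
  unfold ph
  exact div_nonneg (pow_nonneg (Real.log_natCast_nonneg p) A) (Nat.cast_nonneg p)

private theorem n5_prime (K : ℕ) {p : ℕ} (hp : p.Prime) :
    ∑ k ∈ (Icc 1 K).filter (fun k => p ∣ k), ta k / k ≤ 2 / p * (1 + Real.log K) ^ 2 := by
  have hp0 : (0 : ℝ) < p := by exact_mod_cast hp.pos
  refine (n5_mult K p hp.pos (fun k => ta k / k)
    (fun n => div_nonneg (Nat.cast_nonneg _) (Nat.cast_nonneg _))).trans ?_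
  have h1 : ∑ m ∈ Icc 1 K, ta (p * m) / ((p * m : ℕ) : ℝ) ≤ ∑ m ∈ Icc 1 K, 2 / (p : ℝ) * (ta m / m) := by
    refine Finset.sum_le_sum fun m hm => ?_
    rw [mem_Icc] at hm
    have hm0 : (0 : ℝ) < m := by exact_mod_cast hm.1
    push_cast
    rw [div_mul_div_comm]
    exact div_le_div_of_nonneg_right (n5_ta_mul hp m) (by positivity)
  refine h1.trans ?_
  rw [← Finset.mul_sum]
  exact mul_le_mul_of_nonneg_left (n5_Hs K) (by positivity)

theorem ks (A B : ℕ) : ∃ C : ℝ, 0 < C ∧ ∀ y : ℕ, 3 ≤ y →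
    ∑ k ∈ Icc 1 (y ^ B), ta k / k * sg A k ≤ C * lam y ^ 8 := by
  obtain ⟨C0, hC0, h0⟩ := opt A B
  obtain ⟨C2, hC2, h2⟩ := ps A
  refine ⟨C0 * ((1 + 2 * C2) * (1 + B) ^ 2), by positivity, ?_⟩
  intro y hy
  set K := y ^ B with hKdef
  have hK : 1 ≤ K := Nat.one_le_pow _ _ (by omega)
  set P := (Icc 1 K).filter Nat.Prime with hP
  set L2 := (1 + Real.log K) ^ 2 with hL2
  have hL20 : 0 ≤ L2 := sq_nonneg _
  -- pointwise
  have hpt : ∀ k ∈ Icc 1 K, ta k / k * sg A k ≤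
      C0 * (ta k / k + ∑ p ∈ P, (if p ∣ k then ta k / k * ph A p else 0)) := by
    intro k hk
    rw [mem_Icc] at hk
    have hq : 0 ≤ ta k / k := div_nonneg (Nat.cast_nonneg _) (Nat.cast_nonneg _)
    have h3 := h0 y k 1 hy (by omega) hk.2
    rw [sgx_one_right] at h3
    have h4 : ∑ p ∈ PQ A y k 1, ph A p ≤ ∑ p ∈ P.filter (fun p => p ∣ k), ph A p := by
      apply Finset.sum_le_sum_of_subset_of_nonneg
      · intro p hp
        unfold PQ at hp
        rw [mem_filter, Nat.mem_primeFactors] at hp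
        rw [mem_filter, hP, mem_filter, mem_Icc]
        exact ⟨⟨⟨hp.1.1.pos, (Nat.le_of_dvd hk.1 hp.1.2.1).trans hk.2⟩, hp.1.1⟩, hp.1.2.1⟩
      · intro p _ _
        exact n5_ph_nonneg A p
    have h5 : ∑ p ∈ P, (if p ∣ k then ta k / k * ph A p else 0) =
        ta k / k * ∑ p ∈ P.filter (fun p => p ∣ k), ph A p := by
      rw [Finset.mul_sum]
      exact (Finset.sum_filter (fun p => p ∣ k) (fun p => ta k / k * ph A p)).symm
    rw [h5]
    calc ta k / k * sg A k ≤ ta k / k * (C0 * (1 + ∑ p ∈ PQ A y k 1, ph A p)) :=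
          mul_le_mul_of_nonneg_left h3 hq
      _ ≤ ta k / k * (C0 * (1 + ∑ p ∈ P.filter (fun p => p ∣ k), ph A p)) := by
          apply mul_le_mul_of_nonneg_left _ hq
          apply mul_le_mul_of_nonneg_left _ hC0.le
          linarith
      _ = C0 * (ta k / k + ta k / k * ∑ p ∈ P.filter (fun p => p ∣ k), ph A p) := by ring
  have h6 : ∑ k ∈ Icc 1 K, ∑ p ∈ P, (if p ∣ k then ta k / k * ph A p else 0) ≤ 2 * C2 * L2 := by
    rw [Finset.sum_comm]
    calc ∑ p ∈ P, ∑ k ∈ Icc 1 K, (if p ∣ k then ta k / k * ph A p else 0)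
        ≤ ∑ p ∈ P, 2 * L2 * (ph A p / Real.sqrt p) := by
          refine Finset.sum_le_sum fun p hp => ?_
          rw [hP, mem_filter] at hp
          have hpp := hp.2
          have hp0 : (0 : ℝ) < p := by exact_mod_cast hpp.pos
          have hp1 : (1 : ℝ) ≤ p := by exact_mod_cast hpp.one_lt.le
          rw [← Finset.sum_filter, ← Finset.sum_mul]
          have e1 := n5_prime K hpp
          have hs0 : 0 < Real.sqrt p := Real.sqrt_pos.2 hp0
          have hs1 : 1 ≤ Real.sqrt p := Real.one_le_sqrt.2 hp1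
          have e2 : 2 / (p : ℝ) ≤ 2 / Real.sqrt p := by
            apply div_le_div_of_nonneg_left (by norm_num) hs0
            have : Real.sqrt p * Real.sqrt p = p := Real.mul_self_sqrt hp0.le
            nlinarith
          calc (∑ k ∈ (Icc 1 K).filter (fun k => p ∣ k), ta k / k) * ph A p
              ≤ (2 / Real.sqrt p * L2) * ph A p := by
                apply mul_le_mul_of_nonneg_right _ (n5_ph_nonneg A p)
                exact e1.trans (mul_le_mul_of_nonneg_right e2 hL20)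
            _ = 2 * L2 * (ph A p / Real.sqrt p) := by ring
      _ = 2 * L2 * ∑ p ∈ P, ph A p / Real.sqrt p := by rw [Finset.mul_sum]
      _ ≤ 2 * L2 * C2 := mul_le_mul_of_nonneg_left (h2 P) (by positivity)
      _ = 2 * C2 * L2 := by ring
  have h7 : ∑ k ∈ Icc 1 K, ta k / k * sg A k ≤ C0 * ((1 + 2 * C2) * L2) := by
    calc ∑ k ∈ Icc 1 K, ta k / k * sg A k
        ≤ ∑ k ∈ Icc 1 K, C0 * (ta k / k + ∑ p ∈ P, (if p ∣ k then ta k / k * ph A p else 0)) :=
          Finset.sum_le_sum hpt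
      _ = C0 * (∑ k ∈ Icc 1 K, ta k / k + ∑ k ∈ Icc 1 K, ∑ p ∈ P, (if p ∣ k then ta k / k * ph A p else 0)) := by
          rw [← Finset.mul_sum, Finset.sum_add_distrib]
      _ ≤ C0 * (L2 + 2 * C2 * L2) := by
          apply mul_le_mul_of_nonneg_left _ hC0.le
          exact add_le_add (n5_Hs K) h6
      _ = C0 * ((1 + 2 * C2) * L2) := by ring
  refine h7.trans ?_
  have hl1 : 1 ≤ Real.log y := by
    rw [← lam_pow_four]
    exact one_le_pow₀ (one_le_lam hy)
  have h8 : L2 ≤ (1 + B) ^ 2 * lam y ^ 8 := by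
    have e1 : Real.log K = B * Real.log y := by
      rw [hKdef]
      push_cast
      rw [Real.log_pow]
    have e2 : lam y ^ 8 = Real.log y ^ 2 := by
      rw [← lam_pow_four]
      ring
    rw [hL2, e1, e2, ← mul_pow]
    have hB : (0 : ℝ) ≤ B := Nat.cast_nonneg B
    apply pow_le_pow_left₀ (by positivity)
    nlinarith
  calc C0 * ((1 + 2 * C2) * L2) ≤ C0 * ((1 + 2 * C2) * ((1 + B) ^ 2 * lam y ^ 8)) := by
        apply mul_le_mul_of_nonneg_left _ hC0.le
        exact mul_le_mul_of_nonneg_left h8 (by positivity)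
    _ = C0 * ((1 + 2 * C2) * (1 + B) ^ 2) * lam y ^ 8 := by ring

end PA39
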