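import Pool.Agent.LibPA39.Defs
import Pool.Agent.LibTwHL.M1

/-!
[PA N6a] **Euler product sum over squarefree integers** (Mertens only).
PROOF. For squarefree `m ≤ M0 := y^B`, `(1/4)^(om y m) * sg A m / m = ∏ p ∈ m.primeFactors, f p` with
`f p = (if p ≤ y then 1/4 else 1) (1+1/p)^A / p`; summing over squarefree `m ≤ M0` gives at most `∏_{p ≤ M0} (1 + f p)`
(`Finset.prod_one_add`: sum over subsets of the primes `≤ M0`; `m ↦ m.primeFactors` is injective on squarefree numbers,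
`Nat.prod_primeFactors_of_squarefree`). `(1+1/p)^A ≤ 1 + A 2^A / p`, so `∑_{p ≤ y} f p ≤ (1/4) ∑_{p ≤ y} 1/p + C` and
`∑_{y < p ≤ M0} f p ≤ ∑_{y < p ≤ y^B} 1/p + C ≤ C_B`. By Mertens (`TwHL.mertens` / `Pool.Agent.LibUD63.mertens_bd`: two sided, all `v`) the product is at most
`C exp((1/4) log log y) = C lam y`. (`∑_{y<p≤y^B} 1/p ≤ log (B+1) + 2C`.)
-/

namespace PA39

open Finset Pasch

private theorem n6a_pow (A : ℕ) {x : ℝ} (h0 : 0 ≤ x) (h1 : x ≤ 1) :
    (1 + x) ^ A ≤ 1 + A * 2 ^ A * x := by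
  induction A with
  | zero => simp
  | succ n ih =>
    have hp : (0 : ℝ) < 2 ^ n := by positivity
    have hp1 : (1 : ℝ) ≤ 2 ^ n := one_le_pow₀ (by norm_num)
    have hn : (0 : ℝ) ≤ n := Nat.cast_nonneg n
    have h2 : (1 + x) ^ (n + 1) ≤ (1 + n * 2 ^ n * x) * (1 + x) := by
      rw [pow_succ]
      exact mul_le_mul_of_nonneg_right ih (by linarith)
    refine h2.trans ?_
    have h3 : (n : ℝ) * 2 ^ n * x * x ≤ n * 2 ^ n * x := by
      have : (0 : ℝ) ≤ n * 2 ^ n * x := by positivity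
      nlinarith
    have h4 : x ≤ 2 ^ (n + 1) * x := by
      have : (1 : ℝ) ≤ 2 ^ (n + 1) := one_le_pow₀ (by norm_num)
      nlinarith
    have h5 : (1 : ℝ) + ((n + 1 : ℕ) : ℝ) * 2 ^ (n + 1) * x =
        1 + n * 2 ^ n * x + n * 2 ^ n * x + 2 ^ (n + 1) * x := by
      push_cast
      ring
    rw [h5]
    nlinarith

private noncomputable def n6a_f (A y p : ℕ) : ℝ :=
  (if p ≤ y then 1 / 4 else 1) * (1 + 1 / (p : ℝ)) ^ A / p

private theorem n6a_f_nonneg (A y p : ℕ) : 0 ≤ n6a_f A y p := by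
  unfold n6a_f
  split_ifs <;> positivity

private theorem n6a_prod (A y m : ℕ) (hm : Squarefree m) :
    (1 / 4 : ℝ) ^ (om y m) * sg A m / m = ∏ p ∈ m.primeFactors, n6a_f A y p := by
  unfold n6a_f
  rw [Finset.prod_div_distrib, Finset.prod_mul_distrib]
  congr 1
  · congr 1
    rw [Finset.prod_ite]
    simp [om]
  · have h := Nat.prod_primeFactors_of_squarefree hm
    calc (m : ℝ) = ((∏ p ∈ m.primeFactors, p : ℕ) : ℝ) := by rw [h]
      _ = _ := by push_cast; rfl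

private theorem n6a_sum (A y M : ℕ) :
    ∑ m ∈ (Icc 1 M).filter Squarefree, (1 / 4 : ℝ) ^ (om y m) * sg A m / m ≤
      Real.exp (∑ p ∈ TwHL.PP M, n6a_f A y p) := by
  have h1 : ∑ m ∈ (Icc 1 M).filter Squarefree, (1 / 4 : ℝ) ^ (om y m) * sg A m / m =
      ∑ m ∈ (Icc 1 M).filter Squarefree, ∏ p ∈ m.primeFactors, n6a_f A y p := by
    refine Finset.sum_congr rfl fun m hm => ?_
    exact n6a_prod A y m (Finset.mem_filter.1 hm).2
  have hinj : Set.InjOn Nat.primeFactors (((Icc 1 M).filter Squarefree : Finset ℕ) : Set ℕ) := by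
    intro a ha b hb hab
    have ha' := (Finset.mem_filter.1 (Finset.mem_coe.1 ha)).2
    have hb' := (Finset.mem_filter.1 (Finset.mem_coe.1 hb)).2
    rw [← Nat.prod_primeFactors_of_squarefree ha', ← Nat.prod_primeFactors_of_squarefree hb', hab]
  rw [h1, ← Finset.sum_image (f := fun S => ∏ p ∈ S, n6a_f A y p) hinj]
  have h2 : (((Icc 1 M).filter Squarefree).image Nat.primeFactors) ⊆ (TwHL.PP M).powerset := by
    intro S hS
    obtain ⟨m, hm, rfl⟩ := Finset.mem_image.1 hS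
    rw [Finset.mem_powerset]
    intro p hp
    have hm1 := Finset.mem_Icc.1 (Finset.mem_filter.1 hm).1
    have hpp := Nat.prime_of_mem_primeFactors hp
    have hle := Nat.le_of_dvd hm1.1 (Nat.dvd_of_mem_primeFactors hp)
    unfold TwHL.PP
    rw [Finset.mem_filter, Finset.mem_Icc]
    exact ⟨⟨hpp.one_lt.le, hle.trans hm1.2⟩, hpp⟩
  calc ∑ S ∈ ((Icc 1 M).filter Squarefree).image Nat.primeFactors, ∏ p ∈ S, n6a_f A y p
      ≤ ∑ S ∈ (TwHL.PP M).powerset, ∏ p ∈ S, n6a_f A y p :=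
        Finset.sum_le_sum_of_subset_of_nonneg h2
          (fun S _ _ => Finset.prod_nonneg fun p _ => n6a_f_nonneg A y p)
    _ = ∏ p ∈ TwHL.PP M, (1 + n6a_f A y p) := by rw [Finset.prod_one_add]
    _ ≤ ∏ p ∈ TwHL.PP M, Real.exp (n6a_f A y p) := by
        refine Finset.prod_le_prod (fun p _ => by linarith [n6a_f_nonneg A y p]) fun p _ => ?_
        linarith [Real.add_one_le_exp (n6a_f A y p)]
    _ = _ := by rw [← Real.exp_sum]

private theorem n6a_sq (M : ℕ) : ∑ p ∈ TwHL.PP M, 1 / (p : ℝ) ^ 2 ≤ 2 := by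
  have h1 : ∑ p ∈ TwHL.PP M, 1 / (p : ℝ) ^ 2 ≤ ∑ n ∈ Icc 1 M, 1 / (n : ℝ) ^ 2 := by
    unfold TwHL.PP
    exact Finset.sum_le_sum_of_subset_of_nonneg (Finset.filter_subset _ _)
      (fun _ _ _ => by positivity)
  have h2 : ∀ M : ℕ, ∑ n ∈ Icc 1 M, 1 / (n : ℝ) ^ 2 ≤ 2 - 1 / (M : ℝ) := by
    intro M
    induction M with
    | zero => simp
    | succ k ih =>
      rw [Finset.sum_Icc_succ_top (by omega)]
      rcases Nat.eq_zero_or_pos k with rfl | hk
      · norm_num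
      · have hk0 : (0 : ℝ) < k := by exact_mod_cast hk
        have h3 : 1 / (((k + 1 : ℕ) : ℝ)) ^ 2 ≤ 1 / (k : ℝ) - 1 / (((k + 1 : ℕ) : ℝ)) := by
          push_cast
          rw [div_sub_div _ _ hk0.ne' (by positivity), div_le_div_iff₀ (by positivity) (by positivity)]
          nlinarith
        linarith
  refine h1.trans ((h2 M).trans ?_)
  have : 0 ≤ 1 / (M : ℝ) := by positivity
  linarith

/-- the sum of the weights -/
private theorem n6a_sumf (A B : ℕ) (hB : 1 ≤ B) : ∃ K : ℝ, 0 ≤ K ∧ ∀ y : ℕ, 3 ≤ y →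
    ∑ p ∈ TwHL.PP (y ^ B), n6a_f A y p ≤ 1 / 4 * Real.log (Real.log y) + K := by
  obtain ⟨C, hC0, hC⟩ := TwHL.mertens
  have hBR : (1 : ℝ) ≤ B := by exact_mod_cast hB
  have hlB : 0 ≤ Real.log B := Real.log_nonneg hBR
  have hl2 : 0 ≤ Real.log 2 := Real.log_nonneg (by norm_num)
  refine ⟨1 / 4 * (Real.log 2 + C) + (Real.log B + 2 * C) + A * 2 ^ A * 2, by positivity,
    fun y hy => ?_⟩
  have hy3 : (3 : ℝ) ≤ y := by exact_mod_cast hy
  have hl1 : 1 ≤ Real.log y := by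
    rw [Real.le_log_iff_exp_le (by linarith)]
    linarith [Real.exp_one_lt_d9]
  have hyM : y ≤ y ^ B := Nat.le_self_pow (by omega) y
  -- split
  have hsub : TwHL.PP y ⊆ TwHL.PP (y ^ B) := by
    unfold TwHL.PP
    exact Finset.filter_subset_filter _ (Finset.Icc_subset_Icc_right hyM)
  have hpt : ∀ p ∈ TwHL.PP (y ^ B), n6a_f A y p ≤
      (if p ≤ y then 1 / 4 else 1) * (1 / (p : ℝ)) + A * 2 ^ A * (1 / (p : ℝ) ^ 2) := by
    intro p hp
    have hp1 : 1 ≤ p := (Finset.mem_Icc.1 (Finset.mem_filter.1 hp).1).1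
    have hpR : (1 : ℝ) ≤ p := by exact_mod_cast hp1
    have hx1 : 1 / (p : ℝ) ≤ 1 := by
      rw [div_le_one (by linarith)]
      exact hpR
    have hx0 : 0 ≤ 1 / (p : ℝ) := by positivity
    have h1 := n6a_pow A hx0 hx1
    have h2 : n6a_f A y p = (if p ≤ y then 1 / 4 else 1) * ((1 + 1 / (p : ℝ)) ^ A * (1 / (p : ℝ))) := by
      unfold n6a_f
      ring
    have hc0 : (0 : ℝ) ≤ (if p ≤ y then 1 / 4 else 1) := by split_ifs <;> norm_num
    have hc1 : (if p ≤ y then (1 / 4 : ℝ) else 1) ≤ 1 := by split_ifs <;> norm_num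
    rw [h2]
    calc (if p ≤ y then (1 / 4 : ℝ) else 1) * ((1 + 1 / (p : ℝ)) ^ A * (1 / (p : ℝ)))
        ≤ (if p ≤ y then (1 / 4 : ℝ) else 1) * ((1 + A * 2 ^ A * (1 / (p : ℝ))) * (1 / (p : ℝ))) := by
          gcongr
      _ = (if p ≤ y then (1 / 4 : ℝ) else 1) * (1 / (p : ℝ)) +
          (if p ≤ y then (1 / 4 : ℝ) else 1) * (A * 2 ^ A * (1 / (p : ℝ) ^ 2)) := by ring
      _ ≤ (if p ≤ y then (1 / 4 : ℝ) else 1) * (1 / (p : ℝ)) + 1 * (A * 2 ^ A * (1 / (p : ℝ) ^ 2)) := by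
          gcongr
      _ = _ := by ring
  have h1 : ∑ p ∈ TwHL.PP (y ^ B), n6a_f A y p ≤
      ∑ p ∈ TwHL.PP (y ^ B), (if p ≤ y then (1 / 4 : ℝ) else 1) * (1 / (p : ℝ)) +
        A * 2 ^ A * ∑ p ∈ TwHL.PP (y ^ B), 1 / (p : ℝ) ^ 2 := by
    rw [Finset.mul_sum, ← Finset.sum_add_distrib]
    exact Finset.sum_le_sum hpt
  have h2 : ∑ p ∈ TwHL.PP (y ^ B), (if p ≤ y then (1 / 4 : ℝ) else 1) * (1 / (p : ℝ)) =
      ∑ p ∈ TwHL.PP (y ^ B), 1 / (p : ℝ) - 3 / 4 * ∑ p ∈ TwHL.PP y, 1 / (p : ℝ) := by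
    have h3 : ∑ p ∈ TwHL.PP y, 1 / (p : ℝ) =
        ∑ p ∈ TwHL.PP (y ^ B), if p ≤ y then 1 / (p : ℝ) else 0 := by
      rw [← Finset.sum_filter]
      refine Finset.sum_congr ?_ fun _ _ => rfl
      ext p
      unfold TwHL.PP
      simp only [Finset.mem_filter, Finset.mem_Icc]
      constructor
      · rintro ⟨⟨a, b⟩, c⟩
        exact ⟨⟨⟨a, b.trans hyM⟩, c⟩, b⟩
      · rintro ⟨⟨⟨a, _⟩, c⟩, b⟩
        exact ⟨⟨a, b⟩, c⟩
    rw [h3, Finset.mul_sum, ← Finset.sum_sub_distrib]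
    refine Finset.sum_congr rfl fun p _ => ?_
    split_ifs <;> ring
  have hm1 := (abs_le.1 (hC (y ^ B) (Nat.one_le_pow _ _ (by omega)))).2
  have hm2 := (abs_le.1 (hC y (by omega))).1
  have hLM : TwHL.LL (y ^ B) ≤ TwHL.LL y + Real.log B := by
    unfold TwHL.LL
    rw [← Real.log_mul (by linarith) (by linarith)]
    apply Real.log_le_log
    · have : 0 ≤ Real.log ((y ^ B : ℕ) : ℝ) := Real.log_natCast_nonneg _
      linarith
    · push_cast
      rw [Real.log_pow]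
      nlinarith
  have hLy : TwHL.LL y ≤ Real.log (Real.log y) + Real.log 2 := by
    unfold TwHL.LL
    rw [← Real.log_mul (by linarith) (by norm_num)]
    apply Real.log_le_log (by linarith)
    linarith
  have hsq := n6a_sq (y ^ B)
  have hA : (0 : ℝ) ≤ A * 2 ^ A := by positivity
  have hsq2 := mul_le_mul_of_nonneg_left hsq hA
  rw [h2] at h1
  nlinarith

theorem ms (A B : ℕ) : ∃ C : ℝ, 0 < C ∧ ∀ y : ℕ, 3 ≤ y →
    ∑ m ∈ (Icc 1 (y ^ B)).filter Squarefree, (1 / 4 : ℝ) ^ (om y m) * sg A m / m ≤ C * lam y := by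
  rcases Nat.eq_zero_or_pos B with rfl | hB
  · refine ⟨1, one_pos, fun y hy => ?_⟩
    rw [pow_zero]
    have h1 : (Icc 1 1).filter Squarefree = ({1} : Finset ℕ) := by
      ext m
      simp only [Finset.mem_filter, Finset.mem_Icc, Finset.mem_singleton]
      constructor
      · rintro ⟨⟨a, b⟩, _⟩
        omega
      · rintro rfl
        exact ⟨⟨le_refl _, le_refl _⟩, squarefree_one⟩
    rw [h1, Finset.sum_singleton]
    have h2 := one_le_lam hy
    simp [om, sg]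
    linarith
  obtain ⟨K, hK0, hK⟩ := n6a_sumf A B hB
  refine ⟨Real.exp K, Real.exp_pos _, fun y hy => ?_⟩
  refine (n6a_sum A y (y ^ B)).trans ?_
  have hy3 : (3 : ℝ) ≤ y := by exact_mod_cast hy
  have hl1 : 1 ≤ Real.log y := by
    rw [Real.le_log_iff_exp_le (by linarith)]
    linarith [Real.exp_one_lt_d9]
  calc Real.exp (∑ p ∈ TwHL.PP (y ^ B), n6a_f A y p)
      ≤ Real.exp (1 / 4 * Real.log (Real.log y) + K) := Real.exp_le_exp.2 (hK y hy)
    _ = Real.exp K * lam y := by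
      rw [add_comm, Real.exp_add]
      congr 1
      unfold lam
      rw [Real.rpow_def_of_pos (by linarith)]
      congr 1
      ring

end PA39
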