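import Pool.Agent.LibPA39.C1f
import Pool.Agent.LibPA39.N4
import Pool.Agent.LibPA39.N5
import Pool.Agent.LibPA39.N6a

/-!
[PA C1g] **The final sum of case 1** (from C1f `c1f`, N4 `kd`, N5 `ks`, N6a `ms`).
PROOF. Group `T` by `(k, k', m, c1, c2)` (`Finset.sum_fiberwise_of_maps_to` with the image under `z ↦ (z.k, z.k', z.m, z.c1, z.c2)`), `c1f` on each fibre. The image is contained in
`{(k, k', m, c1, c2) : k ∈ Icc 1 (w^2), k' ∈ Icc w (w^2), k' ≠ k, k ≤ 10^8 k', k' ≤ 10^8 k, m, c1, c2 ∈ Icc 1 (w^20), squarefree}` (enlarge: all terms `≥ 0`). The sum over `m` (same `c1`, `c2`): `ms 10 B`, `w^20 ≤ y^(40 TT)`: `≤ C lam`.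
The sum over `k'`: `sg 12 (dk k k') ≤ sg 20 (dk k k') ≤ sg 20 k * sgx 20 (dk k k') k` (`sg_mono`, `sg_le_sgx`); `kd 20 B` with `K = 10^8 k`, `K1 = k`, `J k' = dk k k'`, `κ = k` (`p ∣ |k - k'|` iff `k' ≡ k`), `w ≥ y`: `≤ C lam^4`.
The sum over `k`: `sg 20 k * sg 20 k = sg 40 k`, `ks 40 B` (`w^2 ≤ y^(4 TT)`): `≤ C lam^8`. Total `lam^(-23+3+4+8) = lam^(-8)`.
-/

namespace PA39

open Finset Pasch

private noncomputable def c1g_f (y m : ℕ) : ℝ := (1 / 4 : ℝ) ^ (om y m) * sg 10 m / m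

private noncomputable def c1g_G (x : ℕ × ℕ) : ℝ :=
  ta x.1 / x.1 * (ta x.2 / x.2) * (sg 20 x.1 * sg 20 x.2) * sg 12 (dk x.1 x.2)

private def c1g_P (w : ℕ) : Finset (ℕ × ℕ) :=
  (Icc 1 (w ^ 2) ×ˢ Icc w (w ^ 2)).filter
    (fun x => x.2 ≠ x.1 ∧ x.1 ≤ 10 ^ 8 * x.2 ∧ x.2 ≤ 10 ^ 8 * x.1)

private def c1g_M (w : ℕ) : Finset ℕ := (Icc 1 (w ^ 20)).filter Squarefree

private theorem c1g_f_nonneg (y m : ℕ) : 0 ≤ c1g_f y m := by
  have := (sg_pos 10 m).le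
  unfold c1g_f
  positivity

private theorem c1g_ta_nonneg (n : ℕ) : 0 ≤ ta n := by
  unfold ta
  positivity

private theorem c1g_G_nonneg (x : ℕ × ℕ) : 0 ≤ c1g_G x := by
  have h1 := c1g_ta_nonneg x.1
  have h2 := c1g_ta_nonneg x.2
  have h3 := (sg_pos 20 x.1).le
  have h4 := (sg_pos 20 x.2).le
  have h5 := (sg_pos 12 (dk x.1 x.2)).le
  unfold c1g_G
  positivity

private theorem c1g_prod {ι κ : Type*} (A : Finset ι) (B : Finset κ) (g : ι → ℝ) (h : κ → ℝ) :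
    ∑ x ∈ A ×ˢ B, g x.1 * h x.2 = (∑ i ∈ A, g i) * ∑ j ∈ B, h j := by
  rw [Finset.sum_product, Finset.sum_mul_sum]

private theorem c1g_lev {y w : ℕ} (h : Lev y w) : y ≤ w ∧ 2 ≤ w := by
  obtain ⟨h1, h2, -⟩ := h
  have h3 : y ^ 1 ≤ y ^ TT := Nat.pow_le_pow_right (by omega) (by have := TT_pos; omega)
  rw [pow_one] at h3
  omega

private theorem c1g_powle {y w : ℕ} (h : Lev y w) (e : ℕ) : w ^ e ≤ y ^ (2 * e * TT) := by
  obtain ⟨h1, h2, h3⟩ := h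
  calc w ^ e ≤ (y ^ (2 * TT)) ^ e := Nat.pow_le_pow_left h3 e
    _ = y ^ (2 * e * TT) := by
        rw [← pow_mul]
        congr 1
        ring

private theorem c1g_sumM : ∃ C : ℝ, 0 < C ∧ ∀ y w : ℕ, Lev y w →
    ∑ m ∈ c1g_M w, c1g_f y m ≤ C * lam y := by
  obtain ⟨C, hC, h⟩ := ms 10 (2 * 20 * TT)
  refine ⟨C, hC, fun y w hL => le_trans ?_ (h y hL.1)⟩
  refine Finset.sum_le_sum_of_subset_of_nonneg ?_ fun m _ _ => c1g_f_nonneg y m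
  unfold c1g_M
  refine Finset.filter_subset_filter _ (Finset.Icc_subset_Icc_right (c1g_powle hL 20))

private theorem c1g_sumP : ∃ C : ℝ, ∃ y1 : ℕ, 0 < C ∧ ∀ y w : ℕ, y1 ≤ y → Lev y w →
    ∑ x ∈ c1g_P w, c1g_G x ≤ C * lam y ^ 12 := by
  obtain ⟨C2, y2, hC2, h2⟩ := kd 20 (2 * 2 * TT + 17)
  obtain ⟨C3, hC3, h3⟩ := ks 40 (2 * 2 * TT)
  refine ⟨C2 * C3, y2, by positivity, fun y w hy hL => ?_⟩
  have hlam : 1 ≤ lam y := one_le_lam hL.1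
  obtain ⟨hyw, hw2⟩ := c1g_lev hL
  have hw2le := c1g_powle hL 2
  have key : ∀ k ∈ Icc 1 (w ^ 2),
      ∑ k' ∈ (Icc w (w ^ 2)).filter (fun k' => k' ≠ k ∧ k ≤ 10 ^ 8 * k' ∧ k' ≤ 10 ^ 8 * k),
        c1g_G (k, k') ≤ (ta k / k * sg 40 k) * (C2 * lam y ^ 4) := by
    intro k hk
    rw [Finset.mem_Icc] at hk
    have hk0 : k ≠ 0 := by omega
    have hb := h2 y hy (10 ^ 8 * k) k
      ((Icc w (w ^ 2)).filter (fun k' => k' ≠ k ∧ k ≤ 10 ^ 8 * k' ∧ k' ≤ 10 ^ 8 * k))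
      (fun k' => dk k k') ?_ ?_ ?_
    · have hk1 : 0 ≤ ta k / k * sg 40 k :=
        mul_nonneg (div_nonneg (c1g_ta_nonneg k) (Nat.cast_nonneg k)) (sg_pos 40 k).le
      refine le_trans ?_ (mul_le_mul_of_nonneg_left hb hk1)
      rw [Finset.mul_sum]
      refine Finset.sum_le_sum fun k' _ => ?_
      have e1 : sg 12 (dk k k') ≤ sg 20 k * sgx 20 (dk k k') k :=
        (sg_mono (by norm_num) _).trans (sg_le_sgx 20 hk0)
      have e2 : sg 20 k * sg 20 k = sg 40 k := sg_add 20 20 k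
      unfold c1g_G
      rw [← e2]
      have p1 : 0 ≤ ta k / k := div_nonneg (c1g_ta_nonneg k) (Nat.cast_nonneg k)
      have p2 : 0 ≤ ta k' / k' := div_nonneg (c1g_ta_nonneg k') (Nat.cast_nonneg k')
      have p3 : 0 ≤ ta k / k * (ta k' / k') * (sg 20 k * sg 20 k') :=
        mul_nonneg (mul_nonneg p1 p2) (mul_nonneg (sg_pos 20 k).le (sg_pos 20 k').le)
      calc ta k / k * (ta k' / k') * (sg 20 k * sg 20 k') * sg 12 (dk k k')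
          ≤ ta k / k * (ta k' / k') * (sg 20 k * sg 20 k') * (sg 20 k * sgx 20 (dk k k') k) :=
            mul_le_mul_of_nonneg_left e1 p3
        _ = ta k / k * (sg 20 k * sg 20 k) * (ta k' / k' * sg 20 k' * sgx 20 (dk k k') k) := by
            ring
    · have h8 : 10 ^ 8 ≤ y ^ 17 := by
        calc 10 ^ 8 ≤ 3 ^ 17 := by norm_num
          _ ≤ y ^ 17 := Nat.pow_le_pow_left hL.1 17
      calc 10 ^ 8 * k ≤ y ^ 17 * w ^ 2 := Nat.mul_le_mul h8 hk.2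
        _ ≤ y ^ 17 * y ^ (2 * 2 * TT) := Nat.mul_le_mul_left _ hw2le
        _ = y ^ (2 * 2 * TT + 17) := by rw [pow_add, mul_comm]
    · intro k' hk'
      rw [Finset.mem_filter, Finset.mem_Icc] at hk'
      obtain ⟨⟨a1, a2⟩, a3, a4, a5⟩ := hk'
      refine ⟨by omega, a5, by omega, ?_, ?_⟩
      · unfold dk
        omega
      · have hdk : dk k k' ≤ w ^ 2 := by
          unfold dk
          omega
        refine hdk.trans (hw2le.trans ?_)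
        exact Nat.pow_le_pow_right (by have := hL.1; omega) (by omega)
    · intro p _ hpk
      refine ⟨k, hpk, fun k' _ hd => ?_⟩
      have hd2 : (p : ℤ) ∣ (k : ℤ) - k' := by
        unfold dk at hd
        exact Int.natCast_dvd.2 hd
      exact (Nat.modEq_iff_dvd.2 hd2)
  have e1 : ∑ x ∈ c1g_P w, c1g_G x = ∑ k ∈ Icc 1 (w ^ 2),
      ∑ k' ∈ (Icc w (w ^ 2)).filter (fun k' => k' ≠ k ∧ k ≤ 10 ^ 8 * k' ∧ k' ≤ 10 ^ 8 * k),
        c1g_G (k, k') := by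
    unfold c1g_P
    rw [Finset.sum_filter, Finset.sum_product]
    refine Finset.sum_congr rfl fun k _ => ?_
    rw [Finset.sum_filter]
  rw [e1]
  refine (Finset.sum_le_sum key).trans ?_
  rw [← Finset.sum_mul]
  have h4 : ∑ k ∈ Icc 1 (w ^ 2), ta k / k * sg 40 k ≤ C3 * lam y ^ 8 := by
    refine le_trans ?_ (h3 y hL.1)
    refine Finset.sum_le_sum_of_subset_of_nonneg (Finset.Icc_subset_Icc_right hw2le) ?_
    intro k _ _
    exact mul_nonneg (div_nonneg (c1g_ta_nonneg k) (Nat.cast_nonneg k)) (sg_pos 40 k).le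
  have h5 : (0 : ℝ) ≤ C2 * lam y ^ 4 := by positivity
  calc (∑ k ∈ Icc 1 (w ^ 2), ta k / k * sg 40 k) * (C2 * lam y ^ 4)
      ≤ (C3 * lam y ^ 8) * (C2 * lam y ^ 4) := mul_le_mul_of_nonneg_right h4 h5
    _ = C2 * C3 * lam y ^ 12 := by ring

theorem c1g (N : ℕ) (hN : 1000 ≤ N) : ∃ C : ℝ, ∃ y1 : ℕ, 0 < C ∧ ∀ y w : ℕ, y1 ≤ y → Lev y w →
    ∀ T : Finset Ky, (∀ z ∈ T, V1 N w z) → ∑ z ∈ T, B1 N w y z ≤ C * (w : ℝ) ^ N / lam y ^ 8 := by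
  classical
  obtain ⟨C0, y0, hC0, h0⟩ := c1f N hN
  obtain ⟨C1, hC1, h1⟩ := c1g_sumM
  obtain ⟨C2, y2, hC2, h2⟩ := c1g_sumP
  refine ⟨C0 * (C2 * C1 ^ 3), max y0 y2, by positivity, fun y w hy hL T hT => ?_⟩
  have hy0 : y0 ≤ y := (le_max_left _ _).trans hy
  have hy2 : y2 ≤ y := (le_max_right _ _).trans hy
  have hlam : 1 ≤ lam y := one_le_lam hL.1
  have hlam0 : 0 < lam y := by linarith
  obtain ⟨hyw, hw2⟩ := c1g_lev hL
  obtain ⟨Q, hQ⟩ : ∃ Q : ℝ, Q = C0 * (w : ℝ) ^ N / lam y ^ 23 := ⟨_, rfl⟩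
  have hQ0 : 0 ≤ Q := by
    rw [hQ]
    positivity
  obtain ⟨Bx, hBx⟩ : ∃ Bx : Finset ((ℕ × ℕ) × (ℕ × (ℕ × ℕ))),
      Bx = c1g_P w ×ˢ (c1g_M w ×ˢ (c1g_M w ×ˢ c1g_M w)) := ⟨_, rfl⟩
  have hmaps : ∀ z ∈ T, ((z.k, z.k'), (z.m, (z.c1, z.c2))) ∈ Bx := by
    intro z hz
    have hv := hT z hz
    have hsq := hv.sq
    have hne := hsq.ne_zero
    have q1 : Squarefree (z.m * z.c1 * z.c2) := hsq.of_mul_left
    have q2 : Squarefree (z.m * z.c1) := q1.of_mul_left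
    have m0 : z.m ≠ 0 := q2.of_mul_left.ne_zero
    have c10 : z.c1 ≠ 0 := q2.of_mul_right.ne_zero
    have c20 : z.c2 ≠ 0 := q1.of_mul_right.ne_zero
    have b1 := hv.vk.c2
    have b2 := hv.vk'.c2
    have l1 : z.m ≤ z.m * z.c1 := Nat.le_mul_of_pos_right _ (Nat.pos_of_ne_zero c10)
    have l2 : z.c1 ≤ z.m * z.c1 := Nat.le_mul_of_pos_left _ (Nat.pos_of_ne_zero m0)
    have l3 : z.c2 ≤ z.m * z.c2 := Nat.le_mul_of_pos_left _ (Nat.pos_of_ne_zero m0)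
    rw [hBx, Finset.mem_product, Finset.mem_product, Finset.mem_product]
    unfold c1g_P c1g_M
    simp only [Finset.mem_filter, Finset.mem_product, Finset.mem_Icc]
    exact ⟨⟨⟨⟨hv.vk.k1, hv.vk.k2⟩, hv.wk', hv.vk'.k2⟩, hv.ne.symm, hv.kk, hv.kk'⟩,
      ⟨⟨by omega, by omega⟩, q2.of_mul_left⟩, ⟨⟨by omega, by omega⟩, q2.of_mul_right⟩,
      ⟨⟨by omega, by omega⟩, q1.of_mul_right⟩⟩
  rw [← Finset.sum_fiberwise_of_maps_to hmaps]
  have hfib : ∀ i ∈ Bx, ∑ z ∈ T.filter (fun z => ((z.k, z.k'), (z.m, (z.c1, z.c2))) = i),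
      B1 N w y z ≤ Q * (c1g_G i.1 * (c1g_f y i.2.1 * (c1g_f y i.2.2.1 * c1g_f y i.2.2.2))) := by
    rintro ⟨⟨k, k'⟩, m, c1, c2⟩ -
    have h3 := h0 y w hy0 hL k k' m c1 c2
      (T.filter (fun z => ((z.k, z.k'), (z.m, (z.c1, z.c2))) = ((k, k'), (m, (c1, c2))))) ?_
    · refine h3.trans_eq ?_
      rw [hQ]
      unfold c1g_G c1g_f
      simp only [div_eq_mul_inv, mul_inv, pow_add]
      ring
    · intro z hz
      rw [Finset.mem_filter] at hz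
      obtain ⟨hz, e⟩ := hz
      simp only [Prod.mk.injEq] at e
      exact ⟨hT z hz, e.1.1, e.1.2, e.2.1, e.2.2.1, e.2.2.2⟩
  refine (Finset.sum_le_sum hfib).trans ?_
  rw [← Finset.mul_sum, hBx, c1g_prod (c1g_P w) (c1g_M w ×ˢ (c1g_M w ×ˢ c1g_M w)) c1g_G
      (fun j => c1g_f y j.1 * (c1g_f y j.2.1 * c1g_f y j.2.2)),
    c1g_prod (c1g_M w) (c1g_M w ×ˢ c1g_M w) (c1g_f y)
      (fun j => c1g_f y j.1 * c1g_f y j.2),
    c1g_prod (c1g_M w) (c1g_M w) (c1g_f y) (c1g_f y)]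
  have hP := h2 y w hy2 hL
  have hM := h1 y w hL
  have hM0 : 0 ≤ ∑ m ∈ c1g_M w, c1g_f y m := Finset.sum_nonneg fun m _ => c1g_f_nonneg y m
  have hCl : 0 ≤ C1 * lam y := by positivity
  have h4 : (∑ m ∈ c1g_M w, c1g_f y m) * ((∑ m ∈ c1g_M w, c1g_f y m) *
      ∑ m ∈ c1g_M w, c1g_f y m) ≤ (C1 * lam y) * ((C1 * lam y) * (C1 * lam y)) :=
    mul_le_mul hM (mul_le_mul hM hM hM0 hCl) (mul_nonneg hM0 hM0) hCl
  have h5 : (∑ x ∈ c1g_P w, c1g_G x) * ((∑ m ∈ c1g_M w, c1g_f y m) *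
      ((∑ m ∈ c1g_M w, c1g_f y m) * ∑ m ∈ c1g_M w, c1g_f y m)) ≤
      (C2 * lam y ^ 12) * ((C1 * lam y) * ((C1 * lam y) * (C1 * lam y))) :=
    mul_le_mul hP h4 (mul_nonneg hM0 (mul_nonneg hM0 hM0)) (by positivity)
  refine (mul_le_mul_of_nonneg_left h5 hQ0).trans_eq ?_
  rw [hQ]
  have e : lam y ^ 23 = lam y ^ 15 * lam y ^ 8 := by ring
  rw [e]
  field_simp

end PA39
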