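import Pool.Agent.LibPA39.C1a
import Pool.Agent.LibPA39.C1g
import Pool.Agent.LibPA39.N8a

/-!
[PA C1z] **Case 1** (from C1k `c1k`, C1a `c1a`, C1g `c1g`, N8a `lv`).
PROOF. Choose `y` by `lv`. Group `S` by `key1` (`Finset.sum_fiberwise_of_maps_to`), `c1a` on each fibre (with `c1k`: `V1` and `R1`), then `c1g` for the finset of keys. `lam y ^ 8 = (log y)^2` (`lam_pow_four`) and
`log w ≤ 2 TT log y` (`w ≤ y^(2 TT)`), so `1/lam^8 ≤ (2 TT)^2/(log w)^2`.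
-/

namespace PA39

open Finset Pasch

theorem lam8 {y w : ℕ} (h : Lev y w) : 1 / lam y ^ 8 ≤ (2 * (TT : ℝ)) ^ 2 / (Real.log w) ^ 2 := by
  obtain ⟨hy, h1, h2⟩ := h
  have hy3 : (3 : ℝ) ≤ y := by exact_mod_cast hy
  have hw1 : 1 < w := by
    have : 1 < y ^ TT := Nat.one_lt_pow (by have := TT_pos; omega) (by omega)
    omega
  have hw : (1 : ℝ) < w := by exact_mod_cast hw1
  have hlw : 0 < Real.log w := Real.log_pos hw
  have hly : 0 < Real.log y := Real.log_pos (by linarith)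
  have h3 : Real.log w ≤ 2 * (TT : ℝ) * Real.log y := by
    have h4 : (w : ℝ) ≤ (y : ℝ) ^ (2 * TT) := by exact_mod_cast h2
    have h5 := Real.log_le_log (by linarith) h4
    rw [Real.log_pow] at h5
    push_cast at h5
    exact h5
  have e : lam y ^ 8 = (Real.log y) ^ 2 := by
    rw [← lam_pow_four]
    ring
  rw [e, div_le_div_iff₀ (by positivity) (by positivity), one_mul, ← mul_pow]
  exact pow_le_pow_left₀ hlw.le h3 2

theorem c1z (N : ℕ) (hN : 1000 ≤ N) : ∃ C : ℝ, ∃ w1 : ℕ, 0 < C ∧ ∀ w : ℕ, w1 ≤ w → ∀ S : Finset (Cf × Cf),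
    (∀ x ∈ S, P1 N w x) → ∑ x ∈ S, wt w x.1 * wt w x.2 ≤ C * (w : ℝ) ^ N / (Real.log w) ^ 2 := by
  classical
  obtain ⟨C1, hC1, h1⟩ := c1a N hN
  obtain ⟨C2, y1, hC2, h2⟩ := c1g N hN
  obtain ⟨w1, h3⟩ := lv y1
  have hTT : (0 : ℝ) < TT := by
    have := TT_pos
    have : 0 < TT := by omega
    exact_mod_cast this
  refine ⟨C1 * C2 * (2 * (TT : ℝ)) ^ 2, max w1 2, by positivity, ?_⟩
  intro w hw S hS
  have hw2 : 2 ≤ w := (le_max_right _ _).trans hw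
  obtain ⟨y, hy, hLev⟩ := h3 w ((le_max_left _ _).trans hw)
  have hmaps : ∀ x ∈ S, key1 x ∈ S.image key1 := fun x hx => mem_image_of_mem _ hx
  have hV : ∀ z ∈ S.image key1, V1 N w z := by
    intro z hz
    obtain ⟨x, hx, rfl⟩ := mem_image.mp hz
    exact (c1k hw2 (hS x hx)).1
  have hg := h2 y w hy hLev (S.image key1) hV
  have hfib : ∀ z ∈ S.image key1, ∑ x ∈ S with key1 x = z, wt w x.1 * wt w x.2 ≤ C1 * B1 N w y z := by
    intro z hz
    apply h1 y w hLev z (hV z hz)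
    intro x hx
    obtain ⟨hxS, hxz⟩ := mem_filter.mp hx
    refine ⟨hS x hxS, ?_⟩
    rw [← hxz]
    exact (c1k hw2 (hS x hxS)).2
  calc ∑ x ∈ S, wt w x.1 * wt w x.2
      = ∑ z ∈ S.image key1, ∑ x ∈ S with key1 x = z, wt w x.1 * wt w x.2 :=
        (sum_fiberwise_of_maps_to hmaps _).symm
    _ ≤ ∑ z ∈ S.image key1, C1 * B1 N w y z := sum_le_sum hfib
    _ = C1 * ∑ z ∈ S.image key1, B1 N w y z := by rw [mul_sum]
    _ ≤ C1 * (C2 * (w : ℝ) ^ N / lam y ^ 8) := mul_le_mul_of_nonneg_left hg hC1.le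
    _ = C1 * C2 * (w : ℝ) ^ N * (1 / lam y ^ 8) := by ring
    _ ≤ C1 * C2 * (w : ℝ) ^ N * ((2 * (TT : ℝ)) ^ 2 / (Real.log w) ^ 2) :=
        mul_le_mul_of_nonneg_left (lam8 hLev) (by positivity)
    _ = C1 * C2 * (2 * (TT : ℝ)) ^ 2 * (w : ℝ) ^ N / (Real.log w) ^ 2 := by ring

end PA39
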