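import Pool.Agent.LibPA39.CC1
import Pool.Agent.LibPA39.N9a

/-!
[PA CC2] **Degenerate pairs are negligible** (from CC1).
PROOF. Weights `≤ 1`. Key `(k, k', c, d)`: by `cc1` it determines `d'` (`k d'^2 = ..`, `d' > 0`). For a fixed key the pair is determined by `(b, a)`: `b ≤ k H/c` (`b c ≤ k a ≤ k H`, `H = HH N w k`, `b ≥ 1`), and for given `b` the `a ≤ H` lie in one class mod
`D = lcm(d, d')` (`d ∣ k a - b c`, `d.Coprime k`; `d' ∣ k' a - b c`), `D = d d'/gcd ≥ c^2/(16 w^2)` (`c ≤ 4 d`, `c ≤ 4 d'`), `D ≤ 16 w^40 ≤ H`: at most `H/D + 1 ≤ 2 H/D ≤ 32 H w^2/c^2` values. So at most `32 k H^2 w^2/c^3 ≤ 32 * 10^4 w^N w^2/c^3` pairs for a key.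
Sum over `k, k' ≤ w^2`, `c ∈ [w^10, w^20]`, `d ≤ 4 c`: `≤ 128 * 10^4 w^(N+6) ∑_{c ≥ w^10} 1/c^2 ≤ C w^(N+6-10)`, and `(log w)^2 ≤ w^4`.
-/

namespace PA39

open Finset Pasch

private theorem cc2_mod (A : Finset ℕ) (H D : ℕ) (hA : ∀ a ∈ A, a ≤ H)
    (hm : ∀ a ∈ A, ∀ b ∈ A, a ≡ b [MOD D]) : A.card ≤ H / D + 1 := by
  have h0 : A.card ≤ (Finset.range (H / D + 1)).card := by
    apply Finset.card_le_card_of_injOn (fun a => a / D)
    · intro a ha
      simp only [Finset.coe_range, Set.mem_Iio]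
      have := Nat.div_le_div_right (c := D) (hA a ha)
      omega
    · intro a ha b hb h
      have h1 := hm a ha b hb
      unfold Nat.ModEq at h1
      have h2 : a / D = b / D := h
      rw [← Nat.div_add_mod a D, ← Nat.div_add_mod b D, h1, h2]
  simpa using h0

private theorem cc2_ef {N w : ℕ} {q r : Cf} (hq : IsConf N w q) (hr : IsConf N w r) (hw : 1 ≤ w)
    (hk : q.k = r.k) (ha : q.a = r.a) (hb : q.b = r.b) (hc : q.c = r.c) (hd : q.d = r.d) : q = r := by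
  obtain ⟨_, _, _, p4, _, _⟩ := conf_pos hq
  have k1 := (conf_VK hq hw).k1
  have he : q.e = r.e := by
    have e1 := hq.eq1
    have e2 := hr.eq1
    rw [← hk, ← ha, ← hb, ← hc, ← hd] at e2
    have : q.d * q.e = q.d * r.e := by omega
    exact Nat.eq_of_mul_eq_mul_left (Nat.pos_of_ne_zero p4) this
  have hf : q.f = r.f := by
    have e1 := hq.eq2
    have e2 := hr.eq2
    rw [← hk, ← hb, ← hc, ← hd, ← he] at e2
    exact Nat.eq_of_mul_eq_mul_left k1 (e1.symm.trans e2)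
  cases q
  cases r
  simp only at hk ha hb hc hd he hf
  subst hk ha hb hc hd he hf
  rfl

/-- `d'` is determined by the key -/
private theorem cc2_d' {N w : ℕ} (hw : 2 ≤ w) {x y : Cf × Cf} (hx : PC N w x) (hy : PC N w y)
    (hk : x.1.k = y.1.k) (hk' : x.2.k = y.2.k) (hc : x.1.c = y.1.c) (hd : x.1.d = y.1.d) : x.2.d = y.2.d := by
  obtain ⟨_, _, h1, _⟩ := cc1 hw hx
  obtain ⟨_, _, h2, _⟩ := cc1 hw hy
  rw [← hk, ← hk', ← hc, ← hd] at h2
  have h3 := h1.trans h2.symm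
  have k1 : (x.1.k : ℤ) ≠ 0 := by
    have := (conf_VK hx.h1 (by omega : 1 ≤ w)).k1
    exact_mod_cast (by omega : x.1.k ≠ 0)
  have h4 := mul_left_cancel₀ k1 h3
  have h5 : ((x.2.d : ℤ)) ^ 2 = (y.2.d : ℤ) ^ 2 := by linarith
  have h6 : x.2.d ^ 2 = y.2.d ^ 2 := by exact_mod_cast h5
  exact Nat.pow_left_injective (by norm_num : 2 ≠ 0) h6

private theorem cc2_ka {N w : ℕ} {q : Cf} (hq : IsConf N w q) : q.b * q.c ≤ q.k * q.a := by
  have := hq.eq1
  omega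

/-- congruence for `a` -/
private theorem cc2_cong {N w : ℕ} {q r : Cf} (hq : IsConf N w q) (hr : IsConf N w r)
    (hk : q.k = r.k) (hb : q.b = r.b) (hc : q.c = r.c) (hd : q.d = r.d) : q.a ≡ r.a [MOD q.d] := by
  have e1 := hq.eq1
  have e2 := hr.eq1
  rw [← hk, ← hb, ← hc, ← hd] at e2
  have h1 : q.k * q.a ≡ q.k * r.a [MOD q.d] := by
    rw [← e1, ← e2]
    apply Nat.ModEq.add_right
    have a1 : q.d * q.e ≡ 0 [MOD q.d] := (Nat.modEq_zero_iff_dvd).2 (dvd_mul_right _ _)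
    have a2 : q.d * r.e ≡ 0 [MOD q.d] := (Nat.modEq_zero_iff_dvd).2 (dvd_mul_right _ _)
    exact a1.trans a2.symm
  exact Nat.ModEq.cancel_left_of_coprime (conf_kcop hq).2 h1

private theorem cc2_fib (N : ℕ) (hN : 1000 ≤ N) {w : ℕ} (hw : 2 ≤ w) (k k' c d : ℕ) (F : Finset (Cf × Cf))
    (hF : ∀ x ∈ F, PC N w x ∧ x.1.k = k ∧ x.2.k = k' ∧ x.1.c = c ∧ x.1.d = d) :
    (F.card : ℝ) ≤ 32 * 10 ^ 4 * (w : ℝ) ^ (N + 2) / (c : ℝ) ^ 3 := by
  rcases F.eq_empty_or_nonempty with h0 | ⟨x0, hx0⟩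
  · subst h0
    simp only [Finset.card_empty, Nat.cast_zero]
    positivity
  obtain ⟨h0, rfl, rfl, rfl, rfl⟩ := hF x0 hx0
  have hw1 : 1 ≤ w := by omega
  obtain ⟨-, -, p3, p4, -, -⟩ := conf_pos h0.h1
  obtain ⟨-, -, -, p4', -, -⟩ := conf_pos h0.h2
  obtain ⟨c1, c2, c3, c4⟩ := cc1 hw h0
  have hV := conf_VK h0.h1 hw1
  set k := x0.1.k with hk
  set c := x0.1.c with hc
  set d := x0.1.d with hd
  set d' := x0.2.d with hd'
  set H := HH N w k with hH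
  set D := Nat.lcm d d' with hD
  have hcpos : 0 < c := Nat.pos_of_ne_zero p3
  have hdpos : 0 < d := Nat.pos_of_ne_zero p4
  have hdpos' : 0 < d' := Nat.pos_of_ne_zero p4'
  have hDpos : 0 < D := Nat.lcm_pos hdpos hdpos'
  have hDg : D.gcd 0 = D := Nat.gcd_zero_right D
  -- the fibre over b
  have hb : ∀ b : ℕ, (F.filter (fun x => x.1.b = b)).card ≤ H / D + 1 := by
    intro b
    have hinj : Set.InjOn (fun x : Cf × Cf => x.1.a) (F.filter (fun x => x.1.b = b)) := by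
      intro x hx y hy hxy
      rw [Finset.mem_coe, Finset.mem_filter] at hx hy
      obtain ⟨hx1, a1, a2, a3, a4⟩ := hF x hx.1
      obtain ⟨hy1, b1, b2, b3, b4⟩ := hF y hy.1
      have hxy' : x.1.a = y.1.a := hxy
      have e1 : x.1 = y.1 := cc2_ef hx1.h1 hy1.h1 hw1 (a1.trans b1.symm) hxy' (hx.2.trans hy.2.symm)
        (a3.trans b3.symm) (a4.trans b4.symm)
      have ed := cc2_d' hw hx1 hy1 (a1.trans b1.symm) (a2.trans b2.symm) (a3.trans b3.symm) (a4.trans b4.symm)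
      obtain ⟨u1, u2, -, -⟩ := cc1 hw hx1
      obtain ⟨v1, v2, -, -⟩ := cc1 hw hy1
      have e2 : x.2 = y.2 := cc2_ef hx1.h2 hy1.h2 hw1 (a2.trans b2.symm) (by rw [← hx1.ha, ← hy1.ha]; exact hxy')
        (by rw [← u2, ← v2]; exact hx.2.trans hy.2.symm) (by rw [← u1, ← v1]; exact a3.trans b3.symm) ed
      exact Prod.ext e1 e2
    rw [← Finset.card_image_of_injOn hinj]
    apply cc2_mod
    · intro a ha
      rw [Finset.mem_image] at ha
      obtain ⟨x, hx, rfl⟩ := ha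
      rw [Finset.mem_filter] at hx
      obtain ⟨hx1, a1, a2, a3, a4⟩ := hF x hx.1
      have := conf_HH hx1.h1 hw1
      rw [a1] at this
      exact this
    · intro a ha a' ha'
      rw [Finset.mem_image] at ha ha'
      obtain ⟨x, hx, rfl⟩ := ha
      obtain ⟨y, hy, rfl⟩ := ha'
      rw [Finset.mem_filter] at hx hy
      obtain ⟨hx1, a1, a2, a3, a4⟩ := hF x hx.1
      obtain ⟨hy1, b1, b2, b3, b4⟩ := hF y hy.1
      have ed := cc2_d' hw hx1 hy1 (a1.trans b1.symm) (a2.trans b2.symm) (a3.trans b3.symm) (a4.trans b4.symm)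
      have ed0 : x.2.d = d' := cc2_d' hw hx1 h0 a1 a2 a3 a4
      obtain ⟨u1, u2, -, -⟩ := cc1 hw hx1
      obtain ⟨v1, v2, -, -⟩ := cc1 hw hy1
      have m1 := cc2_cong hx1.h1 hy1.h1 (a1.trans b1.symm) (hx.2.trans hy.2.symm) (a3.trans b3.symm) (a4.trans b4.symm)
      have m2 := cc2_cong hx1.h2 hy1.h2 (a2.trans b2.symm) (by rw [← u2, ← v2]; exact hx.2.trans hy.2.symm)
        (by rw [← u1, ← v1]; exact a3.trans b3.symm) ed
      rw [a4] at m1
      rw [ed0, ← hx1.ha, ← hy1.ha] at m2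
      rcases le_total x.1.a y.1.a with hle | hle
      · rw [Nat.modEq_iff_dvd' hle] at m1 m2 ⊢
        exact Nat.lcm_dvd m1 m2
      · have m1' := m1.symm
        have m2' := m2.symm
        rw [Nat.modEq_iff_dvd' hle] at m1' m2'
        exact ((Nat.modEq_iff_dvd' hle).2 (Nat.lcm_dvd m1' m2')).symm
  have hmaps : ∀ x ∈ F, x.1.b ∈ Finset.Icc 1 (k * H / c) := by
    intro x hx
    obtain ⟨hx1, a1, a2, a3, a4⟩ := hF x hx
    obtain ⟨-, q2, -, -, -, -⟩ := conf_pos hx1.h1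
    rw [Finset.mem_Icc]
    refine ⟨Nat.pos_of_ne_zero q2, ?_⟩
    rw [Nat.le_div_iff_mul_le hcpos]
    have h1 := cc2_ka hx1.h1
    have h2 := conf_HH hx1.h1 hw1
    rw [a1, a3] at h1
    rw [a1] at h2
    exact h1.trans (Nat.mul_le_mul_left _ h2)
  have hcard : F.card ≤ k * H / c * (H / D + 1) := by
    rw [Finset.card_eq_sum_card_fiberwise (f := fun x : Cf × Cf => x.1.b) (t := Finset.Icc 1 (k * H / c)) hmaps]
    refine (Finset.sum_le_card_nsmul _ _ (H / D + 1) fun b _ => hb b).trans ?_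
    rw [Nat.card_Icc, smul_eq_mul, Nat.add_sub_cancel]
  -- sizes
  have hkH : k * H ^ 2 ≤ 10 ^ 4 * w ^ N := by
    have h1 : H ^ 2 ≤ 10 ^ 4 * w ^ N / k := by
      rw [hH]
      unfold HH
      exact Nat.sqrt_le' _
    calc k * H ^ 2 ≤ k * (10 ^ 4 * w ^ N / k) := Nat.mul_le_mul_left _ h1
      _ ≤ 10 ^ 4 * w ^ N := Nat.mul_div_le _ _
  have hHbig : w ^ 40 ≤ H := by
    rw [hH]
    unfold HH
    rw [Nat.le_sqrt', Nat.le_div_iff_mul_le hV.k1]
    calc (w ^ 40) ^ 2 * k ≤ (w ^ 40) ^ 2 * w ^ 2 := Nat.mul_le_mul_left _ hV.k2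
      _ = w ^ 82 := by ring
      _ ≤ w ^ N := Nat.pow_le_pow_right hw1 (by omega)
      _ ≤ 10 ^ 4 * w ^ N := Nat.le_mul_of_pos_left _ (by norm_num)
  have hDmul : d.gcd d' * D = d * d' := Nat.gcd_mul_lcm d d'
  have hDle : D ≤ H := by
    have h1 : D ≤ d * d' := Nat.le_of_dvd (Nat.mul_pos hdpos hdpos') (Nat.lcm_dvd (dvd_mul_right _ _) (dvd_mul_left _ _))
    have h2 : d ≤ w ^ 20 := h0.h1.dhi
    have h3 : d' ≤ w ^ 20 := h0.h2.dhi
    calc D ≤ d * d' := h1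
      _ ≤ w ^ 20 * w ^ 20 := Nat.mul_le_mul h2 h3
      _ = w ^ 40 := by ring
      _ ≤ H := hHbig
  have hDlow : c ^ 2 ≤ 16 * w ^ 2 * D := by
    have h2 : c ≤ 4 * d := h0.h1.cd
    have h3 : c ≤ 4 * d' := by
      have := h0.h2.cd
      rw [← c1] at this
      exact this
    calc c ^ 2 = c * c := by ring
      _ ≤ 4 * d * (4 * d') := Nat.mul_le_mul h2 h3
      _ = 16 * (d.gcd d' * D) := by rw [hDmul]; ring
      _ ≤ 16 * (w ^ 2 * D) := Nat.mul_le_mul_left _ (Nat.mul_le_mul_right _ c4)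
      _ = 16 * w ^ 2 * D := by ring
  -- real numbers
  have hcR : (0 : ℝ) < c := by exact_mod_cast hcpos
  have hDR : (0 : ℝ) < D := by exact_mod_cast hDpos
  have hwR : (0 : ℝ) < w := by exact_mod_cast (by omega : 0 < w)
  have r1 : ((k * H / c : ℕ) : ℝ) ≤ k * H / c := by
    have := @Nat.cast_div_le ℝ _ _ _ (k * H) c
    rw [Nat.cast_mul] at this
    exact this
  have r2 : ((H / D + 1 : ℕ) : ℝ) ≤ 2 * H / D := by
    have h1 := @Nat.cast_div_le ℝ _ _ _ H D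
    have h2 : (1 : ℝ) ≤ H / D := by
      rw [le_div_iff₀ hDR, one_mul]
      exact_mod_cast hDle
    push_cast
    have h3 : 2 * (H : ℝ) / D = H / D + H / D := by ring
    rw [h3]
    have h4 : ((H / D : ℕ) : ℝ) ≤ (H : ℝ) / D := h1
    linarith
  have r3 : 1 / (D : ℝ) ≤ 16 * w ^ 2 / c ^ 2 := by
    rw [div_le_div_iff₀ hDR (by positivity), one_mul]
    exact_mod_cast hDlow
  have r4 : (k : ℝ) * H ^ 2 ≤ 10 ^ 4 * w ^ N := by exact_mod_cast hkH
  calc (F.card : ℝ) ≤ ((k * H / c * (H / D + 1) : ℕ) : ℝ) := by exact_mod_cast hcard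
    _ = ((k * H / c : ℕ) : ℝ) * ((H / D + 1 : ℕ) : ℝ) := by rw [Nat.cast_mul]
    _ ≤ (k * H / c) * (2 * H / D) := mul_le_mul r1 r2 (Nat.cast_nonneg _) (by positivity)
    _ = 2 * (k * H ^ 2) / c * (1 / D) := by ring
    _ ≤ 2 * (10 ^ 4 * w ^ N) / c * (16 * w ^ 2 / c ^ 2) := by
        apply mul_le_mul _ r3 (by positivity) (by positivity)
        gcongr
    _ = 32 * 10 ^ 4 * (w : ℝ) ^ (N + 2) / (c : ℝ) ^ 3 := by
        rw [pow_add]
        field_simp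
        ring

theorem cc2 (N : ℕ) (hN : 1000 ≤ N) : ∃ C : ℝ, ∃ w1 : ℕ, 0 < C ∧ ∀ w : ℕ, w1 ≤ w → ∀ S : Finset (Cf × Cf),
    (∀ x ∈ S, PC N w x) → ∑ x ∈ S, wt w x.1 * wt w x.2 ≤ C * (w : ℝ) ^ N / (Real.log w) ^ 2 := by
  refine ⟨256 * 10 ^ 4, 2, by norm_num, fun w hw S hS => ?_⟩
  have hw1 : 1 ≤ w := by omega
  have hwR : (1 : ℝ) < w := by exact_mod_cast (by omega : 1 < w)
  have hw0 : (0 : ℝ) < w := by linarith
  have h1 : ∑ x ∈ S, wt w x.1 * wt w x.2 ≤ (S.card : ℝ) := by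
    calc ∑ x ∈ S, wt w x.1 * wt w x.2 ≤ ∑ x ∈ S, (1 : ℝ) := by
          apply Finset.sum_le_sum
          intro x _
          calc wt w x.1 * wt w x.2 ≤ 1 * 1 := mul_le_mul (wt_le_one _ _) (wt_le_one _ _) (wt_nonneg _ _) zero_le_one
            _ = 1 := one_mul 1
      _ = (S.card : ℝ) := by simp
  -- the sum over (k, k', c)
  set T : Finset (ℕ × ℕ × ℕ) := Finset.Icc 1 (w ^ 2) ×ˢ Finset.Icc 1 (w ^ 2) ×ˢ Finset.Ioo (w ^ 10 - 1) (w ^ 20 + 1) with hT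
  have hmaps : ∀ x ∈ S, (x.1.k, x.2.k, x.1.c) ∈ T := by
    intro x hx
    have hV := conf_VK (hS x hx).h1 hw1
    have hV' := conf_VK (hS x hx).h2 hw1
    have hp : 1 ≤ w ^ 10 := Nat.one_le_pow _ _ (by omega)
    rw [hT, Finset.mem_product, Finset.mem_product, Finset.mem_Icc, Finset.mem_Icc, Finset.mem_Ioo]
    refine ⟨⟨hV.k1, hV.k2⟩, ⟨hV'.k1, hV'.k2⟩, ?_, ?_⟩
    · have := hV.c1
      show w ^ 10 - 1 < x.1.c
      omega
    · have := hV.c2
      show x.1.c < w ^ 20 + 1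
      omega
  have hfib : ∀ t ∈ T, (((S.filter (fun x => (x.1.k, x.2.k, x.1.c) = t)).card : ℕ) : ℝ) ≤
      128 * 10 ^ 4 * (w : ℝ) ^ (N + 2) * ((t.2.2 : ℝ) ^ 2)⁻¹ := by
    rintro ⟨k, k', c⟩ ht
    rw [hT, Finset.mem_product, Finset.mem_product, Finset.mem_Ioo] at ht
    have hc1 : w ^ 10 - 1 < c := ht.2.2.1
    have hcpos : 0 < c := by omega
    have hcR : (0 : ℝ) < c := by exact_mod_cast hcpos
    set G := S.filter (fun x => (x.1.k, x.2.k, x.1.c) = (k, k', c)) with hG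
    have hGm : ∀ x ∈ G, x ∈ S ∧ x.1.k = k ∧ x.2.k = k' ∧ x.1.c = c := by
      intro x hx
      rw [hG, Finset.mem_filter, Prod.mk.injEq, Prod.mk.injEq] at hx
      exact ⟨hx.1, hx.2.1, hx.2.2.1, hx.2.2.2⟩
    have hmd : ∀ x ∈ G, x.1.d ∈ Finset.Icc 1 (4 * c) := by
      intro x hx
      obtain ⟨g1, g2, g3, g4⟩ := hGm x hx
      obtain ⟨-, -, -, p4, -, -⟩ := conf_pos (hS x g1).h1
      rw [Finset.mem_Icc]
      refine ⟨Nat.pos_of_ne_zero p4, ?_⟩
      have := (hS x g1).h1.dc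
      rw [g4] at this
      exact this
    have hcard : (G.card : ℝ) = ∑ d ∈ Finset.Icc 1 (4 * c), ((G.filter (fun x => x.1.d = d)).card : ℝ) := by
      rw [Finset.card_eq_sum_card_fiberwise (f := fun x : Cf × Cf => x.1.d) (t := Finset.Icc 1 (4 * c)) hmd]
      push_cast
      rfl
    rw [hcard]
    calc ∑ d ∈ Finset.Icc 1 (4 * c), ((G.filter (fun x => x.1.d = d)).card : ℝ)
        ≤ ∑ d ∈ Finset.Icc 1 (4 * c), 32 * 10 ^ 4 * (w : ℝ) ^ (N + 2) / (c : ℝ) ^ 3 := by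
          apply Finset.sum_le_sum
          intro d _
          apply cc2_fib N hN hw k k' c d
          intro x hx
          rw [Finset.mem_filter] at hx
          obtain ⟨g1, g2, g3, g4⟩ := hGm x hx.1
          exact ⟨hS x g1, g2, g3, g4, hx.2⟩
      _ = 128 * 10 ^ 4 * (w : ℝ) ^ (N + 2) * ((c : ℝ) ^ 2)⁻¹ := by
          rw [Finset.sum_const, Nat.card_Icc, Nat.add_sub_cancel, nsmul_eq_mul]
          push_cast
          field_simp
          ring
  have hcardS : (S.card : ℝ) ≤ 256 * 10 ^ 4 * (w : ℝ) ^ (N + 6) / (w : ℝ) ^ 10 := by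
    rw [Finset.card_eq_sum_card_fiberwise (f := fun x : Cf × Cf => (x.1.k, x.2.k, x.1.c)) (t := T) hmaps]
    push_cast
    calc ∑ t ∈ T, ((S.filter (fun x => (x.1.k, x.2.k, x.1.c) = t)).card : ℝ)
        ≤ ∑ t ∈ T, 128 * 10 ^ 4 * (w : ℝ) ^ (N + 2) * ((t.2.2 : ℝ) ^ 2)⁻¹ := Finset.sum_le_sum hfib
      _ = (w : ℝ) ^ 2 * ((w : ℝ) ^ 2 * (128 * 10 ^ 4 * (w : ℝ) ^ (N + 2) *
            ∑ c ∈ Finset.Ioo (w ^ 10 - 1) (w ^ 20 + 1), (((c : ℕ) : ℝ) ^ 2)⁻¹)) := by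
          rw [hT, Finset.sum_product]
          simp only [Finset.sum_product]
          rw [Finset.sum_const, Finset.sum_const, Nat.card_Icc, Nat.add_sub_cancel, nsmul_eq_mul, nsmul_eq_mul,
            ← Finset.mul_sum]
          push_cast
          rfl
      _ ≤ (w : ℝ) ^ 2 * ((w : ℝ) ^ 2 * (128 * 10 ^ 4 * (w : ℝ) ^ (N + 2) * (2 / (w : ℝ) ^ 10))) := by
          have h2 := sum_Ioo_inv_sq_le (α := ℝ) (w ^ 10 - 1) (w ^ 20 + 1)
          have h3 : (((w ^ 10 - 1 : ℕ) : ℝ) + 1) = (w : ℝ) ^ 10 := by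
            have hp : 1 ≤ w ^ 10 := Nat.one_le_pow _ _ (by omega)
            have : ((w ^ 10 - 1 + 1 : ℕ) : ℝ) = ((w ^ 10 : ℕ) : ℝ) := by
              congr 1
              omega
            push_cast at this
            push_cast
            exact this
          rw [h3] at h2
          gcongr
      _ = 256 * 10 ^ 4 * (w : ℝ) ^ (N + 6) / (w : ℝ) ^ 10 := by
          rw [pow_add, pow_add]
          ring
  have hlog0 : 0 < Real.log w := Real.log_pos hwR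
  have hlog : (Real.log w) ^ 2 ≤ (w : ℝ) ^ 4 := by
    have h2 : Real.log w ≤ w := (Real.log_le_sub_one_of_pos hw0).trans (by linarith)
    calc (Real.log w) ^ 2 ≤ (w : ℝ) ^ 2 := by gcongr
      _ ≤ (w : ℝ) ^ 4 := pow_le_pow_right₀ hwR.le (by norm_num)
  calc ∑ x ∈ S, wt w x.1 * wt w x.2 ≤ (S.card : ℝ) := h1
    _ ≤ 256 * 10 ^ 4 * (w : ℝ) ^ (N + 6) / (w : ℝ) ^ 10 := hcardS
    _ = 256 * 10 ^ 4 * (w : ℝ) ^ N / (w : ℝ) ^ 4 := by
        rw [pow_add]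
        field_simp
    _ ≤ 256 * 10 ^ 4 * (w : ℝ) ^ N / (Real.log w) ^ 2 := by
        apply div_le_div_of_nonneg_left _ (by positivity) hlog
        positivity

end PA39
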