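import Pool.Agent.LibPA39.Defs
import Pool.Agent.LibTwHL.M1

/-!
[PA N1] **One prime inequality**: `∏_{p ∣ n, p ∤ K} (1+1/p)^A ≤ C (1 + ∑_{p ∣ n, p ∤ K, p ≤ (log y)^(A+2)} (log p)^A / p)` for
`n ≤ y^B`.
PROOF. (a) For every finite set `T` of primes, `F T := ∏ p ∈ T, (1+1/p)^A ≤ 1 + C1 ∑ p ∈ T, (log p)^A / p`: induction on `T` by adding
the LARGEST prime `q` (`Finset.induction_on_max`): `F (T ∪ {q}) - F T = F T ((1+1/q)^A - 1) ≤ F T * 2^A * A / q`... (any constant
`c_A / q`), and `F T ≤ ∏_{p < q} (1+1/p)^A ≤ exp (A ∑_{p<q} 1/p) ≤ C (log q)^A` (Mertens `TwHL.mertens` or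
`Pool.Agent.LibUD63.mertens_bd`; for `q = 2` `T` is empty, `F T = 1 ≤ C (log 2)^A`; `1 + log q ≤ 3 log q` for `q ≥ 2`).
(b) Apply (a) to `T = n.primeFactors.filter (¬ · ∣ K)` and split the sum at `Λ = (log y)^(A+2)`: for `p > Λ`, `p ∣ n`:
`(log p)^A / p ≤ (B log y)^A / Λ`, and `#n.primeFactors ≤ log n / log 2 ≤ B log y / log 2` (`2^#primeFactors ≤ n`), so the tail is at most
`B^(A+1) / (log 2 * log y) ≤ C` (`y ≥ 3`, `log y ≥ 1`).
-/

namespace PA39

open Finset Pasch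

private theorem n1_pow_sub {u : ℝ} (hu0 : 0 ≤ u) (hu1 : u ≤ 1) (A : ℕ) : (1 + u) ^ A ≤ 1 + 2 ^ A * u := by
  have key : (1 + u) ^ A ≤ 1 + (2 ^ A - 1) * u := by
    induction A with
    | zero => simp
    | succ A ih =>
      have h1 : (1 : ℝ) ≤ 2 ^ A := one_le_pow₀ (by norm_num)
      have h3 : u * u ≤ u := by nlinarith
      have h4 : (2 ^ A - 1) * (u * u) ≤ (2 ^ A - 1) * u := mul_le_mul_of_nonneg_left h3 (by linarith)
      calc (1 + u) ^ (A + 1) = (1 + u) ^ A * (1 + u) := pow_succ _ _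
        _ ≤ (1 + (2 ^ A - 1) * u) * (1 + u) := mul_le_mul_of_nonneg_right ih (by linarith)
        _ = 1 + u + (2 ^ A - 1) * u + (2 ^ A - 1) * (u * u) := by ring
        _ ≤ 1 + u + (2 ^ A - 1) * u + (2 ^ A - 1) * u := by linarith
        _ = 1 + (2 ^ (A + 1) - 1) * u := by ring
  refine key.trans ?_
  linarith

private theorem n1_bd (A : ℕ) : ∃ C : ℝ, 0 < C ∧ ∀ (q : ℕ) (T : Finset ℕ), 2 ≤ q → (∀ p ∈ T, p.Prime ∧ p < q) →
    ∏ p ∈ T, (1 + 1 / (p : ℝ)) ^ A ≤ C * (Real.log q) ^ A := by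
  obtain ⟨C0, hC0, hM⟩ := TwHL.mertens
  refine ⟨Real.exp (A * C0) * 3 ^ A, by positivity, fun q T hq hT => ?_⟩
  have hq2 : (2 : ℝ) ≤ q := by exact_mod_cast hq
  have hl2 : 0 < Real.log 2 := Real.log_pos (by norm_num)
  have hlq : Real.log 2 ≤ Real.log q := Real.log_le_log (by norm_num) hq2
  have hlq0 : 0 < Real.log q := by linarith
  have h1 : ∏ p ∈ T, (1 + 1 / (p : ℝ)) ^ A ≤ Real.exp (A * ∑ p ∈ T, 1 / (p : ℝ)) := by
    rw [Finset.mul_sum, Real.exp_sum]
    refine Finset.prod_le_prod (fun p _ => by positivity) fun p _ => ?_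
    calc (1 + 1 / (p : ℝ)) ^ A ≤ (Real.exp (1 / (p : ℝ))) ^ A :=
          pow_le_pow_left₀ (by positivity) (by linarith [Real.add_one_le_exp (1 / (p : ℝ))]) A
      _ = Real.exp (A * (1 / (p : ℝ))) := by rw [← Real.exp_nat_mul]
  have h2 : ∑ p ∈ T, 1 / (p : ℝ) ≤ ∑ p ∈ TwHL.PP q, 1 / (p : ℝ) := by
    apply Finset.sum_le_sum_of_subset_of_nonneg
    · intro p hp
      obtain ⟨a, b⟩ := hT p hp
      exact Finset.mem_filter.2 ⟨Finset.mem_Icc.2 ⟨a.pos, b.le⟩, a⟩
    · intro p _ _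
      positivity
  have h3 := (abs_le.mp (hM q (by omega))).2
  have h4 : ∑ p ∈ T, 1 / (p : ℝ) ≤ Real.log (1 + Real.log q) + C0 := by
    have : TwHL.LL q = Real.log (1 + Real.log q) := rfl
    linarith
  have hA0 : (0 : ℝ) ≤ A := by positivity
  calc ∏ p ∈ T, (1 + 1 / (p : ℝ)) ^ A ≤ Real.exp (A * ∑ p ∈ T, 1 / (p : ℝ)) := h1
    _ ≤ Real.exp (A * (Real.log (1 + Real.log q) + C0)) :=
        Real.exp_le_exp.mpr (mul_le_mul_of_nonneg_left h4 hA0)
    _ = Real.exp (A * C0) * (1 + Real.log q) ^ A := by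
        rw [mul_add, Real.exp_add, Real.exp_nat_mul, Real.exp_log (by linarith)]
        ring
    _ ≤ Real.exp (A * C0) * (3 * Real.log q) ^ A := by
        apply mul_le_mul_of_nonneg_left _ (Real.exp_pos _).le
        apply pow_le_pow_left₀ (by linarith)
        have := Real.log_two_gt_d9
        linarith
    _ = Real.exp (A * C0) * 3 ^ A * (Real.log q) ^ A := by
        rw [mul_pow]
        ring

private theorem n1_set (A : ℕ) : ∃ C : ℝ, 0 < C ∧ ∀ T : Finset ℕ, (∀ p ∈ T, p.Prime) →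
    ∏ p ∈ T, (1 + 1 / (p : ℝ)) ^ A ≤ 1 + C * ∑ p ∈ T, ph A p := by
  obtain ⟨C, hC, hb⟩ := n1_bd A
  refine ⟨C * 2 ^ A, by positivity, fun T => ?_⟩
  induction T using Finset.induction_on_max with
  | empty => intro _; simp
  | insert q T hmax ih =>
    intro hT
    have hqT : q ∉ T := fun h => lt_irrefl q (hmax q h)
    have hT' : ∀ p ∈ T, p.Prime := fun p hp => hT p (Finset.mem_insert_of_mem hp)
    have hq : q.Prime := hT q (Finset.mem_insert_self q T)
    rw [Finset.prod_insert hqT, Finset.sum_insert hqT]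
    have h1 := ih hT'
    have h2 := hb q T hq.two_le fun p hp => ⟨hT' p hp, hmax p hp⟩
    have hq2 : (2 : ℝ) ≤ q := by exact_mod_cast hq.two_le
    have hqi : (1 : ℝ) / q ≤ 1 := by
      rw [div_le_one (by linarith)]
      linarith
    have h3 := n1_pow_sub (u := 1 / (q : ℝ)) (by positivity) hqi A
    have hF0 : 0 ≤ ∏ p ∈ T, (1 + 1 / (p : ℝ)) ^ A := Finset.prod_nonneg fun p _ => by positivity
    calc (1 + 1 / (q : ℝ)) ^ A * ∏ p ∈ T, (1 + 1 / (p : ℝ)) ^ A
        ≤ (1 + 2 ^ A * (1 / (q : ℝ))) * ∏ p ∈ T, (1 + 1 / (p : ℝ)) ^ A := mul_le_mul_of_nonneg_right h3 hF0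
      _ = ∏ p ∈ T, (1 + 1 / (p : ℝ)) ^ A + 2 ^ A * (1 / (q : ℝ)) * ∏ p ∈ T, (1 + 1 / (p : ℝ)) ^ A := by ring
      _ ≤ (1 + C * 2 ^ A * ∑ p ∈ T, ph A p) + 2 ^ A * (1 / (q : ℝ)) * (C * (Real.log q) ^ A) :=
          add_le_add h1 (mul_le_mul_of_nonneg_left h2 (by positivity))
      _ = 1 + C * 2 ^ A * (ph A q + ∑ p ∈ T, ph A p) := by
          unfold ph
          ring

private theorem n1_card {n : ℕ} (hn : n ≠ 0) : (n.primeFactors.card : ℝ) * Real.log 2 ≤ Real.log n := by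
  have h1 : 2 ^ n.primeFactors.card ≤ ∏ p ∈ n.primeFactors, p := by
    rw [← Finset.prod_const]
    exact Finset.prod_le_prod' fun p hp => (Nat.prime_of_mem_primeFactors hp).two_le
  have h2 : ∏ p ∈ n.primeFactors, p ≤ n := Nat.le_of_dvd (Nat.pos_of_ne_zero hn) (Nat.prod_primeFactors_dvd n)
  have h3 : ((2 : ℝ)) ^ n.primeFactors.card ≤ n := by exact_mod_cast h1.trans h2
  rw [← Real.log_pow]
  exact Real.log_le_log (by positivity) h3

theorem opt (A B : ℕ) : ∃ C : ℝ, 0 < C ∧ ∀ y n K : ℕ, 3 ≤ y → n ≠ 0 → n ≤ y ^ B →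
    sgx A n K ≤ C * (1 + ∑ p ∈ PQ A y n K, ph A p) := by
  classical
  obtain ⟨C1, hC1, hset⟩ := n1_set A
  have hl2 : 0 < Real.log 2 := Real.log_pos (by norm_num)
  refine ⟨1 + C1 + C1 * ((B : ℝ) ^ (A + 1) / Real.log 2), by positivity, fun y n K hy hn hnB => ?_⟩
  have hy3 : (3 : ℝ) ≤ y := by exact_mod_cast hy
  have hly : 1 ≤ Real.log y := by
    rw [Real.le_log_iff_exp_le (by linarith)]
    linarith [Real.exp_one_lt_d9]
  have hn0 : (0 : ℝ) < n := by exact_mod_cast Nat.pos_of_ne_zero hn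
  have hln : Real.log n ≤ B * Real.log y := by
    rw [← Real.log_pow]
    exact Real.log_le_log hn0 (by exact_mod_cast hnB)
  obtain ⟨T, hT⟩ : ∃ T, T = n.primeFactors.filter (fun p => ¬ p ∣ K) := ⟨_, rfl⟩
  have hTp : ∀ p ∈ T, p.Prime ∧ p ∣ n := fun p hp => by
    rw [hT, Finset.mem_filter] at hp
    exact ⟨Nat.prime_of_mem_primeFactors hp.1, Nat.dvd_of_mem_primeFactors hp.1⟩
  have h1 : sgx A n K ≤ 1 + C1 * ∑ p ∈ T, ph A p := by
    have := hset T fun p hp => (hTp p hp).1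
    rw [hT] at this ⊢
    exact this
  have hph0 : ∀ p : ℕ, 0 ≤ ph A p := fun p => by
    unfold ph
    have := Real.log_natCast_nonneg p
    positivity
  have h2 : ∑ p ∈ T, ph A p ≤ ∑ p ∈ PQ A y n K, ph A p + (B : ℝ) ^ (A + 1) / Real.log 2 := by
    rw [← Finset.sum_filter_add_sum_filter_not T (fun p : ℕ => (p : ℝ) ≤ (Real.log y) ^ (A + 2))]
    apply add_le_add
    · apply Finset.sum_le_sum_of_subset_of_nonneg
      · intro p hp
        rw [Finset.mem_filter, hT, Finset.mem_filter] at hp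
        rw [mem_PQ]
        exact ⟨hp.1.1, hp.1.2, hp.2⟩
      · intro p _ _
        exact hph0 p
    · have h3 : ∀ p ∈ T.filter (fun p : ℕ => ¬ (p : ℝ) ≤ (Real.log y) ^ (A + 2)),
          ph A p ≤ (B : ℝ) ^ A / (Real.log y) ^ 2 := by
        intro p hp
        rw [Finset.mem_filter] at hp
        obtain ⟨hpT, hpL⟩ := hp
        push Not at hpL
        obtain ⟨hpp, hpn⟩ := hTp p hpT
        have hp0 : (0 : ℝ) < p := by exact_mod_cast hpp.pos
        have h4 : Real.log p ≤ B * Real.log y := by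
          refine le_trans (Real.log_le_log hp0 ?_) hln
          exact_mod_cast Nat.le_of_dvd (Nat.pos_of_ne_zero hn) hpn
        have h5 : 0 ≤ Real.log p := Real.log_natCast_nonneg p
        unfold ph
        calc (Real.log p) ^ A / p ≤ (B * Real.log y) ^ A / (Real.log y) ^ (A + 2) := by
              apply div_le_div₀ (by positivity) (pow_le_pow_left₀ h5 h4 A) (by positivity) hpL.le
          _ = (B : ℝ) ^ A / (Real.log y) ^ 2 := by
              rw [mul_pow, pow_add]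
              have : (Real.log y) ≠ 0 := by linarith
              field_simp
      have h6 := Finset.sum_le_sum h3
      refine h6.trans ?_
      rw [Finset.sum_const, nsmul_eq_mul]
      have h7 : ((T.filter (fun p : ℕ => ¬ (p : ℝ) ≤ (Real.log y) ^ (A + 2))).card : ℝ) ≤ n.primeFactors.card := by
        have : T.filter (fun p : ℕ => ¬ (p : ℝ) ≤ (Real.log y) ^ (A + 2)) ⊆ n.primeFactors := by
          intro p hp
          rw [Finset.mem_filter, hT, Finset.mem_filter] at hp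
          exact hp.1.1
        exact_mod_cast Finset.card_le_card this
      have h8 : (n.primeFactors.card : ℝ) ≤ B * Real.log y / Real.log 2 := by
        rw [le_div_iff₀ hl2]
        exact (n1_card hn).trans hln
      have h9 : (0 : ℝ) ≤ (B : ℝ) ^ A / (Real.log y) ^ 2 := by positivity
      calc ((T.filter (fun p : ℕ => ¬ (p : ℝ) ≤ (Real.log y) ^ (A + 2))).card : ℝ) * ((B : ℝ) ^ A / (Real.log y) ^ 2)
          ≤ (B * Real.log y / Real.log 2) * ((B : ℝ) ^ A / (Real.log y) ^ 2) :=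
            mul_le_mul_of_nonneg_right (h7.trans h8) h9
        _ = (B : ℝ) ^ (A + 1) / Real.log 2 * (1 / Real.log y) := by
            have : (Real.log y) ≠ 0 := by linarith
            field_simp
            ring
        _ ≤ (B : ℝ) ^ (A + 1) / Real.log 2 * 1 := by
            apply mul_le_mul_of_nonneg_left _ (by positivity)
            rw [div_le_one (by linarith)]
            exact hly
        _ = (B : ℝ) ^ (A + 1) / Real.log 2 := mul_one _
  have hS : 0 ≤ ∑ p ∈ PQ A y n K, ph A p := Finset.sum_nonneg fun p _ => hph0 p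
  have hD : 0 ≤ (B : ℝ) ^ (A + 1) / Real.log 2 := by positivity
  have hCD : 0 ≤ C1 * ((B : ℝ) ^ (A + 1) / Real.log 2) := by positivity
  have h10 := mul_le_mul_of_nonneg_left h2 hC1.le
  have h11 : 0 ≤ C1 * ((B : ℝ) ^ (A + 1) / Real.log 2) * ∑ p ∈ PQ A y n K, ph A p := mul_nonneg hCD hS
  nlinarith

end PA39
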