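import Pool.Agent.LibPA39.T4
import Pool.Agent.LibPA39.N1
import Pool.Agent.LibPA39.N2
import Pool.Agent.LibPA39.N9a
import Pool.Agent.LibPA39.N9b

/-!
[PA N7] **Two sums over complete intervals** (from T4 `ag` with `r = 1`, N1 `opt`, N2 `ps`).
PROOF. (i) `ys`: `ag` with `r = 1`, `H = V`, `D = 1`, `N = 1`, `x0 = 0`, `μ = α = 1`, `β = 0`, `j = 4`, `F = id`: for `y`-rough `v` the weight is
`0^0 = 1` (`om y v = 0`). `sg 10 1 = 1`.
(ii) `vs`: without the factor `sg A v`: `ag` with `j = 3` (`1 - 3/4 = 1/4`). With it: `sg A v = sgx A v 1 ≤ C (1 + ∑ p ∈ PQ A y v 1, ph A p)` (`opt`, `v ≤ V ≤ y^B`);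
for a prime `p ≤ (log y)^(A+2) ≤ y` (`y ≥ y1(A)`) the `v = p v'` have `om y v ≥ om y v'` (`primeFactors v' ⊆ primeFactors v`), `v' ≤ V/p`, and
`V/p ≥ y^(2TT)/y ≥ y^TT`: sum `≤ C (V/p) / lam^3 ≤ C V/√p / lam^3`; `ps`.
-/

namespace PA39

open Finset Pasch

private theorem n7_prime (p : ℕ) (hp : p.Prime) : ¬ p ∣ 1 ∧ ¬ (p : ℤ) ∣ 1 := by
  have h1 : ¬ p ∣ 1 := fun h => hp.one_lt.ne' (Nat.dvd_one.mp h)
  refine ⟨h1, fun h => h1 ?_⟩
  exact_mod_cast h

theorem ys : ∃ C : ℝ, 0 < C ∧ ∀ y V : ℕ, 3 ≤ y → y ^ TT ≤ V → ∀ S : Finset ℕ,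
    (∀ v ∈ S, 1 ≤ v ∧ v ≤ V ∧ Rough y v) → (S.card : ℝ) ≤ C * V / lam y ^ 4 := by
  obtain ⟨C, hC, h⟩ := ag
  refine ⟨C, hC, fun y V hy hV S hS => ?_⟩
  have h1 := h 1 le_rfl (by norm_num) y V 1 1 0 (fun _ => 1) (fun _ => 1) (fun _ => 0) (fun _ => 4)
    (fun _ x => x) S (by omega) le_rfl (by simpa using hV) one_ne_zero (fun _ => le_rfl)
    (fun x hx => ⟨(hS x hx).2.1, Nat.modEq_one, fun _ => by have := (hS x hx).1; omega,
      fun _ => by simp⟩)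
    (fun p hp _ _ _ => ⟨(n7_prime p hp).1, fun _ => (n7_prime p hp).2, fun _ => (n7_prime p hp).2,
      fun i i' hii => absurd (Subsingleton.elim i i') hii⟩)
  have h2 : ∑ x ∈ S, ∏ _i : Fin 1, (1 - ((4:ℕ) : ℝ) / 4) ^ (om y x) = (S.card : ℝ) := by
    rw [Finset.card_eq_sum_ones, Nat.cast_sum]
    refine Finset.sum_congr rfl fun x hx => ?_
    simp [om_rough (hS x hx).2.2]
  rw [h2] at h1
  simpa [sg_one] using h1

private theorem n7_vb : ∃ C : ℝ, 0 < C ∧ ∀ y V : ℕ, 3 ≤ y → y ^ TT ≤ V →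
    ∑ v ∈ Icc 1 V, (1 / 4 : ℝ) ^ (om y v) ≤ C * V / lam y ^ 3 := by
  obtain ⟨C, hC, h⟩ := ag
  refine ⟨C, hC, fun y V hy hV => ?_⟩
  have h1 := h 1 le_rfl (by norm_num) y V 1 1 0 (fun _ => 1) (fun _ => 1) (fun _ => 0) (fun _ => 3)
    (fun _ x => x) (Icc 1 V) (by omega) le_rfl (by simpa using hV) one_ne_zero (fun _ => by norm_num)
    (fun x hx => ⟨(Finset.mem_Icc.mp hx).2, Nat.modEq_one,
      fun _ => by have := (Finset.mem_Icc.mp hx).1; omega, fun _ => by simp⟩)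
    (fun p hp _ _ _ => ⟨(n7_prime p hp).1, fun _ => (n7_prime p hp).2, fun _ => (n7_prime p hp).2,
      fun i i' hii => absurd (Subsingleton.elim i i') hii⟩)
  have h2 : ∑ x ∈ Icc 1 V, ∏ _i : Fin 1, (1 - ((3:ℕ) : ℝ) / 4) ^ (om y x) =
      ∑ v ∈ Icc 1 V, (1 / 4 : ℝ) ^ (om y v) := by
    refine Finset.sum_congr rfl fun x hx => ?_
    rw [Fin.prod_univ_one]
    norm_num
  rw [h2] at h1
  simpa [sg_one] using h1

private theorem n7_log (A : ℕ) : ∃ y1 : ℕ, ∀ y : ℕ, y1 ≤ y → (Real.log y) ^ (A + 2) ≤ (y : ℝ) := by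
  have h := (Real.isLittleO_pow_log_id_atTop (n := A + 2)).comp_tendsto tendsto_natCast_atTop_atTop
  have h1 := h.bound (c := 1) one_pos
  obtain ⟨y1, hy1⟩ := Filter.eventually_atTop.mp h1
  refine ⟨y1, fun y hy => ?_⟩
  have h2 := hy1 y hy
  simp only [Function.comp_apply, id_eq, one_mul, Real.norm_eq_abs, Nat.abs_cast] at h2
  exact (le_abs_self _).trans h2

/-- the terms divisible by a small prime -/
private theorem n7_div {C : ℝ} (hC : 0 < C) (h : ∀ y V : ℕ, 3 ≤ y → y ^ TT ≤ V →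
    ∑ v ∈ Icc 1 V, (1 / 4 : ℝ) ^ (om y v) ≤ C * V / lam y ^ 3) (y V p : ℕ) (hy : 3 ≤ y)
    (hV : y ^ (2 * TT) ≤ V) (hp : p.Prime) (hpy : p ≤ y) :
    ∑ v ∈ (Icc 1 V).filter (fun v => p ∣ v), (1 / 4 : ℝ) ^ (om y v) ≤ C * V / lam y ^ 3 / Real.sqrt p := by
  have hlam : 0 < lam y := lt_of_lt_of_le one_pos (one_le_lam hy)
  have hp0 : 0 < p := hp.pos
  have hVp : y ^ TT ≤ V / p := by
    rw [Nat.le_div_iff_mul_le hp0]
    calc y ^ TT * p ≤ y ^ TT * y ^ TT := by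
          refine Nat.mul_le_mul_left _ (hpy.trans ?_)
          exact Nat.le_self_pow (by have := TT_pos; omega) y
      _ = y ^ (2 * TT) := by rw [← pow_add, two_mul]
      _ ≤ V := hV
  have h1 : ∑ v ∈ (Icc 1 V).filter (fun v => p ∣ v), (1 / 4 : ℝ) ^ (om y v) ≤
      ∑ v ∈ Icc 1 (V / p), (1 / 4 : ℝ) ^ (om y v) := by
    have himg : (Icc 1 V).filter (fun v => p ∣ v) = (Icc 1 (V / p)).image (fun v => v * p) := by
      ext v
      simp only [Finset.mem_filter, Finset.mem_Icc, Finset.mem_image]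
      constructor
      · rintro ⟨⟨h1, h2⟩, w, rfl⟩
        refine ⟨w, ⟨?_, ?_⟩, by ring⟩
        · rcases Nat.eq_zero_or_pos w with h0 | h0
          · subst h0
            omega
          · exact h0
        · rw [Nat.le_div_iff_mul_le hp0, mul_comm]
          exact h2
      · rintro ⟨w, ⟨h1, h2⟩, rfl⟩
        rw [Nat.le_div_iff_mul_le hp0] at h2
        exact ⟨⟨Nat.mul_pos h1 hp0, h2⟩, Dvd.intro_left w rfl⟩
    rw [himg, Finset.sum_image (fun a _ b _ hab => Nat.eq_of_mul_eq_mul_right hp0 hab)]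
    refine Finset.sum_le_sum fun v hv => ?_
    rw [Finset.mem_Icc] at hv
    exact pow_le_pow_of_le_one (by norm_num) (by norm_num) (om_le_mul (by omega) hp0.ne')
  refine h1.trans ((h y (V / p) hy hVp).trans ?_)
  have h2 : ((V / p : ℕ) : ℝ) ≤ (V : ℝ) / Real.sqrt p := by
    refine Nat.cast_div_le.trans ?_
    refine div_le_div_of_nonneg_left (Nat.cast_nonneg _) (Real.sqrt_pos.mpr (by exact_mod_cast hp0)) ?_
    have h3 : (1:ℝ) ≤ p := by exact_mod_cast hp0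
    exact Real.sqrt_le_self_iff.mpr (Or.inr h3)
  calc C * ((V / p : ℕ) : ℝ) / lam y ^ 3 ≤ C * ((V : ℝ) / Real.sqrt p) / lam y ^ 3 := by
        refine div_le_div_of_nonneg_right ?_ (by positivity)
        exact mul_le_mul_of_nonneg_left h2 hC.le
    _ = C * V / lam y ^ 3 / Real.sqrt p := by ring

theorem vs (A B : ℕ) : ∃ C : ℝ, ∃ y1 : ℕ, 0 < C ∧ ∀ y V : ℕ, y1 ≤ y → y ^ (2 * TT) ≤ V → V ≤ y ^ B →
    ∑ v ∈ Icc 1 V, (1 / 4 : ℝ) ^ (om y v) * sg A v ≤ C * V / lam y ^ 3 := by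
  classical
  obtain ⟨C0, hC0, h0⟩ := n7_vb
  obtain ⟨C1, hC1, h1⟩ := opt A B
  obtain ⟨C2, hC2, h2⟩ := ps A
  obtain ⟨y1, hy1⟩ := n7_log A
  refine ⟨C1 * (C0 + C0 * C2), max y1 3, by positivity, fun y V hy hV hVB => ?_⟩
  have hy3 : 3 ≤ y := le_trans (le_max_right _ _) hy
  have hlog := hy1 y (le_trans (le_max_left _ _) hy)
  have hlam : 0 < lam y := lt_of_lt_of_le one_pos (one_le_lam hy3)
  have hV1 : y ^ TT ≤ V := by
    refine le_trans (Nat.pow_le_pow_right (by omega) ?_) hV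
    omega
  set P : Finset ℕ := (Icc 1 y).filter Nat.Prime with hP
  have hph : ∀ p : ℕ, 0 ≤ ph A p := by
    intro p
    unfold ph
    exact div_nonneg (pow_nonneg (Real.log_natCast_nonneg p) _) (Nat.cast_nonneg _)
  -- pointwise bound
  have hpt : ∀ v ∈ Icc 1 V, (1 / 4 : ℝ) ^ (om y v) * sg A v ≤
      C1 * ((1 / 4 : ℝ) ^ (om y v) + ∑ p ∈ P, if p ∣ v then (1 / 4 : ℝ) ^ (om y v) * ph A p else 0) := by
    intro v hv
    rw [Finset.mem_Icc] at hv
    have h3 := h1 y v 1 hy3 (by omega) (hv.2.trans hVB)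
    rw [sgx_one_right] at h3
    have h4 : ∑ p ∈ PQ A y v 1, ph A p ≤ ∑ p ∈ P, if p ∣ v then ph A p else 0 := by
      rw [← Finset.sum_filter]
      refine Finset.sum_le_sum_of_subset_of_nonneg ?_ (fun p _ _ => hph p)
      intro p hp
      rw [mem_PQ] at hp
      rw [Finset.mem_filter, hP, Finset.mem_filter, Finset.mem_Icc]
      have hpr := Nat.prime_of_mem_primeFactors hp.1
      refine ⟨⟨⟨hpr.one_lt.le, ?_⟩, hpr⟩, Nat.dvd_of_mem_primeFactors hp.1⟩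
      have h5 : (p : ℝ) ≤ (y : ℝ) := hp.2.2.trans hlog
      exact_mod_cast h5
    have hq : (0:ℝ) ≤ (1 / 4 : ℝ) ^ (om y v) := by positivity
    calc (1 / 4 : ℝ) ^ (om y v) * sg A v ≤
          (1 / 4 : ℝ) ^ (om y v) * (C1 * (1 + ∑ p ∈ P, if p ∣ v then ph A p else 0)) := by
          refine mul_le_mul_of_nonneg_left (h3.trans ?_) hq
          refine mul_le_mul_of_nonneg_left ?_ hC1.le
          linarith
      _ = _ := by
          have h6 : ∑ p ∈ P, (if p ∣ v then (1 / 4 : ℝ) ^ (om y v) * ph A p else 0) =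
              (1 / 4 : ℝ) ^ (om y v) * ∑ p ∈ P, (if p ∣ v then ph A p else 0) := by
            rw [Finset.mul_sum]
            refine Finset.sum_congr rfl fun p _ => ?_
            rw [mul_ite, mul_zero]
          rw [h6]
          ring
  refine (Finset.sum_le_sum hpt).trans ?_
  rw [← Finset.mul_sum, Finset.sum_add_distrib, Finset.sum_comm]
  have h5 : ∑ p ∈ P, ∑ v ∈ Icc 1 V, (if p ∣ v then (1 / 4 : ℝ) ^ (om y v) * ph A p else 0) ≤
      C0 * V / lam y ^ 3 * C2 := by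
    calc ∑ p ∈ P, ∑ v ∈ Icc 1 V, (if p ∣ v then (1 / 4 : ℝ) ^ (om y v) * ph A p else 0) ≤
          ∑ p ∈ P, C0 * V / lam y ^ 3 * (ph A p / Real.sqrt p) := by
          refine Finset.sum_le_sum fun p hp => ?_
          rw [hP, Finset.mem_filter, Finset.mem_Icc] at hp
          rw [← Finset.sum_filter, ← Finset.sum_mul]
          have h6 := n7_div hC0 h0 y V p hy3 hV hp.2 hp.1.2
          calc (∑ v ∈ (Icc 1 V).filter (fun v => p ∣ v), (1 / 4 : ℝ) ^ (om y v)) * ph A p ≤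
                (C0 * V / lam y ^ 3 / Real.sqrt p) * ph A p :=
                mul_le_mul_of_nonneg_right h6 (hph p)
            _ = _ := by ring
      _ = C0 * V / lam y ^ 3 * ∑ p ∈ P, ph A p / Real.sqrt p := by rw [Finset.mul_sum]
      _ ≤ C0 * V / lam y ^ 3 * C2 := mul_le_mul_of_nonneg_left (h2 P) (by positivity)
  have h6 := h0 y V hy3 hV1
  calc C1 * (∑ v ∈ Icc 1 V, (1 / 4 : ℝ) ^ (om y v) +
        ∑ p ∈ P, ∑ v ∈ Icc 1 V, (if p ∣ v then (1 / 4 : ℝ) ^ (om y v) * ph A p else 0)) ≤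
        C1 * (C0 * V / lam y ^ 3 + C0 * V / lam y ^ 3 * C2) :=
        mul_le_mul_of_nonneg_left (add_le_add h6 h5) hC1.le
    _ = C1 * (C0 + C0 * C2) * V / lam y ^ 3 := by ring

end PA39
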