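import Pool.Agent.LibPA39.D5
import Pool.Agent.LibPA39.N5
import Pool.Agent.LibPA39.N6a
import Pool.Agent.LibPA39.N7

/-!
[PA E0g] **The diagonal, final sum** (from D5 `dd0`, N7 `vs`, N6a `ms`, N5 `ks`).
PROOF. `T` injects into `{(k, c, b, d) : k ∈ Icc 1 (w^2), c ∈ Icc 1 (w^20) squarefree, VK w k c, b ∈ Icc 1 (k HH/c), d ∈ DS k c}`; all terms `≥ 0`. `1/d ≤ 4/c`. For fixed `k, c`:
sum over `d`: `dd0`: `≤ C c (ta k/k) sg 10 k / lam^3`; sum over `b`: `vs 10 B`: `≤ C (k HH/c)/lam^3` (`k HH/c ≥ w^400/w^20 ≥ y^(2TT)`, `≤ y^B`); so in total for fixed `k, c`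
`≤ C HH (4/c) c (ta k/k) sg 20 k (k HH/c) (1/4)^(om c) sg 10 c / lam^(11+3+3)`, and `k HH^2 ≤ 10^4 w^N`: `≤ C w^N (ta k/k) sg 20 k * (1/4)^(om c) sg 10 c / c / lam^17`. Sum over `c`: `ms 10 B`: `C lam`;
over `k`: `ks 20 B`: `C lam^8`. Total `lam^(-17+9) = lam^(-8)`. (`z.c` is squarefree and `z.b ≥ 1` by `V0.sq`.)
-/

namespace PA39

open Finset Pasch

private theorem e0g_H1 {N w k : ℕ} (hk : 1 ≤ k) : k * (HH N w k * HH N w k) ≤ 10 ^ 4 * w ^ N := by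
  have h1 : HH N w k * HH N w k ≤ 10 ^ 4 * w ^ N / k := Nat.sqrt_le _
  exact (Nat.mul_le_mul_left k h1).trans (Nat.mul_div_le _ _)

private theorem e0g_H2 {N w k : ℕ} (hN : 1000 ≤ N) (hw : 1 ≤ w) (hk : 1 ≤ k) (hk2 : k ≤ w ^ 2) :
    w ^ 499 ≤ HH N w k := by
  unfold HH
  rw [Nat.le_sqrt', Nat.le_div_iff_mul_le hk]
  calc (w ^ 499) ^ 2 * k ≤ (w ^ 499) ^ 2 * w ^ 2 := Nat.mul_le_mul_left _ hk2
    _ = w ^ 1000 := by rw [← pow_mul, ← pow_add]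
    _ ≤ w ^ N := Nat.pow_le_pow_right hw hN
    _ ≤ 10 ^ 4 * w ^ N := Nat.le_mul_of_pos_left _ (by norm_num)

private theorem e0g_prod {ι : Type*} (T : Finset ι) (p1 : ι → ℕ) (p2 : ι → ℕ) (U E : Finset ℕ)
    (f : ℕ → ℝ) (g : ℕ → ℝ) (hf : ∀ t, 0 ≤ f t) (hg : ∀ x, 0 ≤ g x)
    (hinj : ∀ z ∈ T, ∀ z' ∈ T, p1 z = p1 z' → p2 z = p2 z' → z = z')
    (h1 : ∀ z ∈ T, p1 z ∈ U) (h2 : ∀ z ∈ T, p2 z ∈ E) :
    ∑ z ∈ T, f (p1 z) * g (p2 z) ≤ (∑ t ∈ U, f t) * ∑ x ∈ E, g x := by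
  classical
  have e1 : ∑ z ∈ T, f (p1 z) * g (p2 z) = ∑ q ∈ T.image (fun z => (p1 z, p2 z)), f q.1 * g q.2 := by
    rw [Finset.sum_image]
    intro z hz z' hz' h
    have h' : (p1 z, p2 z) = (p1 z', p2 z') := h
    exact hinj z hz z' hz' (congrArg Prod.fst h') (congrArg Prod.snd h')
  have e2 : (∑ t ∈ U, f t) * ∑ x ∈ E, g x = ∑ q ∈ U ×ˢ E, f q.1 * g q.2 := by
    rw [Finset.sum_mul_sum, Finset.sum_product]
  rw [e1, e2]
  refine Finset.sum_le_sum_of_subset_of_nonneg ?_ fun q _ _ => mul_nonneg (hf _) (hg _)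
  intro q hq
  obtain ⟨z, hz, rfl⟩ := Finset.mem_image.1 hq
  exact Finset.mem_product.2 ⟨h1 z hz, h2 z hz⟩

private theorem e0g_lev {y w : ℕ} (h : Lev y w) : y ≤ w ∧ 10 ^ 4 ≤ w := by
  obtain ⟨h1, h2, -⟩ := h
  have h3 : y ^ 1 ≤ y ^ TT := Nat.pow_le_pow_right (by omega) (by have := TT_pos; omega)
  rw [pow_one] at h3
  have h4 : (3 : ℕ) ^ 100 ≤ y ^ TT :=
    (Nat.pow_le_pow_left h1 100).trans (Nat.pow_le_pow_right (by omega) TT_pos)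
  have h5 : (10 : ℕ) ^ 4 ≤ 3 ^ 100 := by norm_num
  exact ⟨h3.trans h2, h5.trans (h4.trans h2)⟩

private theorem e0g_powle {y w : ℕ} (h : Lev y w) (e : ℕ) : w ^ e ≤ y ^ (2 * e * TT) := by
  obtain ⟨h1, h2, h3⟩ := h
  calc w ^ e ≤ (y ^ (2 * TT)) ^ e := Nat.pow_le_pow_left h3 e
    _ = y ^ (2 * e * TT) := by
        rw [← pow_mul]
        congr 1
        ring

/-- fixed `k, c` -/
private theorem e0g_fix (N : ℕ) (hN : 1000 ≤ N) : ∃ C : ℝ, ∃ y1 : ℕ, 0 < C ∧ ∀ y w : ℕ, y1 ≤ y → Lev y w →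
    ∀ k c : ℕ, ∀ T : Finset Kd, (∀ z ∈ T, V0 N w z ∧ z.k = k ∧ z.c = c) →
    ∑ z ∈ T, B0 N w y z ≤ C * (w : ℝ) ^ N * ((ta k / k * sg 20 k) * ((1 / 4 : ℝ) ^ (om y c) * sg 10 c / c)) /
      lam y ^ 17 := by
  classical
  obtain ⟨C1, y1, hC1, H1⟩ := vs 10 (2 * (N + 4) * TT)
  obtain ⟨C2, y2, hC2, H2⟩ := dd0
  refine ⟨40000 * C1 * C2, max y1 y2, by positivity, ?_⟩
  intro y w hy hL k c T hT
  have hy1 : y1 ≤ y := (le_max_left _ _).trans hy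
  have hy2 : y2 ≤ y := (le_max_right _ _).trans hy
  have hlam : 1 ≤ lam y := one_le_lam hL.1
  have hlam0 : 0 < lam y := by linarith
  have s1 := (sg_pos 10 c).le
  have s2 := (sg_pos 10 k).le
  have s3 := (sg_pos 20 k).le
  have t1 : 0 ≤ ta k := Nat.cast_nonneg _
  rcases T.eq_empty_or_nonempty with rfl | ⟨z0, hz0⟩
  · rw [Finset.sum_empty]
    positivity
  obtain ⟨hyw, hw4⟩ := e0g_lev hL
  have hw1 : 1 ≤ w := by omega
  obtain ⟨v0, q1, q2⟩ := hT z0 hz0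
  have vk : VK w k c := by
    have := v0.vk
    rwa [q1, q2] at this
  have hc0 : 0 < c := lt_of_lt_of_le (Nat.pow_pos (by omega)) vk.c1
  have hcr : (0 : ℝ) < c := by exact_mod_cast hc0
  set BM : ℕ := k * HH N w k / c with hBM
  have hH1 := e0g_H1 (N := N) (w := w) vk.k1
  have hH2 := e0g_H2 (N := N) (w := w) hN hw1 vk.k1 vk.k2
  have hBM1 : y ^ (2 * TT) ≤ BM := by
    rw [hBM, Nat.le_div_iff_mul_le hc0]
    calc y ^ (2 * TT) * c ≤ w ^ 2 * w ^ 20 := by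
          refine Nat.mul_le_mul ?_ vk.c2
          rw [mul_comm 2 TT, pow_mul]
          exact Nat.pow_le_pow_left hL.2.1 2
      _ = w ^ 22 := by rw [← pow_add]
      _ ≤ w ^ 499 := Nat.pow_le_pow_right hw1 (by norm_num)
      _ ≤ HH N w k := hH2
      _ ≤ k * HH N w k := Nat.le_mul_of_pos_left _ vk.k1
  have hBM2 : BM ≤ y ^ (2 * (N + 4) * TT) := by
    calc BM ≤ k * HH N w k := Nat.div_le_self _ _
      _ ≤ k * (HH N w k * HH N w k) := by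
          refine Nat.mul_le_mul_left _ (Nat.le_mul_of_pos_left _ ?_)
          exact lt_of_lt_of_le (Nat.pow_pos (by omega)) hH2
      _ ≤ 10 ^ 4 * w ^ N := hH1
      _ ≤ w * w ^ N := Nat.mul_le_mul_right _ hw4
      _ = w ^ (N + 1) := by rw [pow_succ, mul_comm]
      _ ≤ w ^ (N + 4) := Nat.pow_le_pow_right hw1 (by omega)
      _ ≤ y ^ (2 * (N + 4) * TT) := e0g_powle hL (N + 4)
  have hS1 := H1 y BM hy1 hBM1 hBM2
  have hS2 := H2 y w hy2 hL k c vk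
  set f : ℕ → ℝ := fun b => (1 / 4 : ℝ) ^ (om y b) * sg 10 b with hf
  set g : ℕ → ℝ := fun d => (1 / 4 : ℝ) ^ (om y d) * sgx 10 (d * ((d : ℤ) ^ 2 - c ^ 2).natAbs) (k * c) with hg
  have hf0 : ∀ b, 0 ≤ f b := by
    intro b
    have := (sg_pos 10 b).le
    simp only [hf]
    positivity
  have hg0 : ∀ d, 0 ≤ g d := by
    intro d
    have := (sgx_pos 10 (d * ((d : ℤ) ^ 2 - c ^ 2).natAbs) (k * c)).le
    simp only [hg]
    positivity
  have hprod := e0g_prod T (fun z => z.b) (fun z => z.d) (Icc 1 BM) (DS k c) f g hf0 hg0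
    (by
      intro z hz z' hz' e1 e2
      obtain ⟨-, r1, r2⟩ := hT z hz
      obtain ⟨-, u1, u2⟩ := hT z' hz'
      cases z
      cases z'
      simp only at r1 r2 u1 u2 e1 e2
      subst r1 r2 u1 u2 e1 e2
      rfl)
    (by
      intro z hz
      obtain ⟨v, r1, r2⟩ := hT z hz
      rw [Finset.mem_Icc]
      constructor
      · have h1 := v.sq.ne_zero
        exact Nat.one_le_iff_ne_zero.2 (left_ne_zero_of_mul h1)
      · have h1 := v.hb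
        rw [r1, r2] at h1
        exact (Nat.le_div_iff_mul_le hc0).2 h1)
    (by
      intro z hz
      obtain ⟨v, r1, r2⟩ := hT z hz
      have h1 := v.hd
      rwa [r1, r2] at h1)
  -- the constant factor
  set A : ℝ := (HH N w k : ℝ) * (4 / c) * (1 / 4) ^ (om y c) * (sg 10 c * sg 10 k) / lam y ^ 11 with hA
  have hA0 : 0 ≤ A := by
    rw [hA]
    positivity
  have e1 : ∑ z ∈ T, B0 N w y z ≤ A * ∑ z ∈ T, f z.b * g z.d := by
    rw [Finset.mul_sum]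
    refine Finset.sum_le_sum fun z hz => ?_
    obtain ⟨v, r1, r2⟩ := hT z hz
    have h1 := mem_DS.1 v.hd
    rw [r2] at h1
    obtain ⟨⟨h2, h3⟩, h4, h5, h6⟩ := h1
    have hd0 : (0 : ℝ) < z.d := by exact_mod_cast h2
    have h7 : (1 : ℝ) / z.d ≤ 4 / c := by
      rw [div_le_div_iff₀ hd0 hcr, one_mul]
      exact_mod_cast h5
    have p1 := (sg_pos 10 z.b).le
    have p2 := (sgx_pos 10 (z.d * ((z.d : ℤ) ^ 2 - c ^ 2).natAbs) (k * c)).le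
    unfold B0
    rw [r1, r2]
    simp only [hf, hg]
    rw [hA, pow_add, pow_add]
    calc (HH N w k : ℝ) / z.d * ((1 / 4) ^ om y z.b * (1 / 4) ^ om y c * (1 / 4) ^ om y z.d) *
          (sg 10 z.b * sg 10 c * sg 10 k) * sgx 10 (z.d * ((z.d : ℤ) ^ 2 - c ^ 2).natAbs) (k * c) / lam y ^ 11
        = (1 / z.d) * ((HH N w k : ℝ) * ((1 / 4) ^ om y z.b * (1 / 4) ^ om y c * (1 / 4) ^ om y z.d) *
          (sg 10 z.b * sg 10 c * sg 10 k) * sgx 10 (z.d * ((z.d : ℤ) ^ 2 - c ^ 2).natAbs) (k * c) / lam y ^ 11) := by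
          ring
      _ ≤ (4 / c) * ((HH N w k : ℝ) * ((1 / 4) ^ om y z.b * (1 / 4) ^ om y c * (1 / 4) ^ om y z.d) *
          (sg 10 z.b * sg 10 c * sg 10 k) * sgx 10 (z.d * ((z.d : ℤ) ^ 2 - c ^ 2).natAbs) (k * c) / lam y ^ 11) :=
          mul_le_mul_of_nonneg_right h7 (by positivity)
      _ = _ := by ring
  have hf1 : ∑ b ∈ Icc 1 BM, f b ≤ C1 * BM / lam y ^ 3 := hS1
  have hg1 : ∑ d ∈ DS k c, g d ≤ C2 * c * (ta k / k) * sg 10 k / lam y ^ 3 := hS2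
  have hf2 : 0 ≤ ∑ b ∈ Icc 1 BM, f b := Finset.sum_nonneg fun b _ => hf0 b
  have hg2 : 0 ≤ ∑ d ∈ DS k c, g d := Finset.sum_nonneg fun d _ => hg0 d
  have hmain : ∑ z ∈ T, B0 N w y z ≤ A * ((C1 * BM / lam y ^ 3) * (C2 * c * (ta k / k) * sg 10 k / lam y ^ 3)) := by
    refine e1.trans (mul_le_mul_of_nonneg_left (hprod.trans ?_) hA0)
    exact mul_le_mul hf1 hg1 hg2 (hf2.trans hf1)
  refine hmain.trans ?_
  have hHM : (HH N w k : ℝ) * BM ≤ 10 ^ 4 * ((w : ℝ) ^ N / c) := by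
    have h1 : BM * c ≤ k * HH N w k := Nat.div_mul_le_self _ _
    have h2 : HH N w k * (BM * c) ≤ 10 ^ 4 * w ^ N := by
      calc HH N w k * (BM * c) ≤ HH N w k * (k * HH N w k) := Nat.mul_le_mul_left _ h1
        _ = k * (HH N w k * HH N w k) := by ring
        _ ≤ 10 ^ 4 * w ^ N := hH1
    have h3 : (HH N w k : ℝ) * (BM * c) ≤ 10 ^ 4 * (w : ℝ) ^ N := by exact_mod_cast h2
    rw [← mul_div_assoc, le_div_iff₀ hcr]
    linarith
  have e2 : A * ((C1 * BM / lam y ^ 3) * (C2 * c * (ta k / k) * sg 10 k / lam y ^ 3)) =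
      4 * C1 * C2 * (HH N w k * BM) * ((ta k / k * (sg 10 k * sg 10 k)) * ((1 / 4 : ℝ) ^ (om y c) * sg 10 c)) /
      lam y ^ 17 := by
    rw [hA]
    have hl : lam y ^ 17 = lam y ^ 11 * lam y ^ 3 * lam y ^ 3 := by ring
    rw [hl]
    generalize (1 / 4 : ℝ) ^ (om y c) = P
    generalize ta k / (k : ℝ) = Q
    have hl0 : lam y ≠ 0 := hlam0.ne'
    have hc' : (c : ℝ) ≠ 0 := hcr.ne'
    field_simp
  rw [e2, sg_add 10 10 k]
  calc 4 * C1 * C2 * (HH N w k * BM) * ((ta k / k * sg 20 k) * ((1 / 4 : ℝ) ^ (om y c) * sg 10 c)) / lam y ^ 17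
      = (HH N w k * BM) * (4 * C1 * C2 * ((ta k / k * sg 20 k) * ((1 / 4 : ℝ) ^ (om y c) * sg 10 c)) /
        lam y ^ 17) := by ring
    _ ≤ (10 ^ 4 * ((w : ℝ) ^ N / c)) * (4 * C1 * C2 * ((ta k / k * sg 20 k) *
        ((1 / 4 : ℝ) ^ (om y c) * sg 10 c)) / lam y ^ 17) :=
        mul_le_mul_of_nonneg_right hHM (by positivity)
    _ = _ := by ring

theorem e0g (N : ℕ) (hN : 1000 ≤ N) : ∃ C : ℝ, ∃ y1 : ℕ, 0 < C ∧ ∀ y w : ℕ, y1 ≤ y → Lev y w →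
    ∀ T : Finset Kd, (∀ z ∈ T, V0 N w z) → ∑ z ∈ T, B0 N w y z ≤ C * (w : ℝ) ^ N / lam y ^ 8 := by
  classical
  obtain ⟨C0, y0, hC0, h0⟩ := e0g_fix N hN
  obtain ⟨C1, hC1, h1⟩ := ms 10 (2 * 20 * TT)
  obtain ⟨C2, hC2, h2⟩ := ks 20 (2 * 2 * TT)
  refine ⟨C0 * (C2 * C1), y0, by positivity, fun y w hy hL T hT => ?_⟩
  have hlam : 1 ≤ lam y := one_le_lam hL.1
  have hlam0 : 0 < lam y := by linarith
  set F : ℕ → ℝ := fun k => ta k / k * sg 20 k with hF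
  set G : ℕ → ℝ := fun c => (1 / 4 : ℝ) ^ (om y c) * sg 10 c / c with hG
  have hF0 : ∀ k, 0 ≤ F k := by
    intro k
    have a1 := (sg_pos 20 k).le
    have a2 : 0 ≤ ta k := Nat.cast_nonneg _
    simp only [hF]
    positivity
  have hG0 : ∀ c, 0 ≤ G c := by
    intro c
    have a1 := (sg_pos 10 c).le
    simp only [hG]
    positivity
  set Bx : Finset (ℕ × ℕ) := Icc 1 (w ^ 2) ×ˢ (Icc 1 (w ^ 20)).filter Squarefree with hBx
  have hmaps : ∀ z ∈ T, (z.k, z.c) ∈ Bx := by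
    intro z hz
    have hv := hT z hz
    have hsq : Squarefree z.c := hv.sq.of_mul_right
    rw [hBx, Finset.mem_product, Finset.mem_filter, Finset.mem_Icc, Finset.mem_Icc]
    exact ⟨⟨hv.vk.k1, hv.vk.k2⟩, ⟨Nat.one_le_iff_ne_zero.2 hsq.ne_zero, hv.vk.c2⟩, hsq⟩
  rw [← Finset.sum_fiberwise_of_maps_to hmaps]
  have hfib : ∀ i ∈ Bx, ∑ z ∈ T.filter (fun z => (z.k, z.c) = i), B0 N w y z ≤
      C0 * (w : ℝ) ^ N / lam y ^ 17 * (F i.1 * G i.2) := by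
    rintro ⟨k, c⟩ -
    refine (h0 y w hy hL k c _ ?_).trans (le_of_eq (by simp only [hF, hG]; ring))
    intro z hz
    rw [Finset.mem_filter] at hz
    have e1 := congrArg Prod.fst hz.2
    have e2 := congrArg Prod.snd hz.2
    exact ⟨hT z hz.1, e1, e2⟩
  refine (Finset.sum_le_sum hfib).trans ?_
  rw [← Finset.mul_sum]
  have hprod : ∑ i ∈ Bx, F i.1 * G i.2 = (∑ k ∈ Icc 1 (w ^ 2), F k) * ∑ c ∈ (Icc 1 (w ^ 20)).filter Squarefree, G c := by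
    rw [hBx, Finset.sum_mul_sum, Finset.sum_product]
  rw [hprod]
  have hs1 : ∑ k ∈ Icc 1 (w ^ 2), F k ≤ C2 * lam y ^ 8 := by
    refine le_trans ?_ (h2 y hL.1)
    refine Finset.sum_le_sum_of_subset_of_nonneg (Finset.Icc_subset_Icc_right (e0g_powle hL 2)) ?_
    intro k _ _
    exact hF0 k
  have hs2 : ∑ c ∈ (Icc 1 (w ^ 20)).filter Squarefree, G c ≤ C1 * lam y := by
    refine le_trans ?_ (h1 y hL.1)
    refine Finset.sum_le_sum_of_subset_of_nonneg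
      (Finset.filter_subset_filter _ (Finset.Icc_subset_Icc_right (e0g_powle hL 20))) ?_
    intro c _ _
    exact hG0 c
  have hs2' : 0 ≤ ∑ c ∈ (Icc 1 (w ^ 20)).filter Squarefree, G c := Finset.sum_nonneg fun c _ => hG0 c
  have hmul : (∑ k ∈ Icc 1 (w ^ 2), F k) * ∑ c ∈ (Icc 1 (w ^ 20)).filter Squarefree, G c ≤
      (C2 * lam y ^ 8) * (C1 * lam y) := mul_le_mul hs1 hs2 hs2' (by positivity)
  calc C0 * (w : ℝ) ^ N / lam y ^ 17 * ((∑ k ∈ Icc 1 (w ^ 2), F k) *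
        ∑ c ∈ (Icc 1 (w ^ 20)).filter Squarefree, G c)
      ≤ C0 * (w : ℝ) ^ N / lam y ^ 17 * ((C2 * lam y ^ 8) * (C1 * lam y)) :=
        mul_le_mul_of_nonneg_left hmul (by positivity)
    _ = C0 * (C2 * C1) * (w : ℝ) ^ N / lam y ^ 8 := by
        have hl : lam y ^ 17 = lam y ^ 8 * lam y ^ 9 := by ring
        rw [hl]
        field_simp

end PA39
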