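import Pool.Agent.LibPA39.E0a
import Pool.Agent.LibPA39.E0g
import Pool.Agent.LibPA39.C1z

/-!
[PA E0z] **The diagonal** (from E0a, E0g, C1z `lam8`, N8a `lv`). Group `S` by the key `(k, c, b, d)` (`Finset.sum_fiberwise_of_maps_to`); `V0` from `conf_VK`, `conf_DS`, `b c ≤ k a ≤ k HH` (`eq1`, `conf_HH`),
`Squarefree (b c)`; `e0a` on each fibre, `e0g` for the finset of keys, `lam8`.
-/

namespace PA39

open Finset Pasch

theorem e0z (N : ℕ) (hN : 1000 ≤ N) : ∃ C : ℝ, ∃ w1 : ℕ, 0 < C ∧ ∀ w : ℕ, w1 ≤ w → ∀ S : Finset Cf,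
    (∀ q ∈ S, IsConf N w q) → ∑ q ∈ S, wt w q ^ 2 ≤ C * (w : ℝ) ^ N / (Real.log w) ^ 2 := by
  classical
  obtain ⟨C1, hC1, h1⟩ := e0a N hN
  obtain ⟨C2, y1, hC2, h2⟩ := e0g N hN
  obtain ⟨w1, hw1⟩ := lv y1
  have hTT : (0:ℝ) < (TT : ℝ) := by
    have := TT_pos
    exact_mod_cast (by omega : 0 < TT)
  refine ⟨C1 * C2 * (2 * (TT : ℝ)) ^ 2, max w1 2, by positivity, ?_⟩
  intro w hw S hS
  obtain ⟨y, hy1, hlev⟩ := hw1 w ((le_max_left _ _).trans hw)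
  have hw2 : 2 ≤ w := (le_max_right _ _).trans hw
  set key : Cf → Kd := fun q => ⟨q.k, q.c, q.b, q.d⟩ with hkey
  set T : Finset Kd := S.image key with hT
  have hV : ∀ z ∈ T, V0 N w z := by
    intro z hz
    rw [hT, Finset.mem_image] at hz
    obtain ⟨q, hq, rfl⟩ := hz
    have h := hS q hq
    refine ⟨conf_VK h (by omega), h.klo, ?_, ?_, conf_DS h⟩
    · refine Squarefree.squarefree_of_dvd ?_ h.sqf
      exact ⟨q.a * q.d * q.e * q.f, by simp only [hkey]; ring⟩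
    · have e1 := h.eq1
      have e2 := conf_HH h (by omega)
      simp only [hkey]
      calc q.b * q.c ≤ q.k * q.a := by omega
        _ ≤ q.k * HH N w q.k := Nat.mul_le_mul_left _ e2
  have hgroup : ∑ q ∈ S, wt w q ^ 2 = ∑ z ∈ T, ∑ q ∈ S.filter (fun q => key q = z), wt w q ^ 2 :=
    (Finset.sum_fiberwise_of_maps_to (fun q hq => Finset.mem_image_of_mem key hq) _).symm
  have hfib : ∀ z ∈ T, ∑ q ∈ S.filter (fun q => key q = z), wt w q ^ 2 ≤ C1 * B0 N w y z := by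
    intro z hz
    refine h1 y w hlev z (hV z hz) _ fun q hq => ?_
    rw [Finset.mem_filter] at hq
    obtain ⟨hq1, hq2⟩ := hq
    refine ⟨hS q hq1, ?_⟩
    subst hq2
    exact ⟨rfl, rfl, rfl, rfl⟩
  have hlam := lam8 hlev
  have hfin := h2 y w hy1 hlev T hV
  rw [hgroup]
  have hwN : (0:ℝ) ≤ (w:ℝ) ^ N := by positivity
  calc ∑ z ∈ T, ∑ q ∈ S.filter (fun q => key q = z), wt w q ^ 2 ≤ ∑ z ∈ T, C1 * B0 N w y z :=
        Finset.sum_le_sum hfib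
    _ = C1 * ∑ z ∈ T, B0 N w y z := (Finset.mul_sum _ _ _).symm
    _ ≤ C1 * (C2 * (w : ℝ) ^ N / lam y ^ 8) := mul_le_mul_of_nonneg_left hfin hC1.le
    _ = C1 * C2 * (w:ℝ) ^ N * (1 / lam y ^ 8) := by ring
    _ ≤ C1 * C2 * (w:ℝ) ^ N * ((2 * (TT : ℝ)) ^ 2 / (Real.log w) ^ 2) :=
        mul_le_mul_of_nonneg_left hlam (by positivity)
    _ = C1 * C2 * (2 * (TT : ℝ)) ^ 2 * (w : ℝ) ^ N / (Real.log w) ^ 2 := by ring

end PA39
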