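import Pool.Agent.LibPA39.SA
import Pool.Agent.LibPA39.C1z
import Pool.Agent.LibPA39.E0z
import Pool.Agent.LibPA39.B1z
import Pool.Agent.LibPA39.CC2

/-!
[PA SM] **The second moment, all four lines** (from SA, C1z, E0z, B1z, CC2).
PROOF. `sm1`: by `sa` it is enough to bound the sum over the pairs `(q, q')` of `S` with `n1 q' = n1 q`, `q'.a = q.a` (as a sum over a finset of pairs: `Finset.sum_sigma'`/`sum_product'` + filter). Split: `q = q'` (`e0z`, `wt w q * wt w q = wt w q ^ 2`);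
`q ≠ q'`, `k = k'` (`PB`: `b1z`); `k ≠ k'` and degenerate (`PC`: `cc2`); `k ≠ k'` not degenerate (`P1`: `c1z`).
The other lines: the maps `s2 q = ⟨k, a, e, d, c, b, f⟩` (swap `b,e` and `c,d`), `s3 q = ⟨k, f, b, d, c, e, a⟩` (swap `a,f` and `c,d`), `s4 q = ⟨k, f, e, c, d, b, a⟩` (swap `a,f` and `b,e`) are injective, preserve `IsConf` and `wt`, and
`n1 (s_i q) = n_i q` up to the order of the factors; apply `sm1` to the image of `S`.
-/

namespace PA39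

open Finset Pasch

theorem sm1 (N : ℕ) (hN : 1000 ≤ N) : ∃ C : ℝ, ∃ w1 : ℕ, 0 < C ∧ ∀ w : ℕ, w1 ≤ w → ∀ S : Finset Cf,
    (∀ q ∈ S, IsConf N w q) →
    ∑ q ∈ S, ∑ q' ∈ S.filter (fun q' => n1 q' = n1 q), wt w q * wt w q' ≤ C * (w : ℝ) ^ N / (Real.log w) ^ 2 := by
  classical
  obtain ⟨C0, w0, hC0, h0⟩ := e0z N hN
  obtain ⟨C1, w1, hC1, h1⟩ := c1z N hN
  obtain ⟨C2, w2, hC2, h2⟩ := b1z N hN
  obtain ⟨C3, w3, hC3, h3⟩ := cc2 N hN
  refine ⟨2 ^ N * (C0 + C1 + C2 + C3), max (max w0 w1) (max (max w2 w3) (10 ^ 5)), by positivity, ?_⟩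
  intro w hw S hS
  have hw0 : w0 ≤ w := le_trans (le_trans (le_max_left _ _) (le_max_left _ _)) hw
  have hw1 : w1 ≤ w := le_trans (le_trans (le_max_right _ _) (le_max_left _ _)) hw
  have hw2 : w2 ≤ w := le_trans (le_trans (le_trans (le_max_left _ _) (le_max_left _ _)) (le_max_right _ _)) hw
  have hw3 : w3 ≤ w := le_trans (le_trans (le_trans (le_max_right _ _) (le_max_left _ _)) (le_max_right _ _)) hw
  have hw5 : 10 ^ 5 ≤ w := le_trans (le_trans (le_max_right _ _) (le_max_right _ _)) hw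
  have hsa := sa N w hN hw5 S hS
  set F : Cf × Cf → ℝ := fun x => wt w x.1 * wt w x.2 with hF
  have hF0 : ∀ x, 0 ≤ F x := fun x => mul_nonneg (wt_nonneg w x.1) (wt_nonneg w x.2)
  set T : Finset (Cf × Cf) := (S ×ˢ S).filter (fun x => n1 x.2 = n1 x.1 ∧ x.2.a = x.1.a) with hT
  have hmem : ∀ x ∈ T, x.1 ∈ S ∧ x.2 ∈ S ∧ n1 x.2 = n1 x.1 ∧ x.2.a = x.1.a := by
    intro x hx
    rw [hT, Finset.mem_filter, Finset.mem_product] at hx
    exact ⟨hx.1.1, hx.1.2, hx.2.1, hx.2.2⟩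
  have hconv : ∑ q ∈ S, ∑ q' ∈ S.filter (fun q' => n1 q' = n1 q ∧ q'.a = q.a), wt w q * wt w q' =
      ∑ x ∈ T, F x := by
    rw [hT, Finset.sum_filter, Finset.sum_product]
    refine Finset.sum_congr rfl fun q _ => ?_
    rw [Finset.sum_filter]
  rw [hconv] at hsa
  -- split
  have hsplit1 := Finset.sum_filter_add_sum_filter_not T (fun x => x.1 = x.2) F
  have hsplit2 := Finset.sum_filter_add_sum_filter_not (T.filter (fun x => ¬ x.1 = x.2))
    (fun x => x.1.k = x.2.k) F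
  have hsplit3 := Finset.sum_filter_add_sum_filter_not
    ((T.filter (fun x => ¬ x.1 = x.2)).filter (fun x => ¬ x.1.k = x.2.k))
    (fun x => (x.1.k : ℤ) * x.1.c ^ 2 * ((x.2.d : ℤ) ^ 2 - x.2.c ^ 2) =
      x.2.k * x.2.c ^ 2 * ((x.1.d : ℤ) ^ 2 - x.1.c ^ 2)) F
  have e0 : ∑ x ∈ T.filter (fun x => x.1 = x.2), F x ≤ C0 * (w : ℝ) ^ N / (Real.log w) ^ 2 := by
    refine le_trans ?_ (h0 w hw0 S hS)
    have hinj : Set.InjOn (fun x : Cf × Cf => x.1) (T.filter (fun x => x.1 = x.2) : Finset (Cf × Cf)) := by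
      intro x hx y hy hxy
      rw [Finset.mem_coe, Finset.mem_filter] at hx hy
      have hxy' : x.1 = y.1 := hxy
      exact Prod.ext hxy' (by rw [← hx.2, ← hy.2]; exact hxy')
    have h4 : ∑ x ∈ T.filter (fun x => x.1 = x.2), F x =
        ∑ q ∈ (T.filter (fun x => x.1 = x.2)).image (fun x => x.1), wt w q ^ 2 := by
      rw [Finset.sum_image hinj]
      refine Finset.sum_congr rfl fun x hx => ?_
      rw [Finset.mem_filter] at hx
      simp only [hF]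
      rw [← hx.2, sq]
    rw [h4]
    refine Finset.sum_le_sum_of_subset_of_nonneg ?_ (fun q _ _ => sq_nonneg _)
    intro q hq
    rw [Finset.mem_image] at hq
    obtain ⟨x, hx, rfl⟩ := hq
    exact (hmem x (Finset.mem_of_mem_filter x hx)).1
  have e2 : ∑ x ∈ (T.filter (fun x => ¬ x.1 = x.2)).filter (fun x => x.1.k = x.2.k), F x ≤
      C2 * (w : ℝ) ^ N / (Real.log w) ^ 2 := by
    refine h2 w hw2 _ fun x hx => ?_
    rw [Finset.mem_filter, Finset.mem_filter] at hx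
    obtain ⟨a1, a2, a3, a4⟩ := hmem x hx.1.1
    exact ⟨hS _ a1, hS _ a2, a3.symm, a4.symm, hx.2, hx.1.2⟩
  have e3 : ∑ x ∈ ((T.filter (fun x => ¬ x.1 = x.2)).filter (fun x => ¬ x.1.k = x.2.k)).filter
      (fun x => (x.1.k : ℤ) * x.1.c ^ 2 * ((x.2.d : ℤ) ^ 2 - x.2.c ^ 2) =
        x.2.k * x.2.c ^ 2 * ((x.1.d : ℤ) ^ 2 - x.1.c ^ 2)), F x ≤ C3 * (w : ℝ) ^ N / (Real.log w) ^ 2 := by
    refine h3 w hw3 _ fun x hx => ?_
    rw [Finset.mem_filter, Finset.mem_filter, Finset.mem_filter] at hx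
    obtain ⟨a1, a2, a3, a4⟩ := hmem x hx.1.1.1
    exact ⟨hS _ a1, hS _ a2, a3.symm, a4.symm, hx.1.2, hx.2⟩
  have e1 : ∑ x ∈ ((T.filter (fun x => ¬ x.1 = x.2)).filter (fun x => ¬ x.1.k = x.2.k)).filter
      (fun x => ¬ (x.1.k : ℤ) * x.1.c ^ 2 * ((x.2.d : ℤ) ^ 2 - x.2.c ^ 2) =
        x.2.k * x.2.c ^ 2 * ((x.1.d : ℤ) ^ 2 - x.1.c ^ 2)), F x ≤ C1 * (w : ℝ) ^ N / (Real.log w) ^ 2 := by
    refine h1 w hw1 _ fun x hx => ?_
    rw [Finset.mem_filter, Finset.mem_filter, Finset.mem_filter] at hx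
    obtain ⟨a1, a2, a3, a4⟩ := hmem x hx.1.1.1
    exact ⟨hS _ a1, hS _ a2, a3.symm, a4.symm, hx.1.2, hx.2⟩
  have htot : ∑ x ∈ T, F x ≤ (C0 + C1 + C2 + C3) * (w : ℝ) ^ N / (Real.log w) ^ 2 := by
    have h5 : (C0 + C1 + C2 + C3) * (w : ℝ) ^ N / (Real.log w) ^ 2 =
        C0 * (w : ℝ) ^ N / (Real.log w) ^ 2 + C1 * (w : ℝ) ^ N / (Real.log w) ^ 2 +
        C2 * (w : ℝ) ^ N / (Real.log w) ^ 2 + C3 * (w : ℝ) ^ N / (Real.log w) ^ 2 := by ring
    rw [h5]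
    linarith
  calc _ ≤ 2 ^ N * ∑ x ∈ T, F x := hsa
    _ ≤ 2 ^ N * ((C0 + C1 + C2 + C3) * (w : ℝ) ^ N / (Real.log w) ^ 2) :=
        mul_le_mul_of_nonneg_left htot (by positivity)
    _ = _ := by ring

private theorem sm_tr (s : Cf → Cf) (hs : Function.Injective s)
    (hC : ∀ N w q, IsConf N w q → IsConf N w (s q)) (hwt : ∀ w q, wt w (s q) = wt w q)
    (n : Cf → ℕ) (hn : ∀ q, n1 (s q) = n q) (N : ℕ) (hN : 1000 ≤ N) :
    ∃ C : ℝ, ∃ w1 : ℕ, 0 < C ∧ ∀ w : ℕ, w1 ≤ w → ∀ S : Finset Cf, (∀ q ∈ S, IsConf N w q) →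
    ∑ q ∈ S, ∑ q' ∈ S.filter (fun q' => n q' = n q), wt w q * wt w q' ≤ C * (w : ℝ) ^ N / (Real.log w) ^ 2 := by
  classical
  obtain ⟨C, w1, hC0, h⟩ := sm1 N hN
  refine ⟨C, w1, hC0, fun w hw S hS => ?_⟩
  have h1 := h w hw (S.image s) (by
    intro q hq
    rw [Finset.mem_image] at hq
    obtain ⟨p, hp, rfl⟩ := hq
    exact hC N w p (hS p hp))
  rw [Finset.sum_image hs.injOn] at h1
  refine le_trans (le_of_eq ?_) h1
  refine Finset.sum_congr rfl fun q _ => ?_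
  rw [Finset.filter_image, Finset.sum_image hs.injOn]
  simp only [hn, hwt]

theorem sm2 (N : ℕ) (hN : 1000 ≤ N) : ∃ C : ℝ, ∃ w1 : ℕ, 0 < C ∧ ∀ w : ℕ, w1 ≤ w → ∀ S : Finset Cf,
    (∀ q ∈ S, IsConf N w q) →
    ∑ q ∈ S, ∑ q' ∈ S.filter (fun q' => n2 q' = n2 q), wt w q * wt w q' ≤ C * (w : ℝ) ^ N / (Real.log w) ^ 2 := by
  refine sm_tr (fun q => ⟨q.k, q.a, q.e, q.d, q.c, q.b, q.f⟩) ?_ ?_ ?_ n2 ?_ N hN
  · rintro ⟨k, a, b, c, d, e, f⟩ ⟨k', a', b', c', d', e', f'⟩ h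
    simp only [Cf.mk.injEq] at h ⊢
    tauto
  · intro N w q h
    refine ⟨?_, ?_, ?_, h.klo, h.khi, h.k4, h.dlo, h.dhi, h.clo, h.chi, h.dc, h.cd, h.ra, h.rf, h.alo, h.ahi,
      h.flo, h.fhi, ?_, ?_, ?_, ?_⟩
    · have := h.eq1; simp only; linarith
    · have := h.eq2; simp only; linarith
    · have := h.sqf
      have e : q.a * q.e * q.d * q.c * q.b * q.f = q.a * q.b * q.c * q.d * q.e * q.f := by ring
      simp only [e]; exact this
    · have := h.de; simp only; linarith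
    · have := h.bc; simp only; linarith
    · have := h.ce; simp only; linarith
    · have := h.bd; simp only; linarith
  · intro w q
    unfold wt
    have e : q.e * q.d * q.c * q.b = q.b * q.c * q.d * q.e := by ring
    simp only [e]
  · intro q
    unfold n1 n2
    simp only
    ring

theorem sm3 (N : ℕ) (hN : 1000 ≤ N) : ∃ C : ℝ, ∃ w1 : ℕ, 0 < C ∧ ∀ w : ℕ, w1 ≤ w → ∀ S : Finset Cf,
    (∀ q ∈ S, IsConf N w q) →
    ∑ q ∈ S, ∑ q' ∈ S.filter (fun q' => n3 q' = n3 q), wt w q * wt w q' ≤ C * (w : ℝ) ^ N / (Real.log w) ^ 2 := by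
  refine sm_tr (fun q => ⟨q.k, q.f, q.b, q.d, q.c, q.e, q.a⟩) ?_ ?_ ?_ n3 ?_ N hN
  · rintro ⟨k, a, b, c, d, e, f⟩ ⟨k', a', b', c', d', e', f'⟩ h
    simp only [Cf.mk.injEq] at h ⊢
    tauto
  · intro N w q h
    refine ⟨?_, ?_, ?_, h.klo, h.khi, h.k4, h.dlo, h.dhi, h.clo, h.chi, h.dc, h.cd, h.rf, h.ra, h.flo, h.fhi,
      h.alo, h.ahi, ?_, ?_, ?_, ?_⟩
    · have := h.eq2; simp only; linarith
    · have := h.eq1; simp only; linarith
    · have := h.sqf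
      have e : q.f * q.b * q.d * q.c * q.e * q.a = q.a * q.b * q.c * q.d * q.e * q.f := by ring
      simp only [e]; exact this
    · have := h.bd; simp only; linarith
    · have := h.ce; simp only; linarith
    · have := h.bc; simp only; linarith
    · have := h.de; simp only; linarith
  · intro w q
    unfold wt
    have e : q.b * q.d * q.c * q.e = q.b * q.c * q.d * q.e := by ring
    simp only [e]
  · intro q
    unfold n1 n3
    simp only
    ring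

theorem sm4 (N : ℕ) (hN : 1000 ≤ N) : ∃ C : ℝ, ∃ w1 : ℕ, 0 < C ∧ ∀ w : ℕ, w1 ≤ w → ∀ S : Finset Cf,
    (∀ q ∈ S, IsConf N w q) →
    ∑ q ∈ S, ∑ q' ∈ S.filter (fun q' => n4 q' = n4 q), wt w q * wt w q' ≤ C * (w : ℝ) ^ N / (Real.log w) ^ 2 := by
  refine sm_tr (fun q => ⟨q.k, q.f, q.e, q.c, q.d, q.b, q.a⟩) ?_ ?_ ?_ n4 ?_ N hN
  · rintro ⟨k, a, b, c, d, e, f⟩ ⟨k', a', b', c', d', e', f'⟩ h
    simp only [Cf.mk.injEq] at h ⊢
    tauto
  · intro N w q h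
    refine ⟨?_, ?_, ?_, h.klo, h.khi, h.k4, h.clo, h.chi, h.dlo, h.dhi, h.cd, h.dc, h.rf, h.ra, h.flo, h.fhi,
      h.alo, h.ahi, ?_, ?_, ?_, ?_⟩
    · have := h.eq2; simp only; linarith
    · have := h.eq1; simp only; linarith
    · have := h.sqf
      have e : q.f * q.e * q.c * q.d * q.b * q.a = q.a * q.b * q.c * q.d * q.e * q.f := by ring
      simp only [e]; exact this
    · have := h.ce; simp only; linarith
    · have := h.bd; simp only; linarith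
    · have := h.de; simp only; linarith
    · have := h.bc; simp only; linarith
  · intro w q
    unfold wt
    have e : q.e * q.c * q.d * q.b = q.b * q.c * q.d * q.e := by ring
    simp only [e]
  · intro q
    unfold n1 n4
    simp only
    ring

end PA39
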