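import Mathlib
import Pool.Agent.LibRD69.SU

/-!
# LibPA39: the SECOND MOMENT of the Pasch configuration (problem MP_6ea630_nt)

Four moduli `1/(abc) + 1/(ade) = 1/(bdf) + 1/(cef)`, i.e. `d e + b c = k a`, `c e + b d = k f`.
`w` is the basic parameter, `X = w^N` (`N ≥ 1000` fixed); `y` is the sieve level, `y^TT ≤ w ≤ y^(2 TT)`.
All logarithms are expressed through `lam y = (log y)^(1/4)`.
The namespace `Pasch` contains the definitions that are shared with the first moment; `PA39` the tools.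
-/

namespace Pasch

open Finset

/-- a configuration (seven numbers) -/
structure Cf where
  k : ℕ
  a : ℕ
  b : ℕ
  c : ℕ
  d : ℕ
  e : ℕ
  f : ℕ
deriving DecidableEq

/-- number of primes `≤ z` dividing `n` -/
def om (z n : ℕ) : ℕ := (n.primeFactors.filter (fun p => p ≤ z)).card

/-- all prime factors of `n` are `> z` -/
def Rough (z n : ℕ) : Prop := ∀ p : ℕ, p.Prime → p ∣ n → z < p

/-- the configurations of size `X = w^N` -/
structure IsConf (N w : ℕ) (q : Cf) : Prop where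
  eq1 : q.d * q.e + q.b * q.c = q.k * q.a
  eq2 : q.c * q.e + q.b * q.d = q.k * q.f
  sqf : Squarefree (q.a * q.b * q.c * q.d * q.e * q.f)
  klo : w ≤ q.k
  khi : q.k ≤ w ^ 2
  k4 : ¬ 4 ∣ q.k
  clo : w ^ 10 ≤ q.c
  chi : q.c ≤ w ^ 20
  dlo : w ^ 10 ≤ q.d
  dhi : q.d ≤ w ^ 20
  cd : q.c ≤ 4 * q.d
  dc : q.d ≤ 4 * q.c
  ra : Rough (w ^ 100) q.a
  rf : Rough (w ^ 100) q.f
  alo : w ^ N ≤ 10 ^ 4 * (q.k * q.a ^ 2)
  ahi : q.k * q.a ^ 2 ≤ 10 ^ 4 * w ^ N
  flo : w ^ N ≤ 10 ^ 4 * (q.k * q.f ^ 2)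
  fhi : q.k * q.f ^ 2 ≤ 10 ^ 4 * w ^ N
  bc : q.k * q.a ≤ 10 ^ 4 * (q.b * q.c)
  de : q.k * q.a ≤ 10 ^ 4 * (q.d * q.e)
  bd : q.k * q.f ≤ 10 ^ 4 * (q.b * q.d)
  ce : q.k * q.f ≤ 10 ^ 4 * (q.c * q.e)

/-- the weight of a configuration: `2^-(number of primes ≤ w^100 of bcde)` -/
noncomputable def wt (w : ℕ) (q : Cf) : ℝ := (1 / 2) ^ om (w ^ 100) (q.b * q.c * q.d * q.e)

/-- the four moduli -/
def n1 (q : Cf) : ℕ := q.a * q.b * q.c
def n2 (q : Cf) : ℕ := q.a * q.d * q.e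
def n3 (q : Cf) : ℕ := q.b * q.d * q.f
def n4 (q : Cf) : ℕ := q.c * q.e * q.f

end Pasch

namespace PA39

open Finset Pasch

/-- the singular factor `∏_{p ∣ n} (1 + 1/p)^A` -/
noncomputable def sg (A n : ℕ) : ℝ := ∏ p ∈ n.primeFactors, (1 + 1 / (p : ℝ)) ^ A

/-- the singular factor over the primes of `n` that do not divide `K` -/
noncomputable def sgx (A n K : ℕ) : ℝ :=
  ∏ p ∈ n.primeFactors.filter (fun p => ¬ p ∣ K), (1 + 1 / (p : ℝ)) ^ A

/-- `(log y)^(1/4)`; all powers of `log y` are written as powers of `lam y` -/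
noncomputable def lam (y : ℕ) : ℝ := (Real.log y) ^ (1 / 4 : ℝ)

/-- `w` is between the powers `TT` and `2 TT` of the sieve level -/
noncomputable def TT : ℕ := 100 * Classical.choose RD69.sieve_ub

/-- number of divisors, as a real number -/
noncomputable def ta (n : ℕ) : ℝ := (n.divisors.card : ℝ)

/-- `(log p)^A / p` -/
noncomputable def ph (A p : ℕ) : ℝ := (Real.log p) ^ A / p

/-- the primes of `n` that do not divide `K` and are at most `(log y)^(A+2)` -/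
noncomputable def PQ (A y n K : ℕ) : Finset ℕ := by
  classical
  exact n.primeFactors.filter (fun p => ¬ p ∣ K ∧ (p : ℝ) ≤ (Real.log y) ^ (A + 2))

/-- the candidates `d` for given `k`, `c` -/
noncomputable def DS (k c : ℕ) : Finset ℕ := by
  classical
  exact (Icc 1 (4 * c)).filter
    (fun d => d.Coprime c ∧ c ≤ 4 * d ∧ (k : ℤ) ∣ (d : ℤ) ^ 2 - (c : ℤ) ^ 2)

/-- bound for `a` -/
def HH (N w k : ℕ) : ℕ := Nat.sqrt (10 ^ 4 * w ^ N / k)

/-- the standing hypothesis on the two parameters `y`, `w` -/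
def Lev (y w : ℕ) : Prop := 3 ≤ y ∧ y ^ TT ≤ w ∧ w ≤ y ^ (2 * TT)

theorem lam_pow_four (y : ℕ) : lam y ^ 4 = Real.log y := by
  unfold lam
  rw [← Real.rpow_natCast, ← Real.rpow_mul (Real.log_natCast_nonneg y)]
  norm_num

theorem one_le_lam {y : ℕ} (hy : 3 ≤ y) : 1 ≤ lam y := by
  have h3 : (3 : ℝ) ≤ y := by exact_mod_cast hy
  have h1 : 1 ≤ Real.log y := by
    rw [Real.le_log_iff_exp_le (by linarith)]
    linarith [Real.exp_one_lt_d9]
  exact Real.one_le_rpow h1 (by norm_num)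

theorem TT_pos : 100 ≤ TT := by
  have := (Classical.choose_spec RD69.sieve_ub).1
  unfold TT
  omega

theorem one_le_sg (A n : ℕ) : 1 ≤ sg A n := by
  unfold sg
  have : ∀ p ∈ n.primeFactors, (1 : ℝ) ≤ (1 + 1 / (p : ℝ)) ^ A := by
    intro p _
    exact one_le_pow₀ (by have : (0 : ℝ) ≤ 1 / (p : ℝ) := by positivity
                          linarith)
  calc (1 : ℝ) = ∏ p ∈ n.primeFactors, (1 : ℝ) := by simp
    _ ≤ _ := Finset.prod_le_prod (fun _ _ => zero_le_one) this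

theorem one_le_sgx (A n K : ℕ) : 1 ≤ sgx A n K := by
  unfold sgx
  have : ∀ p ∈ n.primeFactors.filter (fun p => ¬ p ∣ K), (1 : ℝ) ≤ (1 + 1 / (p : ℝ)) ^ A := by
    intro p _
    exact one_le_pow₀ (by have : (0 : ℝ) ≤ 1 / (p : ℝ) := by positivity
                          linarith)
  calc (1 : ℝ) = ∏ p ∈ n.primeFactors.filter (fun p => ¬ p ∣ K), (1 : ℝ) := by simp
    _ ≤ _ := Finset.prod_le_prod (fun _ _ => zero_le_one) this

theorem sg_pos (A n : ℕ) : 0 < sg A n := lt_of_lt_of_le one_pos (one_le_sg A n)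
theorem sgx_pos (A n K : ℕ) : 0 < sgx A n K := lt_of_lt_of_le one_pos (one_le_sgx A n K)

theorem mem_DS {k c d : ℕ} : d ∈ DS k c ↔ (1 ≤ d ∧ d ≤ 4 * c) ∧ d.Coprime c ∧ c ≤ 4 * d ∧
    (k : ℤ) ∣ (d : ℤ) ^ 2 - (c : ℤ) ^ 2 := by
  unfold DS
  rw [Finset.mem_filter, Finset.mem_Icc]

theorem mem_PQ {A y n K p : ℕ} : p ∈ PQ A y n K ↔
    p ∈ n.primeFactors ∧ ¬ p ∣ K ∧ (p : ℝ) ≤ (Real.log y) ^ (A + 2) := by
  unfold PQ
  rw [Finset.mem_filter]

end PA39
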