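import Pool.Agent.LibPA39.C1k

/-!
[PA B1a] (ONLY MATHLIB + C1k) **Case B (`k = k'`, `a = a'`, `q ≠ q'`): key and number of pairs with a given key.**
PROOF. KEY: `m = gcd(c,c')`, `c = m c1`, `c' = m c2`, `g = gcd(d,d')`, `d = g e1`, `d' = g e2`. Coprimality from `conf_cop`, `conf_kcop`; `q1`, `q2` from `conf_dvd`. If `c1 = c2 = e1 = e2 = 1` then `c = c'`, `d = d'`, so `b = b'` (`n1`),
`e = e'` (`eq1`), `f = f'` (`eq2`), `q = q'`: excluded.
COUNT: `b c1 = b' c2` (from `n1`, `a = a'`, `c = m c1`..) gives `b = c2 v`, `b' = c1 v`; `d e = k a - b c = k a - b' c' = d' e'` gives `e1 e = e2 e'`, `e = e2 u`, `e' = e1 u`. For a fixed key the pair is determined by `(v, u)`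
(`k a = m c1 c2 v + g e1 e2 u`, `k f = c e + b d`, ..). Bounds: `m c1 c2 v = b c ≤ k a ≤ k H`, `g e1 e2 u ≤ k H`, `H = HH N w k`; and `k ∣ m c1 c2 v + g e1 e2 u`: for given `v`, `u` lies in one class mod `k` (`g e1 e2` is coprime to `k`).
So `#S ≤ V (U/k + 1) ≤ 2 U V / k`, `V = k H/(m c1 c2)`, `U = k H/(g e1 e2) ≥ k` (real numbers; `g e1 e2 ≤ w^40 ≤ H`), and `2 U V/k = 2 k H^2/pr7 ≤ 2 * 10^4 w^N / pr7`.
-/

namespace PA39

open Finset Pasch

theorem b1k {N w : ℕ} (hw : 2 ≤ w) {x : Cf × Cf} (h : PB N w x) : V7 w (key7 x) ∧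
    x.1.c = (key7 x).m * (key7 x).c1 ∧ x.2.c = (key7 x).m * (key7 x).c2 ∧
    x.1.d = (key7 x).g * (key7 x).e1 ∧ x.2.d = (key7 x).g * (key7 x).e2 := by
  have h1 := h.h1
  have h2 := h.h2
  have hw10 : 0 < w ^ 10 := by positivity
  have hc0 : 0 < x.1.c := lt_of_lt_of_le hw10 h1.clo
  have hc0' : 0 < x.2.c := lt_of_lt_of_le hw10 h2.clo
  have hd0 : 0 < x.1.d := lt_of_lt_of_le hw10 h1.dlo
  have hd0' : 0 < x.2.d := lt_of_lt_of_le hw10 h2.dlo
  have hm0 : 0 < x.1.c.gcd x.2.c := Nat.gcd_pos_of_pos_left _ hc0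
  have hg0 : 0 < x.1.d.gcd x.2.d := Nat.gcd_pos_of_pos_left _ hd0
  have ec : x.1.c = (key7 x).m * (key7 x).c1 := (Nat.mul_div_cancel' (Nat.gcd_dvd_left x.1.c x.2.c)).symm
  have ec' : x.2.c = (key7 x).m * (key7 x).c2 := (Nat.mul_div_cancel' (Nat.gcd_dvd_right x.1.c x.2.c)).symm
  have ed : x.1.d = (key7 x).g * (key7 x).e1 := (Nat.mul_div_cancel' (Nat.gcd_dvd_left x.1.d x.2.d)).symm
  have ed' : x.2.d = (key7 x).g * (key7 x).e2 := (Nat.mul_div_cancel' (Nat.gcd_dvd_right x.1.d x.2.d)).symm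
  have ek : (key7 x).k = x.1.k := rfl
  have ek' : (key7 x).k = x.2.k := h.hk
  refine ⟨⟨?_, ?_, ?_, ?_, ?_, ?_, ?_, ?_, ?_, ?_, ?_, ?_, ?_, ?_, ?_, ?_, ?_, ?_⟩, ec, ec', ed, ed'⟩
  · exact h1.klo
  · exact h1.khi
  · exact h1.k4
  · rw [← ec]; exact ⟨h1.clo, h1.chi⟩
  · rw [← ec']; exact ⟨h2.clo, h2.chi⟩
  · rw [← ed]; exact ⟨h1.dlo, h1.dhi⟩
  · rw [← ed']; exact ⟨h2.dlo, h2.dhi⟩
  · exact Nat.coprime_div_gcd_div_gcd hm0
  · exact Nat.coprime_div_gcd_div_gcd hg0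
  · rw [← ec, ← ed]; exact (conf_cop h1).2.2.2.2.2.2.1
  · rw [← ec', ← ed']; exact (conf_cop h2).2.2.2.2.2.2.1
  · rw [← ec]; exact (conf_kcop h1).1
  · rw [← ec', ek']; exact (conf_kcop h2).1
  · rw [← ed]; exact (conf_kcop h1).2
  · rw [← ed', ek']; exact (conf_kcop h2).2
  · rw [← Nat.cast_mul, ← Nat.cast_mul, ← ec, ← ed]; exact conf_dvd h1
  · rw [← Nat.cast_mul, ← Nat.cast_mul, ← ec', ← ed', ek']; exact conf_dvd h2
  · rintro ⟨e1, e2, e3, e4⟩
    rw [e1] at ec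
    rw [e2] at ec'
    rw [e3] at ed
    rw [e4] at ed'
    have hcc : x.1.c = x.2.c := ec.trans ec'.symm
    have hdd : x.1.d = x.2.d := ed.trans ed'.symm
    have ha0 : 0 < x.1.a := Nat.pos_of_ne_zero (conf_pos h1).1
    have hbb : x.1.b = x.2.b := by
      have hn := h.hn
      unfold n1 at hn
      rw [← h.ha, ← hcc, mul_assoc, mul_assoc] at hn
      exact Nat.eq_of_mul_eq_mul_right hc0 (Nat.eq_of_mul_eq_mul_left ha0 hn)
    have q1 := h1.eq1
    have q1' := h2.eq1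
    rw [← hdd, ← hbb, ← hcc, ← h.hk, ← h.ha] at q1'
    have hee : x.1.e = x.2.e := by
      have : x.1.d * x.1.e = x.1.d * x.2.e := by omega
      exact Nat.eq_of_mul_eq_mul_left hd0 this
    have q2 := h1.eq2
    have q2' := h2.eq2
    rw [← hcc, ← hee, ← hbb, ← hdd, ← h.hk] at q2'
    have hff : x.1.f = x.2.f := by
      have hk0 : 0 < x.1.k := lt_of_lt_of_le (by omega) h1.klo
      exact Nat.eq_of_mul_eq_mul_left hk0 (q2.symm.trans q2')
    apply h.ne
    obtain ⟨⟨k, a, b, c, d, e, f⟩, ⟨k', a', b', c', d', e', f'⟩⟩ := x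
    have hk := h.hk
    have ha := h.ha
    simp only at hk ha hcc hdd hbb hee hff
    subst hk ha hcc hdd hbb hee hff
    rfl

private theorem b1a_ext {q q' : Cf} (h1 : q.k = q'.k) (h2 : q.a = q'.a) (h3 : q.b = q'.b) (h4 : q.c = q'.c)
    (h5 : q.d = q'.d) (h6 : q.e = q'.e) (h7 : q.f = q'.f) : q = q' := by
  cases q
  cases q'
  simp only at h1 h2 h3 h4 h5 h6 h7
  subst h1 h2 h3 h4 h5 h6 h7
  rfl

private theorem b1a_par {N w : ℕ} (hw : 2 ≤ w) {x : Cf × Cf} (h : PB N w x) {z : K7} (hz : key7 x = z) :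
    ∃ v u : ℕ, 1 ≤ v ∧ 1 ≤ u ∧ x.1.b = z.c2 * v ∧ x.2.b = z.c1 * v ∧ x.1.e = z.e2 * u ∧ x.2.e = z.e1 * u := by
  obtain ⟨hV, ec, ec', ed, ed'⟩ := b1k hw h
  rw [hz] at hV ec ec' ed ed'
  have h1 := h.h1
  have h2 := h.h2
  have hw10 : 0 < w ^ 10 := by positivity
  have hm0 : 0 < z.m := Nat.pos_of_ne_zero fun h0 => by
    have := hV.a1.1
    rw [h0, zero_mul] at this
    omega
  have hg0 : 0 < z.g := Nat.pos_of_ne_zero fun h0 => by
    have := hV.a3.1
    rw [h0, zero_mul] at this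
    omega
  have hc1 : 0 < z.c1 := Nat.pos_of_ne_zero fun h0 => by
    have := hV.a1.1
    rw [h0, mul_zero] at this
    omega
  have hc2 : 0 < z.c2 := Nat.pos_of_ne_zero fun h0 => by
    have := hV.a2.1
    rw [h0, mul_zero] at this
    omega
  have he1 : 0 < z.e1 := Nat.pos_of_ne_zero fun h0 => by
    have := hV.a3.1
    rw [h0, mul_zero] at this
    omega
  have he2 : 0 < z.e2 := Nat.pos_of_ne_zero fun h0 => by
    have := hV.a4.1
    rw [h0, mul_zero] at this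
    omega
  obtain ⟨pa, pb, pc, pd, pe, pf⟩ := conf_pos h1
  have hbc : x.1.b * x.1.c = x.2.b * x.2.c := by
    have hn := h.hn
    unfold n1 at hn
    rw [← h.ha, mul_assoc, mul_assoc] at hn
    exact Nat.eq_of_mul_eq_mul_left (Nat.pos_of_ne_zero pa) hn
  have hde : x.1.d * x.1.e = x.2.d * x.2.e := by
    have q1 := h1.eq1
    have q1' := h2.eq1
    rw [← h.hk, ← h.ha, ← hbc] at q1'
    omega
  have hb1 : x.1.b * z.c1 = x.2.b * z.c2 := by
    rw [ec, ec'] at hbc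
    apply Nat.eq_of_mul_eq_mul_left hm0
    calc z.m * (x.1.b * z.c1) = x.1.b * (z.m * z.c1) := by ring
      _ = x.2.b * (z.m * z.c2) := hbc
      _ = z.m * (x.2.b * z.c2) := by ring
  have he3 : x.1.e * z.e1 = x.2.e * z.e2 := by
    rw [ed, ed'] at hde
    apply Nat.eq_of_mul_eq_mul_left hg0
    calc z.g * (x.1.e * z.e1) = z.g * z.e1 * x.1.e := by ring
      _ = z.g * z.e2 * x.2.e := hde
      _ = z.g * (x.2.e * z.e2) := by ring
  obtain ⟨v, hv⟩ : z.c2 ∣ x.1.b := hV.cc.symm.dvd_of_dvd_mul_right ⟨x.2.b, by rw [hb1]; ring⟩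
  obtain ⟨u, hu⟩ : z.e2 ∣ x.1.e := hV.ee.symm.dvd_of_dvd_mul_right ⟨x.2.e, by rw [he3]; ring⟩
  have hv' : x.2.b = z.c1 * v := by
    apply Nat.eq_of_mul_eq_mul_right hc2
    rw [← hb1, hv]
    ring
  have hu' : x.2.e = z.e1 * u := by
    apply Nat.eq_of_mul_eq_mul_right he2
    rw [← he3, hu]
    ring
  refine ⟨v, u, ?_, ?_, hv, hv', hu, hu'⟩
  · apply Nat.pos_of_ne_zero
    intro h0
    rw [h0, mul_zero] at hv
    exact pb hv
  · apply Nat.pos_of_ne_zero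
    intro h0
    rw [h0, mul_zero] at hu
    exact pe hu

theorem b1a (N : ℕ) (hN : 1000 ≤ N) (w : ℕ) (hw : 10 ≤ w) (z : K7) (hz : V7 w z) (S : Finset (Cf × Cf))
    (hS : ∀ x ∈ S, PB N w x ∧ key7 x = z) : (S.card : ℝ) ≤ 4 * 10 ^ 4 * (w : ℝ) ^ N / (pr7 z : ℝ) := by
  have hw10 : 0 < w ^ 10 := by positivity
  have hm0 : 0 < z.m := Nat.pos_of_ne_zero fun h0 => by
    have := hz.a1.1
    rw [h0, zero_mul] at this
    omega
  have hg0 : 0 < z.g := Nat.pos_of_ne_zero fun h0 => by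
    have := hz.a3.1
    rw [h0, zero_mul] at this
    omega
  have hc1 : 0 < z.c1 := Nat.pos_of_ne_zero fun h0 => by
    have := hz.a1.1
    rw [h0, mul_zero] at this
    omega
  have hc2 : 0 < z.c2 := Nat.pos_of_ne_zero fun h0 => by
    have := hz.a2.1
    rw [h0, mul_zero] at this
    omega
  have he1 : 0 < z.e1 := Nat.pos_of_ne_zero fun h0 => by
    have := hz.a3.1
    rw [h0, mul_zero] at this
    omega
  have he2 : 0 < z.e2 := Nat.pos_of_ne_zero fun h0 => by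
    have := hz.a4.1
    rw [h0, mul_zero] at this
    omega
  have hk0 : 0 < z.k := lt_of_lt_of_le (by omega) hz.k1
  set H := HH N w z.k with hH
  set P := z.m * z.c1 * z.c2 with hP
  set Q := z.g * z.e1 * z.e2 with hQ
  have hP0 : 0 < P := by positivity
  have hQ0 : 0 < Q := by positivity
  -- sizes
  have hQw : Q ≤ w ^ 40 := by
    calc Q ≤ (z.g * z.e1) * (z.g * z.e2) := by
          rw [hQ]
          exact Nat.mul_le_mul_left _ (Nat.le_mul_of_pos_left _ hg0)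
      _ ≤ w ^ 20 * w ^ 20 := Nat.mul_le_mul hz.a3.2 hz.a4.2
      _ = w ^ 40 := by rw [← pow_add]
  have hHw : w ^ 40 ≤ H := by
    rw [hH]
    unfold HH
    rw [Nat.le_sqrt', Nat.le_div_iff_mul_le hk0]
    calc (w ^ 40) ^ 2 * z.k ≤ (w ^ 40) ^ 2 * w ^ 2 := Nat.mul_le_mul_left _ hz.k2
      _ = w ^ 82 := by rw [← pow_mul, ← pow_add]
      _ ≤ w ^ N := Nat.pow_le_pow_right (by omega) (by omega)
      _ ≤ 10 ^ 4 * w ^ N := Nat.le_mul_of_pos_left _ (by norm_num)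
  have hkH : z.k * H ^ 2 ≤ 10 ^ 4 * w ^ N := by
    have e1 : H ^ 2 ≤ 10 ^ 4 * w ^ N / z.k := Nat.sqrt_le' _
    calc z.k * H ^ 2 ≤ z.k * (10 ^ 4 * w ^ N / z.k) := Nat.mul_le_mul_left _ e1
      _ ≤ 10 ^ 4 * w ^ N := Nat.mul_div_le _ _
  set V := z.k * H / P with hVdef
  set U := z.k * H / Q with hUdef
  have hpar : ∀ x ∈ S, ∃ v u : ℕ, 1 ≤ v ∧ 1 ≤ u ∧ x.1.b = z.c2 * v ∧ x.2.b = z.c1 * v ∧ x.1.e = z.e2 * u ∧
      x.2.e = z.e1 * u ∧ x.1.c = z.m * z.c1 ∧ x.2.c = z.m * z.c2 ∧ x.1.d = z.g * z.e1 ∧ x.2.d = z.g * z.e2 ∧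
      x.1.k = z.k ∧ x.2.k = z.k ∧ Q * u + P * v = z.k * x.1.a ∧ x.1.b / z.c2 = v ∧ x.1.e / z.e2 = u := by
    intro x hx
    obtain ⟨hPB, hkey⟩ := hS x hx
    obtain ⟨v, u, hv, hu, b1, b2, e1, e2⟩ := b1a_par (by omega) hPB hkey
    obtain ⟨-, ec, ec', ed, ed'⟩ := b1k (by omega) hPB
    rw [hkey] at ec ec' ed ed'
    have hk : x.1.k = z.k := by rw [← hkey]; rfl
    have hk' : x.2.k = z.k := by rw [← hPB.hk]; exact hk
    refine ⟨v, u, hv, hu, b1, b2, e1, e2, ec, ec', ed, ed', hk, hk', ?_, ?_, ?_⟩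
    · have q1 := hPB.h1.eq1
      rw [b1, ec, ed, e1, hk] at q1
      rw [← q1, hP, hQ]
      ring
    · rw [b1, Nat.mul_div_cancel_left _ hc2]
    · rw [e1, Nat.mul_div_cancel_left _ he2]
  have hcard : S.card ≤ V * (U / z.k + 1) := by
    have h1 : (Finset.Icc 1 V ×ˢ Finset.range (U / z.k + 1)).card = V * (U / z.k + 1) := by
      rw [Finset.card_product, Nat.card_Icc, Finset.card_range]
      simp
    rw [← h1]
    refine Finset.card_le_card_of_injOn (fun x : Cf × Cf => (x.1.b / z.c2, x.1.e / z.e2 / z.k)) ?_ ?_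
    · intro x hx
      rw [Finset.mem_coe] at hx
      obtain ⟨v, u, hv, hu, b1, b2, e1, e2, ec, ec', ed, ed', hk, hk', hQP, f1, f2⟩ := hpar x hx
      have hPB := (hS x hx).1
      have hHa := conf_HH hPB.h1 (by omega)
      rw [hk] at hHa
      have hka : z.k * x.1.a ≤ z.k * H := Nat.mul_le_mul_left _ hHa
      rw [Finset.mem_coe, Finset.mem_product, Finset.mem_Icc, Finset.mem_range]
      simp only
      rw [f1, f2]
      refine ⟨⟨hv, ?_⟩, ?_⟩
      · rw [hVdef, Nat.le_div_iff_mul_le hP0]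
        calc v * P = P * v := mul_comm _ _
          _ ≤ z.k * x.1.a := by omega
          _ ≤ z.k * H := hka
      · have hu2 : u ≤ U := by
          rw [hUdef, Nat.le_div_iff_mul_le hQ0]
          calc u * Q = Q * u := mul_comm _ _
            _ ≤ z.k * x.1.a := by omega
            _ ≤ z.k * H := hka
        exact Nat.lt_succ_of_le (Nat.div_le_div_right hu2)
    · intro x hx x' hx' hxx
      rw [Finset.mem_coe] at hx hx'
      obtain ⟨v, u, hv, hu, b1, b2, e1, e2, ec, ec', ed, ed', hk, hk', hQP, f1, f2⟩ := hpar x hx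
      obtain ⟨v', u', hv', hu', b1', b2', e1', e2', ec1, ec1', ed1, ed1', hk1, hk1', hQP', f1', f2'⟩ := hpar x' hx'
      have hPB := (hS x hx).1
      have hPB' := (hS x' hx').1
      simp only [Prod.mk.injEq] at hxx
      rw [f1, f2, f1', f2'] at hxx
      obtain ⟨hvv, huu⟩ := hxx
      subst hvv
      -- `u` and `u'` are congruent
      have hcop : Nat.Coprime z.k Q := by
        have c1 := hz.ke.symm
        have c2 : Nat.Coprime z.k z.e2 := (Nat.Coprime.coprime_dvd_left (Dvd.intro_left _ rfl) hz.ke').symm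
        rw [hQ]
        exact Nat.Coprime.mul_right c1 c2
      have hmod : u ≡ u' [MOD z.k] := by
        have m1 : Q * u + P * v ≡ Q * u' + P * v [MOD z.k] := by
          rw [hQP, hQP']
          exact (Nat.modEq_zero_iff_dvd.2 (Dvd.intro _ rfl)).trans (Nat.modEq_zero_iff_dvd.2 (Dvd.intro _ rfl)).symm
        have m2 : Q * u ≡ Q * u' [MOD z.k] := Nat.ModEq.add_right_cancel' _ m1
        exact Nat.ModEq.cancel_left_of_coprime hcop m2
      have huu' : u = u' := by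
        rw [← Nat.div_add_mod u z.k, ← Nat.div_add_mod u' z.k, huu]
        congr 1
      subst huu'
      have haa : x.1.a = x'.1.a := Nat.eq_of_mul_eq_mul_left hk0 (hQP.symm.trans hQP')
      have hff : x.1.f = x'.1.f := by
        have q2 := hPB.h1.eq2
        have q2' := hPB'.h1.eq2
        rw [ec, e1, b1, ed, hk] at q2
        rw [ec1, e1', b1', ed1, hk1] at q2'
        exact Nat.eq_of_mul_eq_mul_left hk0 (q2.symm.trans q2')
      have hff' : x.2.f = x'.2.f := by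
        have q2 := hPB.h2.eq2
        have q2' := hPB'.h2.eq2
        rw [ec', e2, b2, ed', hk'] at q2
        rw [ec1', e2', b2', ed1', hk1'] at q2'
        exact Nat.eq_of_mul_eq_mul_left hk0 (q2.symm.trans q2')
      have haa' : x.2.a = x'.2.a := by rw [← hPB.ha, ← hPB'.ha, haa]
      have g1 : x.1 = x'.1 := by
        have k1 : x.1.k = x'.1.k := hk.trans hk1.symm
        have k2 : x.1.b = x'.1.b := b1.trans b1'.symm
        have k3 : x.1.c = x'.1.c := ec.trans ec1.symm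
        have k4 : x.1.d = x'.1.d := ed.trans ed1.symm
        have k5 : x.1.e = x'.1.e := e1.trans e1'.symm
        exact b1a_ext k1 haa k2 k3 k4 k5 hff
      have g2 : x.2 = x'.2 := by
        have k1 : x.2.k = x'.2.k := hk'.trans hk1'.symm
        have k2 : x.2.b = x'.2.b := b2.trans b2'.symm
        have k3 : x.2.c = x'.2.c := ec'.trans ec1'.symm
        have k4 : x.2.d = x'.2.d := ed'.trans ed1'.symm
        have k5 : x.2.e = x'.2.e := e2.trans e2'.symm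
        exact b1a_ext k1 haa' k2 k3 k4 k5 hff'
      exact Prod.ext g1 g2
  -- conclusion
  have hVP : V * P ≤ z.k * H := Nat.div_mul_le_self _ _
  have hUQ : (U / z.k + 1) * Q ≤ 2 * H := by
    have e1 : U / z.k * Q ≤ H := by
      apply Nat.le_of_mul_le_mul_left _ hk0
      calc z.k * (U / z.k * Q) = (U / z.k * z.k) * Q := by ring
        _ ≤ U * Q := Nat.mul_le_mul_right _ (Nat.div_mul_le_self _ _)
        _ ≤ z.k * H := Nat.div_mul_le_self _ _
    calc (U / z.k + 1) * Q = U / z.k * Q + Q := by ring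
      _ ≤ H + H := Nat.add_le_add e1 (hQw.trans hHw)
      _ = 2 * H := by ring
  have hpr : pr7 z = P * Q := by
    unfold pr7
    rw [hP, hQ]
  have hfinal : S.card * pr7 z ≤ 4 * 10 ^ 4 * w ^ N := by
    rw [hpr]
    calc S.card * (P * Q) ≤ (V * (U / z.k + 1)) * (P * Q) := Nat.mul_le_mul_right _ hcard
      _ = (V * P) * ((U / z.k + 1) * Q) := by ring
      _ ≤ (z.k * H) * (2 * H) := Nat.mul_le_mul hVP hUQ
      _ = 2 * (z.k * H ^ 2) := by ring
      _ ≤ 2 * (10 ^ 4 * w ^ N) := Nat.mul_le_mul_left _ hkH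
      _ ≤ 4 * 10 ^ 4 * w ^ N := by nlinarith [Nat.zero_le (w ^ N)]
  have hpr0 : (0:ℝ) < (pr7 z : ℝ) := by
    rw [hpr]
    exact_mod_cast Nat.mul_pos hP0 hQ0
  rw [le_div_iff₀ hpr0]
  exact_mod_cast hfinal

end PA39
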