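import Pool.Agent.LibPA39.Defs

/-!
[PA N10a] (ONLY MATHLIB) **The classes of `d`.**
(i) `cl`: the map `x ↦ gcd(k, m x - e)` (integer gcd) from the residues `x < k` with `k ∣ (m x)^2 - e^2` to `k.divisors` is INJECTIVE; take
`R = (range k).filter (k ∣ (m x)^2 - e^2)`, `card_le_card_of_injOn`. Injectivity: put `u = gcd(k, m x - e)`; `k ∣ (m x - e)(m x + e)` gives `k/u ∣ m x + e`
(`k/u` is coprime to `(m x - e)/u`); a common prime `p` of `u` and `k/u` divides `2 e`, does not divide `e` (`p ∣ k`), so `p = 2` and `4 ∣ k`: excluded;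
so `u.Coprime (k/u)`. If `x'` has the same `u` then `m x ≡ e ≡ m x'` mod `u` and `m x ≡ -e ≡ m x'` mod `k/u`, so `k ∣ m (x - x')`, `k ∣ x - x'`, `x = x'`.
(ii) `rt`: a quadratic polynomial `α x^2 + β` with `l ∤ α` has at most two roots mod the prime `l`: `R = (range l).filter ..`, or two cases: no root: `R = ∅`; a root `x0`:
`R = {x0 % l, (l - x0 % l) % l}` (`l ∣ α (x^2 - x0^2)`).
-/

namespace PA39

open Finset Pasch

/-- the splitting `k = u v` attached to a root -/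
private theorem n10a_split (k m e x : ℕ) (hk : 1 ≤ k) (h4 : ¬ 4 ∣ k)
    (he : e.Coprime k) (hx : (k : ℤ) ∣ ((m : ℤ) * x) ^ 2 - (e : ℤ) ^ 2) (u : ℕ)
    (hu : u = Int.gcd (k : ℤ) ((m : ℤ) * x - e)) :
    ∃ v : ℕ, k = u * v ∧ u.Coprime v ∧ (u : ℤ) ∣ (m : ℤ) * x - e ∧ (v : ℤ) ∣ (m : ℤ) * x + e := by
  have hu1 : (u : ℤ) ∣ (k : ℤ) := by rw [hu]; exact Int.gcd_dvd_left _ _
  have hu2 : (u : ℤ) ∣ (m : ℤ) * x - e := by rw [hu]; exact Int.gcd_dvd_right _ _
  obtain ⟨v, hv⟩ := Int.natCast_dvd_natCast.1 hu1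
  have hu0 : 0 < u := by
    rcases Nat.eq_zero_or_pos u with h | h
    · rw [h, zero_mul] at hv; omega
    · exact h
  have hv0 : 0 < v := by
    rcases Nat.eq_zero_or_pos v with h | h
    · rw [h, mul_zero] at hv; omega
    · exact h
  obtain ⟨t, ht⟩ := hu2
  have hcop : IsCoprime (v : ℤ) t := by
    rw [Int.isCoprime_iff_gcd_eq_one]
    have h1 : Int.gcd ((u : ℤ) * v) ((u : ℤ) * t) = u * Int.gcd (v : ℤ) t := by
      rw [Int.gcd_mul_left]
      simp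
    have h2 : Int.gcd ((u : ℤ) * v) ((u : ℤ) * t) = u := by
      rw [← ht, hu.trans rfl, hv]
      have : ((u * v : ℕ) : ℤ) = (u : ℤ) * (v : ℤ) := by push_cast; ring
      rw [← hv]
      rw [show ((Int.gcd (k : ℤ) ((m : ℤ) * x - e) : ℕ) : ℤ) * (v : ℤ) = (k : ℤ) by
        rw [← hu]; rw [hv]; push_cast; ring]
    rw [h2] at h1
    exact (Nat.eq_of_mul_eq_mul_left hu0 (by rw [mul_one]; exact h1)).symm
  have hvd : (v : ℤ) ∣ (m : ℤ) * x + e := by
    have h1 : (u : ℤ) * v ∣ (u : ℤ) * (t * ((m : ℤ) * x + e)) := by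
      have h2 : (u : ℤ) * (t * ((m : ℤ) * x + e)) = ((m : ℤ) * x) ^ 2 - (e : ℤ) ^ 2 := by
        calc (u : ℤ) * (t * ((m : ℤ) * x + e)) = ((u : ℤ) * t) * ((m : ℤ) * x + e) := by ring
          _ = ((m : ℤ) * x - e) * ((m : ℤ) * x + e) := by rw [← ht]
          _ = _ := by ring
      rw [h2]
      have h3 : (k : ℤ) = (u : ℤ) * v := by rw [hv]; push_cast; ring
      rw [← h3]
      exact hx
    have h4' : (v : ℤ) ∣ t * ((m : ℤ) * x + e) :=
      Int.dvd_of_mul_dvd_mul_left (by positivity) h1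
    exact hcop.dvd_of_dvd_mul_left h4'
  refine ⟨v, hv, ?_, ⟨t, ht⟩, hvd⟩
  rw [Nat.coprime_iff_gcd_eq_one]
  by_contra hne
  obtain ⟨p, hp, hpd⟩ := Nat.exists_prime_and_dvd hne
  have hpu : p ∣ u := hpd.trans (Nat.gcd_dvd_left _ _)
  have hpv : p ∣ v := hpd.trans (Nat.gcd_dvd_right _ _)
  have hpu' : (p : ℤ) ∣ (m : ℤ) * x - e :=
    (Int.natCast_dvd_natCast.2 hpu).trans ⟨t, ht⟩
  have hpv' : (p : ℤ) ∣ (m : ℤ) * x + e := (Int.natCast_dvd_natCast.2 hpv).trans hvd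
  have h2e : (p : ℤ) ∣ 2 * (e : ℤ) := by
    have := dvd_sub hpv' hpu'
    have h : (m : ℤ) * x + e - ((m : ℤ) * x - e) = 2 * (e : ℤ) := by ring
    rwa [h] at this
  have h2e' : p ∣ 2 * e := by exact_mod_cast h2e
  have hpk : p ∣ k := by rw [hv]; exact hpu.mul_right _
  have hpe : ¬ p ∣ e := by
    intro h
    have := Nat.dvd_gcd h hpk
    rw [he] at this
    exact hp.one_lt.ne' (Nat.dvd_one.1 this)
  have hp2 : p ∣ 2 := by
    rcases (hp.dvd_mul).1 h2e' with h | h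
    · exact h
    · exact absurd h hpe
  have hp2' : p = 2 := (Nat.prime_dvd_prime_iff_eq hp Nat.prime_two).1 hp2
  subst hp2'
  apply h4
  rw [hv]
  exact mul_dvd_mul hpu hpv

theorem cl (k m e : ℕ) (hk : 1 ≤ k) (h4 : ¬ 4 ∣ k) (hm : m.Coprime k) (he : e.Coprime k) :
    ∃ R : Finset ℕ, (R.card : ℝ) ≤ ta k ∧
      ∀ x : ℕ, (k : ℤ) ∣ ((m : ℤ) * x) ^ 2 - (e : ℤ) ^ 2 → x % k ∈ R := by
  classical
  refine ⟨(range k).filter (fun x : ℕ => (k : ℤ) ∣ ((m : ℤ) * (x : ℤ)) ^ 2 - (e : ℤ) ^ 2), ?_, ?_⟩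
  · unfold ta
    have hcard : ((range k).filter
        (fun x : ℕ => (k : ℤ) ∣ ((m : ℤ) * (x : ℤ)) ^ 2 - (e : ℤ) ^ 2)).card ≤ k.divisors.card := by
      apply Finset.card_le_card_of_injOn (fun x : ℕ => Int.gcd (k : ℤ) ((m : ℤ) * (x : ℤ) - e))
      · intro x _
        simp only [Finset.mem_coe, Nat.mem_divisors]
        refine ⟨?_, by omega⟩
        have := Int.gcd_dvd_left (k : ℤ) ((m : ℤ) * (x : ℤ) - e)
        exact_mod_cast this
      · intro x hx x' hx' h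
        simp only [Finset.mem_coe, Finset.mem_filter, Finset.mem_range] at hx hx'
        obtain ⟨hxk, hxd⟩ := hx
        obtain ⟨hxk', hxd'⟩ := hx'
        simp only at h
        obtain ⟨v, hv, hc, h1, h2⟩ := n10a_split k m e x hk h4 he hxd _ rfl
        obtain ⟨v', hv', hc', h1', h2'⟩ := n10a_split k m e x' hk h4 he hxd' _ rfl
        rw [← h] at hv' hc' h1'
        set u := Int.gcd (k : ℤ) ((m : ℤ) * (x : ℤ) - e) with hu
        have hu0 : 0 < u := by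
          rcases Nat.eq_zero_or_pos u with h0 | h0
          · rw [h0, zero_mul] at hv; omega
          · exact h0
        have hvv : v' = v := Nat.eq_of_mul_eq_mul_left hu0 (hv'.symm.trans hv)
        rw [hvv] at h2'
        have hA : (u : ℤ) ∣ (m : ℤ) * ((x : ℤ) - x') := by
          have := dvd_sub h1 h1'
          have h3 : (m : ℤ) * x - e - ((m : ℤ) * x' - e) = (m : ℤ) * ((x : ℤ) - x') := by ring
          rwa [h3] at this
        have hB : (v : ℤ) ∣ (m : ℤ) * ((x : ℤ) - x') := by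
          have := dvd_sub h2 h2'
          have h3 : (m : ℤ) * x + e - ((m : ℤ) * x' + e) = (m : ℤ) * ((x : ℤ) - x') := by ring
          rwa [h3] at this
        have hC : (k : ℤ) ∣ (m : ℤ) * ((x : ℤ) - x') := by
          have h3 : IsCoprime (u : ℤ) (v : ℤ) := Nat.isCoprime_iff_coprime.2 hc
          have := h3.mul_dvd hA hB
          have h5 : (k : ℤ) = (u : ℤ) * (v : ℤ) := by exact_mod_cast hv
          rwa [← h5] at this
        have hD : (k : ℤ) ∣ (x : ℤ) - x' :=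
          (Nat.isCoprime_iff_coprime.2 hm.symm).dvd_of_dvd_mul_left hC
        have hE : (x' : ℤ) ≡ (x : ℤ) [ZMOD k] := (Int.modEq_iff_dvd).2 hD
        have hF : x' ≡ x [MOD k] := (Int.natCast_modEq_iff).1 hE
        exact (Nat.ModEq.eq_of_lt_of_lt hF hxk' hxk).symm
    exact Nat.cast_le.2 hcard
  · intro x hx
    rw [Finset.mem_filter, Finset.mem_range]
    refine ⟨Nat.mod_lt _ hk, ?_⟩
    have h1 : ((x % k : ℕ) : ℤ) ≡ (x : ℤ) [ZMOD k] := by
      rw [Int.natCast_modEq_iff]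
      exact Nat.mod_modEq _ _
    have h2 : ((m : ℤ) * ((x % k : ℕ) : ℤ)) ^ 2 - (e : ℤ) ^ 2 ≡
        ((m : ℤ) * x) ^ 2 - (e : ℤ) ^ 2 [ZMOD k] :=
      ((h1.mul_left _).pow 2).sub_right _
    have h3 : ((m : ℤ) * x) ^ 2 - (e : ℤ) ^ 2 ≡ 0 [ZMOD k] := (Int.modEq_zero_iff_dvd).2 hx
    exact (Int.modEq_zero_iff_dvd).1 (h2.trans h3)

theorem rt (l : ℕ) (hl : l.Prime) (α β : ℤ) (h : ¬ (l : ℤ) ∣ α) :
    ∃ R : Finset ℕ, R.card ≤ 2 ∧ ∀ x : ℕ, (l : ℤ) ∣ α * (x : ℤ) ^ 2 + β → x % l ∈ R := by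
  classical
  by_cases hex : ∃ x0 : ℕ, (l : ℤ) ∣ α * (x0 : ℤ) ^ 2 + β
  · obtain ⟨x0, hx0⟩ := hex
    refine ⟨{x0 % l, (l - x0 % l) % l}, Finset.card_le_two, ?_⟩
    intro x hx
    have hpl : Prime (l : ℤ) := Nat.prime_iff_prime_int.1 hl
    have h1 : (l : ℤ) ∣ α * (((x : ℤ) - x0) * ((x : ℤ) + x0)) := by
      have := dvd_sub hx hx0
      have h2 : α * (x : ℤ) ^ 2 + β - (α * (x0 : ℤ) ^ 2 + β) =
          α * (((x : ℤ) - x0) * ((x : ℤ) + x0)) := by ring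
      rwa [h2] at this
    rw [Finset.mem_insert, Finset.mem_singleton]
    rcases (hpl.dvd_mul.1 h1) with h2 | h2
    · exact absurd h2 h
    · rcases (hpl.dvd_mul.1 h2) with h3 | h3
      · left
        have hE : (x0 : ℤ) ≡ (x : ℤ) [ZMOD l] := (Int.modEq_iff_dvd).2 h3
        exact ((Int.natCast_modEq_iff).1 hE).symm
      · right
        have hlt : x0 % l < l := Nat.mod_lt _ hl.pos
        have h4 : ((l - x0 % l : ℕ) : ℤ) = (l : ℤ) - ((x0 % l : ℕ) : ℤ) := by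
          rw [Nat.cast_sub hlt.le]
        have h5 : ((x0 % l : ℕ) : ℤ) ≡ (x0 : ℤ) [ZMOD l] := by
          rw [Int.natCast_modEq_iff]
          exact Nat.mod_modEq _ _
        have h6 : (x : ℤ) ≡ ((l - x0 % l : ℕ) : ℤ) [ZMOD l] := by
          rw [h4]
          have h7 : (x : ℤ) ≡ -(x0 : ℤ) [ZMOD l] := by
            refine (Int.modEq_iff_dvd).2 ?_
            have : -(x0 : ℤ) - x = -((x : ℤ) + x0) := by ring
            rw [this]
            exact (dvd_neg).2 h3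
          have h8 : (l : ℤ) - ((x0 % l : ℕ) : ℤ) ≡ 0 - (x0 : ℤ) [ZMOD l] :=
            Int.ModEq.sub ((Int.modEq_zero_iff_dvd).2 dvd_rfl) h5
          rw [zero_sub] at h8
          exact h7.trans h8.symm
        exact (Int.natCast_modEq_iff).1 h6
  · refine ⟨∅, by simp, ?_⟩
    intro x hx
    exact absurd ⟨x, hx⟩ hex

end PA39
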