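import Pool.Agent.LibPA39.Defs2
import Pool.Agent.LibPA39.N10a

/-!
[PA C1n] **Nonvanishing and size of `Th1`; its roots mod `l`.**
PROOF. (i) `c1n`: seven factors. `d, d' ≥ 1`. `d ≠ c` because `d.Coprime c` and `c ≥ w^10 > 1`; same `d' ≠ c'`. `k d'^2 + (k'-k) c'^2 = 0` would give `c'^2 ∣ k d'^2`, so `c'^2 ∣ k` (coprime), but `0 < k ≤ w^2 < c'^2`; same for the next one.
The last one is the hypothesis `nd`. Size: `d ≤ 4 c ≤ 4 w^20`, all factors `≤ 32 w^82` in absolute value etc.: product `≤ 2^30 w^290 ≤ w^1000`.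
(ii) `c1h`: `l ∤ K01` so `l ∤ m, c1, c2, k, k', k - k'`. If `l ∣ Th1` then `l` divides one of the seven factors: `d` (class 0), `d^2 - c^2`, `k' d^2 + (k-k') c^2` (`rt` with `α = 1` resp. `k'`: at most 2 classes each), or `d'` (class 0), `d'^2 - c'^2`,
`k d'^2 + (k'-k) c'^2` (`α = k`), `k c^2 d'^2 - [k c^2 c'^2 + k' c'^2 (d^2-c^2)]` (`α = k c^2`, depends on `d`). `R` = union of the first three (`≤ 5`), `R' d` = union of the last four (`≤ 7`). (`d % l = 0` iff `l ∣ d`.)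
-/

namespace PA39

open Finset Pasch

private theorem c1n_ne {w k c d : ℕ} (hw : 2 ≤ w) (h : VK w k c) (hd : d ∈ DS k c) :
    ((d : ℤ) ^ 2 - (c : ℤ) ^ 2) ≠ 0 := by
  rw [mem_DS] at hd
  intro h0
  have h1 : (d : ℤ) ^ 2 = (c : ℤ) ^ 2 := by linarith
  have h2 : d ^ 2 = c ^ 2 := by exact_mod_cast h1
  have h3 : d = c := Nat.pow_left_injective (n := 2) (by norm_num) h2
  have h4 := hd.2.1
  rw [h3, Nat.coprime_self] at h4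
  have h5 : 2 ^ 10 ≤ w ^ 10 := Nat.pow_le_pow_left hw 10
  have h6 := h.c1
  omega

private theorem c1n_ne2 {w k j c d : ℕ} {e : ℤ} (hw : 2 ≤ w) (hj : 1 ≤ j) (hj2 : j ≤ w ^ 2) (h : VK w k c)
    (hd : d ∈ DS k c) : (j : ℤ) * (d : ℤ) ^ 2 + e * (c : ℤ) ^ 2 ≠ 0 := by
  rw [mem_DS] at hd
  intro h0
  have h1 : ((c : ℤ) ^ 2) ∣ (j : ℤ) * (d : ℤ) ^ 2 := ⟨-e, by linarith⟩
  have h2 : c ^ 2 ∣ j * d ^ 2 := by exact_mod_cast h1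
  have h3 : (c ^ 2).Coprime (d ^ 2) := (hd.2.1.symm).pow 2 2
  have h4 : c ^ 2 ∣ j := h3.dvd_of_dvd_mul_right h2
  have h5 : c ^ 2 ≤ j := Nat.le_of_dvd (by omega) h4
  have h6 : (w ^ 10) ^ 2 ≤ c ^ 2 := Nat.pow_le_pow_left h.c1 2
  have h7 : w ^ 2 < (w ^ 10) ^ 2 := by
    rw [← pow_mul]
    exact Nat.pow_lt_pow_right (by omega) (by norm_num)
  omega

private theorem c1n_abs {w k c d : ℕ} (h : VK w k c) (hd : d ∈ DS k c) :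
    (0 : ℤ) ≤ c ∧ (c : ℤ) ^ 2 ≤ (w : ℤ) ^ 40 ∧ (0 : ℤ) ≤ d ∧ (d : ℤ) ≤ 4 * (w : ℤ) ^ 20 ∧
      (d : ℤ) ^ 2 ≤ 16 * (w : ℤ) ^ 40 ∧ |(d : ℤ) ^ 2 - (c : ℤ) ^ 2| ≤ 16 * (w : ℤ) ^ 40 := by
  rw [mem_DS] at hd
  have h1 : (c : ℤ) ≤ (w : ℤ) ^ 20 := by exact_mod_cast h.c2
  have h2 : (d : ℤ) ≤ 4 * c := by exact_mod_cast hd.1.2
  have hc0 : (0 : ℤ) ≤ c := Int.natCast_nonneg c
  have hd0 : (0 : ℤ) ≤ d := Int.natCast_nonneg d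
  have h3 : (c : ℤ) ^ 2 ≤ (w : ℤ) ^ 40 := by
    calc (c : ℤ) ^ 2 ≤ ((w : ℤ) ^ 20) ^ 2 := pow_le_pow_left₀ hc0 h1 2
      _ = (w : ℤ) ^ 40 := by ring
  have h4 : (d : ℤ) ≤ 4 * (w : ℤ) ^ 20 := by linarith
  have h5 : (d : ℤ) ^ 2 ≤ 16 * (w : ℤ) ^ 40 := by
    calc (d : ℤ) ^ 2 ≤ (4 * (w : ℤ) ^ 20) ^ 2 := pow_le_pow_left₀ hd0 h4 2
      _ = 16 * (w : ℤ) ^ 40 := by ring
  have hw0 : (0 : ℤ) ≤ (w : ℤ) ^ 40 := by positivity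
  have hc2 : (0 : ℤ) ≤ (c : ℤ) ^ 2 := by positivity
  have hd2 : (0 : ℤ) ≤ (d : ℤ) ^ 2 := by positivity
  refine ⟨hc0, h3, hd0, h4, h5, ?_⟩
  rw [abs_le]
  constructor
  · linarith
  · linarith

private theorem c1n_cst {w : ℕ} (hw : 2 ≤ w) {K a : ℕ} {j : ℕ} (hK : K ≤ 2 ^ j) (haj : j + a ≤ 100) :
    (K : ℤ) * (w : ℤ) ^ a ≤ (w : ℤ) ^ 100 := by
  have h1 : K * w ^ a ≤ w ^ 100 := by
    calc K * w ^ a ≤ 2 ^ j * w ^ a := Nat.mul_le_mul_right _ hK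
      _ ≤ w ^ j * w ^ a := Nat.mul_le_mul_right _ (Nat.pow_le_pow_left hw j)
      _ = w ^ (j + a) := (pow_add _ _ _).symm
      _ ≤ w ^ 100 := Nat.pow_le_pow_right (by omega) haj
  exact_mod_cast h1

private theorem c1n_mix {w k k' c d : ℕ} {e : ℤ} (hw : 2 ≤ w) (hk : k ≤ w ^ 2) (he : |e| ≤ (w : ℤ) ^ 2)
    (h : VK w k' c) (hd : d ∈ DS k' c) :
    |(k : ℤ) * (d : ℤ) ^ 2 + e * (c : ℤ) ^ 2| ≤ (w : ℤ) ^ 100 := by
  obtain ⟨hc0, hc2, hd0, hd1, hd2, -⟩ := c1n_abs h hd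
  have hk' : (k : ℤ) ≤ (w : ℤ) ^ 2 := by exact_mod_cast hk
  have hk0 : (0 : ℤ) ≤ k := Int.natCast_nonneg k
  have h1 : |(k : ℤ) * (d : ℤ) ^ 2| ≤ (w : ℤ) ^ 2 * (16 * (w : ℤ) ^ 40) := by
    rw [abs_of_nonneg (by positivity)]
    exact mul_le_mul hk' hd2 (by positivity) (by positivity)
  have h2 : |e * (c : ℤ) ^ 2| ≤ (w : ℤ) ^ 2 * (w : ℤ) ^ 40 := by
    rw [abs_mul, abs_of_nonneg (show (0 : ℤ) ≤ (c : ℤ) ^ 2 by positivity)]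
    exact mul_le_mul he hc2 (by positivity) (by positivity)
  calc |(k : ℤ) * (d : ℤ) ^ 2 + e * (c : ℤ) ^ 2| ≤ |(k : ℤ) * (d : ℤ) ^ 2| + |e * (c : ℤ) ^ 2| :=
        abs_add_le _ _
    _ ≤ (w : ℤ) ^ 2 * (16 * (w : ℤ) ^ 40) + (w : ℤ) ^ 2 * (w : ℤ) ^ 40 := add_le_add h1 h2
    _ = ((17 : ℕ) : ℤ) * (w : ℤ) ^ 42 := by push_cast; ring
    _ ≤ (w : ℤ) ^ 100 := c1n_cst hw (j := 5) (by norm_num) (by norm_num)

private theorem c1n_kk {w k k' : ℕ} (hk : k ≤ w ^ 2) (hk' : k' ≤ w ^ 2) :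
    |(k : ℤ) - k'| ≤ (w : ℤ) ^ 2 := by
  have h1 : (k : ℤ) ≤ (w : ℤ) ^ 2 := by exact_mod_cast hk
  have h2 : (k' : ℤ) ≤ (w : ℤ) ^ 2 := by exact_mod_cast hk'
  have h3 : (0 : ℤ) ≤ k := Int.natCast_nonneg k
  have h4 : (0 : ℤ) ≤ k' := Int.natCast_nonneg k'
  rw [abs_le]
  constructor
  · linarith
  · linarith

private theorem c1n_last {w k k' c c' d d' : ℕ} (hw : 2 ≤ w) (h : VK w k c) (h' : VK w k' c')
    (hd : d ∈ DS k c) (hd' : d' ∈ DS k' c') :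
    |(k : ℤ) * (c : ℤ) ^ 2 * ((d' : ℤ) ^ 2 - (c' : ℤ) ^ 2) -
      k' * (c' : ℤ) ^ 2 * ((d : ℤ) ^ 2 - (c : ℤ) ^ 2)| ≤ (w : ℤ) ^ 100 := by
  obtain ⟨-, hc2, -, -, -, hdc⟩ := c1n_abs h hd
  obtain ⟨-, hc2', -, -, -, hdc'⟩ := c1n_abs h' hd'
  have hk : (k : ℤ) ≤ (w : ℤ) ^ 2 := by exact_mod_cast h.k2
  have hk' : (k' : ℤ) ≤ (w : ℤ) ^ 2 := by exact_mod_cast h'.k2
  have hk0 : (0 : ℤ) ≤ k := Int.natCast_nonneg k
  have hk0' : (0 : ℤ) ≤ k' := Int.natCast_nonneg k'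
  have h1 : |(k : ℤ) * (c : ℤ) ^ 2 * ((d' : ℤ) ^ 2 - (c' : ℤ) ^ 2)| ≤
      (w : ℤ) ^ 2 * (w : ℤ) ^ 40 * (16 * (w : ℤ) ^ 40) := by
    rw [abs_mul, abs_of_nonneg (show (0 : ℤ) ≤ (k : ℤ) * (c : ℤ) ^ 2 by positivity)]
    exact mul_le_mul (mul_le_mul hk hc2 (by positivity) (by positivity)) hdc' (abs_nonneg _)
      (by positivity)
  have h2 : |(k' : ℤ) * (c' : ℤ) ^ 2 * ((d : ℤ) ^ 2 - (c : ℤ) ^ 2)| ≤
      (w : ℤ) ^ 2 * (w : ℤ) ^ 40 * (16 * (w : ℤ) ^ 40) := by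
    rw [abs_mul, abs_of_nonneg (show (0 : ℤ) ≤ (k' : ℤ) * (c' : ℤ) ^ 2 by positivity)]
    exact mul_le_mul (mul_le_mul hk' hc2' (by positivity) (by positivity)) hdc (abs_nonneg _)
      (by positivity)
  calc _ ≤ |(k : ℤ) * (c : ℤ) ^ 2 * ((d' : ℤ) ^ 2 - (c' : ℤ) ^ 2)| +
        |(k' : ℤ) * (c' : ℤ) ^ 2 * ((d : ℤ) ^ 2 - (c : ℤ) ^ 2)| := abs_sub _ _
    _ ≤ (w : ℤ) ^ 2 * (w : ℤ) ^ 40 * (16 * (w : ℤ) ^ 40) +
        (w : ℤ) ^ 2 * (w : ℤ) ^ 40 * (16 * (w : ℤ) ^ 40) := add_le_add h1 h2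
    _ = ((32 : ℕ) : ℤ) * (w : ℤ) ^ 82 := by push_cast; ring
    _ ≤ (w : ℤ) ^ 100 := c1n_cst hw (j := 5) (by norm_num) (by norm_num)

private theorem c1n_mul {x y W : ℤ} {a : ℕ} (hW : 0 ≤ W) (hx : |x| ≤ W ^ a) (hy : |y| ≤ W ^ 100) :
    |x * y| ≤ W ^ (a + 100) := by
  rw [abs_mul, pow_add]
  exact mul_le_mul hx hy (abs_nonneg _) (by positivity)

theorem c1n {w k k' c c' d d' : ℕ} (hw : 2 ≤ w) (h : VK w k c) (h' : VK w k' c') (hd : d ∈ DS k c) (hd' : d' ∈ DS k' c')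
    (hnd : (k : ℤ) * (c : ℤ) ^ 2 * ((d' : ℤ) ^ 2 - (c' : ℤ) ^ 2) ≠ k' * (c' : ℤ) ^ 2 * ((d : ℤ) ^ 2 - (c : ℤ) ^ 2)) :
    Th1 k k' c c' d d' ≠ 0 ∧ Th1 k k' c c' d d' ≤ w ^ 1000 := by
  have hd0 : (d : ℤ) ≠ 0 := by
    have := (mem_DS.1 hd).1.1
    exact_mod_cast (by omega : d ≠ 0)
  have hd0' : (d' : ℤ) ≠ 0 := by
    have := (mem_DS.1 hd').1.1
    exact_mod_cast (by omega : d' ≠ 0)
  have f3 := c1n_ne hw h hd
  have f4 := c1n_ne hw h' hd'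
  have f5 : (k : ℤ) * (d' : ℤ) ^ 2 + ((k' : ℤ) - k) * (c' : ℤ) ^ 2 ≠ 0 :=
    c1n_ne2 hw h.k1 h.k2 h' hd'
  have f6 : (k' : ℤ) * (d : ℤ) ^ 2 + ((k : ℤ) - k') * (c : ℤ) ^ 2 ≠ 0 :=
    c1n_ne2 hw h'.k1 h'.k2 h hd
  have f7 := sub_ne_zero.2 hnd
  constructor
  · unfold Th1
    rw [Int.natAbs_ne_zero]
    exact mul_ne_zero (mul_ne_zero (mul_ne_zero (mul_ne_zero (mul_ne_zero (mul_ne_zero hd0 hd0') f3)
      f4) f5) f6) f7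
  · have hw0 : (0 : ℤ) ≤ (w : ℤ) := Int.natCast_nonneg w
    obtain ⟨-, -, hdn, hd1, -, hdc⟩ := c1n_abs h hd
    obtain ⟨-, -, hdn', hd1', -, hdc'⟩ := c1n_abs h' hd'
    have g1 : |(d : ℤ)| ≤ (w : ℤ) ^ 100 := by
      rw [abs_of_nonneg hdn]
      exact hd1.trans (c1n_cst (K := 4) hw (j := 2) (by norm_num) (by norm_num))
    have g2 : |(d' : ℤ)| ≤ (w : ℤ) ^ 100 := by
      rw [abs_of_nonneg hdn']
      exact hd1'.trans (c1n_cst (K := 4) hw (j := 2) (by norm_num) (by norm_num))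
    have g3 : |(d : ℤ) ^ 2 - (c : ℤ) ^ 2| ≤ (w : ℤ) ^ 100 :=
      hdc.trans (c1n_cst (K := 16) hw (j := 4) (by norm_num) (by norm_num))
    have g4 : |(d' : ℤ) ^ 2 - (c' : ℤ) ^ 2| ≤ (w : ℤ) ^ 100 :=
      hdc'.trans (c1n_cst (K := 16) hw (j := 4) (by norm_num) (by norm_num))
    have g5 : |(k : ℤ) * (d' : ℤ) ^ 2 + ((k' : ℤ) - k) * (c' : ℤ) ^ 2| ≤ (w : ℤ) ^ 100 :=
      c1n_mix hw h.k2 (c1n_kk h'.k2 h.k2) h' hd'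
    have g6 : |(k' : ℤ) * (d : ℤ) ^ 2 + ((k : ℤ) - k') * (c : ℤ) ^ 2| ≤ (w : ℤ) ^ 100 :=
      c1n_mix hw h'.k2 (c1n_kk h.k2 h'.k2) h hd
    have g7 := c1n_last hw h h' hd hd'
    have key := c1n_mul hw0 (c1n_mul hw0 (c1n_mul hw0 (c1n_mul hw0 (c1n_mul hw0
      (c1n_mul hw0 g1 g2) g3) g4) g5) g6) g7
    have h2 : ((Th1 k k' c c' d d' : ℕ) : ℤ) ≤ (w : ℤ) ^ 1000 := by
      unfold Th1
      rw [Int.natCast_natAbs]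
      refine key.trans ?_
      have hw1 : (1 : ℤ) ≤ (w : ℤ) := by exact_mod_cast (by omega : 1 ≤ w)
      exact pow_le_pow_right₀ hw1 (by norm_num)
    exact_mod_cast h2

theorem c1h (k k' m c1 c2 l : ℕ) (hl : l.Prime) (h : ¬ l ∣ K01 k k' m c1 c2) :
    ∃ (R : Finset ℕ) (R' : ℕ → Finset ℕ), R.card ≤ 8 ∧ (∀ d, (R' d).card ≤ 8) ∧
      ∀ x : ℕ × ℕ, l ∣ Th1 k k' (m * c1) (m * c2) x.1 x.2 → x.1 % l ∈ R ∨ x.2 % l ∈ R' x.1 := by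
  classical
  have hlZ : Prime (l : ℤ) := Nat.prime_iff_prime_int.1 hl
  have hm : ¬ (l : ℤ) ∣ (m : ℤ) := fun hh => h (by
    unfold K01
    exact Dvd.dvd.mul_right (Dvd.dvd.mul_right (Dvd.dvd.mul_right (Dvd.dvd.mul_right
      (Dvd.dvd.mul_right (Int.natCast_dvd_natCast.1 hh) _) _) _) _) _)
  have hc1 : ¬ (l : ℤ) ∣ (c1 : ℤ) := fun hh => h (by
    unfold K01
    exact Dvd.dvd.mul_right (Dvd.dvd.mul_right (Dvd.dvd.mul_right (Dvd.dvd.mul_right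
      (Dvd.dvd.mul_left (Int.natCast_dvd_natCast.1 hh) _) _) _) _) _)
  have hk : ¬ (l : ℤ) ∣ (k : ℤ) := fun hh => h (by
    unfold K01
    exact Dvd.dvd.mul_right (Dvd.dvd.mul_right
      (Dvd.dvd.mul_left (Int.natCast_dvd_natCast.1 hh) _) _) _)
  have hk' : ¬ (l : ℤ) ∣ (k' : ℤ) := fun hh => h (by
    unfold K01
    exact Dvd.dvd.mul_right (Dvd.dvd.mul_left (Int.natCast_dvd_natCast.1 hh) _) _)
  have h1 : ¬ (l : ℤ) ∣ (1 : ℤ) := fun hh => hlZ.not_isUnit (isUnit_of_dvd_one hh)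
  have hkc : ¬ (l : ℤ) ∣ (k : ℤ) * ((m * c1 : ℕ) : ℤ) ^ 2 := by
    intro hh
    rcases hlZ.dvd_or_dvd hh with h2 | h2
    · exact hk h2
    · have h3 := hlZ.dvd_of_dvd_pow h2
      push_cast at h3
      rcases hlZ.dvd_or_dvd h3 with h4 | h4
      · exact hm h4
      · exact hc1 h4
  obtain ⟨A1, hA1, HA1⟩ := rt l hl 1 (-((m * c1 : ℕ) : ℤ) ^ 2) h1
  obtain ⟨A2, hA2, HA2⟩ := rt l hl k' (((k : ℤ) - k') * ((m * c1 : ℕ) : ℤ) ^ 2) hk'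
  obtain ⟨B1, hB1, HB1⟩ := rt l hl 1 (-((m * c2 : ℕ) : ℤ) ^ 2) h1
  obtain ⟨B2, hB2, HB2⟩ := rt l hl k (((k' : ℤ) - k) * ((m * c2 : ℕ) : ℤ) ^ 2) hk
  have hex : ∀ d : ℕ, ∃ R : Finset ℕ, R.card ≤ 2 ∧ ∀ x : ℕ,
      (l : ℤ) ∣ (k : ℤ) * ((m * c1 : ℕ) : ℤ) ^ 2 * (x : ℤ) ^ 2 +
        (-((k : ℤ) * ((m * c1 : ℕ) : ℤ) ^ 2 * ((m * c2 : ℕ) : ℤ) ^ 2 +
          k' * ((m * c2 : ℕ) : ℤ) ^ 2 * ((d : ℤ) ^ 2 - ((m * c1 : ℕ) : ℤ) ^ 2))) → x % l ∈ R :=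
    fun d => rt l hl _ _ hkc
  choose B3 hB3 HB3 using hex
  refine ⟨insert 0 (A1 ∪ A2), fun d => insert 0 (B1 ∪ (B2 ∪ B3 d)), ?_, ?_, ?_⟩
  · have e1 := Finset.card_insert_le 0 (A1 ∪ A2)
    have e2 := Finset.card_union_le A1 A2
    omega
  · intro d
    change (insert 0 (B1 ∪ (B2 ∪ B3 d))).card ≤ 8
    have e1 := Finset.card_insert_le 0 (B1 ∪ (B2 ∪ B3 d))
    have e2 := Finset.card_union_le B1 (B2 ∪ B3 d)
    have e3 := Finset.card_union_le B2 (B3 d)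
    have e4 := hB3 d
    omega
  · intro x hx
    have hx' := Int.natCast_dvd.2 hx
    simp only [Finset.mem_insert, Finset.mem_union]
    rcases hlZ.dvd_or_dvd hx' with hx' | hx'
    · rcases hlZ.dvd_or_dvd hx' with hx' | hx'
      · rcases hlZ.dvd_or_dvd hx' with hx' | hx'
        · rcases hlZ.dvd_or_dvd hx' with hx' | hx'
          · rcases hlZ.dvd_or_dvd hx' with hx' | hx'
            · rcases hlZ.dvd_or_dvd hx' with hx' | hx'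
              · left
                left
                exact Nat.mod_eq_zero_of_dvd (Int.natCast_dvd_natCast.1 hx')
              · right
                left
                exact Nat.mod_eq_zero_of_dvd (Int.natCast_dvd_natCast.1 hx')
            · left
              right
              left
              apply HA1
              have e : (1 : ℤ) * (x.1 : ℤ) ^ 2 + -((m * c1 : ℕ) : ℤ) ^ 2 =
                  (x.1 : ℤ) ^ 2 - ((m * c1 : ℕ) : ℤ) ^ 2 := by ring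
              rw [e]
              exact hx'
          · right
            right
            left
            apply HB1
            have e : (1 : ℤ) * (x.2 : ℤ) ^ 2 + -((m * c2 : ℕ) : ℤ) ^ 2 =
                (x.2 : ℤ) ^ 2 - ((m * c2 : ℕ) : ℤ) ^ 2 := by ring
            rw [e]
            exact hx'
        · right
          right
          right
          left
          exact HB2 _ hx'
      · left
        right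
        right
        exact HA2 _ hx'
    · right
      right
      right
      right
      apply HB3 x.1
      have e : (k : ℤ) * ((m * c1 : ℕ) : ℤ) ^ 2 * (x.2 : ℤ) ^ 2 +
          (-((k : ℤ) * ((m * c1 : ℕ) : ℤ) ^ 2 * ((m * c2 : ℕ) : ℤ) ^ 2 +
            k' * ((m * c2 : ℕ) : ℤ) ^ 2 * ((x.1 : ℤ) ^ 2 - ((m * c1 : ℕ) : ℤ) ^ 2))) =
          (k : ℤ) * ((m * c1 : ℕ) : ℤ) ^ 2 * ((x.2 : ℤ) ^ 2 - ((m * c2 : ℕ) : ℤ) ^ 2) -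
            k' * ((m * c2 : ℕ) : ℤ) ^ 2 * ((x.1 : ℤ) ^ 2 - ((m * c1 : ℕ) : ℤ) ^ 2) := by ring
      rw [e]
      exact hx'

end PA39
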