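import Pool.Agent.LibPA39.Defs2

/-!
[PA C1r] (ONLY MATHLIB, pure algebra) **The five linear forms in `a` of case 1** (with `b = c2 t`, `b' = c1 t`, `c = m c1`, `c' = m c2`, `n = b c = b' c' = m c1 c2 t`): multipliers `mu1`, coefficients `al1 * a + be1`:
`1 * a = a`; `d e = k a - n`; `d' e' = k' a - n`; `k d f = k c a + b (d^2 - c^2)`; `k' d' f' = k' c' a + b' (d'^2 - c'^2)`.
RESULTANTS `al i * be j - al j * be i`: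
(0,1) `-n`; (0,2) `-n`; (0,3) `b (d^2-c^2)`; (0,4) `b' (d'^2-c'^2)`; (1,2) `(k'-k) n`; (1,3) `k b d^2`; (1,4) `b' (k d'^2 + (k'-k) c'^2)` [it is `k b'(d'^2-c'^2) + k' c' n`, `n = b' c'`];
(2,3) `b (k' d^2 + (k-k') c^2)`; (2,4) `k' b' d'^2`; (3,4) `k c b' (d'^2-c'^2) - k' c' b (d^2-c^2)`, and `m c1 c2 *` this `= c1 ... `: precisely `m * [k c b' (d'^2-c'^2) - k' c' b (d^2-c^2)] = t * [k c^2 (d'^2-c'^2) - k' c'^2 (d^2-c^2)]`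
(because `m b' = c t`, `m b = c' t`). A prime `p` that divides none of `t`, `K01`, `Th1` divides none of `m, c1, c2, k, k', k-k', t` and none of the seven factors of `Th1`; so it divides no resultant
(`Int.Prime.dvd_mul'`-type / `Prime.dvd_mul` in `ℤ`; for (3,4): `p` would divide `t * [..]`). `fin_cases i, j`; for `i > j` the resultant changes sign.
-/

namespace PA39

open Finset Pasch

def mu1 (z : Ky) : Fin 5 → ℤ := ![1, z.d, z.d', z.k * z.d, z.k' * z.d']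

def al1 (z : Ky) : Fin 5 → ℤ := ![1, z.k, z.k', z.k * (z.m * z.c1), z.k' * (z.m * z.c2)]

def be1 (z : Ky) : Fin 5 → ℤ :=
  ![0, -(z.m * z.c1 * z.c2 * z.t : ℤ), -(z.m * z.c1 * z.c2 * z.t : ℤ),
    (z.c2 * z.t : ℤ) * ((z.d : ℤ) ^ 2 - (z.m * z.c1 : ℤ) ^ 2),
    (z.c1 * z.t : ℤ) * ((z.d' : ℤ) ^ 2 - (z.m * z.c2 : ℤ) ^ 2)]

private theorem c1r_split {P a b : ℤ} (h : ¬ P ∣ a * b) : ¬ P ∣ a ∧ ¬ P ∣ b :=
  ⟨fun h' => h (Dvd.dvd.mul_right h' _), fun h' => h (Dvd.dvd.mul_left h' _)⟩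

private theorem c1r_mul {P a b : ℤ} (hP : Prime P) (ha : ¬ P ∣ a) (hb : ¬ P ∣ b) : ¬ P ∣ a * b :=
  fun h => (hP.dvd_or_dvd h).elim ha hb

private theorem c1r_fin : ∀ i i' : Fin 5, i < i' →
    (i = 0 ∧ i' = 1) ∨ (i = 0 ∧ i' = 2) ∨ (i = 0 ∧ i' = 3) ∨ (i = 0 ∧ i' = 4) ∨ (i = 1 ∧ i' = 2) ∨
    (i = 1 ∧ i' = 3) ∨ (i = 1 ∧ i' = 4) ∨ (i = 2 ∧ i' = 3) ∨ (i = 2 ∧ i' = 4) ∨ (i = 3 ∧ i' = 4) := by
  decide

private theorem c1r_fin1 : ∀ i : Fin 5, i = 0 ∨ i = 1 ∨ i = 2 ∨ i = 3 ∨ i = 4 := by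
  decide

theorem c1r (z : Ky) (p : ℕ) (hp : p.Prime)
    (h1 : ¬ p ∣ z.t) (h2 : ¬ p ∣ K01 z.k z.k' z.m z.c1 z.c2)
    (h3 : ¬ p ∣ Th1 z.k z.k' (z.m * z.c1) (z.m * z.c2) z.d z.d') :
    ¬ p ∣ z.d ∧ ¬ p ∣ z.d' ∧ (∀ i, ¬ (p : ℤ) ∣ mu1 z i) ∧ (∀ i, ¬ (p : ℤ) ∣ al1 z i) ∧
      ∀ i i', i ≠ i' → ¬ (p : ℤ) ∣ al1 z i * be1 z i' - al1 z i' * be1 z i := by
  have hP : Prime (p : ℤ) := Nat.prime_iff_prime_int.1 hp
  have ht : ¬ (p : ℤ) ∣ (z.t : ℤ) := fun h => h1 (Int.natCast_dvd_natCast.1 h)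
  have h2' : ¬ (p : ℤ) ∣ (z.m : ℤ) * z.c1 * z.c2 * z.k * z.k' * (dk z.k z.k' : ℤ) := by
    intro h
    refine h2 (Int.natCast_dvd_natCast.1 ?_)
    unfold K01
    push_cast
    exact h
  obtain ⟨h21, hdk⟩ := c1r_split h2'
  obtain ⟨h22, hk'⟩ := c1r_split h21
  obtain ⟨h23, hk⟩ := c1r_split h22
  obtain ⟨h24, hc2⟩ := c1r_split h23
  obtain ⟨hm, hc1⟩ := c1r_split h24
  have hkk : ¬ (p : ℤ) ∣ (z.k : ℤ) - z.k' := by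
    intro h
    apply hdk
    unfold dk
    exact Int.natCast_dvd_natCast.2 (Int.natCast_dvd.1 h)
  have hkk' : ¬ (p : ℤ) ∣ (z.k' : ℤ) - z.k := by
    intro h
    apply hkk
    rw [show (z.k : ℤ) - z.k' = -((z.k' : ℤ) - z.k) by ring]
    exact (dvd_neg).2 h
  unfold Th1 at h3
  rw [← Int.natCast_dvd] at h3
  push_cast at h3
  obtain ⟨h31, hE⟩ := c1r_split h3
  obtain ⟨h32, hD⟩ := c1r_split h31
  obtain ⟨h33, hC⟩ := c1r_split h32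
  obtain ⟨h34, hB⟩ := c1r_split h33
  obtain ⟨h35, hA⟩ := c1r_split h34
  obtain ⟨hd, hd'⟩ := c1r_split h35
  have h10 : ¬ (p : ℤ) ∣ 1 := hP.not_dvd_one
  have a0 : al1 z 0 = 1 := rfl
  have a1 : al1 z 1 = z.k := rfl
  have a2 : al1 z 2 = z.k' := rfl
  have a3 : al1 z 3 = z.k * (z.m * z.c1) := rfl
  have a4 : al1 z 4 = z.k' * (z.m * z.c2) := rfl
  have b0 : be1 z 0 = 0 := rfl
  have b1 : be1 z 1 = -(z.m * z.c1 * z.c2 * z.t : ℤ) := rfl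
  have b2 : be1 z 2 = -(z.m * z.c1 * z.c2 * z.t : ℤ) := rfl
  have b3 : be1 z 3 = (z.c2 * z.t : ℤ) * ((z.d : ℤ) ^ 2 - (z.m * z.c1 : ℤ) ^ 2) := rfl
  have b4 : be1 z 4 = (z.c1 * z.t : ℤ) * ((z.d' : ℤ) ^ 2 - (z.m * z.c2 : ℤ) ^ 2) := rfl
  have m0 : mu1 z 0 = 1 := rfl
  have m1 : mu1 z 1 = z.d := rfl
  have m2 : mu1 z 2 = z.d' := rfl
  have m3 : mu1 z 3 = z.k * z.d := rfl
  have m4 : mu1 z 4 = z.k' * z.d' := rfl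
  have hn : ¬ (p : ℤ) ∣ (z.m : ℤ) * z.c1 * z.c2 * z.t := c1r_mul hP h23 ht
  have key : ∀ i i' : Fin 5, i < i' → ¬ (p : ℤ) ∣ al1 z i * be1 z i' - al1 z i' * be1 z i := by
    intro i i' hi
    rcases c1r_fin i i' hi with ⟨rfl, rfl⟩ | ⟨rfl, rfl⟩ | ⟨rfl, rfl⟩ | ⟨rfl, rfl⟩ | ⟨rfl, rfl⟩ | ⟨rfl, rfl⟩ |
      ⟨rfl, rfl⟩ | ⟨rfl, rfl⟩ | ⟨rfl, rfl⟩ | ⟨rfl, rfl⟩
    · rw [a0, b1, a1, b0, show (1 : ℤ) * -((z.m : ℤ) * z.c1 * z.c2 * z.t) - z.k * 0 =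
        -((z.m : ℤ) * z.c1 * z.c2 * z.t) by ring, dvd_neg]
      exact hn
    · rw [a0, b2, a2, b0, show (1 : ℤ) * -((z.m : ℤ) * z.c1 * z.c2 * z.t) - z.k' * 0 =
        -((z.m : ℤ) * z.c1 * z.c2 * z.t) by ring, dvd_neg]
      exact hn
    · rw [a0, b3, a3, b0, mul_zero, sub_zero, one_mul]
      exact c1r_mul hP (c1r_mul hP hc2 ht) hA
    · rw [a0, b4, a4, b0, mul_zero, sub_zero, one_mul]
      exact c1r_mul hP (c1r_mul hP hc1 ht) hB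
    · rw [a1, b2, a2, b1, show (z.k : ℤ) * -((z.m : ℤ) * z.c1 * z.c2 * z.t) -
        z.k' * -((z.m : ℤ) * z.c1 * z.c2 * z.t) = ((z.k' : ℤ) - z.k) * ((z.m : ℤ) * z.c1 * z.c2 * z.t) by ring]
      exact c1r_mul hP hkk' hn
    · rw [a1, b3, a3, b1, show (z.k : ℤ) * ((z.c2 * z.t : ℤ) * ((z.d : ℤ) ^ 2 - (z.m * z.c1 : ℤ) ^ 2)) -
        z.k * (z.m * z.c1) * -((z.m : ℤ) * z.c1 * z.c2 * z.t) = (z.k : ℤ) * (z.c2 * z.t) * (z.d * z.d) by ring]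
      exact c1r_mul hP (c1r_mul hP hk (c1r_mul hP hc2 ht)) (c1r_mul hP hd hd)
    · rw [a1, b4, a4, b1, show (z.k : ℤ) * ((z.c1 * z.t : ℤ) * ((z.d' : ℤ) ^ 2 - (z.m * z.c2 : ℤ) ^ 2)) -
        z.k' * (z.m * z.c2) * -((z.m : ℤ) * z.c1 * z.c2 * z.t) =
        (z.c1 : ℤ) * z.t * (z.k * z.d' ^ 2 + (z.k' - z.k) * (z.m * z.c2) ^ 2) by ring]
      exact c1r_mul hP (c1r_mul hP hc1 ht) hC
    · rw [a2, b3, a3, b2, show (z.k' : ℤ) * ((z.c2 * z.t : ℤ) * ((z.d : ℤ) ^ 2 - (z.m * z.c1 : ℤ) ^ 2)) -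
        z.k * (z.m * z.c1) * -((z.m : ℤ) * z.c1 * z.c2 * z.t) =
        (z.c2 : ℤ) * z.t * (z.k' * z.d ^ 2 + (z.k - z.k') * (z.m * z.c1) ^ 2) by ring]
      exact c1r_mul hP (c1r_mul hP hc2 ht) hD
    · rw [a2, b4, a4, b2, show (z.k' : ℤ) * ((z.c1 * z.t : ℤ) * ((z.d' : ℤ) ^ 2 - (z.m * z.c2 : ℤ) ^ 2)) -
        z.k' * (z.m * z.c2) * -((z.m : ℤ) * z.c1 * z.c2 * z.t) = (z.k' : ℤ) * (z.c1 * z.t) * (z.d' * z.d') by ring]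
      exact c1r_mul hP (c1r_mul hP hk' (c1r_mul hP hc1 ht)) (c1r_mul hP hd' hd')
    · rw [a3, b4, a4, b3]
      intro h
      have h' := Dvd.dvd.mul_left h (z.m : ℤ)
      rw [show (z.m : ℤ) * (z.k * (z.m * z.c1) * ((z.c1 * z.t : ℤ) * ((z.d' : ℤ) ^ 2 - (z.m * z.c2 : ℤ) ^ 2)) -
        z.k' * (z.m * z.c2) * ((z.c2 * z.t : ℤ) * ((z.d : ℤ) ^ 2 - (z.m * z.c1 : ℤ) ^ 2))) =
        (z.t : ℤ) * (z.k * (z.m * z.c1) ^ 2 * ((z.d' : ℤ) ^ 2 - (z.m * z.c2) ^ 2) -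
          z.k' * (z.m * z.c2) ^ 2 * ((z.d : ℤ) ^ 2 - (z.m * z.c1) ^ 2)) by ring] at h'
      exact c1r_mul hP ht hE h'
  refine ⟨fun h => hd (Int.natCast_dvd_natCast.2 h), fun h => hd' (Int.natCast_dvd_natCast.2 h), ?_, ?_, ?_⟩
  · intro i
    rcases c1r_fin1 i with rfl | rfl | rfl | rfl | rfl
    · rw [m0]
      exact h10
    · rw [m1]
      exact hd
    · rw [m2]
      exact hd'
    · rw [m3]
      exact c1r_mul hP hk hd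
    · rw [m4]
      exact c1r_mul hP hk' hd'
  · intro i
    rcases c1r_fin1 i with rfl | rfl | rfl | rfl | rfl
    · rw [a0]
      exact h10
    · rw [a1]
      exact hk
    · rw [a2]
      exact hk'
    · rw [a3]
      exact c1r_mul hP hk (c1r_mul hP hm hc1)
    · rw [a4]
      exact c1r_mul hP hk' (c1r_mul hP hm hc2)
  · intro i i' hne
    rcases lt_or_gt_of_ne hne with h | h
    · exact key i i' h
    · have h4 := key i' i h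
      intro h5
      apply h4
      rw [show al1 z i' * be1 z i - al1 z i * be1 z i' = -(al1 z i * be1 z i' - al1 z i' * be1 z i) by ring]
      exact dvd_neg.2 h5

end PA39
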