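import Pool.Agent.LibPA39.Defs
import Pool.Agent.LibTwHL.M1

/-!
[PA T3] **Mertens product outside the primes of `N`.**
PROOF. Put `κ = j/4 ∈ [0,5]`. `1 - κ/p ≤ exp(-κ/p)`, so the product is at most
`exp(-κ ∑_{11 ≤ p ≤ y, p ∤ N} 1/p) ≤ exp(-κ ∑_{p ≤ y} 1/p) exp(κ ∑_{p ≤ 10} 1/p) ∏_{p ∣ N} exp(κ/p)`. Mertens
(`TwHL.mertens`: `|∑_{p ≤ y} 1/p - log (1 + log y)| ≤ C`; or `Pool.Agent.LibUD63.mertens_bd`) gives
`exp(-κ ∑_{p ≤ y} 1/p) ≤ e^(5C) (log y)^(-κ) = e^(5 C) / lam y ^ j` (`lam y ^ j = (log y)^(j/4)`), and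
`exp(κ/p) ≤ exp(5/p) ≤ (1 + 1/p)^10` because `log (1 + t) ≥ t/2` on `[0,1]`.
-/

namespace PA39

open Finset Pasch

private theorem t3_exp {p : ℕ} (hp : 1 ≤ p) {κ : ℝ} (hκ : κ ≤ 5) :
    Real.exp (κ / p) ≤ (1 + 1 / (p : ℝ)) ^ 10 := by
  have hp1 : (1 : ℝ) ≤ p := by exact_mod_cast hp
  have hp0 : (0 : ℝ) < p := by linarith
  have h1 : (1 / (p : ℝ)) / 2 ≤ Real.log (1 + 1 / (p : ℝ)) := by
    refine le_trans ?_ (Real.one_sub_inv_le_log_of_pos (by positivity))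
    have h2 : 1 - (1 + 1 / (p : ℝ))⁻¹ = 1 / ((p : ℝ) + 1) := by
      field_simp
      ring
    rw [h2, div_div]
    apply one_div_le_one_div_of_le (by positivity)
    linarith
  have h3 : Real.exp ((1 / (p : ℝ)) / 2) ≤ 1 + 1 / (p : ℝ) := by
    rw [← Real.le_log_iff_exp_le (by positivity)]
    exact h1
  have h4 : Real.exp (κ / p) ≤ Real.exp ((1 / (p : ℝ)) / 2) ^ 10 := by
    rw [← Real.exp_nat_mul]
    apply Real.exp_le_exp.2
    push_cast
    rw [div_le_iff₀ hp0]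
    have : 10 * (1 / (p : ℝ) / 2) * p = 5 := by
      field_simp
      norm_num
    linarith
  exact h4.trans (pow_le_pow_left₀ (Real.exp_pos _).le h3 10)

theorem mp : ∃ C : ℝ, 0 < C ∧ ∀ y N j : ℕ, 2 ≤ y → N ≠ 0 → j ≤ 20 →
    ∏ p ∈ (Icc 11 y).filter (fun p => p.Prime ∧ ¬ p ∣ N), (1 - (j : ℝ) / 4 / (p : ℝ)) ≤
      C / lam y ^ j * sg 10 N := by
  classical
  obtain ⟨C, hC, hM⟩ := TwHL.mertens
  refine ⟨Real.exp (5 * C + 50), Real.exp_pos _, fun y N j hy hN hj => ?_⟩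
  have hy2 : (2 : ℝ) ≤ y := by exact_mod_cast hy
  have hlog : 0 < Real.log y := Real.log_pos (by linarith)
  obtain ⟨κ, hκ⟩ : ∃ κ : ℝ, κ = (j : ℝ) / 4 := ⟨_, rfl⟩
  have hκ0 : 0 ≤ κ := by
    rw [hκ]
    positivity
  have hκ5 : κ ≤ 5 := by
    have : (j : ℝ) ≤ 20 := by exact_mod_cast hj
    rw [hκ]
    linarith
  rw [← hκ]
  obtain ⟨S, hS⟩ : ∃ S : Finset ℕ, S = (Icc 11 y).filter (fun p => p.Prime ∧ ¬ p ∣ N) := ⟨_, rfl⟩
  rw [← hS]
  have hSm : ∀ p ∈ S, 11 ≤ p ∧ p ≤ y ∧ p.Prime ∧ ¬ p ∣ N := by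
    intro p hp
    rw [hS, Finset.mem_filter, Finset.mem_Icc] at hp
    exact ⟨hp.1.1, hp.1.2, hp.2.1, hp.2.2⟩
  -- the product is at most the exponential of the sum
  have h1 : ∏ p ∈ S, (1 - κ / (p : ℝ)) ≤ Real.exp (-(κ * ∑ p ∈ S, 1 / (p : ℝ))) := by
    have e : -(κ * ∑ p ∈ S, 1 / (p : ℝ)) = ∑ p ∈ S, (-(κ / (p : ℝ))) := by
      rw [Finset.mul_sum, ← Finset.sum_neg_distrib]
      refine Finset.sum_congr rfl fun p _ => ?_
      ring
    rw [e, Real.exp_sum]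
    refine Finset.prod_le_prod (fun p hp => ?_) fun p hp => ?_
    · have h11 : (11 : ℝ) ≤ p := by exact_mod_cast (hSm p hp).1
      have : κ / (p : ℝ) ≤ 1 := by
        rw [div_le_one (by linarith)]
        linarith
      linarith
    · have := Real.add_one_le_exp (-(κ / (p : ℝ)))
      linarith
  -- the sum over all primes
  have h2 : ∑ p ∈ TwHL.PP y, 1 / (p : ℝ) ≤
      ∑ p ∈ S, 1 / (p : ℝ) + 10 + ∑ p ∈ N.primeFactors, 1 / (p : ℝ) := by
    have hsub : TwHL.PP y ⊆ (S ∪ Icc 1 10) ∪ N.primeFactors := by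
      intro p hp
      unfold TwHL.PP at hp
      rw [Finset.mem_filter, Finset.mem_Icc] at hp
      rw [Finset.mem_union, Finset.mem_union, Nat.mem_primeFactors, hS, Finset.mem_filter,
        Finset.mem_Icc, Finset.mem_Icc]
      by_cases h10 : p ≤ 10
      · exact Or.inl (Or.inr ⟨hp.1.1, h10⟩)
      · by_cases hd : p ∣ N
        · exact Or.inr ⟨hp.2, hd, hN⟩
        · exact Or.inl (Or.inl ⟨⟨by omega, hp.1.2⟩, hp.2, hd⟩)
    have hnn : ∀ p : ℕ, (0 : ℝ) ≤ 1 / (p : ℝ) := fun p => by positivity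
    have hun : ∀ A B : Finset ℕ, ∑ p ∈ A ∪ B, 1 / (p : ℝ) ≤
        ∑ p ∈ A, 1 / (p : ℝ) + ∑ p ∈ B, 1 / (p : ℝ) := by
      intro A B
      rw [← Finset.sum_union_inter]
      have := Finset.sum_nonneg (s := A ∩ B) fun p _ => hnn p
      linarith
    have h3 : ∑ p ∈ Icc 1 10, 1 / ((p : ℕ) : ℝ) ≤ 10 := by
      calc ∑ p ∈ Icc 1 10, 1 / ((p : ℕ) : ℝ) ≤ ∑ p ∈ Icc (1 : ℕ) 10, (1 : ℝ) := by
            refine Finset.sum_le_sum fun p hp => ?_
            have hp1 : (1 : ℝ) ≤ p := by exact_mod_cast (Finset.mem_Icc.1 hp).1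
            rw [div_le_one (by linarith)]
            exact hp1
        _ = 10 := by simp
    refine (Finset.sum_le_sum_of_subset_of_nonneg hsub fun p _ _ => hnn p).trans ?_
    refine (hun _ _).trans ?_
    have := hun S (Icc 1 10)
    linarith
  have h3 := (abs_le.1 (hM y (by omega))).1
  -- the sum over the primes of `N`
  have h4 : Real.exp (κ * ∑ p ∈ N.primeFactors, 1 / (p : ℝ)) ≤ sg 10 N := by
    unfold sg
    have e : κ * ∑ p ∈ N.primeFactors, 1 / (p : ℝ) = ∑ p ∈ N.primeFactors, κ / (p : ℝ) := by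
      rw [Finset.mul_sum]
      refine Finset.sum_congr rfl fun p _ => ?_
      ring
    rw [e, Real.exp_sum]
    exact Finset.prod_le_prod (fun p _ => (Real.exp_pos _).le) fun p hp =>
      t3_exp (Nat.prime_of_mem_primeFactors hp).one_lt.le hκ5
  have h5 : Real.exp (-(κ * TwHL.LL y)) ≤ 1 / lam y ^ j := by
    have e1 : lam y ^ j = (Real.log y) ^ κ := by
      unfold lam
      rw [← Real.rpow_natCast, ← Real.rpow_mul hlog.le, hκ]
      congr 1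
      ring
    rw [e1]
    have h6 : Real.exp (-(κ * TwHL.LL y)) = 1 / (1 + Real.log y) ^ κ := by
      unfold TwHL.LL
      rw [Real.rpow_def_of_pos (by linarith), one_div, ← Real.exp_neg, mul_comm κ]
    rw [h6]
    apply one_div_le_one_div_of_le (Real.rpow_pos_of_pos hlog κ)
    exact Real.rpow_le_rpow hlog.le (by linarith) hκ0
  have h7 : -(κ * ∑ p ∈ S, 1 / (p : ℝ)) ≤
      (5 * C + 50) + -(κ * TwHL.LL y) + κ * ∑ p ∈ N.primeFactors, 1 / (p : ℝ) := by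
    have h8 : κ * (TwHL.LL y - C) ≤
        κ * (∑ p ∈ S, 1 / (p : ℝ) + 10 + ∑ p ∈ N.primeFactors, 1 / (p : ℝ)) :=
      mul_le_mul_of_nonneg_left (by linarith) hκ0
    have h9 : κ * C ≤ 5 * C := mul_le_mul_of_nonneg_right hκ5 hC.le
    linarith
  refine h1.trans ((Real.exp_le_exp.2 h7).trans ?_)
  rw [Real.exp_add, Real.exp_add]
  have h10 : Real.exp (5 * C + 50) / lam y ^ j = Real.exp (5 * C + 50) * (1 / lam y ^ j) := by
    ring
  rw [h10]
  exact mul_le_mul (mul_le_mul_of_nonneg_left h5 (Real.exp_pos _).le) h4 (Real.exp_pos _).le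
    (mul_nonneg (Real.exp_pos _).le (by unfold lam; positivity))

end PA39
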