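import Pool.Agent.LibPA39.T2
import Pool.Agent.LibPA39.T3

/-!
[PA T4] **The sieve in its final form**: at most five linear forms with weights `(1 - j i/4)^(number of primes ≤ y)`.
PROOF. From T2 `lsf` with `g i = 1 - j i / 4` and T3 `mp` (with `j = ∑ j i ≤ 20`, `∑ (1 - g i) = (∑ j i)/4`). For
`x ∈ s` and a prime `11 ≤ p ≤ y`, `p ∤ N`: `p ∤ μ i`, so `p ∣ F i x ↔ (p : ℤ) ∣ α i x + β i`. Since `F i x ≠ 0`, the set
`{11 ≤ p ≤ y, p prime, p ∤ N, p ∣ α i x + β i}` is contained in `(F i x).primeFactors.filter (· ≤ y)`, and `0 ≤ 1 - j i/4 ≤ 1`,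
so `(1 - j i/4)^(om y (F i x)) ≤ ∏ p, (if p ∣ α i x + β i then g i else 1)` (`Finset.prod_ite`, `pow_le_pow_of_le_one`; for
`g i = 0` use `0^0 = 1`). Swap the products over `p` and `i`.
-/

namespace PA39

open Finset Pasch

private theorem t4_step (r y N : ℕ) (μ α β : Fin r → ℤ) (g : Fin r → ℝ) (hg : ∀ i, 0 ≤ g i ∧ g i ≤ 1)
    (F : Fin r → ℕ) (x : ℕ) (hF : ∀ i, F i ≠ 0) (hx : ∀ i, μ i * (F i : ℤ) = α i * (x : ℤ) + β i)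
    (hp : ∀ p : ℕ, p.Prime → 10 < p → p ≤ y → ¬ p ∣ N → ∀ i, ¬ (p : ℤ) ∣ μ i) :
    ∏ i, g i ^ (om y (F i)) ≤
      ∏ p ∈ (Icc 11 y).filter (fun p => p.Prime ∧ ¬ p ∣ N),
        ∏ i, (if (p : ℤ) ∣ α i * (x : ℤ) + β i then g i else 1) := by
  rw [Finset.prod_comm]
  refine Finset.prod_le_prod (fun i _ => pow_nonneg (hg i).1 _) fun i _ => ?_
  rw [Finset.prod_ite, Finset.prod_const, Finset.prod_const_one, mul_one]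
  refine pow_le_pow_of_le_one (hg i).1 (hg i).2 ?_
  unfold om
  refine Finset.card_le_card fun p hp' => ?_
  rw [Finset.mem_filter, Finset.mem_filter, Finset.mem_Icc] at hp'
  obtain ⟨⟨⟨h11, hy⟩, hpp, hpN⟩, hd⟩ := hp'
  rw [Finset.mem_filter, Nat.mem_primeFactors]
  refine ⟨⟨hpp, ?_, hF i⟩, hy⟩
  rw [← hx i] at hd
  have hpi : Prime (p : ℤ) := Nat.prime_iff_prime_int.1 hpp
  rcases hpi.dvd_or_dvd hd with h | h
  · exact absurd h (hp p hpp (by omega) hy hpN i)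
  · exact Int.natCast_dvd_natCast.1 h

theorem ag : ∃ C : ℝ, 0 < C ∧ ∀ r : ℕ, 1 ≤ r → r ≤ 5 →
    ∀ (y H D N x0 : ℕ) (μ α β : Fin r → ℤ) (j : Fin r → ℕ) (F : Fin r → ℕ → ℕ) (s : Finset ℕ),
    2 ≤ y → 1 ≤ D → D * y ^ TT ≤ H → N ≠ 0 → (∀ i, j i ≤ 4) →
    (∀ x ∈ s, x ≤ H ∧ x ≡ x0 [MOD D] ∧ (∀ i, F i x ≠ 0) ∧ ∀ i, μ i * (F i x : ℤ) = α i * (x : ℤ) + β i) →
    (∀ p : ℕ, p.Prime → 10 < p → p ≤ y → ¬ p ∣ N → ¬ p ∣ D ∧ (∀ i, ¬ (p : ℤ) ∣ μ i) ∧ (∀ i, ¬ (p : ℤ) ∣ α i) ∧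
      ∀ i i', i ≠ i' → ¬ (p : ℤ) ∣ α i * β i' - α i' * β i) →
    ∑ x ∈ s, ∏ i, (1 - (j i : ℝ) / 4) ^ (om y (F i x)) ≤
      C * ((H : ℝ) / D) / lam y ^ (∑ i, j i) * sg 10 N := by
  obtain ⟨C, hC, hmp⟩ := mp
  refine ⟨36 * C, by positivity, ?_⟩
  intro r hr hr5 y H D N x0 μ α β j F s hy hD hH hN hj hs hp
  have hg : ∀ i : Fin r, 0 ≤ 1 - (j i : ℝ) / 4 ∧ 1 - (j i : ℝ) / 4 ≤ 1 := by
    intro i
    have h4 : (j i : ℝ) ≤ 4 := by exact_mod_cast hj i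
    have h0 : (0 : ℝ) ≤ j i := Nat.cast_nonneg _
    constructor <;> linarith
  have h1 : ∑ x ∈ s, ∏ i, (1 - (j i : ℝ) / 4) ^ (om y (F i x)) ≤
      ∑ x ∈ s, ∏ p ∈ (Icc 11 y).filter (fun p => p.Prime ∧ ¬ p ∣ N),
        ∏ i, (if (p : ℤ) ∣ α i * (x : ℤ) + β i then (1 - (j i : ℝ) / 4) else 1) := by
    refine Finset.sum_le_sum fun x hx => ?_
    obtain ⟨_, _, hF, hμ⟩ := hs x hx
    exact t4_step r y N μ α β (fun i => 1 - (j i : ℝ) / 4) hg (fun i => F i x) x hF hμ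
      (fun p h1 h2 h3 h4 => (hp p h1 h2 h3 h4).2.1)
  have h2 := lsf r hr hr5 y H D N x0 α β (fun i => 1 - (j i : ℝ) / 4) s hy hD hH hg
    (fun x hx => ⟨(hs x hx).1, (hs x hx).2.1⟩)
    (fun p a b c d => ⟨(hp p a b c d).1, (hp p a b c d).2.2.1, (hp p a b c d).2.2.2⟩)
  have hsum : ∑ i : Fin r, (1 - (1 - (j i : ℝ) / 4)) = ((∑ i, j i : ℕ) : ℝ) / 4 := by
    rw [Nat.cast_sum, Finset.sum_div]
    refine Finset.sum_congr rfl fun i _ => ?_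
    ring
  have hJ : ∑ i : Fin r, j i ≤ 20 := by
    calc ∑ i : Fin r, j i ≤ ∑ _i : Fin r, 4 := Finset.sum_le_sum fun i _ => hj i
      _ = r * 4 := by simp
      _ ≤ 20 := by omega
  have h3 := hmp y N (∑ i, j i) hy hN hJ
  rw [hsum] at h2
  refine h1.trans (h2.trans ?_)
  have hHD : (0 : ℝ) ≤ 36 * ((H : ℝ) / D) := by positivity
  calc 36 * ((H : ℝ) / D) * ∏ p ∈ (Icc 11 y).filter (fun p => p.Prime ∧ ¬ p ∣ N),
        (1 - ((∑ i, j i : ℕ) : ℝ) / 4 / (p : ℝ))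
      ≤ 36 * ((H : ℝ) / D) * (C / lam y ^ (∑ i, j i) * sg 10 N) :=
        mul_le_mul_of_nonneg_left h3 hHD
    _ = 36 * C * ((H : ℝ) / D) / lam y ^ (∑ i, j i) * sg 10 N := by ring

end PA39
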