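import Pool.Agent.LibPA39.C1k
import Pool.Agent.LibPA39.C1r
import Pool.Agent.LibPA39.C1n
import Pool.Agent.LibPA39.N9a
import Pool.Agent.LibPA39.N9b
import Pool.Agent.LibPA39.T4

/-!
[PA C1a] **The sum over `a` for a fixed key (case 1)** (from T4 `ag` with `r = 5`, `j = ![4,2,2,4,4]`, sum 16).
PROOF. For `x ∈ S` with key `z`: `a := x.1.a = x.2.a` determines `x` (`b, c, k, d` are given by the key, `e = (k a - n)/d`, `f = (c e + b d)/k`, same for `x.2`; `n = b c = b' c'`), so `x ↦ a` is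
injective on `S`; let `s` be its image, `s ⊆ [1, HH N w k]` (`conf_HH`). Put `F 0 a = a`, `F 1 a = (k a - n)/d`, `F 2 a = (k' a - n)/d'`, `F 3 a = (c F 1 a + b d)/k`, `F 4 a = (c' F 2 a + b' d')/k'` (natural numbers).
Then for `a ∈ s` these are `a, e, e', f, f'`, nonzero, and `mu1 z i * F i a = al1 z i * a + be1 z i`. `D := lcm(d, d')`: all `a ∈ s` are congruent mod `D` (`d ∣ k (a - a1)`, `d.Coprime k`; same `d'`).
`N := z.t * (K01 * Th1)` (`≠ 0`), `H := HH N w k`: `D y^TT ≤ 16 w^40 w ≤ H` (`HH N w k = sqrt(10^4 w^N/k) ≥ w^400`, `N ≥ 1000`). The hypothesis on primes is `c1r`. WEIGHTS: `wt w x.1 * wt w x.2 ≤`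
`(1/4)^(om m + om c1 + om c2 + om t) (1/2)^(om d) (1/2)^(om d') (1/2)^(om e) (1/2)^(om e')` by `wt_le` (`y ≤ w ≤ w^100`), `om_mul` (`c = m c1`, `b = c2 t`, ...: coprime factors); `a, f, f'` are `y`-rough so `om y a = 0` and
`(1 - 4/4)^0 = 1`; `1 - 2/4 = 1/2`. Hence the sum is `≤` prefactor `* C (H/D) / lam^16 * sg 10 N`. `sg 10 N ≤ sg 10 t * (sg 10 K01 * sgx 10 Th1 K01)` (`sg_mul_le`, `sg_mul_le_sgx`), `sg 10 K01 ≤` the product of the `sg 10` of its factors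
(`sg_mul_le`). `H/D = H gcd/(d d') ≤ H * 16 gcd/(c c')` since `c ≤ 4 d`, `c' ≤ 4 d'`. If `S` is empty: `0 ≤ B1`.
-/

namespace PA39

open Finset Pasch

/-- the five numbers as functions of `a` -/
private def c1a_F (z : Ky) (i : Fin 5) (a : ℕ) : ℕ :=
  ![a, (z.k * a - z.m * z.c1 * z.c2 * z.t) / z.d, (z.k' * a - z.m * z.c1 * z.c2 * z.t) / z.d',
    (z.m * z.c1 * ((z.k * a - z.m * z.c1 * z.c2 * z.t) / z.d) + z.c2 * z.t * z.d) / z.k,
    (z.m * z.c2 * ((z.k' * a - z.m * z.c1 * z.c2 * z.t) / z.d') + z.c1 * z.t * z.d') / z.k'] i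

private theorem c1a_eqs {N w : ℕ} {x : Cf × Cf} {z : Ky} (h : P1 N w x) (hr : R1 x z) :
    z.d * x.1.e + z.m * z.c1 * z.c2 * z.t = z.k * x.1.a ∧
    z.d' * x.2.e + z.m * z.c1 * z.c2 * z.t = z.k' * x.1.a ∧
    z.m * z.c1 * x.1.e + z.c2 * z.t * z.d = z.k * x.1.f ∧
    z.m * z.c2 * x.2.e + z.c1 * z.t * z.d' = z.k' * x.2.f := by
  have e1 := h.h1.eq1
  have e2 := h.h2.eq1
  have e3 := h.h1.eq2
  have e4 := h.h2.eq2
  rw [hr.rk, hr.rc, hr.rb, hr.rd] at e1 e3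
  rw [hr.rk', hr.rc', hr.rb', hr.rd', ← h.ha] at e2
  rw [hr.rk', hr.rc', hr.rb', hr.rd'] at e4
  refine ⟨?_, ?_, e3, e4⟩
  · rw [← e1]; ring
  · rw [← e2]; ring

private theorem c1a_val {N w : ℕ} {x : Cf × Cf} {z : Ky} (h : P1 N w x) (hr : R1 x z)
    (hd : 0 < z.d) (hd' : 0 < z.d') (hk : 0 < z.k) (hk' : 0 < z.k') :
    c1a_F z 0 x.1.a = x.1.a ∧ c1a_F z 1 x.1.a = x.1.e ∧ c1a_F z 2 x.1.a = x.2.e ∧
      c1a_F z 3 x.1.a = x.1.f ∧ c1a_F z 4 x.1.a = x.2.f := by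
  obtain ⟨e1, e2, e3, e4⟩ := c1a_eqs h hr
  have f1 : (z.k * x.1.a - z.m * z.c1 * z.c2 * z.t) / z.d = x.1.e := by
    rw [← e1, Nat.add_sub_cancel, Nat.mul_div_cancel_left _ hd]
  have f2 : (z.k' * x.1.a - z.m * z.c1 * z.c2 * z.t) / z.d' = x.2.e := by
    rw [← e2, Nat.add_sub_cancel, Nat.mul_div_cancel_left _ hd']
  have f3 : (z.m * z.c1 * ((z.k * x.1.a - z.m * z.c1 * z.c2 * z.t) / z.d) + z.c2 * z.t * z.d) / z.k = x.1.f := by
    rw [f1, e3, Nat.mul_div_cancel_left _ hk]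
  have f4 : (z.m * z.c2 * ((z.k' * x.1.a - z.m * z.c1 * z.c2 * z.t) / z.d') + z.c1 * z.t * z.d') / z.k' = x.2.f := by
    rw [f2, e4, Nat.mul_div_cancel_left _ hk']
  exact ⟨rfl, f1, f2, f3, f4⟩

private theorem c1a_lin {N w : ℕ} {x : Cf × Cf} {z : Ky} (h : P1 N w x) (hr : R1 x z)
    (hd : 0 < z.d) (hd' : 0 < z.d') (hk : 0 < z.k) (hk' : 0 < z.k') (i : Fin 5) :
    mu1 z i * (c1a_F z i x.1.a : ℤ) = al1 z i * (x.1.a : ℤ) + be1 z i := by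
  obtain ⟨e1, e2, e3, e4⟩ := c1a_eqs h hr
  obtain ⟨g0, g1, g2, g3, g4⟩ := c1a_val h hr hd hd' hk hk'
  have e1' : (z.d : ℤ) * x.1.e + z.m * z.c1 * z.c2 * z.t = z.k * x.1.a := by exact_mod_cast e1
  have e2' : (z.d' : ℤ) * x.2.e + z.m * z.c1 * z.c2 * z.t = z.k' * x.1.a := by exact_mod_cast e2
  have e3' : (z.m : ℤ) * z.c1 * x.1.e + z.c2 * z.t * z.d = z.k * x.1.f := by exact_mod_cast e3
  have e4' : (z.m : ℤ) * z.c2 * x.2.e + z.c1 * z.t * z.d' = z.k' * x.2.f := by exact_mod_cast e4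
  fin_cases i
  · show (1 : ℤ) * (c1a_F z 0 x.1.a : ℤ) = 1 * (x.1.a : ℤ) + 0
    rw [g0]; ring
  · show (z.d : ℤ) * (c1a_F z 1 x.1.a : ℤ) = (z.k : ℤ) * (x.1.a : ℤ) + -(z.m * z.c1 * z.c2 * z.t : ℤ)
    rw [g1]; linear_combination e1'
  · show (z.d' : ℤ) * (c1a_F z 2 x.1.a : ℤ) = (z.k' : ℤ) * (x.1.a : ℤ) + -(z.m * z.c1 * z.c2 * z.t : ℤ)
    rw [g2]; linear_combination e2'
  · show (z.k * z.d : ℤ) * (c1a_F z 3 x.1.a : ℤ) = (z.k * (z.m * z.c1) : ℤ) * (x.1.a : ℤ) +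
      (z.c2 * z.t : ℤ) * ((z.d : ℤ) ^ 2 - (z.m * z.c1 : ℤ) ^ 2)
    rw [g3]
    linear_combination (-(z.d : ℤ)) * e3' + (z.m * z.c1 : ℤ) * e1'
  · show (z.k' * z.d' : ℤ) * (c1a_F z 4 x.1.a : ℤ) = (z.k' * (z.m * z.c2) : ℤ) * (x.1.a : ℤ) +
      (z.c1 * z.t : ℤ) * ((z.d' : ℤ) ^ 2 - (z.m * z.c2 : ℤ) ^ 2)
    rw [g4]
    linear_combination (-(z.d' : ℤ)) * e4' + (z.m * z.c2 : ℤ) * e2'

private theorem c1a_inj {N w : ℕ} {x x' : Cf × Cf} {z : Ky} (h : P1 N w x) (hr : R1 x z)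
    (h' : P1 N w x') (hr' : R1 x' z)
    (hd : 0 < z.d) (hd' : 0 < z.d') (hk : 0 < z.k) (hk' : 0 < z.k') (ha : x.1.a = x'.1.a) : x = x' := by
  obtain ⟨g0, g1, g2, g3, g4⟩ := c1a_val h hr hd hd' hk hk'
  obtain ⟨g0', g1', g2', g3', g4'⟩ := c1a_val h' hr' hd hd' hk hk'
  rw [ha] at g1 g2 g3 g4
  have e1 : x.1 = x'.1 := by
    have hh : ∀ q q' : Cf, q.k = q'.k → q.a = q'.a → q.b = q'.b → q.c = q'.c → q.d = q'.d →
        q.e = q'.e → q.f = q'.f → q = q' := by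
      rintro ⟨_, _, _, _, _, _, _⟩ ⟨_, _, _, _, _, _, _⟩
      simp only
      rintro rfl rfl rfl rfl rfl rfl rfl
      rfl
    exact hh _ _ (hr.rk.trans hr'.rk.symm) ha (hr.rb.trans hr'.rb.symm) (hr.rc.trans hr'.rc.symm)
      (hr.rd.trans hr'.rd.symm) (g1.symm.trans g1') (g3.symm.trans g3')
  have e2 : x.2 = x'.2 := by
    have hh : ∀ q q' : Cf, q.k = q'.k → q.a = q'.a → q.b = q'.b → q.c = q'.c → q.d = q'.d →
        q.e = q'.e → q.f = q'.f → q = q' := by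
      rintro ⟨_, _, _, _, _, _, _⟩ ⟨_, _, _, _, _, _, _⟩
      simp only
      rintro rfl rfl rfl rfl rfl rfl rfl
      rfl
    exact hh _ _ (hr.rk'.trans hr'.rk'.symm) (h.ha.symm.trans (ha.trans h'.ha)) (hr.rb'.trans hr'.rb'.symm)
      (hr.rc'.trans hr'.rc'.symm) (hr.rd'.trans hr'.rd'.symm) (g2.symm.trans g2') (g4.symm.trans g4')
  exact Prod.ext e1 e2

private theorem c1a_mod {N w : ℕ} {x x' : Cf × Cf} {z : Ky} (h : P1 N w x) (hr : R1 x z)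
    (h' : P1 N w x') (hr' : R1 x' z) : x.1.a ≡ x'.1.a [MOD z.d.lcm z.d'] := by
  obtain ⟨e1, e2, _, _⟩ := c1a_eqs h hr
  obtain ⟨e1', e2', _, _⟩ := c1a_eqs h' hr'
  have c1 : z.d.Coprime z.k := by
    have := (conf_kcop h.h1).2
    rwa [hr.rd, hr.rk] at this
  have c2 : z.d'.Coprime z.k' := by
    have := (conf_kcop h.h2).2
    rwa [hr.rd', hr.rk'] at this
  have f1 : x.1.a ≡ x'.1.a [MOD z.d] := by
    refine Nat.ModEq.cancel_left_of_coprime (c := z.k) c1 ?_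
    rw [← e1, ← e1']
    refine Nat.ModEq.add_right _ ?_
    exact ((Nat.modEq_zero_iff_dvd.2 (dvd_mul_right _ _)).trans
      (Nat.modEq_zero_iff_dvd.2 (dvd_mul_right _ _)).symm)
  have f2 : x.1.a ≡ x'.1.a [MOD z.d'] := by
    refine Nat.ModEq.cancel_left_of_coprime (c := z.k') c2 ?_
    rw [← e2, ← e2']
    refine Nat.ModEq.add_right _ ?_
    exact ((Nat.modEq_zero_iff_dvd.2 (dvd_mul_right _ _)).trans
      (Nat.modEq_zero_iff_dvd.2 (dvd_mul_right _ _)).symm)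
  rw [Nat.modEq_iff_dvd] at f1 f2 ⊢
  rw [Int.natCast_dvd] at f1 f2 ⊢
  exact Nat.lcm_dvd f1 f2

private theorem c1a_wt {N w y : ℕ} (hyw : y ≤ w ^ 100) {x : Cf × Cf} {z : Ky} (h : P1 N w x) (hr : R1 x z)
    (hsq : Squarefree (z.m * z.c1 * z.c2 * z.t)) :
    wt w x.1 * wt w x.2 ≤ ((1 / 4) ^ (om y z.m + om y z.c1 + om y z.c2 + om y z.t) *
      ((1 / 2) ^ (om y z.d) * (1 / 2) ^ (om y z.d'))) * ((1 / 2) ^ (om y x.1.e) * (1 / 2) ^ (om y x.2.e)) := by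
  have h1 := wt_le h.h1 hyw
  have h2 := wt_le h.h2 hyw
  have s1 : Squarefree (z.m * z.c1 * z.c2) := hsq.of_mul_left
  have s2 : Squarefree (z.m * z.c1) := s1.of_mul_left
  have cmc1 : z.m.Coprime z.c1 := Nat.coprime_of_squarefree_mul s2
  have cx : (z.m * z.c1).Coprime z.c2 := Nat.coprime_of_squarefree_mul s1
  have cy : (z.m * z.c1 * z.c2).Coprime z.t := Nat.coprime_of_squarefree_mul hsq
  have cmc2 : z.m.Coprime z.c2 := Nat.Coprime.coprime_mul_right cx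
  have cc2t : z.c2.Coprime z.t := Nat.Coprime.coprime_mul_left cy
  have cc1t : z.c1.Coprime z.t := Nat.Coprime.coprime_mul_left (Nat.Coprime.coprime_mul_right cy)
  rw [hr.rb, hr.rc, hr.rd, om_mul cc2t, om_mul cmc1] at h1
  rw [hr.rb', hr.rc', hr.rd', om_mul cc1t, om_mul cmc2] at h2
  have h3 := mul_le_mul h1 h2 (wt_nonneg _ _) (by positivity)
  refine h3.trans (le_of_eq ?_)
  have e4 : (1 / 4 : ℝ) = (1 / 2) ^ 2 := by norm_num
  rw [e4, ← pow_mul, ← pow_add, ← pow_add, ← pow_add, ← pow_add, ← pow_add]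
  congr 1
  ring

private theorem c1a_H {N w y k c c' d d' : ℕ} (hN : 1000 ≤ N) (hl : Lev y w) (hk1 : 1 ≤ k) (hk : k ≤ w ^ 2)
    (hc : c ≤ w ^ 20) (hc' : c' ≤ w ^ 20) (hd : d ≤ 4 * c) (hd' : d' ≤ 4 * c') :
    d.lcm d' * y ^ TT ≤ HH N w k := by
  have hw : 1 ≤ w := by
    have : 1 ≤ y ^ TT := Nat.one_le_pow _ _ (by have := hl.1; omega)
    exact this.trans hl.2.1
  have h1 : d.lcm d' ≤ 16 * w ^ 40 := by
    calc d.lcm d' ≤ d * d' := Nat.div_le_self _ _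
      _ ≤ (4 * w ^ 20) * (4 * w ^ 20) :=
        Nat.mul_le_mul (hd.trans (Nat.mul_le_mul_left _ hc)) (hd'.trans (Nat.mul_le_mul_left _ hc'))
      _ = 16 * w ^ 40 := by ring
  have h2 : d.lcm d' * y ^ TT ≤ 16 * w ^ 41 := by
    calc d.lcm d' * y ^ TT ≤ 16 * w ^ 40 * w := Nat.mul_le_mul h1 hl.2.1
      _ = 16 * w ^ 41 := by ring
  refine h2.trans ?_
  unfold HH
  rw [Nat.le_sqrt', Nat.le_div_iff_mul_le (by omega)]
  calc (16 * w ^ 41) ^ 2 * k ≤ (16 * w ^ 41) ^ 2 * w ^ 2 := Nat.mul_le_mul_left _ hk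
    _ = 256 * w ^ 84 := by ring
    _ ≤ 10 ^ 4 * w ^ N := Nat.mul_le_mul (by norm_num) (Nat.pow_le_pow_right hw (by omega))

private theorem c1a_ratio {H c c' d d' : ℕ} (hc : 1 ≤ c) (hc' : 1 ≤ c') (hd : c ≤ 4 * d) (hd' : c' ≤ 4 * d') :
    (H : ℝ) / ((d.lcm d' : ℕ) : ℝ) ≤ (H : ℝ) * (16 * (d.gcd d' : ℝ) / ((c : ℝ) * (c' : ℝ))) := by
  have hd0 : 0 < d := by omega
  have hd0' : 0 < d' := by omega
  have hl0 : (0 : ℝ) < ((d.lcm d' : ℕ) : ℝ) := by exact_mod_cast Nat.lcm_pos hd0 hd0'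
  have hc0 : (0 : ℝ) < (c : ℝ) := by exact_mod_cast hc
  have hc0' : (0 : ℝ) < (c' : ℝ) := by exact_mod_cast hc'
  rw [div_eq_mul_inv]
  refine mul_le_mul_of_nonneg_left ?_ (Nat.cast_nonneg _)
  rw [inv_eq_one_div, div_le_div_iff₀ hl0 (by positivity)]
  have h1 : ((d.gcd d' : ℕ) : ℝ) * ((d.lcm d' : ℕ) : ℝ) = (d : ℝ) * d' := by
    exact_mod_cast Nat.gcd_mul_lcm d d'
  have h2 : (c : ℝ) ≤ 4 * d := by exact_mod_cast hd
  have h3 : (c' : ℝ) ≤ 4 * d' := by exact_mod_cast hd'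
  calc (1 : ℝ) * ((c : ℝ) * c') = (c : ℝ) * c' := one_mul _
    _ ≤ (4 * d) * (4 * d') := mul_le_mul h2 h3 hc0'.le (by positivity)
    _ = 16 * ((d : ℝ) * d') := by ring
    _ = 16 * (d.gcd d' : ℝ) * ((d.lcm d' : ℕ) : ℝ) := by rw [← h1]; ring

private theorem c1a_sg {t k k' m c1 c2 T : ℕ} (ht : t ≠ 0) (hk : k ≠ 0) (hk' : k' ≠ 0) (hm : m ≠ 0)
    (h1 : c1 ≠ 0) (h2 : c2 ≠ 0) (hdk : dk k k' ≠ 0) (hT : T ≠ 0) :
    sg 10 (t * (K01 k k' m c1 c2 * T)) ≤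
      (sg 10 m * sg 10 c1 * sg 10 c2 * sg 10 t * (sg 10 k * sg 10 k' * sg 10 (dk k k'))) *
        sgx 10 T (K01 k k' m c1 c2) := by
  have hK : K01 k k' m c1 c2 ≠ 0 := by
    unfold K01
    exact Nat.mul_ne_zero (Nat.mul_ne_zero (Nat.mul_ne_zero (Nat.mul_ne_zero
      (Nat.mul_ne_zero hm h1) h2) hk) hk') hdk
  have a1 := sg_mul_le 10 ht (Nat.mul_ne_zero hK hT)
  have a2 := sg_mul_le_sgx 10 hK hT
  have b1 := sg_mul_le 10 (Nat.mul_ne_zero (Nat.mul_ne_zero (Nat.mul_ne_zero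
      (Nat.mul_ne_zero hm h1) h2) hk) hk') hdk
  have b2 := sg_mul_le 10 (Nat.mul_ne_zero (Nat.mul_ne_zero (Nat.mul_ne_zero hm h1) h2) hk) hk'
  have b3 := sg_mul_le 10 (Nat.mul_ne_zero (Nat.mul_ne_zero hm h1) h2) hk
  have b4 := sg_mul_le 10 (Nat.mul_ne_zero hm h1) h2
  have b5 := sg_mul_le 10 hm h1
  have b6 : sg 10 (K01 k k' m c1 c2) ≤ sg 10 m * sg 10 c1 * sg 10 c2 * sg 10 k * sg 10 k' * sg 10 (dk k k') := by
    unfold K01
    refine b1.trans (mul_le_mul_of_nonneg_right ?_ (sg_pos _ _).le)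
    refine b2.trans (mul_le_mul_of_nonneg_right ?_ (sg_pos _ _).le)
    refine b3.trans (mul_le_mul_of_nonneg_right ?_ (sg_pos _ _).le)
    refine b4.trans (mul_le_mul_of_nonneg_right ?_ (sg_pos _ _).le)
    exact b5
  calc sg 10 (t * (K01 k k' m c1 c2 * T)) ≤ sg 10 t * sg 10 (K01 k k' m c1 c2 * T) := a1
    _ ≤ sg 10 t * (sg 10 (K01 k k' m c1 c2) * sgx 10 T (K01 k k' m c1 c2)) :=
        mul_le_mul_of_nonneg_left a2 (sg_pos _ _).le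
    _ ≤ sg 10 t * ((sg 10 m * sg 10 c1 * sg 10 c2 * sg 10 k * sg 10 k' * sg 10 (dk k k')) *
          sgx 10 T (K01 k k' m c1 c2)) :=
        mul_le_mul_of_nonneg_left (mul_le_mul_of_nonneg_right b6 (sgx_pos _ _ _).le) (sg_pos _ _).le
    _ = _ := by ring

private theorem c1a_prod {N w y : ℕ} (hyw : y ≤ w ^ 100) {x : Cf × Cf} {z : Ky} (h : P1 N w x) (hr : R1 x z)
    (hd : 0 < z.d) (hd' : 0 < z.d') (hk : 0 < z.k) (hk' : 0 < z.k') :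
    ∏ i : Fin 5, (1 - (((![4, 2, 2, 4, 4] : Fin 5 → ℕ) i : ℕ) : ℝ) / 4) ^ (om y (c1a_F z i x.1.a)) =
      (1 / 2) ^ (om y x.1.e) * (1 / 2) ^ (om y x.2.e) := by
  obtain ⟨g0, g1, g2, g3, g4⟩ := c1a_val h hr hd hd' hk hk'
  have r0 : om y x.1.a = 0 := om_rough (rough_mono hyw h.h1.ra)
  have r3 : om y x.1.f = 0 := om_rough (rough_mono hyw h.h1.rf)
  have r4 : om y x.2.f = 0 := om_rough (rough_mono hyw h.h2.rf)
  rw [Fin.prod_univ_five, g0, g1, g2, g3, g4, r0, r3, r4]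
  show (1 - ((4 : ℕ) : ℝ) / 4) ^ 0 * (1 - ((2 : ℕ) : ℝ) / 4) ^ (om y x.1.e) *
    (1 - ((2 : ℕ) : ℝ) / 4) ^ (om y x.2.e) * (1 - ((4 : ℕ) : ℝ) / 4) ^ 0 * (1 - ((4 : ℕ) : ℝ) / 4) ^ 0 = _
  simp only [pow_zero, one_mul, mul_one]
  norm_num

theorem c1a (N : ℕ) (hN : 1000 ≤ N) : ∃ C : ℝ, 0 < C ∧ ∀ y w : ℕ, Lev y w → ∀ z : Ky, V1 N w z →
    ∀ S : Finset (Cf × Cf), (∀ x ∈ S, P1 N w x ∧ R1 x z) → ∑ x ∈ S, wt w x.1 * wt w x.2 ≤ C * B1 N w y z := by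
  obtain ⟨C, hC, hag⟩ := ag
  refine ⟨C, hC, ?_⟩
  intro y w hl z hz S hS
  have hy3 : 3 ≤ y := hl.1
  have hTT : 100 ≤ TT := TT_pos
  have hyw1 : y ≤ w := (Nat.le_self_pow (by omega) y).trans hl.2.1
  have hw2 : 2 ≤ w := by omega
  have hyw : y ≤ w ^ 100 := hyw1.trans (Nat.le_self_pow (by norm_num) w)
  have hlam : 1 ≤ lam y := one_le_lam hy3
  have hlam16 : 0 < lam y ^ 16 := by positivity
  have hm0 : z.m ≠ 0 := by
    intro h0
    have := hz.sq.ne_zero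
    rw [h0] at this
    simp at this
  have hc10 : z.c1 ≠ 0 := by
    intro h0
    have := hz.sq.ne_zero
    rw [h0] at this
    simp at this
  have hc20 : z.c2 ≠ 0 := by
    intro h0
    have := hz.sq.ne_zero
    rw [h0] at this
    simp at this
  have ht0 : z.t ≠ 0 := by
    intro h0
    have := hz.sq.ne_zero
    rw [h0] at this
    simp at this
  have hd := mem_DS.1 hz.hd
  have hd' := mem_DS.1 hz.hd'
  have hdp : 0 < z.d := by have := hd.1.1; omega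
  have hdp' : 0 < z.d' := by have := hd'.1.1; omega
  have hkp : 0 < z.k := hz.vk.k1
  have hkp' : 0 < z.k' := hz.vk'.k1
  have hdk : dk z.k z.k' ≠ 0 := by
    unfold dk
    intro h0
    have h1 : (z.k : ℤ) - z.k' = 0 := Int.natAbs_eq_zero.1 h0
    have h2 : (z.k : ℤ) = z.k' := by linarith
    exact hz.ne (by exact_mod_cast h2)
  have hTh : Th1 z.k z.k' (z.m * z.c1) (z.m * z.c2) z.d z.d' ≠ 0 :=
    (c1n hw2 hz.vk hz.vk' hz.hd hz.hd' hz.nd).1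
  have hSG := c1a_sg ht0 hkp.ne' hkp'.ne' hm0 hc10 hc20 hdk hTh
  have hcp : 1 ≤ z.m * z.c1 := Nat.one_le_iff_ne_zero.2 (Nat.mul_ne_zero hm0 hc10)
  have hcp' : 1 ≤ z.m * z.c2 := Nat.one_le_iff_ne_zero.2 (Nat.mul_ne_zero hm0 hc20)
  have hratio := c1a_ratio (H := HH N w z.k) hcp hcp' hd.2.2.1 hd'.2.2.1
  rcases S.eq_empty_or_nonempty with hE | ⟨x1, hx1⟩
  · rw [hE, Finset.sum_empty]
    refine mul_nonneg hC.le ?_
    unfold B1
    have q1 := (sg_pos 10 z.m).le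
    have q2 := (sg_pos 10 z.c1).le
    have q3 := (sg_pos 10 z.c2).le
    have q4 := (sg_pos 10 z.t).le
    have q5 := (sg_pos 10 z.k).le
    have q6 := (sg_pos 10 z.k').le
    have q7 := (sg_pos 10 (dk z.k z.k')).le
    have q8 := (sgx_pos 10 (Th1 z.k z.k' (z.m * z.c1) (z.m * z.c2) z.d z.d') (K01 z.k z.k' z.m z.c1 z.c2)).le
    positivity
  · have hinj : ∀ x ∈ S, ∀ x' ∈ S, x.1.a = x'.1.a → x = x' := fun x hx x' hx' h =>
      c1a_inj (hS x hx).1 (hS x hx).2 (hS x' hx').1 (hS x' hx').2 hdp hdp' hkp hkp' h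
    have hag1 := hag 5 (by norm_num) le_rfl y (HH N w z.k) (z.d.lcm z.d')
      (z.t * (K01 z.k z.k' z.m z.c1 z.c2 * Th1 z.k z.k' (z.m * z.c1) (z.m * z.c2) z.d z.d')) x1.1.a
      (mu1 z) (al1 z) (be1 z) ![4, 2, 2, 4, 4] (c1a_F z) (S.image fun x => x.1.a) (by omega)
      (Nat.lcm_pos hdp hdp')
      (c1a_H hN hl hkp hz.vk.k2 hz.vk.c2 hz.vk'.c2 hd.1.2 hd'.1.2)
      (Nat.mul_ne_zero ht0 (Nat.mul_ne_zero (by
        unfold K01
        exact Nat.mul_ne_zero (Nat.mul_ne_zero (Nat.mul_ne_zero (Nat.mul_ne_zero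
          (Nat.mul_ne_zero hm0 hc10) hc20) hkp.ne') hkp'.ne') hdk) hTh))
      (by intro i; fin_cases i <;> simp)
      (by
        intro a ha
        obtain ⟨x, hx, rfl⟩ := Finset.mem_image.1 ha
        obtain ⟨hP, hR⟩ := hS x hx
        refine ⟨?_, c1a_mod hP hR (hS x1 hx1).1 (hS x1 hx1).2, ?_, c1a_lin hP hR hdp hdp' hkp hkp'⟩
        · have := conf_HH hP.h1 (by omega)
          rwa [hR.rk] at this
        · obtain ⟨g0, g1, g2, g3, g4⟩ := c1a_val hP hR hdp hdp' hkp hkp'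
          have p1 := conf_pos hP.h1
          have p2 := conf_pos hP.h2
          intro i
          fin_cases i
          · show c1a_F z 0 x.1.a ≠ 0
            rw [g0]; exact p1.1
          · show c1a_F z 1 x.1.a ≠ 0
            rw [g1]; exact p1.2.2.2.2.1
          · show c1a_F z 2 x.1.a ≠ 0
            rw [g2]; exact p2.2.2.2.2.1
          · show c1a_F z 3 x.1.a ≠ 0
            rw [g3]; exact p1.2.2.2.2.2
          · show c1a_F z 4 x.1.a ≠ 0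
            rw [g4]; exact p2.2.2.2.2.2)
      (by
        intro p hp _ _ hpN
        have n1 : ¬ p ∣ z.t := fun h => hpN (Dvd.dvd.mul_right h _)
        have n2 : ¬ p ∣ K01 z.k z.k' z.m z.c1 z.c2 :=
          fun h => hpN (Dvd.dvd.mul_left (Dvd.dvd.mul_right h _) _)
        have n3 : ¬ p ∣ Th1 z.k z.k' (z.m * z.c1) (z.m * z.c2) z.d z.d' :=
          fun h => hpN (Dvd.dvd.mul_left (Dvd.dvd.mul_left h _) _)
        obtain ⟨u1, u2, u3, u4, u5⟩ := c1r z p hp n1 n2 n3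
        refine ⟨?_, u3, u4, u5⟩
        intro hdvd
        have : p ∣ z.d * z.d' := hdvd.trans (Nat.lcm_dvd (dvd_mul_right _ _) (dvd_mul_left _ _))
        rcases (Nat.Prime.dvd_mul hp).1 this with h | h
        · exact u1 h
        · exact u2 h)
    have hsum16 : ∑ i : Fin 5, (![4, 2, 2, 4, 4] : Fin 5 → ℕ) i = 16 := by decide
    rw [hsum16, Finset.sum_image hinj] at hag1
    set Q : ℝ := (1 / 4) ^ (om y z.m + om y z.c1 + om y z.c2 + om y z.t) *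
      ((1 / 2) ^ (om y z.d) * (1 / 2) ^ (om y z.d')) with hQ
    have hQ0 : 0 ≤ Q := by rw [hQ]; positivity
    have h1 : ∑ x ∈ S, wt w x.1 * wt w x.2 ≤ Q * ∑ x ∈ S, ∏ i : Fin 5,
        (1 - (((![4, 2, 2, 4, 4] : Fin 5 → ℕ) i : ℕ) : ℝ) / 4) ^ (om y (c1a_F z i x.1.a)) := by
      rw [Finset.mul_sum]
      refine Finset.sum_le_sum fun x hx => ?_
      obtain ⟨hP, hR⟩ := hS x hx
      rw [c1a_prod hyw hP hR hdp hdp' hkp hkp']
      exact c1a_wt hyw hP hR hz.sq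
    refine h1.trans ((mul_le_mul_of_nonneg_left hag1 hQ0).trans ?_)
    set SG : ℝ := sg 10 z.m * sg 10 z.c1 * sg 10 z.c2 * sg 10 z.t *
      (sg 10 z.k * sg 10 z.k' * sg 10 (dk z.k z.k')) with hSGdef
    set SX : ℝ := sgx 10 (Th1 z.k z.k' (z.m * z.c1) (z.m * z.c2) z.d z.d')
      (K01 z.k z.k' z.m z.c1 z.c2) with hSX
    have hA : 0 ≤ (HH N w z.k : ℝ) * (16 * (z.d.gcd z.d' : ℝ) /
      (((z.m * z.c1 : ℕ) : ℝ) * ((z.m * z.c2 : ℕ) : ℝ))) := by positivity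
    have h2 : C * ((HH N w z.k : ℝ) / ((z.d.lcm z.d' : ℕ) : ℝ)) / lam y ^ 16 *
        sg 10 (z.t * (K01 z.k z.k' z.m z.c1 z.c2 * Th1 z.k z.k' (z.m * z.c1) (z.m * z.c2) z.d z.d')) ≤
        C * ((HH N w z.k : ℝ) * (16 * (z.d.gcd z.d' : ℝ) /
          (((z.m * z.c1 : ℕ) : ℝ) * ((z.m * z.c2 : ℕ) : ℝ)))) / lam y ^ 16 * (SG * SX) := by
      refine mul_le_mul ?_ hSG (sg_pos _ _).le ?_
      · exact div_le_div_of_nonneg_right (mul_le_mul_of_nonneg_left hratio hC.le) hlam16.le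
      · exact div_nonneg (mul_nonneg hC.le hA) hlam16.le
    refine (mul_le_mul_of_nonneg_left h2 hQ0).trans (le_of_eq ?_)
    unfold B1
    rw [← hQ, ← hSGdef, ← hSX]
    ring

end PA39
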