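import Pool.Agent.LibPA39.Defs

/-!
[PA N8b] (ONLY MATHLIB) **The sum over the divisors `g` of `J`.**
`∑_{g ∣ J} sg 20 g / g ≤ ∏_{p ∣ J} (1 + (1+1/p)^20 / (p - 1))` (multiplicativity over prime powers; e.g. strong induction on `J` by
`Nat.recOnPosPrimePosCoprime`, or: `g ↦ sg 20 g / g` is an arithmetic function, multiplicative; `∑_{i ≤ a} sg 20 (p^i)/p^i ≤ 1 + (1+1/p)^20/(p-1)`), and for `p ≥ 100` the factor is
`≤ 1 + 2/p ≤ (1 + 1/p)^2` (`(1+1/p)^20 ≤ e^(1/5) ≤ 2 (p-1)/p`), for the 25 primes `p < 100` it is at most `1 + 2^20`; so `C = (1 + 2^20)^100`.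
-/

namespace PA39

open Finset Pasch

/-- the arithmetic function `g ↦ sg 20 g / g` -/
private noncomputable def n8b_f : ArithmeticFunction ℝ := ⟨fun n => sg 20 n / n, by simp⟩

private lemma n8b_f_apply (n : ℕ) : n8b_f n = sg 20 n / n := rfl

private lemma n8b_mult : n8b_f.IsMultiplicative := by
  refine ⟨?_, ?_⟩
  · rw [n8b_f_apply]
    simp [sg]
  · intro m n hmn
    rw [n8b_f_apply, n8b_f_apply, n8b_f_apply]
    have h1 : sg 20 (m * n) = sg 20 m * sg 20 n := by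
      unfold sg
      rw [hmn.primeFactors_mul, Finset.prod_union hmn.disjoint_primeFactors]
    rw [h1, Nat.cast_mul, mul_div_mul_comm]

private lemma n8b_geom {x : ℝ} (h0 : 0 ≤ x) (h1 : x < 1) (k : ℕ) :
    ∑ i ∈ Finset.range k, x ^ (i + 1) ≤ x / (1 - x) := by
  have h2 : ∑ i ∈ Finset.range k, x ^ (i + 1) = x * ∑ i ∈ Finset.range k, x ^ i := by
    rw [Finset.mul_sum]
    exact Finset.sum_congr rfl fun i _ => by ring
  rw [h2, div_eq_mul_inv]
  refine mul_le_mul_of_nonneg_left ?_ h0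
  have h3 : ∑ i ∈ Finset.range k, x ^ i = (x ^ k - 1) / (x - 1) := geom_sum_eq h1.ne k
  have h4 : 0 < 1 - x := by linarith
  rw [h3, show (x ^ k - 1) / (x - 1) = (1 - x ^ k) * (1 - x)⁻¹ by
    rw [← neg_sub 1 (x ^ k), ← neg_sub 1 x, neg_div_neg_eq, div_eq_mul_inv]]
  have h5 : 0 ≤ x ^ k := pow_nonneg h0 k
  have h6 : 0 < (1 - x)⁻¹ := inv_pos.2 h4
  nlinarith

private lemma n8b_pow {p : ℕ} (hp : p.Prime) (k : ℕ) :
    ∑ g ∈ (p ^ k).divisors, n8b_f g ≤ 1 + (1 + 1 / (p : ℝ)) ^ 20 / ((p : ℝ) - 1) := by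
  have hp2 : (2 : ℝ) ≤ p := by exact_mod_cast hp.two_le
  rw [Nat.sum_divisors_prime_pow hp, Finset.sum_range_succ']
  have h0 : n8b_f (p ^ 0) = 1 := by
    rw [pow_zero]
    exact n8b_mult.1
  rw [h0, add_comm]
  have h1 : ∀ i ∈ Finset.range k, n8b_f (p ^ (i + 1)) = (1 + 1 / (p : ℝ)) ^ 20 * (1 / (p : ℝ)) ^ (i + 1) := by
    intro i _
    rw [n8b_f_apply]
    unfold sg
    rw [Nat.primeFactors_prime_pow (Nat.succ_ne_zero i) hp, Finset.prod_singleton]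
    push_cast
    rw [one_div, inv_pow]
    rfl
  rw [Finset.sum_congr rfl h1, ← Finset.mul_sum]
  have h2 := n8b_geom (x := 1 / (p : ℝ)) (by positivity) (by rw [div_lt_one (by linarith)]; linarith) k
  have h3 : 1 / (p : ℝ) / (1 - 1 / (p : ℝ)) = 1 / ((p : ℝ) - 1) := by
    have : (p : ℝ) ≠ 0 := by linarith
    have h5 : (p : ℝ) - 1 ≠ 0 := by linarith
    have h6 : 1 - 1 / (p : ℝ) ≠ 0 := by
      rw [one_sub_div this]
      exact div_ne_zero h5 this
    field_simp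
  rw [h3] at h2
  have h4 : (0 : ℝ) ≤ (1 + 1 / (p : ℝ)) ^ 20 := by positivity
  have h5 := mul_le_mul_of_nonneg_left h2 h4
  rw [mul_one_div] at h5
  linarith

private lemma n8b_prod {J : ℕ} (hJ : J ≠ 0) :
    ∑ g ∈ J.divisors, n8b_f g ≤ ∏ p ∈ J.primeFactors, (1 + (1 + 1 / (p : ℝ)) ^ 20 / ((p : ℝ) - 1)) := by
  have hm : (n8b_f * (ArithmeticFunction.zeta : ArithmeticFunction ℝ)).IsMultiplicative :=
    n8b_mult.mul (ArithmeticFunction.isMultiplicative_zeta.natCast)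
  have h1 := hm.multiplicative_factorization _ hJ
  rw [ArithmeticFunction.coe_mul_zeta_apply] at h1
  rw [h1, Finsupp.prod, Nat.support_factorization]
  refine Finset.prod_le_prod (fun p hp => ?_) (fun p hp => ?_)
  · rw [ArithmeticFunction.coe_mul_zeta_apply]
    refine Finset.sum_nonneg fun g _ => ?_
    rw [n8b_f_apply]
    exact div_nonneg (sg_pos 20 g).le (Nat.cast_nonneg g)
  · rw [ArithmeticFunction.coe_mul_zeta_apply]
    exact n8b_pow (Nat.prime_of_mem_primeFactors hp) _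

private lemma n8b_fac {p : ℕ} (hp : p.Prime) :
    1 + (1 + 1 / (p : ℝ)) ^ 20 / ((p : ℝ) - 1) ≤ (if p < 100 then (1 + 2 ^ 20 : ℝ) else 1) * (1 + 1 / (p : ℝ)) ^ 2 := by
  have hp2 : (2 : ℝ) ≤ p := by exact_mod_cast hp.two_le
  have hp0 : (0 : ℝ) < p := by linarith
  have hx : 0 < 1 / (p : ℝ) := by positivity
  split_ifs with h
  · have h1 : 1 / (p : ℝ) ≤ 1 := by
      rw [div_le_one hp0]
      linarith
    have h2 : (1 + 1 / (p : ℝ)) ^ 20 ≤ (2 : ℝ) ^ 20 :=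
      pow_le_pow_left₀ (by linarith) (by linarith) 20
    have h3 : (1 + 1 / (p : ℝ)) ^ 20 / ((p : ℝ) - 1) ≤ 2 ^ 20 := by
      rw [div_le_iff₀ (by linarith)]
      nlinarith
    have h4 : (1 : ℝ) ≤ (1 + 1 / (p : ℝ)) ^ 2 := one_le_pow₀ (by linarith)
    nlinarith
  · rw [one_mul]
    have h5 : (100 : ℝ) ≤ p := by exact_mod_cast (not_lt.1 h)
    have h1 : 1 / (p : ℝ) ≤ 1 / 100 := by
      exact one_div_le_one_div_of_le (by norm_num) h5
    have h2 : (1 + 1 / (p : ℝ)) ^ 20 ≤ (101 / 100 : ℝ) ^ 20 :=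
      pow_le_pow_left₀ (by linarith) (by linarith) 20
    have h2' : (1 + 1 / (p : ℝ)) ^ 20 ≤ 13 / 10 := h2.trans (by norm_num)
    have h3 : (1 + 1 / (p : ℝ)) ^ 20 / ((p : ℝ) - 1) ≤ 2 * (1 / (p : ℝ)) := by
      rw [div_le_iff₀ (by linarith)]
      have h6 : 2 * (1 / (p : ℝ)) * ((p : ℝ) - 1) = 2 - 2 * (1 / (p : ℝ)) := by
        field_simp
      rw [h6]
      linarith
    nlinarith

theorem gs : ∃ C : ℝ, 0 < C ∧ ∀ J : ℕ, J ≠ 0 → ∑ g ∈ J.divisors, sg 20 g / g ≤ C * sg 2 J := by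
  refine ⟨(1 + 2 ^ 20) ^ 100, by positivity, fun J hJ => ?_⟩
  have h1 := n8b_prod hJ
  simp only [n8b_f_apply] at h1
  refine h1.trans ?_
  have h2 : ∏ p ∈ J.primeFactors, (1 + (1 + 1 / (p : ℝ)) ^ 20 / ((p : ℝ) - 1)) ≤
      ∏ p ∈ J.primeFactors, ((if p < 100 then (1 + 2 ^ 20 : ℝ) else 1) * (1 + 1 / (p : ℝ)) ^ 2) := by
    refine Finset.prod_le_prod (fun p hp => ?_) (fun p hp => n8b_fac (Nat.prime_of_mem_primeFactors hp))
    have hp2 : (2 : ℝ) ≤ p := by exact_mod_cast (Nat.prime_of_mem_primeFactors hp).two_le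
    have h3 : 0 ≤ (1 + 1 / (p : ℝ)) ^ 20 / ((p : ℝ) - 1) :=
      div_nonneg (by positivity) (by linarith)
    linarith
  refine h2.trans ?_
  rw [Finset.prod_mul_distrib]
  have h4 : ∏ p ∈ J.primeFactors, (if p < 100 then (1 + 2 ^ 20 : ℝ) else 1) ≤ (1 + 2 ^ 20) ^ 100 := by
    rw [← Finset.prod_filter, Finset.prod_const]
    refine pow_le_pow_right₀ (by norm_num) ?_
    have h5 : J.primeFactors.filter (fun p => p < 100) ⊆ Finset.range 100 := by
      intro p hp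
      rw [Finset.mem_filter] at hp
      exact Finset.mem_range.2 hp.2
    have h6 := Finset.card_le_card h5
    rwa [Finset.card_range] at h6
  exact mul_le_mul_of_nonneg_right h4 (sg_pos 2 J).le

end PA39
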