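import Pool.Agent.LibPA39.D2
import Pool.Agent.LibPA39.N1
import Pool.Agent.LibPA39.N2
import Pool.Agent.LibPA39.N8b

/-!
[PA D4] **The sum over `(d, d')` with the singular factor and the gcd** (`J = |k - k'|`; from D2 `dp`, N1 `opt`, N2 `ps`, N8b `gs`).
PROOF. `opt 10 B'` (`B' = 2 TT B`, `Th x ≤ w^B ≤ y^(2 TT B)`): `sgx 10 (Th x) K0 ≤ C (1 + ∑ l ∈ PQ 10 y (Th x) K0, ph 10 l)`. The gcd `g0 = gcd(x.1, x.2)` is a divisor of `J`,
`g0 ≤ J ≤ w^2 ≤ w^6`, so `(g0 : ℝ) * F x ≤ ∑ g ∈ J.divisors, if g ∣ x.1 ∧ g ∣ x.2 then g * F x else 0` for `F ≥ 0`. Swap the sums: for every `g ∈ J.divisors` the main term is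
`dp` (i) times `g`: `sg 20 g / g`. The `l`-terms: `l` runs over the primes `≤ (log y)^12 ≤ y` (`y ≥ y1`) with `l ∤ K0`, so `l ∤ k, k', J`, hence `l ∤ g`; `l ∣ Th x` implies the OR condition; `dp` (ii)
gives the factor `ph 10 l / l ≤ ph 10 l / √l`, `ps`. Finally `gs`.
-/

namespace PA39

open Finset Pasch

private theorem d4_log : ∃ y1 : ℕ, ∀ y : ℕ, y1 ≤ y → (Real.log y) ^ (10 + 2) ≤ (y : ℝ) := by
  have h := (Real.isLittleO_pow_log_id_atTop (n := 12)).bound (zero_lt_one)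
  have h2 : ∀ᶠ n : ℕ in Filter.atTop, ‖(Real.log (n : ℝ)) ^ 12‖ ≤ 1 * ‖(id (n : ℝ))‖ :=
    tendsto_natCast_atTop_atTop.eventually h
  obtain ⟨y1, h3⟩ := Filter.eventually_atTop.1 h2
  refine ⟨y1, fun y hy => ?_⟩
  have h4 := h3 y hy
  simp only [Real.norm_eq_abs, id, one_mul] at h4
  rw [abs_of_nonneg (Nat.cast_nonneg y : (0 : ℝ) ≤ (y : ℝ))] at h4
  exact le_trans (le_abs_self _) h4

private theorem d4_P (y K : ℕ) : ∃ P : Finset ℕ, ∀ l : ℕ, l ∈ P ↔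
    (l.Prime ∧ ¬ l ∣ K ∧ (l : ℝ) ≤ (Real.log y) ^ (10 + 2)) := by
  classical
  refine ⟨(range (⌊(Real.log y) ^ (10 + 2)⌋₊ + 1)).filter
    (fun l => l.Prime ∧ ¬ l ∣ K ∧ (l : ℝ) ≤ (Real.log y) ^ (10 + 2)), fun l => ?_⟩
  rw [mem_filter, mem_range]
  constructor
  · intro h
    exact h.2
  · intro h
    exact ⟨Nat.lt_succ_of_le (Nat.le_floor h.2.2), h⟩

private theorem d4_gcd {J a b : ℕ} (hJ : J ≠ 0) (hg : a.gcd b ∣ J) :
    ((a.gcd b : ℕ) : ℝ) ≤ ∑ g ∈ J.divisors, if g ∣ a ∧ g ∣ b then (g : ℝ) else 0 := by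
  have h1 : a.gcd b ∈ J.divisors := Nat.mem_divisors.2 ⟨hg, hJ⟩
  have h2 : ((a.gcd b : ℕ) : ℝ) =
      (if (a.gcd b) ∣ a ∧ (a.gcd b) ∣ b then ((a.gcd b : ℕ) : ℝ) else 0) := by
    rw [if_pos ⟨Nat.gcd_dvd_left a b, Nat.gcd_dvd_right a b⟩]
  rw [h2]
  refine Finset.single_le_sum (f := fun g : ℕ => if g ∣ a ∧ g ∣ b then (g : ℝ) else 0) ?_ h1
  intro g _
  split_ifs
  · exact Nat.cast_nonneg g
  · exact le_refl 0

private theorem d4_ph_nonneg (A p : ℕ) : 0 ≤ ph A p := by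
  unfold ph
  have := Real.log_natCast_nonneg p
  positivity

private theorem d4_mem {y w : ℕ} (h : Lev y w) : 1 ≤ w := by
  obtain ⟨h1, h2, _⟩ := h
  have : 1 ≤ y ^ TT := Nat.one_le_pow _ _ (by omega)
  omega

theorem dd (B : ℕ) : ∃ C : ℝ, ∃ y1 : ℕ, 0 < C ∧ ∀ y w : ℕ, y1 ≤ y → Lev y w → ∀ k k' c c' J K0 : ℕ,
    VK w k c → VK w k' c' → J ≠ 0 → J ≤ w ^ 2 → K0 ≠ 0 → k ∣ K0 → k' ∣ K0 → J ∣ K0 →
    ∀ (E : Finset (ℕ × ℕ)) (Th : ℕ × ℕ → ℕ),
    (∀ x ∈ E, x.1 ∈ DS k c ∧ x.2 ∈ DS k' c' ∧ x.1.gcd x.2 ∣ J ∧ Th x ≠ 0 ∧ Th x ≤ w ^ B) →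
    (∀ l : ℕ, l.Prime → ¬ l ∣ K0 → ∃ (R : Finset ℕ) (R' : ℕ → Finset ℕ), R.card ≤ 8 ∧ (∀ d, (R' d).card ≤ 8) ∧
      ∀ x ∈ E, l ∣ Th x → x.1 % l ∈ R ∨ x.2 % l ∈ R' x.1) →
    ∑ x ∈ E, (x.1.gcd x.2 : ℝ) * ((1 / 2) ^ (om y x.1) * (1 / 2) ^ (om y x.2)) * sgx 10 (Th x) K0 ≤
      C * ((c : ℝ) * c') * (ta k / k * (ta k' / k')) * (sg 10 k * sg 10 k') * sg 2 J / lam y ^ 4 := by
  classical
  obtain ⟨Cd, hCd, hdp⟩ := dp
  obtain ⟨Co, hCo, hopt⟩ := opt 10 (2 * TT * B)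
  obtain ⟨Cp, hCp, hps⟩ := ps 10
  obtain ⟨Cg, hCg, hgs⟩ := gs
  obtain ⟨y1, hy1⟩ := d4_log
  refine ⟨Co * Cd * (1 + Cp) * Cg, y1, by positivity, ?_⟩
  intro y w hy hL k k' c c' J K0 hk hk' hJ hJw hK0 hkK hk'K hJK E Th hE hR
  obtain ⟨hy3, hyw, hwy⟩ := hL
  have hL : Lev y w := ⟨hy3, hyw, hwy⟩
  have hw1 : 1 ≤ w := d4_mem hL
  have hy1' := hy1 y hy
  have hlam1 := one_le_lam hy3
  have hlam4 : 0 < lam y ^ 4 := by positivity
  obtain ⟨P, hP⟩ := d4_P y K0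
  -- the weight
  set W : ℕ × ℕ → ℝ := fun x => (1 / 2 : ℝ) ^ (om y x.1) * (1 / 2) ^ (om y x.2) with hW
  have hW0 : ∀ x, 0 ≤ W x := fun x => by simp only [hW]; positivity
  set M : ℝ := ((c : ℝ) * c') * (ta k / k * (ta k' / k')) * (sg 10 k * sg 10 k') with hM
  have hM0 : 0 ≤ M := by
    have h1 := (sg_pos 10 k).le
    have h2 := (sg_pos 10 k').le
    have h3 : 0 ≤ ta k := by unfold ta; positivity
    have h4 : 0 ≤ ta k' := by unfold ta; positivity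
    simp only [hM]; positivity
  -- the singular factor
  have hsg : ∀ x ∈ E, sgx 10 (Th x) K0 ≤ Co * (1 + ∑ l ∈ P, if l ∣ Th x then ph 10 l else 0) := by
    intro x hx
    obtain ⟨_, _, _, hT0, hTw⟩ := hE x hx
    have h1 : Th x ≤ y ^ (2 * TT * B) := by
      refine le_trans hTw ?_
      rw [pow_mul]
      exact Nat.pow_le_pow_left hwy B
    have h2 := hopt y (Th x) K0 hy3 hT0 h1
    refine le_trans h2 ?_
    refine mul_le_mul_of_nonneg_left ?_ hCo.le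
    have h3 : ∑ p ∈ PQ 10 y (Th x) K0, ph 10 p ≤ ∑ l ∈ P, if l ∣ Th x then ph 10 l else 0 := by
      rw [← Finset.sum_filter]
      refine Finset.sum_le_sum_of_subset_of_nonneg ?_ (fun i _ _ => d4_ph_nonneg 10 i)
      intro p hp
      rw [mem_PQ] at hp
      obtain ⟨hp1, hp2, hp3⟩ := hp
      rw [mem_filter, hP]
      exact ⟨⟨Nat.prime_of_mem_primeFactors hp1, hp2, hp3⟩, Nat.dvd_of_mem_primeFactors hp1⟩
    linarith
  -- pointwise bound
  have hpt : ∀ x ∈ E, (x.1.gcd x.2 : ℝ) * W x * sgx 10 (Th x) K0 ≤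
      ∑ g ∈ J.divisors, (Co * (g : ℝ)) * ((if g ∣ x.1 ∧ g ∣ x.2 then W x else 0) +
        ∑ l ∈ P, ph 10 l * (if (g ∣ x.1 ∧ g ∣ x.2) ∧ l ∣ Th x then W x else 0)) := by
    intro x hx
    obtain ⟨_, _, hgJ, _, _⟩ := hE x hx
    have hS := hsg x hx
    have hG := d4_gcd hJ hgJ
    set Sx : ℝ := 1 + ∑ l ∈ P, (if l ∣ Th x then ph 10 l else 0) with hSx
    have hSx0 : 0 ≤ Sx := by
      have : 0 ≤ ∑ l ∈ P, (if l ∣ Th x then ph 10 l else 0) := by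
        refine Finset.sum_nonneg ?_
        intro l _
        split_ifs
        · exact d4_ph_nonneg 10 l
        · exact le_refl 0
      rw [hSx]; linarith
    calc (x.1.gcd x.2 : ℝ) * W x * sgx 10 (Th x) K0
        ≤ (∑ g ∈ J.divisors, if g ∣ x.1 ∧ g ∣ x.2 then (g : ℝ) else 0) * W x * (Co * Sx) := by
          refine mul_le_mul (mul_le_mul_of_nonneg_right hG (hW0 x)) hS (sgx_pos 10 _ _).le ?_
          refine mul_nonneg ?_ (hW0 x)
          refine Finset.sum_nonneg ?_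
          intro g _
          split_ifs
          · exact Nat.cast_nonneg g
          · exact le_refl 0
      _ = ∑ g ∈ J.divisors, (Co * (g : ℝ)) * ((if g ∣ x.1 ∧ g ∣ x.2 then W x else 0) +
        ∑ l ∈ P, ph 10 l * (if (g ∣ x.1 ∧ g ∣ x.2) ∧ l ∣ Th x then W x else 0)) := by
          rw [mul_assoc, Finset.sum_mul]
          refine Finset.sum_congr rfl ?_
          intro g _
          by_cases hgx : g ∣ x.1 ∧ g ∣ x.2
          · rw [if_pos hgx, if_pos hgx]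
            have h5 : ∑ l ∈ P, ph 10 l * (if (g ∣ x.1 ∧ g ∣ x.2) ∧ l ∣ Th x then W x else 0) =
                W x * ∑ l ∈ P, (if l ∣ Th x then ph 10 l else 0) := by
              rw [Finset.mul_sum]
              refine Finset.sum_congr rfl ?_
              intro l _
              by_cases hl : l ∣ Th x
              · rw [if_pos ⟨hgx, hl⟩, if_pos hl]; ring
              · rw [if_neg (fun h => hl h.2), if_neg hl]; ring
            rw [h5, hSx]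
            ring
          · rw [if_neg hgx, if_neg hgx]
            have h5 : ∑ l ∈ P, ph 10 l * (if (g ∣ x.1 ∧ g ∣ x.2) ∧ l ∣ Th x then W x else 0) = 0 := by
              refine Finset.sum_eq_zero ?_
              intro l _
              rw [if_neg (fun h => hgx h.1), mul_zero]
            rw [h5]
            ring
  -- sum
  have hsum : ∑ x ∈ E, (x.1.gcd x.2 : ℝ) * ((1 / 2) ^ (om y x.1) * (1 / 2) ^ (om y x.2)) *
      sgx 10 (Th x) K0 ≤ ∑ g ∈ J.divisors, (Co * (g : ℝ)) *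
        ((∑ x ∈ E, if g ∣ x.1 ∧ g ∣ x.2 then W x else 0) +
        ∑ l ∈ P, ph 10 l * (∑ x ∈ E, if (g ∣ x.1 ∧ g ∣ x.2) ∧ l ∣ Th x then W x else 0)) := by
    refine le_trans (Finset.sum_le_sum hpt) (le_of_eq ?_)
    rw [Finset.sum_comm]
    refine Finset.sum_congr rfl ?_
    intro g _
    rw [← Finset.mul_sum, Finset.sum_add_distrib, Finset.sum_comm (s := E) (t := P)]
    refine congrArg (fun z => (Co * (g : ℝ)) * z) ?_
    refine congrArg (fun z => (∑ x ∈ E, if g ∣ x.1 ∧ g ∣ x.2 then W x else 0) + z) ?_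
    refine Finset.sum_congr rfl ?_
    intro l _
    rw [Finset.mul_sum]
  refine le_trans hsum ?_
  -- each g
  have hg : ∀ g ∈ J.divisors, (Co * (g : ℝ)) *
        ((∑ x ∈ E, if g ∣ x.1 ∧ g ∣ x.2 then W x else 0) +
        ∑ l ∈ P, ph 10 l * (∑ x ∈ E, if (g ∣ x.1 ∧ g ∣ x.2) ∧ l ∣ Th x then W x else 0)) ≤
      (Co * Cd * (1 + Cp) * M / lam y ^ 4) * (sg 20 g / g) := by
    intro g hgJ
    obtain ⟨hgJ1, _⟩ := Nat.mem_divisors.1 hgJ
    have hg1 : 1 ≤ g := Nat.pos_of_dvd_of_pos hgJ1 (Nat.pos_of_ne_zero hJ)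
    have hg0 : (0 : ℝ) < g := by exact_mod_cast hg1
    have hgw : g ≤ w ^ 6 := by
      refine le_trans (Nat.le_of_dvd (Nat.pos_of_ne_zero hJ) hgJ1) (le_trans hJw ?_)
      exact Nat.pow_le_pow_right hw1 (by norm_num)
    obtain ⟨h1, h2⟩ := hdp y w hL k k' c c' hk hk' E
      (fun x hx => ⟨(hE x hx).1, (hE x hx).2.1⟩) g hg1 hgw
    set Q : ℝ := Cd * M * (sg 20 g / (g : ℝ) ^ 2) / lam y ^ 4 with hQ
    have hQ0 : 0 ≤ Q := by
      have := (sg_pos 20 g).le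
      rw [hQ]; positivity
    have h1' : (∑ x ∈ E, if g ∣ x.1 ∧ g ∣ x.2 then W x else 0) ≤ Q := by
      rw [← Finset.sum_filter]
      refine le_trans h1 (le_of_eq ?_)
      rw [hQ, hM]; ring
    have h2' : ∀ l ∈ P, ph 10 l * (∑ x ∈ E, if (g ∣ x.1 ∧ g ∣ x.2) ∧ l ∣ Th x then W x else 0) ≤
        Q * (ph 10 l / Real.sqrt l) := by
      intro l hl
      obtain ⟨hlp, hlK, hly⟩ := (hP l).1 hl
      have hly' : l ≤ y := by
        have : (l : ℝ) ≤ (y : ℝ) := le_trans hly hy1'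
        exact_mod_cast this
      obtain ⟨R, R', hRc, hRc', hRR⟩ := hR l hlp hlK
      have h3 := h2 l hlp hly' (fun h => hlK (h.trans hkK)) (fun h => hlK (h.trans hk'K))
        (fun h => hlK ((h.trans hgJ1).trans hJK)) R R' hRc hRc'
      have hl1 : (1 : ℝ) ≤ l := by exact_mod_cast hlp.one_lt.le
      have hsq : Real.sqrt l ≤ l := by
        rw [Real.sqrt_le_left (by linarith)]
        nlinarith
      have hsq0 : 0 < Real.sqrt l := Real.sqrt_pos.2 (by linarith)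
      have h4 : (∑ x ∈ E, if (g ∣ x.1 ∧ g ∣ x.2) ∧ l ∣ Th x then W x else 0) ≤ Q / l := by
        rw [← Finset.sum_filter]
        refine le_trans (Finset.sum_le_sum_of_subset_of_nonneg ?_ (fun x _ _ => hW0 x))
          (le_trans h3 (le_of_eq ?_))
        · intro x hx
          rw [mem_filter] at hx ⊢
          exact ⟨hx.1, hx.2.1, hRR x hx.1 hx.2.2⟩
        · rw [hQ, hM]; ring
      calc ph 10 l * (∑ x ∈ E, if (g ∣ x.1 ∧ g ∣ x.2) ∧ l ∣ Th x then W x else 0)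
          ≤ ph 10 l * (Q / l) := mul_le_mul_of_nonneg_left h4 (d4_ph_nonneg 10 l)
        _ = (ph 10 l * Q) / l := by ring
        _ ≤ (ph 10 l * Q) / Real.sqrt l :=
          div_le_div_of_nonneg_left (mul_nonneg (d4_ph_nonneg 10 l) hQ0) hsq0 hsq
        _ = Q * (ph 10 l / Real.sqrt l) := by ring
    have h3' : ∑ l ∈ P, ph 10 l * (∑ x ∈ E, if (g ∣ x.1 ∧ g ∣ x.2) ∧ l ∣ Th x then W x else 0) ≤
        Q * Cp := by
      refine le_trans (Finset.sum_le_sum h2') ?_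
      rw [← Finset.mul_sum]
      exact mul_le_mul_of_nonneg_left (hps P) hQ0
    calc (Co * (g : ℝ)) *
        ((∑ x ∈ E, if g ∣ x.1 ∧ g ∣ x.2 then W x else 0) +
        ∑ l ∈ P, ph 10 l * (∑ x ∈ E, if (g ∣ x.1 ∧ g ∣ x.2) ∧ l ∣ Th x then W x else 0))
        ≤ (Co * (g : ℝ)) * (Q + Q * Cp) :=
          mul_le_mul_of_nonneg_left (add_le_add h1' h3') (by positivity)
      _ = (Co * Cd * (1 + Cp) * M / lam y ^ 4) * (sg 20 g / g) := by
          rw [hQ]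
          field_simp
  refine le_trans (Finset.sum_le_sum hg) ?_
  rw [← Finset.mul_sum]
  have h6 := hgs J hJ
  have h7 : 0 ≤ Co * Cd * (1 + Cp) * M / lam y ^ 4 := by positivity
  refine le_trans (mul_le_mul_of_nonneg_left h6 h7) (le_of_eq ?_)
  rw [hM]
  ring

end PA39
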