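import Pool.Agent.LibPA39.C1n
import Pool.Agent.LibPA39.N7
import Pool.Agent.LibPA39.N9b
import Pool.Agent.LibPA39.D4

/-!
[PA C1f] **The sums over `t` and `(d, d')` (case 1)**, for fixed `k, k', m, c1, c2` (from N7 `vs`, D4 `dd`).
PROOF. `T` empty: trivial. Otherwise (some `z ∈ T`) `VK w k (m c1)`, `VK w k' (m c2)`, `dk k k' ≠ 0`, `≤ w^2`, `K01 ≠ 0`. Let `E` = the image of `T` under `z ↦ (z.d, z.d')` and `TM = k * HH N w k / (m c1 c2)`; `T` injects into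
`(Icc 1 TM) ×ˢ E` (`z.t ≥ 1` since the product is squarefree). All factors are nonnegative, so the sum is at most
`(HH * 16/(c c')) * (1/4)^(om m + om c1 + om c2) * sg.. * (∑ t ∈ Icc 1 TM, (1/4)^(om t) sg 10 t) * (∑ x ∈ E, gcd * (1/2)^.. * (1/2)^.. * sgx 10 (Th1 ..) K01) / lam^16`.
First sum: `vs 10 B`: `≤ C TM / lam^3`; `TM ≥ y^(2 TT)`: `k HH ≥ w^400` while `m c1 c2 ≤ w^40`; `TM ≤ k HH ≤ w^(N+4) ≤ y^(2 TT (N+4))`; `HH * TM ≤ k HH^2/(m c1 c2) ≤ 10^4 w^N/(m c1 c2)`.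
Second sum: `dd 1000` with `J = dk k k'`, `K0 = K01`, `Th x = Th1 k k' c c' x.1 x.2` (`c1n`: `≠ 0`, `≤ w^1000`; `c1h`: classes): `≤ C c c' (ta k/k)(ta k'/k') sg 10 k sg 10 k' sg 2 (dk k k') / lam^4`.
Combine with `sg_add` (`10+10 = 20`, `10+2 = 12`) and `lam^(16+3+4) = lam^23`.
-/

namespace PA39

open Finset Pasch

private theorem c1f_H1 {N w k : ℕ} (hk : 1 ≤ k) : k * (HH N w k * HH N w k) ≤ 10 ^ 4 * w ^ N := by
  have h1 : HH N w k * HH N w k ≤ 10 ^ 4 * w ^ N / k := Nat.sqrt_le _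
  exact (Nat.mul_le_mul_left k h1).trans (Nat.mul_div_le _ _)

private theorem c1f_H2 {N w k : ℕ} (hN : 1000 ≤ N) (hw : 1 ≤ w) (hk : 1 ≤ k) (hk2 : k ≤ w ^ 2) :
    w ^ 499 ≤ HH N w k := by
  unfold HH
  rw [Nat.le_sqrt', Nat.le_div_iff_mul_le hk]
  calc (w ^ 499) ^ 2 * k ≤ (w ^ 499) ^ 2 * w ^ 2 := Nat.mul_le_mul_left _ hk2
    _ = w ^ 1000 := by rw [← pow_mul, ← pow_add]
    _ ≤ w ^ N := Nat.pow_le_pow_right hw hN
    _ ≤ 10 ^ 4 * w ^ N := Nat.le_mul_of_pos_left _ (by norm_num)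

/-- the sum over the image of an injective map into a product -/
private theorem c1f_prod {ι : Type*} (T : Finset ι) (p1 : ι → ℕ) (p2 : ι → ℕ × ℕ) (U : Finset ℕ) (E : Finset (ℕ × ℕ))
    (f : ℕ → ℝ) (g : ℕ × ℕ → ℝ) (hf : ∀ t, 0 ≤ f t) (hg : ∀ x, 0 ≤ g x)
    (hinj : ∀ z ∈ T, ∀ z' ∈ T, p1 z = p1 z' → p2 z = p2 z' → z = z')
    (h1 : ∀ z ∈ T, p1 z ∈ U) (h2 : ∀ z ∈ T, p2 z ∈ E) :
    ∑ z ∈ T, f (p1 z) * g (p2 z) ≤ (∑ t ∈ U, f t) * ∑ x ∈ E, g x := by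
  classical
  have e1 : ∑ z ∈ T, f (p1 z) * g (p2 z) = ∑ q ∈ T.image (fun z => (p1 z, p2 z)), f q.1 * g q.2 := by
    rw [Finset.sum_image]
    intro z hz z' hz' h
    have h' : (p1 z, p2 z) = (p1 z', p2 z') := h
    exact hinj z hz z' hz' (congrArg Prod.fst h') (congrArg Prod.snd h')
  have e2 : (∑ t ∈ U, f t) * ∑ x ∈ E, g x = ∑ q ∈ U ×ˢ E, f q.1 * g q.2 := by
    rw [Finset.sum_mul_sum, Finset.sum_product]
  rw [e1, e2]
  refine Finset.sum_le_sum_of_subset_of_nonneg ?_ fun q _ _ => mul_nonneg (hf _) (hg _)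
  intro q hq
  obtain ⟨z, hz, rfl⟩ := Finset.mem_image.1 hq
  exact Finset.mem_product.2 ⟨h1 z hz, h2 z hz⟩

theorem c1f (N : ℕ) (hN : 1000 ≤ N) : ∃ C : ℝ, ∃ y1 : ℕ, 0 < C ∧ ∀ y w : ℕ, y1 ≤ y → Lev y w →
    ∀ k k' m c1 c2 : ℕ, ∀ T : Finset Ky,
    (∀ z ∈ T, V1 N w z ∧ z.k = k ∧ z.k' = k' ∧ z.m = m ∧ z.c1 = c1 ∧ z.c2 = c2) →
    ∑ z ∈ T, B1 N w y z ≤ C * ((w : ℝ) ^ N / ((m : ℝ) * c1 * c2)) * (1 / 4) ^ (om y m + om y c1 + om y c2) *
      (sg 10 m * sg 10 c1 * sg 10 c2) * (ta k / k * (ta k' / k')) * (sg 20 k * sg 20 k') * sg 12 (dk k k') /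
      lam y ^ 23 := by
  classical
  obtain ⟨C1, y1, hC1, H1⟩ := vs 10 (2 * TT * (N + 4))
  obtain ⟨C2, y2, hC2, H2⟩ := dd 1000
  refine ⟨160000 * C1 * C2, max y1 y2, by positivity, ?_⟩
  intro y w hy hL k k' m c1 c2 T hT
  have hy1 : y1 ≤ y := (le_max_left _ _).trans hy
  have hy2 : y2 ≤ y := (le_max_right _ _).trans hy
  have hlam : 1 ≤ lam y := one_le_lam hL.1
  have hlam0 : 0 < lam y := by linarith
  have s1 := (sg_pos 10 m).le
  have s2 := (sg_pos 10 c1).le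
  have s3 := (sg_pos 10 c2).le
  have s4 := (sg_pos 10 k).le
  have s5 := (sg_pos 10 k').le
  have s6 := (sg_pos 10 (dk k k')).le
  have s7 := (sg_pos 20 k).le
  have s8 := (sg_pos 20 k').le
  have s9 := (sg_pos 12 (dk k k')).le
  have s10 := (sg_pos 2 (dk k k')).le
  have t1 : 0 ≤ ta k := Nat.cast_nonneg _
  have t2 : 0 ≤ ta k' := Nat.cast_nonneg _
  have hR : 0 ≤ (1 / 4 : ℝ) ^ (om y m + om y c1 + om y c2) *
      (sg 10 m * sg 10 c1 * sg 10 c2) * (ta k / k * (ta k' / k')) * (sg 20 k * sg 20 k') * sg 12 (dk k k') /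
      lam y ^ 23 := by positivity
  rcases T.eq_empty_or_nonempty with rfl | ⟨z0, hz0⟩
  · rw [Finset.sum_empty]
    positivity
  have hwpos : 10 ^ 4 ≤ w := by
    have h1 : (3 : ℕ) ^ 100 ≤ y ^ TT :=
      (Nat.pow_le_pow_left hL.1 100).trans (Nat.pow_le_pow_right (by have := hL.1; omega) TT_pos)
    have h2 : (10 : ℕ) ^ 4 ≤ 3 ^ 100 := by norm_num
    exact h2.trans (h1.trans hL.2.1)
  have hw1 : 1 ≤ w := by omega
  have hw2 : 2 ≤ w := by omega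
  -- the data of one key
  obtain ⟨v0, q1, q2, q3, q4, q5⟩ := hT z0 hz0
  have vk : VK w k (m * c1) := by
    have := v0.vk
    rwa [q1, q3, q4] at this
  have vk' : VK w k' (m * c2) := by
    have := v0.vk'
    rwa [q2, q3, q5] at this
  have hne : k ≠ k' := by
    have := v0.ne
    rwa [q1, q2] at this
  have hsq : m * c1 * c2 ≠ 0 := by
    have := v0.sq.ne_zero
    rw [q3, q4, q5] at this
    exact left_ne_zero_of_mul this
  have hc2 : c2 ≠ 0 := right_ne_zero_of_mul hsq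
  have hc1 : c1 ≠ 0 := right_ne_zero_of_mul (left_ne_zero_of_mul hsq)
  have hm : m ≠ 0 := left_ne_zero_of_mul (left_ne_zero_of_mul hsq)
  have hJ0 : dk k k' ≠ 0 := by
    unfold dk
    omega
  have hJ1 : dk k k' ≤ w ^ 2 := by
    have h1 := vk.k2
    have h2 := vk'.k2
    unfold dk
    omega
  have hk0 : k ≠ 0 := by
    have := vk.k1
    omega
  have hk0' : k' ≠ 0 := by
    have := vk'.k1
    omega
  have hK0 : K01 k k' m c1 c2 ≠ 0 := by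
    unfold K01
    exact mul_ne_zero (mul_ne_zero (mul_ne_zero hsq hk0) hk0') hJ0
  have hKk : k ∣ K01 k k' m c1 c2 := by
    unfold K01
    exact Dvd.intro_left (m * c1 * c2) rfl |>.mul_right _ |>.mul_right _
  have hKk' : k' ∣ K01 k k' m c1 c2 := by
    unfold K01
    exact Dvd.intro_left (m * c1 * c2 * k) rfl |>.mul_right _
  have hKJ : dk k k' ∣ K01 k k' m c1 c2 := by
    unfold K01
    exact Dvd.intro_left (m * c1 * c2 * k * k') rfl
  -- the bound for t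
  set TM : ℕ := k * HH N w k / (m * c1 * c2) with hTM
  have hq0 : 0 < m * c1 * c2 := Nat.pos_of_ne_zero hsq
  have hH1 := c1f_H1 (N := N) (w := w) vk.k1
  have hH2 := c1f_H2 (N := N) (w := w) hN hw1 vk.k1 vk.k2
  have hmcc : m * c1 * c2 ≤ w ^ 40 := by
    calc m * c1 * c2 ≤ (m * c1) * (m * c2) :=
          Nat.mul_le_mul_left _ (Nat.le_mul_of_pos_left _ (Nat.pos_of_ne_zero hm))
      _ ≤ w ^ 20 * w ^ 20 := Nat.mul_le_mul vk.c2 vk'.c2
      _ = w ^ 40 := by rw [← pow_add]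
  have hTM1 : y ^ (2 * TT) ≤ TM := by
    rw [hTM, Nat.le_div_iff_mul_le hq0]
    calc y ^ (2 * TT) * (m * c1 * c2) ≤ w ^ 2 * w ^ 40 := by
          refine Nat.mul_le_mul ?_ hmcc
          rw [mul_comm 2 TT, pow_mul]
          exact Nat.pow_le_pow_left hL.2.1 2
      _ = w ^ 42 := by rw [← pow_add]
      _ ≤ w ^ 499 := Nat.pow_le_pow_right hw1 (by norm_num)
      _ ≤ HH N w k := hH2
      _ ≤ k * HH N w k := Nat.le_mul_of_pos_left _ vk.k1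
  have hTM2 : TM ≤ y ^ (2 * TT * (N + 4)) := by
    calc TM ≤ k * HH N w k := Nat.div_le_self _ _
      _ ≤ k * (HH N w k * HH N w k) := by
          refine Nat.mul_le_mul_left _ (Nat.le_mul_of_pos_left _ ?_)
          exact lt_of_lt_of_le (by positivity) hH2
      _ ≤ 10 ^ 4 * w ^ N := hH1
      _ ≤ w * w ^ N := Nat.mul_le_mul_right _ hwpos
      _ = w ^ (N + 1) := by rw [pow_succ, mul_comm]
      _ ≤ w ^ (N + 4) := Nat.pow_le_pow_right hw1 (by omega)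
      _ ≤ (y ^ (2 * TT)) ^ (N + 4) := Nat.pow_le_pow_left hL.2.2 _
      _ = y ^ (2 * TT * (N + 4)) := by rw [← pow_mul]
  have hS1 := H1 y TM hy1 hTM1 hTM2
  -- the sum over d, d'
  have hS2 := H2 y w hy2 hL k k' (m * c1) (m * c2) (dk k k') (K01 k k' m c1 c2) vk vk' hJ0 hJ1 hK0 hKk hKk' hKJ
    (T.image fun z => (z.d, z.d')) (fun x => Th1 k k' (m * c1) (m * c2) x.1 x.2) (by
      intro x hx
      obtain ⟨z, hz, rfl⟩ := Finset.mem_image.1 hx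
      obtain ⟨v, r1, r2, r3, r4, r5⟩ := hT z hz
      have a1 := v.hd
      have a2 := v.hd'
      have a3 := v.hg
      have a4 := v.nd
      rw [r1, r3, r4] at a1
      rw [r2, r3, r5] at a2
      rw [r1, r2] at a3
      rw [r1, r2, r3, r4, r5] at a4
      obtain ⟨a5, a6⟩ := c1n hw2 vk vk' a1 a2 a4
      exact ⟨a1, a2, a3, a5, a6⟩) (by
      intro l hl hlK
      obtain ⟨R, R', b1, b2, b3⟩ := c1h k k' m c1 c2 l hl hlK
      exact ⟨R, R', b1, b2, fun x _ hx => b3 x hx⟩)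
  set f : ℕ → ℝ := fun t => (1 / 4 : ℝ) ^ (om y t) * sg 10 t with hf
  set g : ℕ × ℕ → ℝ := fun x => (x.1.gcd x.2 : ℝ) * ((1 / 2) ^ (om y x.1) * (1 / 2) ^ (om y x.2)) *
    sgx 10 (Th1 k k' (m * c1) (m * c2) x.1 x.2) (K01 k k' m c1 c2) with hg
  have hf0 : ∀ t, 0 ≤ f t := by
    intro t
    have := (sg_pos 10 t).le
    simp only [hf]
    positivity
  have hg0 : ∀ x, 0 ≤ g x := by
    intro x
    have := (sgx_pos 10 (Th1 k k' (m * c1) (m * c2) x.1 x.2) (K01 k k' m c1 c2)).le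
    simp only [hg]
    positivity
  have hprod := c1f_prod T (fun z => z.t) (fun z => (z.d, z.d')) (Icc 1 TM) (T.image fun z => (z.d, z.d')) f g hf0 hg0
    (by
      intro z hz z' hz' e1 e2
      obtain ⟨-, r1, r2, r3, r4, r5⟩ := hT z hz
      obtain ⟨-, u1, u2, u3, u4, u5⟩ := hT z' hz'
      have e3 := congrArg Prod.fst e2
      have e4 := congrArg Prod.snd e2
      cases z
      cases z'
      simp only at r1 r2 r3 r4 r5 u1 u2 u3 u4 u5 e1 e3 e4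
      subst r1 r2 r3 r4 r5
      rw [u1, u2, u3, u4, u5, e1, e3, e4])
    (by
      intro z hz
      obtain ⟨v, r1, r2, r3, r4, r5⟩ := hT z hz
      rw [Finset.mem_Icc]
      constructor
      · have h1 := v.sq.ne_zero
        exact Nat.one_le_iff_ne_zero.2 (right_ne_zero_of_mul h1)
      · have h1 := v.ht
        rw [r1, r3, r4, r5] at h1
        exact (Nat.le_div_iff_mul_le hq0).2 h1)
    (fun z hz => Finset.mem_image_of_mem _ hz)
  -- the constant factor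
  set A : ℝ := (HH N w k : ℝ) * (16 / (((m * c1 : ℕ) : ℝ) * ((m * c2 : ℕ) : ℝ))) *
    (1 / 4) ^ (om y m + om y c1 + om y c2) * (sg 10 m * sg 10 c1 * sg 10 c2) *
    (sg 10 k * sg 10 k' * sg 10 (dk k k')) / lam y ^ 16 with hA
  have hA0 : 0 ≤ A := by
    rw [hA]
    positivity
  have e1 : ∑ z ∈ T, B1 N w y z = A * ∑ z ∈ T, f z.t * g (z.d, z.d') := by
    rw [Finset.mul_sum]
    refine Finset.sum_congr rfl fun z hz => ?_
    obtain ⟨-, r1, r2, r3, r4, r5⟩ := hT z hz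
    unfold B1
    rw [r1, r2, r3, r4, r5, pow_add _ (om y m + om y c1 + om y c2) (om y z.t), hA]
    simp only [hf, hg]
    ring
  have hf1 : ∑ t ∈ Icc 1 TM, f t ≤ C1 * TM / lam y ^ 3 := hS1
  have hg1 : ∑ x ∈ T.image (fun z => (z.d, z.d')), g x ≤ C2 * (((m * c1 : ℕ) : ℝ) * ((m * c2 : ℕ) : ℝ)) *
    (ta k / k * (ta k' / k')) * (sg 10 k * sg 10 k') * sg 2 (dk k k') / lam y ^ 4 := hS2
  have hf2 : 0 ≤ ∑ t ∈ Icc 1 TM, f t := Finset.sum_nonneg fun t _ => hf0 t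
  have hg2 : 0 ≤ ∑ x ∈ T.image (fun z => (z.d, z.d')), g x := Finset.sum_nonneg fun x _ => hg0 x
  have hmain : ∑ z ∈ T, B1 N w y z ≤ A * ((C1 * TM / lam y ^ 3) * (C2 * (((m * c1 : ℕ) : ℝ) * ((m * c2 : ℕ) : ℝ)) *
    (ta k / k * (ta k' / k')) * (sg 10 k * sg 10 k') * sg 2 (dk k k') / lam y ^ 4)) := by
    rw [e1]
    refine mul_le_mul_of_nonneg_left (hprod.trans ?_) hA0
    exact mul_le_mul hf1 hg1 hg2 (hf2.trans hf1)
  refine hmain.trans ?_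
  -- HH * TM
  have hHM : (HH N w k : ℝ) * TM ≤ 10 ^ 4 * ((w : ℝ) ^ N / ((m : ℝ) * c1 * c2)) := by
    have hq1 : (0 : ℝ) < (m : ℝ) * c1 * c2 := by
      have : ((0 : ℕ) : ℝ) < ((m * c1 * c2 : ℕ) : ℝ) := Nat.cast_lt.2 hq0
      push_cast at this
      exact this
    have h1 : TM * (m * c1 * c2) ≤ k * HH N w k := Nat.div_mul_le_self _ _
    have h2 : HH N w k * (TM * (m * c1 * c2)) ≤ 10 ^ 4 * w ^ N := by
      calc HH N w k * (TM * (m * c1 * c2)) ≤ HH N w k * (k * HH N w k) := Nat.mul_le_mul_left _ h1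
        _ = k * (HH N w k * HH N w k) := by ring
        _ ≤ 10 ^ 4 * w ^ N := hH1
    have h3 : (HH N w k : ℝ) * (TM * (m * c1 * c2)) ≤ 10 ^ 4 * (w : ℝ) ^ N := by exact_mod_cast h2
    rw [← mul_div_assoc, le_div_iff₀ hq1]
    linarith
  have hmr : (m : ℝ) ≠ 0 := Nat.cast_ne_zero.2 hm
  have hc1r : (c1 : ℝ) ≠ 0 := Nat.cast_ne_zero.2 hc1
  have hc2r : (c2 : ℝ) ≠ 0 := Nat.cast_ne_zero.2 hc2
  have hcc : ((m * c1 : ℕ) : ℝ) * ((m * c2 : ℕ) : ℝ) ≠ 0 := by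
    push_cast
    positivity
  have e2 : A * ((C1 * TM / lam y ^ 3) * (C2 * (((m * c1 : ℕ) : ℝ) * ((m * c2 : ℕ) : ℝ)) *
    (ta k / k * (ta k' / k')) * (sg 10 k * sg 10 k') * sg 2 (dk k k') / lam y ^ 4)) =
      16 * C1 * C2 * (HH N w k * TM) * ((1 / 4 : ℝ) ^ (om y m + om y c1 + om y c2) *
      (sg 10 m * sg 10 c1 * sg 10 c2) * (ta k / k * (ta k' / k')) * (sg 20 k * sg 20 k') * sg 12 (dk k k') /
      lam y ^ 23) := by
    have g1 : sg 20 k = sg 10 k * sg 10 k := (sg_add 10 10 k).symm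
    have g2 : sg 20 k' = sg 10 k' * sg 10 k' := (sg_add 10 10 k').symm
    have g3 : sg 12 (dk k k') = sg 10 (dk k k') * sg 2 (dk k k') := (sg_add 10 2 (dk k k')).symm
    rw [g1, g2, g3, hA]
    have hx : ((m * c1 : ℕ) : ℝ) * ((m * c2 : ℕ) : ℝ) / (((m * c1 : ℕ) : ℝ) * ((m * c2 : ℕ) : ℝ)) = 1 := div_self hcc
    have hl : lam y ^ 23 = lam y ^ 16 * lam y ^ 3 * lam y ^ 4 := by ring
    rw [hl]
    generalize (1 / 4 : ℝ) ^ (om y m + om y c1 + om y c2) = P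
    generalize ta k / (k : ℝ) * (ta k' / (k' : ℝ)) = Q
    generalize sg 10 m * sg 10 c1 * sg 10 c2 = S
    have hl0 : lam y ≠ 0 := hlam0.ne'
    generalize ((m * c1 : ℕ) : ℝ) * ((m * c2 : ℕ) : ℝ) = cc at hcc hx ⊢
    field_simp
  rw [e2]
  calc 16 * C1 * C2 * (HH N w k * TM) * ((1 / 4 : ℝ) ^ (om y m + om y c1 + om y c2) *
      (sg 10 m * sg 10 c1 * sg 10 c2) * (ta k / k * (ta k' / k')) * (sg 20 k * sg 20 k') * sg 12 (dk k k') /
      lam y ^ 23) ≤ 16 * C1 * C2 * (10 ^ 4 * ((w : ℝ) ^ N / ((m : ℝ) * c1 * c2))) *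
      ((1 / 4 : ℝ) ^ (om y m + om y c1 + om y c2) *
      (sg 10 m * sg 10 c1 * sg 10 c2) * (ta k / k * (ta k' / k')) * (sg 20 k * sg 20 k') * sg 12 (dk k k') /
      lam y ^ 23) := by
        refine mul_le_mul_of_nonneg_right ?_ hR
        exact mul_le_mul_of_nonneg_left hHM (by positivity)
    _ = _ := by ring

end PA39
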