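import Pool.Agent.LibPA39.Defs2

/-!
[PA C1k] (ONLY MATHLIB) **The key of a pair in case 1** and elementary facts on configurations.
PROOF. `conf_dvd`: `c * eq1`, `d * eq2` combine to `k (f d - a c) = b (d^2 - c^2)` and `k (c f - a d) = e (c^2 - d^2)`; `b`, `e` are coprime (factors of a squarefree number), so
`k ∣ d^2 - c^2` (`IsCoprime`: `u b + v e = 1`). All six letters are nonzero and pairwise coprime (`Nat.Coprime` from `Squarefree` of the product: `Nat.coprime_of_squarefree_mul`,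
`Squarefree.of_mul_left/right`, permute with `mul_comm`).
`a ≤ HH`: `k a^2 ≤ 10^4 w^N` gives `a^2 ≤ 10^4 w^N / k` (`Nat.le_div_iff_mul_le`), `Nat.le_sqrt'`.
KEY: `m = gcd(c, c')`, `c = m c1`, `c' = m c2`, `c1.Coprime c2`; `a b c = a b' c'` gives `b c1 = b' c2`, so `c2 ∣ b`, `b = c2 t`, then `b' = c1 t`. `Squarefree (m c1 c2 t)`: it is `b c` up to order.
`kk`: `w^N ≤ 10^4 k a^2` and `k' a^2 ≤ 10^4 w^N` (`a ≥ 1`). `ht`: `t m c1 c2 = b c ≤ k a ≤ k HH`. `hg`: with `g = gcd(d,d')`: `d e = k a - b c`, `d' e' = k' a - b c` (`b c = b' c'`), so `g ∣ (k - k') a`, `g.Coprime a`.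
-/

namespace PA39

open Finset Pasch

private theorem c1k_cop {P x y : ℕ} (h : Squarefree P) (hd : x * y ∣ P) : x.Coprime y :=
  Nat.coprime_of_squarefree_mul (h.squarefree_of_dvd hd)

/-- pairwise coprimality and positivity -/
theorem conf_pos {N w : ℕ} {q : Cf} (h : IsConf N w q) :
    q.a ≠ 0 ∧ q.b ≠ 0 ∧ q.c ≠ 0 ∧ q.d ≠ 0 ∧ q.e ≠ 0 ∧ q.f ≠ 0 := by
  have h0 := h.sqf.ne_zero
  simp only [ne_eq, mul_eq_zero, not_or] at h0
  obtain ⟨⟨⟨⟨⟨h1, h2⟩, h3⟩, h4⟩, h5⟩, h6⟩ := h0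
  exact ⟨h1, h2, h3, h4, h5, h6⟩

theorem conf_cop {N w : ℕ} {q : Cf} (h : IsConf N w q) :
    q.a.Coprime q.b ∧ q.a.Coprime q.c ∧ q.a.Coprime q.d ∧ q.b.Coprime q.c ∧ q.b.Coprime q.d ∧ q.b.Coprime q.e ∧
      q.c.Coprime q.d ∧ q.c.Coprime q.e ∧ q.d.Coprime q.e := by
  have hs := h.sqf
  refine ⟨c1k_cop hs ⟨q.c * q.d * q.e * q.f, by ring⟩, c1k_cop hs ⟨q.b * q.d * q.e * q.f, by ring⟩,
    c1k_cop hs ⟨q.b * q.c * q.e * q.f, by ring⟩, c1k_cop hs ⟨q.a * q.d * q.e * q.f, by ring⟩,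
    c1k_cop hs ⟨q.a * q.c * q.e * q.f, by ring⟩, c1k_cop hs ⟨q.a * q.c * q.d * q.f, by ring⟩,
    c1k_cop hs ⟨q.a * q.b * q.e * q.f, by ring⟩, c1k_cop hs ⟨q.a * q.b * q.d * q.f, by ring⟩,
    c1k_cop hs ⟨q.a * q.b * q.c * q.f, by ring⟩⟩

theorem conf_dvd {N w : ℕ} {q : Cf} (h : IsConf N w q) : (q.k : ℤ) ∣ (q.d : ℤ) ^ 2 - (q.c : ℤ) ^ 2 := by
  have e1 : (q.d : ℤ) * q.e + q.b * q.c = q.k * q.a := by exact_mod_cast h.eq1
  have e2 : (q.c : ℤ) * q.e + q.b * q.d = q.k * q.f := by exact_mod_cast h.eq2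
  have hbe : IsCoprime (q.b : ℤ) (q.e : ℤ) := Nat.isCoprime_iff_coprime.mpr (conf_cop h).2.2.2.2.2.1
  obtain ⟨u, v, huv⟩ := hbe
  refine ⟨u * (q.d * q.f - q.c * q.a) + v * (q.d * q.a - q.c * q.f), ?_⟩
  linear_combination (-(u * (q.c : ℤ)) + v * q.d) * e1 + (u * (q.d : ℤ) - v * q.c) * e2 -
    ((q.d : ℤ) ^ 2 - q.c ^ 2) * huv

theorem conf_kcop {N w : ℕ} {q : Cf} (h : IsConf N w q) : q.c.Coprime q.k ∧ q.d.Coprime q.k := by
  obtain ⟨_, _, _, hbc, hbd, _, hcd, _, _⟩ := conf_cop h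
  constructor
  · have hg1 : q.c.gcd q.k ∣ q.b * q.d := by
      have : q.c.gcd q.k ∣ q.c * q.e + q.b * q.d := by
        rw [h.eq2]
        exact (Nat.gcd_dvd_right _ _).mul_right _
      exact (Nat.dvd_add_right ((Nat.gcd_dvd_left _ _).mul_right _)).mp this
    have hg2 : (q.c.gcd q.k).Coprime (q.b * q.d) :=
      (Nat.Coprime.mul_right hbc.symm hcd).coprime_dvd_left (Nat.gcd_dvd_left _ _)
    exact Nat.Coprime.eq_one_of_dvd hg2 hg1
  · have hg1 : q.d.gcd q.k ∣ q.b * q.c := by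
      have : q.d.gcd q.k ∣ q.d * q.e + q.b * q.c := by
        rw [h.eq1]
        exact (Nat.gcd_dvd_right _ _).mul_right _
      exact (Nat.dvd_add_right ((Nat.gcd_dvd_left _ _).mul_right _)).mp this
    have hg2 : (q.d.gcd q.k).Coprime (q.b * q.c) :=
      (Nat.Coprime.mul_right hbd.symm hcd.symm).coprime_dvd_left (Nat.gcd_dvd_left _ _)
    exact Nat.Coprime.eq_one_of_dvd hg2 hg1

theorem conf_HH {N w : ℕ} {q : Cf} (h : IsConf N w q) (hw : 1 ≤ w) : q.a ≤ HH N w q.k := by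
  have hk : 0 < q.k := lt_of_lt_of_le hw h.klo
  unfold HH
  rw [Nat.le_sqrt', Nat.le_div_iff_mul_le hk, mul_comm]
  exact h.ahi

theorem conf_DS {N w : ℕ} {q : Cf} (h : IsConf N w q) : q.d ∈ DS q.k q.c := by
  rw [mem_DS]
  exact ⟨⟨Nat.pos_of_ne_zero (conf_pos h).2.2.2.1, h.dc⟩, (conf_cop h).2.2.2.2.2.2.1.symm, h.cd, conf_dvd h⟩

theorem conf_VK {N w : ℕ} {q : Cf} (h : IsConf N w q) (hw : 1 ≤ w) : VK w q.k q.c :=
  ⟨hw.trans h.klo, h.khi, h.k4, h.clo, h.chi⟩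

private theorem c1k_kk {N w : ℕ} {q q' : Cf} (h : IsConf N w q) (h' : IsConf N w q') (ha : q.a = q'.a) :
    q.k ≤ 10 ^ 8 * q'.k := by
  have h1 := h.ahi
  have h2 := h'.alo
  rw [← ha] at h2
  have ha0 : 0 < q.a ^ 2 := pow_pos (Nat.pos_of_ne_zero (conf_pos h).1) 2
  have h3 : q.k * q.a ^ 2 ≤ (10 ^ 8 * q'.k) * q.a ^ 2 := by
    calc q.k * q.a ^ 2 ≤ 10 ^ 4 * w ^ N := h1
      _ ≤ 10 ^ 4 * (10 ^ 4 * (q'.k * q.a ^ 2)) := Nat.mul_le_mul_left _ h2
      _ = (10 ^ 8 * q'.k) * q.a ^ 2 := by ring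
  exact Nat.le_of_mul_le_mul_right h3 ha0

theorem c1k {N w : ℕ} (hw : 2 ≤ w) {x : Cf × Cf} (h : P1 N w x) : V1 N w (key1 x) ∧ R1 x (key1 x) := by
  obtain ⟨q, q'⟩ := x
  obtain ⟨h1, h2, hn, ha, hk, nd⟩ := h
  simp only at h1 h2 hn ha hk nd
  have hw1 : 1 ≤ w := by omega
  obtain ⟨ha0, hb0, hc0, hd0, he0, hf0⟩ := conf_pos h1
  obtain ⟨ha0', hb0', hc0', hd0', he0', hf0'⟩ := conf_pos h2
  -- the letters
  obtain ⟨m, hm⟩ : ∃ m, m = q.c.gcd q'.c := ⟨_, rfl⟩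
  have hmpos : 0 < m := by rw [hm]; exact Nat.gcd_pos_of_pos_left _ (Nat.pos_of_ne_zero hc0)
  have hmc : m ∣ q.c := by rw [hm]; exact Nat.gcd_dvd_left _ _
  have hmc' : m ∣ q'.c := by rw [hm]; exact Nat.gcd_dvd_right _ _
  have hc : q.c = m * (q.c / m) := (Nat.mul_div_cancel' hmc).symm
  have hc' : q'.c = m * (q'.c / m) := (Nat.mul_div_cancel' hmc').symm
  have hcop : (q.c / m).Coprime (q'.c / m) := by
    rw [hm] at hmpos ⊢
    exact Nat.coprime_div_gcd_div_gcd hmpos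
  have hbc : q.b * q.c = q'.b * q'.c := by
    unfold n1 at hn
    rw [← ha, mul_assoc, mul_assoc] at hn
    exact Nat.eq_of_mul_eq_mul_left (Nat.pos_of_ne_zero ha0) hn
  have hbc1 : q.b * (q.c / m) = q'.b * (q'.c / m) := by
    rw [hc, hc'] at hbc
    have : m * (q.b * (q.c / m)) = m * (q'.b * (q'.c / m)) := by
      calc m * (q.b * (q.c / m)) = q.b * (m * (q.c / m)) := by ring
        _ = q'.b * (m * (q'.c / m)) := hbc
        _ = m * (q'.b * (q'.c / m)) := by ring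
    exact Nat.eq_of_mul_eq_mul_left hmpos this
  have hdvd : q'.c / m ∣ q.b := by
    have : q'.c / m ∣ q.b * (q.c / m) := by rw [hbc1]; exact Dvd.intro_left _ rfl
    exact hcop.symm.dvd_of_dvd_mul_right this
  have hb : q.b = (q'.c / m) * (q.b / (q'.c / m)) := (Nat.mul_div_cancel' hdvd).symm
  have hc2pos : 0 < q'.c / m := Nat.div_pos (Nat.le_of_dvd (Nat.pos_of_ne_zero hc0') hmc') hmpos
  have hb' : q'.b = (q.c / m) * (q.b / (q'.c / m)) := by
    have h3 : (q'.c / m) * q'.b = (q'.c / m) * ((q.c / m) * (q.b / (q'.c / m))) := by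
      calc (q'.c / m) * q'.b = q'.b * (q'.c / m) := mul_comm _ _
        _ = q.b * (q.c / m) := hbc1.symm
        _ = ((q'.c / m) * (q.b / (q'.c / m))) * (q.c / m) := by rw [← hb]
        _ = (q'.c / m) * ((q.c / m) * (q.b / (q'.c / m))) := by ring
    exact Nat.eq_of_mul_eq_mul_left hc2pos h3
  have hkey : key1 (q, q') = ⟨q.k, q'.k, m, q.c / m, q'.c / m, q.b / (q'.c / m), q.d, q'.d⟩ := by
    unfold key1
    rw [hm]
  rw [hkey]
  have hcd : q.b * q.c = m * (q.c / m) * (q'.c / m) * (q.b / (q'.c / m)) := by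
    calc q.b * q.c = ((q'.c / m) * (q.b / (q'.c / m))) * (m * (q.c / m)) := by rw [← hb, ← hc]
      _ = m * (q.c / m) * (q'.c / m) * (q.b / (q'.c / m)) := by ring
  constructor
  · refine ⟨?_, ?_, h1.klo, h2.klo, hk, c1k_kk h1 h2 ha, c1k_kk h2 h1 ha.symm, ?_, ?_, ?_, ?_, ?_, ?_⟩
    · simp only
      rw [← hc]
      exact conf_VK h1 hw1
    · simp only
      rw [← hc']
      exact conf_VK h2 hw1
    · simp only
      rw [← hcd]
      exact h1.sqf.squarefree_of_dvd ⟨q.a * q.d * q.e * q.f, by ring⟩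
    · simp only
      calc (q.b / (q'.c / m)) * (m * (q.c / m) * (q'.c / m)) = q.b * q.c := by rw [hcd]; ring
        _ ≤ q.k * q.a := by rw [← h1.eq1]; exact Nat.le_add_left _ _
        _ ≤ q.k * HH N w q.k := Nat.mul_le_mul_left _ (conf_HH h1 hw1)
    · simp only
      rw [← hc]
      exact conf_DS h1
    · simp only
      rw [← hc']
      exact conf_DS h2
    · simp only
      have hg : ((q.d.gcd q'.d : ℕ) : ℤ) ∣ ((q.k : ℤ) - q'.k) * q.a := by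
        have e1 : (q.d : ℤ) * q.e + q.b * q.c = q.k * q.a := by exact_mod_cast h1.eq1
        have e2 : (q'.d : ℤ) * q'.e + q'.b * q'.c = q'.k * q'.a := by exact_mod_cast h2.eq1
        have e3 : (q.b : ℤ) * q.c = q'.b * q'.c := by exact_mod_cast hbc
        have e4 : (q'.a : ℤ) = q.a := by exact_mod_cast ha.symm
        have e5 : ((q.k : ℤ) - q'.k) * q.a = q.d * q.e - q'.d * q'.e := by
          rw [e4] at e2
          linear_combination -e1 + e2 + e3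
        rw [e5]
        apply dvd_sub
        · exact (Int.natCast_dvd_natCast.mpr (Nat.gcd_dvd_left _ _)).mul_right _
        · exact (Int.natCast_dvd_natCast.mpr (Nat.gcd_dvd_right _ _)).mul_right _
      have hga : IsCoprime ((q.d.gcd q'.d : ℕ) : ℤ) (q.a : ℤ) := by
        apply Nat.isCoprime_iff_coprime.mpr
        exact ((conf_cop h1).2.2.1.symm).coprime_dvd_left (Nat.gcd_dvd_left _ _)
      have := hga.dvd_of_dvd_mul_right hg
      unfold dk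
      exact Int.natCast_dvd.mp this
    · simp only
      rw [← hc, ← hc']
      exact nd
  · exact ⟨rfl, rfl, hc, hc', hb, hb', rfl, rfl⟩

end PA39
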