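import Pool.Agent.LibPA39.C1k

/-!
[PA CC1] (ONLY MATHLIB + C1k) **Degenerate pairs: `c = c'`.**
PROOF. Write `d^2 - c^2 = k h`, `d'^2 - c'^2 = k' h'` (`conf_dvd`), `h ≠ 0` (`d ≠ c`: coprime and `c ≥ w^10 > 1`), `gcd(h, c) = 1` (a common prime of `h` and `c` divides `d^2`). The hypothesis `dg`: `k k' c^2 h' = k k' c'^2 h`, so `c^2 h' = c'^2 h`,
`c^2 ∣ c'^2 h`, `c^2 ∣ c'^2`, `c ∣ c'`; symmetrically `c' ∣ c`. So `c = c'`, then `b = b'` (`n1`), and `k (d'^2 - c^2) = k' (d^2 - c^2)` (divide `dg` by `c^2`). `gcd(d, d') ∣ (k - k')`: with `g = gcd(d,d')`: `g ∣ k a - b c`, `g ∣ k' a - b c`, `g.Coprime a`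
(`conf_cop`). So `gcd(d,d') ≤ w^2`.
-/

namespace PA39

open Finset Pasch

private lemma cc1_cop {c d : ℕ} {k h : ℤ} (hcd : c.Coprime d) (e : (d : ℤ) ^ 2 - (c : ℤ) ^ 2 = k * h) :
    IsCoprime (c : ℤ) h := by
  have h1 : IsCoprime (c : ℤ) (d : ℤ) := Nat.isCoprime_iff_coprime.2 hcd
  have h2 : IsCoprime (c : ℤ) ((d : ℤ) ^ 2) := h1.pow_right
  have h3 : IsCoprime (c : ℤ) ((d : ℤ) ^ 2 + (c : ℤ) * (-(c : ℤ))) := IsCoprime.add_mul_left_right h2 _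
  have h4 : (d : ℤ) ^ 2 + (c : ℤ) * (-(c : ℤ)) = k * h := by rw [← e]; ring
  rw [h4] at h3
  exact h3.of_mul_right_right

private lemma cc1_dvd {c c' : ℕ} {h h' : ℤ} (hc : IsCoprime (c : ℤ) h) (e : (c : ℤ) ^ 2 * h' = (c' : ℤ) ^ 2 * h) :
    c ∣ c' := by
  have h1 : (c : ℤ) ^ 2 ∣ (c' : ℤ) ^ 2 * h := ⟨h', e.symm⟩
  have h2 : IsCoprime ((c : ℤ) ^ 2) h := hc.pow_left
  have h3 : (c : ℤ) ^ 2 ∣ (c' : ℤ) ^ 2 := h2.dvd_of_dvd_mul_right h1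
  have h4 : c ^ 2 ∣ c' ^ 2 := by exact_mod_cast h3
  exact (Nat.pow_dvd_pow_iff (by norm_num)).1 h4

theorem cc1 {N w : ℕ} (hw : 2 ≤ w) {x : Cf × Cf} (h : PC N w x) :
    x.1.c = x.2.c ∧ x.1.b = x.2.b ∧
      (x.1.k : ℤ) * ((x.2.d : ℤ) ^ 2 - x.1.c ^ 2) = x.2.k * ((x.1.d : ℤ) ^ 2 - x.1.c ^ 2) ∧
      x.1.d.gcd x.2.d ≤ w ^ 2 := by
  obtain ⟨u, hu⟩ := conf_dvd h.h1
  obtain ⟨v, hv⟩ := conf_dvd h.h2
  obtain ⟨pa, pb, pc, pd, pe, pf⟩ := conf_pos h.h1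
  obtain ⟨pa', pb', pc', pd', pe', pf'⟩ := conf_pos h.h2
  obtain ⟨-, -, cad, -, -, -, ccd, -, -⟩ := conf_cop h.h1
  obtain ⟨-, -, -, -, -, -, ccd', -, -⟩ := conf_cop h.h2
  have hw0 : 0 < w := by omega
  have k0 : (x.1.k : ℤ) ≠ 0 := by
    have := h.h1.klo
    exact_mod_cast (show x.1.k ≠ 0 by omega)
  have k0' : (x.2.k : ℤ) ≠ 0 := by
    have := h.h2.klo
    exact_mod_cast (show x.2.k ≠ 0 by omega)
  have hdg := h.dg
  have e1 : (x.1.c : ℤ) ^ 2 * v = (x.2.c : ℤ) ^ 2 * u := by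
    rw [hu, hv] at hdg
    have : (x.1.k : ℤ) * x.2.k * ((x.1.c : ℤ) ^ 2 * v) = (x.1.k : ℤ) * x.2.k * ((x.2.c : ℤ) ^ 2 * u) := by
      linear_combination hdg
    exact mul_left_cancel₀ (mul_ne_zero k0 k0') this
  have d1 : x.1.c ∣ x.2.c := cc1_dvd (cc1_cop ccd hu) e1
  have d2 : x.2.c ∣ x.1.c := cc1_dvd (cc1_cop ccd' hv) e1.symm
  have hc : x.1.c = x.2.c := Nat.dvd_antisymm d1 d2
  have hb : x.1.b = x.2.b := by
    have hn := h.hn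
    unfold n1 at hn
    rw [← h.ha, ← hc] at hn
    have h1 := Nat.eq_of_mul_eq_mul_right (Nat.pos_of_ne_zero pc) hn
    exact Nat.eq_of_mul_eq_mul_left (Nat.pos_of_ne_zero pa) h1
  refine ⟨hc, hb, ?_, ?_⟩
  · rw [← hc] at hdg
    have c0 : (x.1.c : ℤ) ^ 2 ≠ 0 := pow_ne_zero _ (by exact_mod_cast pc)
    apply mul_left_cancel₀ c0
    linear_combination hdg
  · set g := x.1.d.gcd x.2.d with hg
    have g1 : (g : ℤ) ∣ x.1.d := by exact_mod_cast Nat.gcd_dvd_left _ _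
    have g2 : (g : ℤ) ∣ x.2.d := by exact_mod_cast Nat.gcd_dvd_right _ _
    have q1 : (x.1.d : ℤ) * x.1.e + x.1.b * x.1.c = x.1.k * x.1.a := by exact_mod_cast h.h1.eq1
    have q2 : (x.2.d : ℤ) * x.2.e + x.2.b * x.2.c = x.2.k * x.2.a := by exact_mod_cast h.h2.eq1
    have g3 : (g : ℤ) ∣ ((x.1.k : ℤ) - x.2.k) * x.1.a := by
      have : ((x.1.k : ℤ) - x.2.k) * x.1.a = (x.1.d : ℤ) * x.1.e - (x.2.d : ℤ) * x.2.e := by
        rw [← hb, ← hc, ← h.ha] at q2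
        linear_combination q2 - q1
      rw [this]
      exact dvd_sub (g1.mul_right _) (g2.mul_right _)
    have g4 : IsCoprime (g : ℤ) (x.1.a : ℤ) := by
      apply Nat.isCoprime_iff_coprime.2
      exact (cad.coprime_dvd_right (Nat.gcd_dvd_left _ _)).symm
    have g5 : (g : ℤ) ∣ (x.1.k : ℤ) - x.2.k := g4.dvd_of_dvd_mul_right g3
    have hk : (x.1.k : ℤ) - x.2.k ≠ 0 := by
      have := h.hk
      intro h0
      exact this (by omega)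
    have g6 := Int.natAbs_dvd_natAbs.2 g5
    rw [Int.natAbs_natCast] at g6
    have g7 : g ≤ ((x.1.k : ℤ) - x.2.k).natAbs := Nat.le_of_dvd (Int.natAbs_pos.2 hk) g6
    have k1 := h.h1.khi
    have k2 := h.h2.khi
    omega

end PA39
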