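import Pool.Agent.LibPA39.T4
import Pool.Agent.LibPA39.N9b
import Pool.Agent.LibPA39.N10a

/-!
[PA N10b] **The sum over `d`** (from T4 `ag`, `r = 1`, and N10a `cl`).
PROOF. If `DS k c` is empty the left side is `0`. Otherwise `c.Coprime k` (a common prime of `c`, `k` divides `d^2`, but `d.Coprime c`). By `cl` with `m = 1`, `e = c`,
split over the classes `r ∈ R` of `d` mod `k`; each with `d ≡ ρ [MOD q]` is contained in one class mod `k q` (CRT `Nat.chineseRemainder`; or empty); `ag` with `r = 1`,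
`D = N = k q`, `H = 4 c`, `F = id`, `μ = α = 1`, `β = 0` gives `C (4 c/(k q)) / lam^j * sg 10 (k q)`; `#R ≤ ta k`; `sg_mul_le`.
-/

namespace PA39

open Finset Pasch

private theorem n10b_cop {k c d : ℕ} (hd : d ∈ DS k c) : c.Coprime k := by
  rw [mem_DS] at hd
  by_contra hc
  obtain ⟨p, hp, hpc, hpk⟩ := Nat.Prime.not_coprime_iff_dvd.mp hc
  have h1 : (p : ℤ) ∣ (d : ℤ) ^ 2 - (c : ℤ) ^ 2 := (Int.natCast_dvd_natCast.mpr hpk).trans hd.2.2.2
  have h2 : (p : ℤ) ∣ (c : ℤ) ^ 2 := dvd_pow (Int.natCast_dvd_natCast.mpr hpc) (by norm_num)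
  have h3 : (p : ℤ) ∣ (d : ℤ) ^ 2 := by
    have := dvd_add h1 h2
    simpa using this
  have h4 : p ∣ d ^ 2 := by exact_mod_cast h3
  have h5 : p ∣ d := hp.dvd_of_dvd_pow h4
  have h6 : p ∣ Nat.gcd d c := Nat.dvd_gcd h5 hpc
  rw [hd.2.1] at h6
  exact hp.one_lt.ne' (Nat.dvd_one.mp h6)

theorem dsm : ∃ C : ℝ, 0 < C ∧ ∀ y k c q ρ j : ℕ, 2 ≤ y → 1 ≤ k → ¬ 4 ∣ k → 1 ≤ q → q.Coprime k →
    k * q * y ^ TT ≤ c → j ≤ 4 →
    ∑ d ∈ (DS k c).filter (fun d => d ≡ ρ [MOD q]), (1 - (j : ℝ) / 4) ^ (om y d) ≤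
      C * c * ta k / (k * q) / lam y ^ j * (sg 10 k * sg 10 q) := by
  obtain ⟨C, hC, hag⟩ := ag
  refine ⟨4 * C, by positivity, ?_⟩
  intro y k c q ρ j hy hk h4 hq hqk hc hj
  have hlam : 0 ≤ lam y := by
    unfold lam
    exact Real.rpow_nonneg (Real.log_natCast_nonneg y) _
  have hta : 0 ≤ ta k := by unfold ta; positivity
  have hsk := sg_pos 10 k
  have hsq := sg_pos 10 q
  have hg0 : (0 : ℝ) ≤ 1 - (j : ℝ) / 4 := by
    have : (j : ℝ) ≤ 4 := by exact_mod_cast hj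
    linarith
  set S := (DS k c).filter (fun d => d ≡ ρ [MOD q]) with hS
  rcases S.eq_empty_or_nonempty with he | ⟨d0, hd0⟩
  · rw [he, Finset.sum_empty]
    positivity
  have hd0' : d0 ∈ DS k c := (Finset.mem_filter.mp (hS ▸ hd0)).1
  have hck : c.Coprime k := n10b_cop hd0'
  obtain ⟨R, hR, hRm⟩ := cl k 1 c hk h4 (Nat.coprime_one_left k) hck
  set B : ℝ := C * ((4 * c : ℝ) / (k * q)) / lam y ^ j * (sg 10 k * sg 10 q) with hB
  have hB0 : 0 ≤ B := by positivity
  have hmaps : ∀ d ∈ S, d % k ∈ R := by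
    intro d hd
    have hd' := mem_DS.mp (Finset.mem_filter.mp (hS ▸ hd)).1
    apply hRm
    have := hd'.2.2.2
    simpa using this
  have hfib : ∀ r ∈ R, ∑ d ∈ S.filter (fun d => d % k = r), (1 - (j : ℝ) / 4) ^ (om y d) ≤ B := by
    intro r _
    rcases (S.filter (fun d => d % k = r)).eq_empty_or_nonempty with he | ⟨x0, hx0⟩
    · rw [he, Finset.sum_empty]
      exact hB0
    have hx0' := Finset.mem_filter.mp hx0
    have hx0S := Finset.mem_filter.mp (hS ▸ hx0'.1)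
    have hx0q : x0 ≡ ρ [MOD q] := hx0S.2
    have key := hag 1 le_rfl (by norm_num) y (4 * c) (k * q) (k * q) x0 (fun _ => 1) (fun _ => 1) (fun _ => 0)
      (fun _ => j) (fun _ x => x) (S.filter (fun d => d % k = r)) hy (Nat.mul_pos hk hq)
      (hc.trans (by omega)) (Nat.mul_pos hk hq).ne' (fun _ => hj) ?_ ?_
    · simp only [Finset.univ_unique, Finset.prod_const, Finset.card_singleton, pow_one,
        Finset.sum_const, smul_eq_mul, one_mul] at key
      refine key.trans ?_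
      rw [hB]
      have h1 : sg 10 (k * q) ≤ sg 10 k * sg 10 q :=
        sg_mul_le 10 (by omega) (by omega)
      push_cast
      have h2 : (0 : ℝ) ≤ C * (4 * (c : ℝ) / ((k : ℝ) * q)) / lam y ^ j := by positivity
      exact mul_le_mul_of_nonneg_left h1 h2
    · intro x hx
      have hx' := Finset.mem_filter.mp hx
      have hxS := Finset.mem_filter.mp (hS ▸ hx'.1)
      have hxD := mem_DS.mp hxS.1
      refine ⟨hxD.1.2, ?_, fun _ => by omega, fun _ => by simp⟩
      refine (Nat.modEq_and_modEq_iff_modEq_mul hqk.symm).mp ⟨?_, hxS.2.trans hx0q.symm⟩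
      show x % k = x0 % k
      rw [hx'.2, hx0'.2]
    · intro p hp h10 _ hN
      have hp1 : ¬ (p : ℤ) ∣ 1 := by
        intro h
        have : p ∣ 1 := by exact_mod_cast h
        exact hp.one_lt.ne' (Nat.dvd_one.mp this)
      refine ⟨hN, fun _ => hp1, fun _ => hp1, ?_⟩
      intro i i' hii
      exact absurd (Subsingleton.elim i i') hii
  calc ∑ d ∈ S, (1 - (j : ℝ) / 4) ^ (om y d)
      = ∑ r ∈ R, ∑ d ∈ S.filter (fun d => d % k = r), (1 - (j : ℝ) / 4) ^ (om y d) :=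
        (Finset.sum_fiberwise_of_maps_to hmaps _).symm
    _ ≤ ∑ r ∈ R, B := Finset.sum_le_sum hfib
    _ = R.card * B := by rw [Finset.sum_const, nsmul_eq_mul]
    _ ≤ ta k * B := mul_le_mul_of_nonneg_right hR hB0
    _ = 4 * C * c * ta k / (k * q) / lam y ^ j * (sg 10 k * sg 10 q) := by
        rw [hB]
        ring

end PA39
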