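import Pool.Agent.LibPA39.Defs2
import Pool.Agent.LibPA39.N10b

/-!
[PA D1] **The sum over `d` with a divisor `g` and a prime `l`** (from N10b `dsm` with `j = 2`, `1 - 2/4 = 1/2`).
PROOF. If the filtered set is empty the sum is `0`. Otherwise `g.Coprime k`: a prime `p ∣ g, k` divides `d`, hence `c^2`, but `d.Coprime c`.
(i) `dsm` with `q = g`, `ρ = 0` (`g ∣ d ↔ d ≡ 0 [MOD g]`): `k g y^TT ≤ w^2 w^6 w ≤ w^10 ≤ c`.
(ii) for each `r ∈ R` the `d` with `g ∣ d`, `d % l = r` lie in one class mod `g l` (CRT, `l` prime, `l ∤ g`); `dsm` with `q = g l`: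
`k g l y^TT ≤ w^2 w^6 w w ≤ c` (`l ≤ y ≤ y^TT ≤ w`); `sg 10 (g l) ≤ 2^10 sg 10 g` (`sg_mul_le`, `sg_prime`); `#R ≤ 8`.
-/

namespace PA39

open Finset Pasch

private theorem d1_cop {k c g d : ℕ} (hd : d ∈ DS k c) (hg : g ∣ d) : g.Coprime k := by
  rw [mem_DS] at hd
  obtain ⟨_, hdc, _, hk⟩ := hd
  rw [Nat.coprime_iff_gcd_eq_one]
  by_contra h
  obtain ⟨p, hp, hpd⟩ := Nat.exists_prime_and_dvd h
  have hpg : p ∣ g := hpd.trans (Nat.gcd_dvd_left _ _)
  have hpk : p ∣ k := hpd.trans (Nat.gcd_dvd_right _ _)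
  have hpdd : p ∣ d := hpg.trans hg
  have h1 : (p : ℤ) ∣ (d : ℤ) ^ 2 - (c : ℤ) ^ 2 := (Int.natCast_dvd_natCast.2 hpk).trans hk
  have h2 : (p : ℤ) ∣ (d : ℤ) ^ 2 := Dvd.dvd.pow (Int.natCast_dvd_natCast.2 hpdd) (by norm_num)
  have h3 : (p : ℤ) ∣ (c : ℤ) ^ 2 := by
    have := dvd_sub h2 h1
    simpa using this
  have h4 : p ∣ c ^ 2 := by exact_mod_cast h3
  have h5 : p ∣ c := hp.dvd_of_dvd_pow h4
  exact Nat.Prime.not_dvd_one hp ((Nat.coprime_iff_gcd_eq_one.1 hdc) ▸ Nat.dvd_gcd hpdd h5)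

private theorem d1_bi (R : Finset ℕ) (T : ℕ → Finset ℕ) (f : ℕ → ℝ) (hf : ∀ n, 0 ≤ f n) :
    ∑ d ∈ R.biUnion T, f d ≤ ∑ r ∈ R, ∑ d ∈ T r, f d := by
  classical
  induction R using Finset.induction_on with
  | empty => simp
  | insert a s ha ih =>
    rw [Finset.biUnion_insert, Finset.sum_insert ha]
    have h1 := Finset.sum_union_inter (s₁ := T a) (s₂ := s.biUnion T) (f := f)
    have h2 : 0 ≤ ∑ d ∈ T a ∩ s.biUnion T, f d := Finset.sum_nonneg (fun _ _ => hf _)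
    linarith

theorem dg : ∃ C : ℝ, 0 < C ∧ ∀ y w : ℕ, Lev y w → ∀ k c : ℕ, VK w k c → ∀ g : ℕ, 1 ≤ g → g ≤ w ^ 6 →
    (∑ d ∈ (DS k c).filter (fun d => g ∣ d), (1 / 2 : ℝ) ^ (om y d) ≤
      C * c * ta k / (k * g) / lam y ^ 2 * (sg 10 k * sg 10 g)) ∧
    ∀ l : ℕ, l.Prime → l ≤ y → ¬ l ∣ k → ¬ l ∣ g → ∀ R : Finset ℕ, R.card ≤ 8 →
      ∑ d ∈ (DS k c).filter (fun d => g ∣ d ∧ d % l ∈ R), (1 / 2 : ℝ) ^ (om y d) ≤
        C * c * ta k / (k * g * l) / lam y ^ 2 * (sg 10 k * sg 10 g) := by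
  classical
  obtain ⟨C, hC, hd⟩ := dsm
  refine ⟨8 * 2 ^ 10 * C, by positivity, fun y w hL k c hV g hg1 hgw => ?_⟩
  obtain ⟨hy3, hyT, _⟩ := hL
  have hlam : 0 < lam y := lt_of_lt_of_le one_pos (one_le_lam hy3)
  have hta : 0 ≤ ta k := by unfold ta; positivity
  have hsk : 0 < sg 10 k := sg_pos 10 k
  have hsg : 0 < sg 10 g := sg_pos 10 g
  have hk1 : 1 ≤ k := hV.k1
  have hk0 : (0 : ℝ) < k := by exact_mod_cast hk1
  have hg0 : (0 : ℝ) < g := by exact_mod_cast hg1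
  have hTT : TT ≠ 0 := by have := TT_pos; omega
  have hyw : y ≤ w := (Nat.le_self_pow hTT y).trans hyT
  have hw1 : 1 ≤ w := by omega
  have hhalf : ∀ d : ℕ, (1 / 2 : ℝ) ^ (om y d) = (1 - ((2 : ℕ) : ℝ) / 4) ^ (om y d) := by
    intro d
    congr 1
    norm_num
  constructor
  · by_cases hne : ((DS k c).filter (fun d => g ∣ d)).Nonempty
    · obtain ⟨d0, hd0⟩ := hne
      rw [Finset.mem_filter] at hd0
      have hcop := d1_cop hd0.1 hd0.2
      have hsize : k * g * y ^ TT ≤ c := by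
        calc k * g * y ^ TT ≤ w ^ 2 * w ^ 6 * w := by
              exact Nat.mul_le_mul (Nat.mul_le_mul hV.k2 hgw) hyT
          _ = w ^ 9 := by ring
          _ ≤ w ^ 10 := Nat.pow_le_pow_right hw1 (by norm_num)
          _ ≤ c := hV.c1
      have h := hd y k c g 0 2 (by omega) hk1 hV.k4 hg1 hcop hsize (by norm_num)
      have he : (DS k c).filter (fun d => g ∣ d) = (DS k c).filter (fun d => d ≡ 0 [MOD g]) := by
        apply Finset.filter_congr
        intro d _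
        exact (Nat.modEq_zero_iff_dvd).symm
      rw [he]
      simp only [hhalf]
      refine h.trans ?_
      have hX : 0 ≤ C * c * ta k / (k * g) / lam y ^ 2 * (sg 10 k * sg 10 g) := by positivity
      calc C * c * ta k / (k * g) / lam y ^ 2 * (sg 10 k * sg 10 g)
          = 1 * (C * c * ta k / (k * g) / lam y ^ 2 * (sg 10 k * sg 10 g)) := by ring
        _ ≤ (8 * 2 ^ 10) * (C * c * ta k / (k * g) / lam y ^ 2 * (sg 10 k * sg 10 g)) :=
            mul_le_mul_of_nonneg_right (by norm_num) hX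
        _ = _ := by ring
    · rw [Finset.not_nonempty_iff_eq_empty] at hne
      rw [hne, Finset.sum_empty]
      positivity
  · intro l hl hly hlk hlg R hR
    have hl0 : (0 : ℝ) < l := by exact_mod_cast hl.pos
    by_cases hne : ((DS k c).filter (fun d => g ∣ d ∧ d % l ∈ R)).Nonempty
    · obtain ⟨d0, hd0⟩ := hne
      rw [Finset.mem_filter] at hd0
      have hcop := d1_cop hd0.1 hd0.2.1
      have hcopl : (g * l).Coprime k :=
        Nat.Coprime.mul_left hcop ((Nat.Prime.coprime_iff_not_dvd hl).2 hlk)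
      have hgl : g.Coprime l := ((Nat.Prime.coprime_iff_not_dvd hl).2 hlg).symm
      have hsize : k * (g * l) * y ^ TT ≤ c := by
        calc k * (g * l) * y ^ TT ≤ w ^ 2 * (w ^ 6 * w) * w := by
              exact Nat.mul_le_mul (Nat.mul_le_mul hV.k2 (Nat.mul_le_mul hgw (hly.trans hyw))) hyT
          _ = w ^ 10 := by ring
          _ ≤ c := hV.c1
      -- the classes
      have hcrt : ∀ r : ℕ, ∃ ρ : ℕ, ∀ d : ℕ, g ∣ d → d % l = r % l → d ≡ ρ [MOD g * l] := by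
        intro r
        let z := Nat.chineseRemainder hgl 0 r
        refine ⟨z.1, fun d h1 h2 => ?_⟩
        rw [← Nat.modEq_and_modEq_iff_modEq_mul hgl]
        refine ⟨?_, ?_⟩
        · exact ((Nat.modEq_zero_iff_dvd).2 h1).trans z.2.1.symm
        · have h3 : d ≡ r [MOD l] := h2
          exact h3.trans z.2.2.symm
      choose ρ hρ using hcrt
      have hsub : (DS k c).filter (fun d => g ∣ d ∧ d % l ∈ R) ⊆
          R.biUnion (fun r => (DS k c).filter (fun d => d ≡ ρ r [MOD g * l])) := by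
        intro d hdm
        rw [Finset.mem_filter] at hdm
        rw [Finset.mem_biUnion]
        refine ⟨d % l, hdm.2.2, ?_⟩
        rw [Finset.mem_filter]
        exact ⟨hdm.1, hρ (d % l) d hdm.2.1 (by simp)⟩
      have hcl : ∀ r ∈ R, ∑ d ∈ (DS k c).filter (fun d => d ≡ ρ r [MOD g * l]), (1 / 2 : ℝ) ^ (om y d) ≤
          C * c * ta k / (k * ((g * l : ℕ) : ℝ)) / lam y ^ 2 * (sg 10 k * sg 10 (g * l)) := by
        intro r _
        simp only [hhalf]
        exact hd y k c (g * l) (ρ r) 2 (by omega) hk1 hV.k4 (Nat.mul_pos hg1 hl.pos) hcopl hsize (by norm_num)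
      have hsgl : sg 10 (g * l) ≤ sg 10 g * 2 ^ 10 := by
        refine (sg_mul_le 10 (by omega) hl.ne_zero).trans ?_
        exact mul_le_mul_of_nonneg_left (sg_prime 10 hl) hsg.le
      have hRr : (R.card : ℝ) ≤ 8 := by exact_mod_cast hR
      calc ∑ d ∈ (DS k c).filter (fun d => g ∣ d ∧ d % l ∈ R), (1 / 2 : ℝ) ^ (om y d)
          ≤ ∑ d ∈ R.biUnion (fun r => (DS k c).filter (fun d => d ≡ ρ r [MOD g * l])), (1 / 2 : ℝ) ^ (om y d) :=
            Finset.sum_le_sum_of_subset_of_nonneg hsub (fun _ _ _ => by positivity)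
        _ ≤ ∑ r ∈ R, ∑ d ∈ (DS k c).filter (fun d => d ≡ ρ r [MOD g * l]), (1 / 2 : ℝ) ^ (om y d) :=
            d1_bi _ _ _ (fun _ => by positivity)
        _ ≤ ∑ r ∈ R, C * c * ta k / (k * ((g * l : ℕ) : ℝ)) / lam y ^ 2 * (sg 10 k * sg 10 (g * l)) :=
            Finset.sum_le_sum hcl
        _ = R.card * (C * c * ta k / (k * ((g * l : ℕ) : ℝ)) / lam y ^ 2 * (sg 10 k * sg 10 (g * l))) := by
            rw [Finset.sum_const, nsmul_eq_mul]
        _ ≤ 8 * (C * c * ta k / (k * ((g * l : ℕ) : ℝ)) / lam y ^ 2 * (sg 10 k * (sg 10 g * 2 ^ 10))) := by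
            have hX : 0 ≤ C * c * ta k / (k * ((g * l : ℕ) : ℝ)) / lam y ^ 2 := by positivity
            apply mul_le_mul hRr _ _ (by norm_num)
            · exact mul_le_mul_of_nonneg_left (mul_le_mul_of_nonneg_left hsgl hsk.le) hX
            · exact mul_nonneg hX (mul_nonneg hsk.le (sg_pos 10 _).le)
        _ = _ := by
            push_cast
            ring
    · rw [Finset.not_nonempty_iff_eq_empty] at hne
      rw [hne, Finset.sum_empty]
      positivity

end PA39
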