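import Pool.Agent.LibPA39.D1

/-!
[PA D2] **The same for pairs `(d, d')`** (from D1 `dg`).
PROOF. Extend the sum over `E` to the product set (all terms are `≥ 0`). (i) the product of the two bounds of `dg` (i):
`g^2` in the denominator, `sg 10 g * sg 10 g = sg 20 g` (`sg_add`), `lam^2 * lam^2 = lam^4`.
(ii) the condition is an OR: at most the sum of [`d % l ∈ R`, `d'` free] and [`d` free, `d' % l ∈ R' d`]; in the second
sum over `d'` first (for fixed `d`, `dg` (ii) for `k', c'` with the set `R' d`).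
-/

namespace PA39

open Finset Pasch

private theorem d2_prod (A A' : Finset ℕ) (a : ℕ → ℝ) :
    ∑ x ∈ A ×ˢ A', a x.1 * a x.2 = (∑ d ∈ A, a d) * ∑ d ∈ A', a d := by
  rw [Finset.sum_product, Finset.sum_mul_sum]

theorem dp : ∃ C : ℝ, 0 < C ∧ ∀ y w : ℕ, Lev y w → ∀ k k' c c' : ℕ, VK w k c → VK w k' c' →
    ∀ E : Finset (ℕ × ℕ), (∀ x ∈ E, x.1 ∈ DS k c ∧ x.2 ∈ DS k' c') → ∀ g : ℕ, 1 ≤ g → g ≤ w ^ 6 →
    (∑ x ∈ E.filter (fun x => g ∣ x.1 ∧ g ∣ x.2), (1 / 2 : ℝ) ^ (om y x.1) * (1 / 2) ^ (om y x.2) ≤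
      C * ((c : ℝ) * c') * (ta k / k * (ta k' / k')) * (sg 10 k * sg 10 k') * (sg 20 g / (g : ℝ) ^ 2) / lam y ^ 4) ∧
    ∀ l : ℕ, l.Prime → l ≤ y → ¬ l ∣ k → ¬ l ∣ k' → ¬ l ∣ g → ∀ (R : Finset ℕ) (R' : ℕ → Finset ℕ),
      R.card ≤ 8 → (∀ d, (R' d).card ≤ 8) →
      ∑ x ∈ E.filter (fun x => (g ∣ x.1 ∧ g ∣ x.2) ∧ (x.1 % l ∈ R ∨ x.2 % l ∈ R' x.1)),
          (1 / 2 : ℝ) ^ (om y x.1) * (1 / 2) ^ (om y x.2) ≤
        C * ((c : ℝ) * c') * (ta k / k * (ta k' / k')) * (sg 10 k * sg 10 k') * (sg 20 g / (g : ℝ) ^ 2) / lam y ^ 4 / l := by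
  obtain ⟨C, hC, h⟩ := dg
  refine ⟨2 * C ^ 2, by positivity, fun y w hL k k' c c' hv hv' E hE g hg hgw => ?_⟩
  have ha0 : ∀ d : ℕ, (0 : ℝ) ≤ (1 / 2 : ℝ) ^ (om y d) := fun d => by positivity
  obtain ⟨h1, h2⟩ := h y w hL k c hv g hg hgw
  obtain ⟨h1', h2'⟩ := h y w hL k' c' hv' g hg hgw
  have hS1 : 0 ≤ ∑ d ∈ (DS k c).filter (fun d => g ∣ d), (1 / 2 : ℝ) ^ (om y d) :=
    Finset.sum_nonneg fun d _ => ha0 d
  have hS1' : 0 ≤ ∑ d ∈ (DS k' c').filter (fun d => g ∣ d), (1 / 2 : ℝ) ^ (om y d) :=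
    Finset.sum_nonneg fun d _ => ha0 d
  have hB1 := hS1.trans h1
  have hB1' := hS1'.trans h1'
  have hsg : sg 10 g * sg 10 g = sg 20 g := sg_add 10 10 g
  constructor
  · have hsub : E.filter (fun x => g ∣ x.1 ∧ g ∣ x.2) ⊆
        (DS k c).filter (fun d => g ∣ d) ×ˢ (DS k' c').filter (fun d => g ∣ d) := by
      intro x hx
      rw [Finset.mem_filter] at hx
      obtain ⟨hx1, hx2⟩ := hE x hx.1
      rw [Finset.mem_product, Finset.mem_filter, Finset.mem_filter]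
      exact ⟨⟨hx1, hx.2.1⟩, ⟨hx2, hx.2.2⟩⟩
    calc ∑ x ∈ E.filter (fun x => g ∣ x.1 ∧ g ∣ x.2), (1 / 2 : ℝ) ^ (om y x.1) * (1 / 2) ^ (om y x.2)
        ≤ ∑ x ∈ (DS k c).filter (fun d => g ∣ d) ×ˢ (DS k' c').filter (fun d => g ∣ d),
            (1 / 2 : ℝ) ^ (om y x.1) * (1 / 2) ^ (om y x.2) :=
          Finset.sum_le_sum_of_subset_of_nonneg hsub fun x _ _ => mul_nonneg (ha0 _) (ha0 _)
      _ = (∑ d ∈ (DS k c).filter (fun d => g ∣ d), (1 / 2 : ℝ) ^ (om y d)) *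
            ∑ d ∈ (DS k' c').filter (fun d => g ∣ d), (1 / 2 : ℝ) ^ (om y d) :=
          d2_prod _ _ fun d => (1 / 2 : ℝ) ^ (om y d)
      _ ≤ (C * c * ta k / (k * g) / lam y ^ 2 * (sg 10 k * sg 10 g)) *
            (C * c' * ta k' / (k' * g) / lam y ^ 2 * (sg 10 k' * sg 10 g)) :=
          mul_le_mul h1 h1' hS1' hB1
      _ = C ^ 2 * ((c : ℝ) * c') * (ta k / k * (ta k' / k')) * (sg 10 k * sg 10 k') *
            ((sg 10 g * sg 10 g) / (g : ℝ) ^ 2) / lam y ^ 4 := by ring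
      _ ≤ 2 * C ^ 2 * ((c : ℝ) * c') * (ta k / k * (ta k' / k')) * (sg 10 k * sg 10 k') *
            ((sg 10 g * sg 10 g) / (g : ℝ) ^ 2) / lam y ^ 4 := by
          have hnn : 0 ≤ C ^ 2 * ((c : ℝ) * c') * (ta k / k * (ta k' / k')) * (sg 10 k * sg 10 k') *
              ((sg 10 g * sg 10 g) / (g : ℝ) ^ 2) / lam y ^ 4 := by
            have e : C ^ 2 * ((c : ℝ) * c') * (ta k / k * (ta k' / k')) * (sg 10 k * sg 10 k') *
              ((sg 10 g * sg 10 g) / (g : ℝ) ^ 2) / lam y ^ 4 =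
              (C * c * ta k / (k * g) / lam y ^ 2 * (sg 10 k * sg 10 g)) *
              (C * c' * ta k' / (k' * g) / lam y ^ 2 * (sg 10 k' * sg 10 g)) := by ring
            rw [e]
            exact mul_nonneg hB1 hB1'
          have e2 : 2 * C ^ 2 * ((c : ℝ) * c') * (ta k / k * (ta k' / k')) * (sg 10 k * sg 10 k') *
            ((sg 10 g * sg 10 g) / (g : ℝ) ^ 2) / lam y ^ 4 =
            2 * (C ^ 2 * ((c : ℝ) * c') * (ta k / k * (ta k' / k')) * (sg 10 k * sg 10 k') *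
              ((sg 10 g * sg 10 g) / (g : ℝ) ^ 2) / lam y ^ 4) := by ring
          rw [e2]
          linarith
      _ = _ := by rw [hsg]
  · intro l hl hly hlk hlk' hlg R R' hR hR'
    have h2R := h2 l hl hly hlk hlg R hR
    have h2R' := fun d => h2' l hl hly hlk' hlg (R' d) (hR' d)
    have hS2 : 0 ≤ ∑ d ∈ (DS k c).filter (fun d => g ∣ d ∧ d % l ∈ R), (1 / 2 : ℝ) ^ (om y d) :=
      Finset.sum_nonneg fun d _ => ha0 d
    have hB2 := hS2.trans h2R
    have hB2' : 0 ≤ C * c' * ta k' / (k' * g * l) / lam y ^ 2 * (sg 10 k' * sg 10 g) :=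
      (Finset.sum_nonneg fun d _ => ha0 d).trans (h2R' 0)
    set A := (DS k c).filter (fun d => g ∣ d) with hA
    set A' := (DS k' c').filter (fun d => g ∣ d) with hA'
    have hsub : E.filter (fun x => (g ∣ x.1 ∧ g ∣ x.2) ∧ (x.1 % l ∈ R ∨ x.2 % l ∈ R' x.1)) ⊆
        (A ×ˢ A').filter (fun x => x.1 % l ∈ R ∨ x.2 % l ∈ R' x.1) := by
      intro x hx
      rw [Finset.mem_filter] at hx
      obtain ⟨hx1, hx2⟩ := hE x hx.1
      rw [Finset.mem_filter, Finset.mem_product, Finset.mem_filter, Finset.mem_filter]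
      exact ⟨⟨⟨hx1, hx.2.1.1⟩, ⟨hx2, hx.2.1.2⟩⟩, hx.2.2⟩
    have hs1 : ∑ x ∈ E.filter (fun x => (g ∣ x.1 ∧ g ∣ x.2) ∧ (x.1 % l ∈ R ∨ x.2 % l ∈ R' x.1)),
        (1 / 2 : ℝ) ^ (om y x.1) * (1 / 2) ^ (om y x.2) ≤
        ∑ x ∈ A ×ˢ A', (if x.1 % l ∈ R then (1 / 2 : ℝ) ^ (om y x.1) * (1 / 2) ^ (om y x.2) else 0) +
        ∑ x ∈ A ×ˢ A', (if x.2 % l ∈ R' x.1 then (1 / 2 : ℝ) ^ (om y x.1) * (1 / 2) ^ (om y x.2) else 0) := by
      refine (Finset.sum_le_sum_of_subset_of_nonneg hsub fun x _ _ =>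
        mul_nonneg (ha0 _) (ha0 _)).trans ?_
      rw [Finset.sum_filter, ← Finset.sum_add_distrib]
      refine Finset.sum_le_sum fun x _ => ?_
      have hn : (0 : ℝ) ≤ (1 / 2 : ℝ) ^ (om y x.1) * (1 / 2) ^ (om y x.2) := mul_nonneg (ha0 _) (ha0 _)
      by_cases c1 : x.1 % l ∈ R
      · by_cases c2 : x.2 % l ∈ R' x.1
        · simp only [c1, c2, or_self, if_true]
          linarith
        · simp only [c1, c2, or_false, if_true, if_false]
          linarith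
      · by_cases c2 : x.2 % l ∈ R' x.1
        · simp only [c1, c2, or_true, if_true, if_false]
          linarith
        · simp only [c1, c2, or_self, if_false]
          linarith
    have ht1 : ∑ x ∈ A ×ˢ A', (if x.1 % l ∈ R then (1 / 2 : ℝ) ^ (om y x.1) * (1 / 2) ^ (om y x.2) else 0) ≤
        (C * c * ta k / (k * g * l) / lam y ^ 2 * (sg 10 k * sg 10 g)) *
          (C * c' * ta k' / (k' * g) / lam y ^ 2 * (sg 10 k' * sg 10 g)) := by
      have e : ∑ x ∈ A ×ˢ A', (if x.1 % l ∈ R then (1 / 2 : ℝ) ^ (om y x.1) * (1 / 2) ^ (om y x.2) else 0) =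
          (∑ d ∈ (DS k c).filter (fun d => g ∣ d ∧ d % l ∈ R), (1 / 2 : ℝ) ^ (om y d)) *
            ∑ d ∈ A', (1 / 2 : ℝ) ^ (om y d) := by
        have e0 : (DS k c).filter (fun d => g ∣ d ∧ d % l ∈ R) = A.filter (fun d => d % l ∈ R) := by
          rw [hA, Finset.filter_filter]
        rw [Finset.sum_product, e0, Finset.sum_filter (s := A) (p := fun d => d % l ∈ R), Finset.sum_mul]
        refine Finset.sum_congr rfl fun d _ => ?_
        by_cases c1 : d % l ∈ R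
        · simp only [c1, if_true]
          rw [Finset.mul_sum]
        · simp only [c1, if_false]
          simp
      rw [e]
      exact mul_le_mul h2R h1' hS1' hB2
    have ht2 : ∑ x ∈ A ×ˢ A', (if x.2 % l ∈ R' x.1 then (1 / 2 : ℝ) ^ (om y x.1) * (1 / 2) ^ (om y x.2) else 0) ≤
        (C * c * ta k / (k * g) / lam y ^ 2 * (sg 10 k * sg 10 g)) *
          (C * c' * ta k' / (k' * g * l) / lam y ^ 2 * (sg 10 k' * sg 10 g)) := by
      have e : ∑ x ∈ A ×ˢ A', (if x.2 % l ∈ R' x.1 then (1 / 2 : ℝ) ^ (om y x.1) * (1 / 2) ^ (om y x.2) else 0) ≤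
          ∑ d ∈ A, (1 / 2 : ℝ) ^ (om y d) *
            (C * c' * ta k' / (k' * g * l) / lam y ^ 2 * (sg 10 k' * sg 10 g)) := by
        rw [Finset.sum_product]
        refine Finset.sum_le_sum fun d _ => ?_
        have e1 : ∑ d' ∈ A', (if d' % l ∈ R' d then (1 / 2 : ℝ) ^ (om y d) * (1 / 2) ^ (om y d') else 0) =
            (1 / 2 : ℝ) ^ (om y d) *
              ∑ d' ∈ (DS k' c').filter (fun d' => g ∣ d' ∧ d' % l ∈ R' d), (1 / 2 : ℝ) ^ (om y d') := by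
          have e0 : (DS k' c').filter (fun d' => g ∣ d' ∧ d' % l ∈ R' d) =
              A'.filter (fun d' => d' % l ∈ R' d) := by
            rw [hA', Finset.filter_filter]
          rw [e0, Finset.sum_filter (s := A') (p := fun d' => d' % l ∈ R' d), Finset.mul_sum]
          refine Finset.sum_congr rfl fun d' _ => ?_
          split_ifs
          · rfl
          · rw [mul_zero]
        rw [e1]
        exact mul_le_mul_of_nonneg_left (h2R' d) (ha0 d)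
      refine e.trans ?_
      rw [← Finset.sum_mul]
      exact mul_le_mul_of_nonneg_right h1 hB2'
    refine (hs1.trans (add_le_add ht1 ht2)).trans (le_of_eq ?_)
    rw [← hsg]
    ring

end PA39
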