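import Pool.Agent.LibPA39.Defs2
import Pool.Agent.LibPA39.N1
import Pool.Agent.LibPA39.N2
import Pool.Agent.LibPA39.N10b

/-!
[PA D5] **The sum over `d` for the diagonal**, weight `(1/4)^omega` (from N10b `dsm` with `j = 3`, N1 `opt`, N2 `ps`, N10a `rt`).
PROOF. `n_d := d * |d^2 - c^2|` is `≠ 0` (`d.Coprime c`, `c ≥ w^10 > 1`, so `d ≠ c`) and `≤ 4 c * 16 c^2 ≤ 64 w^60 ≤ w^70 ≤ y^(140 TT)`. `opt 10 (140 TT)`: `sgx 10 n_d (k c) ≤ C (1 + ∑ l ∈ PQ .., ph 10 l)`. Without `l`: `dsm` with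
`q = 1` (`k y^TT ≤ w^3 ≤ c`). With the prime `l ≤ (log y)^12 ≤ y`, `l ∤ k c`: `l ∣ d` or `l ∣ d^2 - c^2`: `d % l` in a set of at most 3 residues (`rt` with `α = 1`, `β = -c^2`); for each residue `dsm` with `q = l`
(`l.Coprime k`; `k l y^TT ≤ w^4`), `sg 10 l ≤ 2^10`; sum of `ph 10 l / l ≤ ph 10 l / √l` by `ps`. If `DS k c` is empty everything is `0`.
-/

namespace PA39

open Finset Pasch

private theorem d5_log12 : ∃ y1 : ℕ, ∀ y : ℕ, y1 ≤ y → (Real.log y) ^ 12 ≤ y := by
  have h := (Real.isLittleO_pow_log_id_atTop (n := 12)).bound (c := 1) one_pos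
  have h2 := tendsto_natCast_atTop_atTop (R := ℝ) |>.eventually h
  obtain ⟨y1, hy1⟩ := Filter.eventually_atTop.1 h2
  refine ⟨y1, fun y hy => ?_⟩
  have := hy1 y hy
  simp only [id, one_mul, Real.norm_eq_abs, Nat.abs_cast] at this
  exact le_trans (le_abs_self _) this

private theorem d5_sg_prime {l : ℕ} (hl : l.Prime) : sg 10 l ≤ 2 ^ 10 := by
  unfold sg
  rw [hl.primeFactors, Finset.prod_singleton]
  have h2 : (1 : ℝ) ≤ l := by exact_mod_cast hl.one_lt.le
  have h0 : (0 : ℝ) < l := by linarith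
  have h3 : 1 / (l : ℝ) ≤ 1 := by
    rw [div_le_one h0]; exact h2
  have h4 : 0 ≤ 1 / (l : ℝ) := by positivity
  exact pow_le_pow_left₀ (by linarith) (by linarith) 10

private theorem d5_sg_one : sg 10 1 = 1 := by
  unfold sg
  simp

private theorem d5_biUnion {f : ℕ → ℝ} (hf : ∀ d, 0 ≤ f d) (s : Finset ℕ) (t : ℕ → Finset ℕ) :
    ∑ d ∈ s.biUnion t, f d ≤ ∑ r ∈ s, ∑ d ∈ t r, f d := by
  classical
  induction s using Finset.induction_on with
  | empty => simp
  | insert a s ha ih =>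
    rw [Finset.biUnion_insert, Finset.sum_insert ha]
    have h1 : ∑ d ∈ t a ∪ s.biUnion t, f d + ∑ d ∈ t a ∩ s.biUnion t, f d =
        ∑ d ∈ t a, f d + ∑ d ∈ s.biUnion t, f d := Finset.sum_union_inter
    have h2 : 0 ≤ ∑ d ∈ t a ∩ s.biUnion t, f d := Finset.sum_nonneg (fun d _ => hf d)
    linarith

theorem dd0 : ∃ C : ℝ, ∃ y1 : ℕ, 0 < C ∧ ∀ y w : ℕ, y1 ≤ y → Lev y w → ∀ k c : ℕ, VK w k c →
    ∑ d ∈ DS k c, (1 / 4 : ℝ) ^ (om y d) * sgx 10 (d * ((d : ℤ) ^ 2 - c ^ 2).natAbs) (k * c) ≤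
      C * c * (ta k / k) * sg 10 k / lam y ^ 3 := by
  classical
  obtain ⟨C1, hC1, h1⟩ := opt 10 (140 * TT)
  obtain ⟨C3, hC3, h3⟩ := ps 10
  obtain ⟨C2, hC2, h2⟩ := dsm
  obtain ⟨y1, hy1⟩ := d5_log12
  refine ⟨C1 * (C2 * (1 + 3 * 2 ^ 10 * C3)), y1, by positivity, ?_⟩
  intro y w hy hL k c hv
  obtain ⟨hy3, hyw, hwy⟩ := hL
  have hlam : 1 ≤ lam y := one_le_lam hy3
  have hTT := TT_pos
  have hyT : y ≤ y ^ TT := Nat.le_self_pow (by omega) y
  have hw3 : 3 ≤ w := by omega
  have hyw1 : y ≤ w := by omega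
  have hc0 : 0 < c := lt_of_lt_of_le (by positivity) hv.c1
  have hk1 := hv.k1
  have hkR : (0 : ℝ) < k := by exact_mod_cast hk1
  have hta : 0 ≤ ta k := by unfold ta; positivity
  set M : ℝ := C2 * c * ta k / k / lam y ^ 3 * sg 10 k with hM
  have hsk := sg_pos 10 k
  have hM0 : 0 ≤ M := by
    rw [hM]; positivity
  -- the basic sum
  have key : ∀ q ρ : ℕ, 1 ≤ q → q.Coprime k → q ≤ y →
      ∑ d ∈ (DS k c).filter (fun d => d ≡ ρ [MOD q]), (1 / 4 : ℝ) ^ (om y d) ≤
        M / q * sg 10 q := by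
    intro q ρ hq hqk hqy
    have hle : k * q * y ^ TT ≤ c := by
      calc k * q * y ^ TT ≤ w ^ 2 * w * w := by
            exact Nat.mul_le_mul (Nat.mul_le_mul hv.k2 (hqy.trans hyw1)) hyw
        _ = w ^ 4 := by ring
        _ ≤ w ^ 10 := Nat.pow_le_pow_right (by omega) (by norm_num)
        _ ≤ c := hv.c1
    have := h2 y k c q ρ 3 (by omega) hv.k1 hv.k4 hq hqk hle (by norm_num)
    have e1 : (1 - ((3 : ℕ) : ℝ) / 4) = 1 / 4 := by norm_num
    rw [e1] at this
    refine this.trans (le_of_eq ?_)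
    have hq0 : (q : ℝ) ≠ 0 := by
      have : (0 : ℝ) < q := by exact_mod_cast hq
      exact this.ne'
    have hl0 : lam y ≠ 0 := by linarith
    rw [hM]
    field_simp
  -- without l
  have base : ∑ d ∈ DS k c, (1 / 4 : ℝ) ^ (om y d) ≤ M := by
    have := key 1 0 le_rfl (Nat.coprime_one_left k) (by omega)
    rw [d5_sg_one] at this
    have e : (DS k c).filter (fun d => d ≡ 0 [MOD 1]) = DS k c := by
      apply Finset.filter_true_of_mem
      intro d _
      exact Nat.modEq_one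
    rw [e] at this
    simpa using this
  -- with l
  set nn : ℕ → ℕ := fun d => d * ((d : ℤ) ^ 2 - c ^ 2).natAbs with hnn
  have withl : ∀ l : ℕ, l.Prime → l ≤ y → ¬ l ∣ k →
      ∑ d ∈ (DS k c).filter (fun d => l ∣ nn d), (1 / 4 : ℝ) ^ (om y d) ≤
        3 * 2 ^ 10 * (M / l) := by
    intro l hl hly hlk
    obtain ⟨R, hR, hR2⟩ := rt l hl 1 (-(c : ℤ) ^ 2) (by
      intro h
      have := Int.natAbs_dvd_natAbs.2 h
      simp at this
      exact hl.one_lt.ne' this)
    have hcop : l.Coprime k := (Nat.Prime.coprime_iff_not_dvd hl).2 hlk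
    have hl0 : (0 : ℝ) < l := by exact_mod_cast hl.pos
    have sub : (DS k c).filter (fun d => l ∣ nn d) ⊆
        (insert 0 R).biUnion (fun ρ => (DS k c).filter (fun d => d ≡ ρ [MOD l])) := by
      intro d hd
      rw [Finset.mem_filter] at hd
      rw [Finset.mem_biUnion]
      rcases (Nat.Prime.dvd_mul hl).1 hd.2 with h | h
      · refine ⟨0, Finset.mem_insert_self _ _, ?_⟩
        rw [Finset.mem_filter]
        exact ⟨hd.1, (Nat.modEq_zero_iff_dvd).2 h⟩
      · have h' : (l : ℤ) ∣ 1 * (d : ℤ) ^ 2 + -(c : ℤ) ^ 2 := by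
          have := Int.natCast_dvd.2 h
          rw [one_mul, ← sub_eq_add_neg]
          exact this
        have hm := hR2 d h'
        refine ⟨d % l, Finset.mem_insert_of_mem hm, ?_⟩
        rw [Finset.mem_filter]
        exact ⟨hd.1, (Nat.mod_modEq d l).symm⟩
    calc ∑ d ∈ (DS k c).filter (fun d => l ∣ nn d), (1 / 4 : ℝ) ^ (om y d)
        ≤ ∑ d ∈ (insert 0 R).biUnion (fun ρ => (DS k c).filter (fun d => d ≡ ρ [MOD l])),
            (1 / 4 : ℝ) ^ (om y d) :=
          Finset.sum_le_sum_of_subset_of_nonneg sub (fun _ _ _ => by positivity)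
      _ ≤ ∑ ρ ∈ insert 0 R, ∑ d ∈ (DS k c).filter (fun d => d ≡ ρ [MOD l]),
            (1 / 4 : ℝ) ^ (om y d) := by
          exact d5_biUnion (fun d => by positivity) _ _
      _ ≤ ∑ ρ ∈ insert 0 R, M / l * 2 ^ 10 := by
          apply Finset.sum_le_sum
          intro ρ _
          refine (key l ρ hl.one_lt.le hcop hly).trans ?_
          exact mul_le_mul_of_nonneg_left (d5_sg_prime hl) (by positivity)
      _ = ((insert 0 R).card : ℝ) * (M / l * 2 ^ 10) := by
          rw [Finset.sum_const, nsmul_eq_mul]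
      _ ≤ 3 * (M / l * 2 ^ 10) := by
          apply mul_le_mul_of_nonneg_right _ (by positivity)
          have := Finset.card_insert_le 0 R
          have h3 : (insert 0 R).card ≤ 3 := by omega
          exact_mod_cast h3
      _ = 3 * 2 ^ 10 * (M / l) := by ring
  -- pointwise
  have pw : ∀ d ∈ DS k c, (1 / 4 : ℝ) ^ (om y d) * sgx 10 (nn d) (k * c) ≤
      C1 * ((1 / 4 : ℝ) ^ (om y d) + ∑ l ∈ (Finset.range (y + 1)).filter
        (fun l => l.Prime ∧ ¬ l ∣ k), if l ∣ nn d then (1 / 4 : ℝ) ^ (om y d) * ph 10 l else 0) := by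
    intro d hd
    rw [mem_DS] at hd
    obtain ⟨⟨hd1, hd4⟩, hdc, -, -⟩ := hd
    have hc1 : 1 < c := lt_of_lt_of_le (Nat.one_lt_pow (by norm_num) (by omega)) hv.c1
    have hne : d ≠ c := by
      rintro rfl
      rw [Nat.coprime_self] at hdc
      omega
    have hn0 : nn d ≠ 0 := by
      rw [hnn]
      simp only
      apply mul_ne_zero (by omega)
      rw [Int.natAbs_ne_zero]
      intro h
      have h' : (d : ℤ) ^ 2 = (c : ℤ) ^ 2 := by linarith
      have h'' : d ^ 2 = c ^ 2 := by exact_mod_cast h'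
      exact hne (Nat.pow_left_injective (n := 2) (by norm_num) h'')
    have hnle : nn d ≤ y ^ (140 * TT) := by
      have a1 : ((d : ℤ) ^ 2 - c ^ 2).natAbs ≤ 16 * c ^ 2 := by
        have b1 : (d : ℤ) ^ 2 ≤ 16 * (c : ℤ) ^ 2 := by
          have : (d : ℤ) ≤ 4 * c := by exact_mod_cast hd4
          nlinarith [this, Int.natCast_nonneg d, Int.natCast_nonneg c]
        have b2 : 0 ≤ (d : ℤ) ^ 2 := by positivity
        have b3 : 0 ≤ (c : ℤ) ^ 2 := by positivity
        have b4 : |(d : ℤ) ^ 2 - c ^ 2| ≤ 16 * (c : ℤ) ^ 2 := by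
          rw [abs_le]; constructor <;> linarith
        have b5 : ((((d : ℤ) ^ 2 - c ^ 2).natAbs : ℕ) : ℤ) ≤ ((16 * c ^ 2 : ℕ) : ℤ) := by
          rw [Int.natCast_natAbs]
          push_cast
          exact b4
        exact_mod_cast b5
      calc nn d ≤ 4 * c * (16 * c ^ 2) := Nat.mul_le_mul hd4 a1
        _ = 64 * c ^ 3 := by ring
        _ ≤ 64 * (w ^ 20) ^ 3 := Nat.mul_le_mul_left _ (Nat.pow_le_pow_left hv.c2 3)
        _ ≤ w ^ 10 * (w ^ 20) ^ 3 := by
            apply Nat.mul_le_mul_right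
            calc 64 ≤ 3 ^ 10 := by norm_num
              _ ≤ w ^ 10 := Nat.pow_le_pow_left hw3 10
        _ = w ^ 70 := by ring
        _ ≤ (y ^ (2 * TT)) ^ 70 := Nat.pow_le_pow_left hwy 70
        _ = y ^ (140 * TT) := by rw [← pow_mul]; congr 1; ring
    have := h1 y (nn d) (k * c) hy3 hn0 hnle
    have hw0 : (0 : ℝ) ≤ (1 / 4 : ℝ) ^ (om y d) := by positivity
    calc (1 / 4 : ℝ) ^ (om y d) * sgx 10 (nn d) (k * c)
        ≤ (1 / 4 : ℝ) ^ (om y d) * (C1 * (1 + ∑ p ∈ PQ 10 y (nn d) (k * c), ph 10 p)) :=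
          mul_le_mul_of_nonneg_left this hw0
      _ = C1 * ((1 / 4 : ℝ) ^ (om y d) +
            ∑ p ∈ PQ 10 y (nn d) (k * c), (1 / 4 : ℝ) ^ (om y d) * ph 10 p) := by
          rw [← Finset.mul_sum]; ring
      _ ≤ _ := by
          apply mul_le_mul_of_nonneg_left _ hC1.le
          apply add_le_add le_rfl
          rw [← Finset.sum_filter]
          apply Finset.sum_le_sum_of_subset_of_nonneg
          · intro p hp
            rw [mem_PQ] at hp
            obtain ⟨hp1, hp2, hp3⟩ := hp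
            have hpp := Nat.prime_of_mem_primeFactors hp1
            have hpd := Nat.dvd_of_mem_primeFactors hp1
            rw [Finset.mem_filter, Finset.mem_filter, Finset.mem_range]
            refine ⟨⟨?_, hpp, fun h => hp2 (h.mul_right c)⟩, hpd⟩
            have : (p : ℝ) ≤ y := hp3.trans (hy1 y hy)
            have : p ≤ y := by exact_mod_cast this
            omega
          · intro l _ _
            apply mul_nonneg hw0
            unfold ph
            exact div_nonneg (pow_nonneg (Real.log_natCast_nonneg l) 10) (by positivity)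
  set P := (Finset.range (y + 1)).filter (fun l => l.Prime ∧ ¬ l ∣ k) with hP
  calc ∑ d ∈ DS k c, (1 / 4 : ℝ) ^ (om y d) * sgx 10 (nn d) (k * c)
      ≤ ∑ d ∈ DS k c, C1 * ((1 / 4 : ℝ) ^ (om y d) + ∑ l ∈ P,
          if l ∣ nn d then (1 / 4 : ℝ) ^ (om y d) * ph 10 l else 0) := Finset.sum_le_sum pw
    _ = C1 * (∑ d ∈ DS k c, (1 / 4 : ℝ) ^ (om y d) + ∑ l ∈ P, ∑ d ∈ DS k c,
          if l ∣ nn d then (1 / 4 : ℝ) ^ (om y d) * ph 10 l else 0) := by
        rw [← Finset.mul_sum, Finset.sum_add_distrib, Finset.sum_comm (s := P)]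
    _ ≤ C1 * (M + ∑ l ∈ P, 3 * 2 ^ 10 * M * (ph 10 l / Real.sqrt l)) := by
        apply mul_le_mul_of_nonneg_left _ hC1.le
        apply add_le_add base
        apply Finset.sum_le_sum
        intro l hl
        rw [hP, Finset.mem_filter, Finset.mem_range] at hl
        obtain ⟨hl1, hl2, hl3⟩ := hl
        have hph : 0 ≤ ph 10 l := by
          unfold ph
          exact div_nonneg (pow_nonneg (Real.log_natCast_nonneg l) 10) (by positivity)
        have hl1' : (1 : ℝ) ≤ l := by exact_mod_cast hl2.one_lt.le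
        rw [← Finset.sum_filter, ← Finset.sum_mul]
        calc (∑ d ∈ (DS k c).filter (fun d => l ∣ nn d), (1 / 4 : ℝ) ^ (om y d)) * ph 10 l
            ≤ 3 * 2 ^ 10 * (M / l) * ph 10 l :=
              mul_le_mul_of_nonneg_right (withl l hl2 (by omega) hl3) hph
          _ = 3 * 2 ^ 10 * M * (ph 10 l / l) := by ring
          _ ≤ 3 * 2 ^ 10 * M * (ph 10 l / Real.sqrt l) := by
              apply mul_le_mul_of_nonneg_left _ (by positivity)
              apply div_le_div_of_nonneg_left hph (Real.sqrt_pos.2 (by linarith))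
              rw [Real.sqrt_le_left (by linarith)]
              nlinarith
    _ = C1 * (M + 3 * 2 ^ 10 * M * ∑ l ∈ P, (ph 10 l / Real.sqrt l)) := by
        rw [← Finset.mul_sum]
    _ ≤ C1 * (M + 3 * 2 ^ 10 * M * C3) := by
        apply mul_le_mul_of_nonneg_left _ hC1.le
        apply add_le_add le_rfl
        exact mul_le_mul_of_nonneg_left (h3 P) (by positivity)
    _ = C1 * (C2 * (1 + 3 * 2 ^ 10 * C3)) * c * (ta k / k) * sg 10 k / lam y ^ 3 := by
        rw [hM]
        have hl0 : lam y ≠ 0 := by linarith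
        field_simp

end PA39
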