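import Pool.Agent.LibPA39.Defs

/-!
# Definitions for the cases of the second moment

Pairs `x = (q, q')` of configurations with `n1 q = n1 q'` and `a = a'` (the pairs with `a ≠ a'` are removed by a
Cauchy-Schwarz inequality over the boundedly many `a`, row SA).
* `P1`: `k ≠ k'`, not degenerate. Then `c = m c1`, `c' = m c2`, `b = c2 t`, `b' = c1 t`. Key `Ky`.
* diagonal `q = q'`. Key `Kd`.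
* `PB`: `a = a'`, `k = k'`, `q ≠ q'`. Key `K7`.
* `PC`: `a = a'`, `k ≠ k'`, degenerate.
-/

namespace PA39

open Finset Pasch

/-- ranges of `k` and `c` -/
structure VK (w k c : ℕ) : Prop where
  k1 : 1 ≤ k
  k2 : k ≤ w ^ 2
  k4 : ¬ 4 ∣ k
  c1 : w ^ 10 ≤ c
  c2 : c ≤ w ^ 20

/-- `|k - k'|` -/
def dk (k k' : ℕ) : ℕ := ((k : ℤ) - k').natAbs

/-! ## Case 1 -/

structure Ky where
  k : ℕ
  k' : ℕ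
  m : ℕ
  c1 : ℕ
  c2 : ℕ
  t : ℕ
  d : ℕ
  d' : ℕ
deriving DecidableEq

/-- the product of everything that depends on `d, d'` in case 1 -/
def Th1 (k k' c c' d d' : ℕ) : ℕ :=
  ((d : ℤ) * d' * ((d : ℤ) ^ 2 - c ^ 2) * ((d' : ℤ) ^ 2 - c' ^ 2) *
    ((k : ℤ) * d' ^ 2 + ((k' : ℤ) - k) * c' ^ 2) * ((k' : ℤ) * d ^ 2 + ((k : ℤ) - k') * c ^ 2) *
    ((k : ℤ) * c ^ 2 * ((d' : ℤ) ^ 2 - c' ^ 2) - k' * c' ^ 2 * ((d : ℤ) ^ 2 - c ^ 2))).natAbs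

def K01 (k k' m c1 c2 : ℕ) : ℕ := m * c1 * c2 * k * k' * dk k k'

structure P1 (N w : ℕ) (x : Cf × Cf) : Prop where
  h1 : IsConf N w x.1
  h2 : IsConf N w x.2
  hn : n1 x.1 = n1 x.2
  ha : x.1.a = x.2.a
  hk : x.1.k ≠ x.2.k
  nd : (x.1.k : ℤ) * x.1.c ^ 2 * ((x.2.d : ℤ) ^ 2 - x.2.c ^ 2) ≠
    x.2.k * x.2.c ^ 2 * ((x.1.d : ℤ) ^ 2 - x.1.c ^ 2)

structure V1 (N w : ℕ) (z : Ky) : Prop where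
  vk : VK w z.k (z.m * z.c1)
  vk' : VK w z.k' (z.m * z.c2)
  wk : w ≤ z.k
  wk' : w ≤ z.k'
  ne : z.k ≠ z.k'
  kk : z.k ≤ 10 ^ 8 * z.k'
  kk' : z.k' ≤ 10 ^ 8 * z.k
  sq : Squarefree (z.m * z.c1 * z.c2 * z.t)
  ht : z.t * (z.m * z.c1 * z.c2) ≤ z.k * HH N w z.k
  hd : z.d ∈ DS z.k (z.m * z.c1)
  hd' : z.d' ∈ DS z.k' (z.m * z.c2)
  hg : z.d.gcd z.d' ∣ dk z.k z.k'
  nd : (z.k : ℤ) * ((z.m * z.c1 : ℕ) : ℤ) ^ 2 * ((z.d' : ℤ) ^ 2 - ((z.m * z.c2 : ℕ) : ℤ) ^ 2) ≠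
    z.k' * ((z.m * z.c2 : ℕ) : ℤ) ^ 2 * ((z.d : ℤ) ^ 2 - ((z.m * z.c1 : ℕ) : ℤ) ^ 2)

structure R1 (x : Cf × Cf) (z : Ky) : Prop where
  rk : x.1.k = z.k
  rk' : x.2.k = z.k'
  rc : x.1.c = z.m * z.c1
  rc' : x.2.c = z.m * z.c2
  rb : x.1.b = z.c2 * z.t
  rb' : x.2.b = z.c1 * z.t
  rd : x.1.d = z.d
  rd' : x.2.d = z.d'

/-- the key of a pair in case 1 -/
def key1 (x : Cf × Cf) : Ky :=
  ⟨x.1.k, x.2.k, x.1.c.gcd x.2.c, x.1.c / x.1.c.gcd x.2.c, x.2.c / x.1.c.gcd x.2.c,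
    x.1.b / (x.2.c / x.1.c.gcd x.2.c), x.1.d, x.2.d⟩

/-- the sieve bound for the sum over `a` in case 1 -/
noncomputable def B1 (N w y : ℕ) (z : Ky) : ℝ :=
  (HH N w z.k : ℝ) * (16 * (z.d.gcd z.d' : ℝ) / (((z.m * z.c1 : ℕ) : ℝ) * ((z.m * z.c2 : ℕ) : ℝ))) *
  ((1 / 4) ^ (om y z.m + om y z.c1 + om y z.c2 + om y z.t) * ((1 / 2) ^ (om y z.d) * (1 / 2) ^ (om y z.d'))) *
  (sg 10 z.m * sg 10 z.c1 * sg 10 z.c2 * sg 10 z.t * (sg 10 z.k * sg 10 z.k' * sg 10 (dk z.k z.k'))) *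
  sgx 10 (Th1 z.k z.k' (z.m * z.c1) (z.m * z.c2) z.d z.d') (K01 z.k z.k' z.m z.c1 z.c2) / lam y ^ 16

/-! ## The diagonal -/

structure Kd where
  k : ℕ
  c : ℕ
  b : ℕ
  d : ℕ
deriving DecidableEq

structure V0 (N w : ℕ) (z : Kd) : Prop where
  vk : VK w z.k z.c
  wk : w ≤ z.k
  sq : Squarefree (z.b * z.c)
  hb : z.b * z.c ≤ z.k * HH N w z.k
  hd : z.d ∈ DS z.k z.c

structure R0 (q : Cf) (z : Kd) : Prop where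
  rk : q.k = z.k
  rc : q.c = z.c
  rb : q.b = z.b
  rd : q.d = z.d

noncomputable def B0 (N w y : ℕ) (z : Kd) : ℝ :=
  (HH N w z.k : ℝ) / z.d * (1 / 4) ^ (om y z.b + om y z.c + om y z.d) *
  (sg 10 z.b * sg 10 z.c * sg 10 z.k) * sgx 10 (z.d * ((z.d : ℤ) ^ 2 - z.c ^ 2).natAbs) (z.k * z.c) / lam y ^ 11

/-! ## Case B: `k = k'`, `a = a'`, `q ≠ q'` -/

structure PB (N w : ℕ) (x : Cf × Cf) : Prop where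
  h1 : IsConf N w x.1
  h2 : IsConf N w x.2
  hn : n1 x.1 = n1 x.2
  ha : x.1.a = x.2.a
  hk : x.1.k = x.2.k
  ne : x.1 ≠ x.2

structure K7 where
  k : ℕ
  m : ℕ
  c1 : ℕ
  c2 : ℕ
  g : ℕ
  e1 : ℕ
  e2 : ℕ
deriving DecidableEq

structure V7 (w : ℕ) (z : K7) : Prop where
  k1 : w ≤ z.k
  k2 : z.k ≤ w ^ 2
  k4 : ¬ 4 ∣ z.k
  a1 : w ^ 10 ≤ z.m * z.c1 ∧ z.m * z.c1 ≤ w ^ 20
  a2 : w ^ 10 ≤ z.m * z.c2 ∧ z.m * z.c2 ≤ w ^ 20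
  a3 : w ^ 10 ≤ z.g * z.e1 ∧ z.g * z.e1 ≤ w ^ 20
  a4 : w ^ 10 ≤ z.g * z.e2 ∧ z.g * z.e2 ≤ w ^ 20
  cc : z.c1.Coprime z.c2
  ee : z.e1.Coprime z.e2
  ce : (z.m * z.c1).Coprime (z.g * z.e1)
  ce' : (z.m * z.c2).Coprime (z.g * z.e2)
  kc : (z.m * z.c1).Coprime z.k
  kc' : (z.m * z.c2).Coprime z.k
  ke : (z.g * z.e1).Coprime z.k
  ke' : (z.g * z.e2).Coprime z.k
  q1 : (z.k : ℤ) ∣ ((z.g : ℤ) * z.e1) ^ 2 - ((z.m : ℤ) * z.c1) ^ 2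
  q2 : (z.k : ℤ) ∣ ((z.g : ℤ) * z.e2) ^ 2 - ((z.m : ℤ) * z.c2) ^ 2
  ne : ¬ (z.c1 = 1 ∧ z.c2 = 1 ∧ z.e1 = 1 ∧ z.e2 = 1)

def key7 (x : Cf × Cf) : K7 :=
  ⟨x.1.k, x.1.c.gcd x.2.c, x.1.c / x.1.c.gcd x.2.c, x.2.c / x.1.c.gcd x.2.c,
    x.1.d.gcd x.2.d, x.1.d / x.1.d.gcd x.2.d, x.2.d / x.1.d.gcd x.2.d⟩

/-- product of the six small variables -/
def pr7 (z : K7) : ℕ := z.m * z.c1 * z.c2 * (z.g * z.e1 * z.e2)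

/-! ## Case C: degenerate pairs -/

structure PC (N w : ℕ) (x : Cf × Cf) : Prop where
  h1 : IsConf N w x.1
  h2 : IsConf N w x.2
  hn : n1 x.1 = n1 x.2
  ha : x.1.a = x.2.a
  hk : x.1.k ≠ x.2.k
  dg : (x.1.k : ℤ) * x.1.c ^ 2 * ((x.2.d : ℤ) ^ 2 - x.2.c ^ 2) =
    x.2.k * x.2.c ^ 2 * ((x.1.d : ℤ) ^ 2 - x.1.c ^ 2)

end PA39
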