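import Pool.Agent.LibPA39.C1k
import Pool.Agent.LibPA39.N9a
import Pool.Agent.LibPA39.N9b
import Pool.Agent.LibPA39.T4

/-!
[PA E0a] **The diagonal, sum over `a` for a fixed key `(k, c, b, d)`** (from T4 `ag` with `r = 3`, `j = ![4,3,4]`, sum 11).
PROOF. `q ∈ S` is determined by `a` (`e = (k a - b c)/d`, `f = (c e + b d)/k`); `s` = the set of the `a`, `s ⊆ [1, HH N w k]` (`conf_HH`), all congruent mod `D := d` (`d ∣ k a - b c`, `d.Coprime k`: `conf_kcop`).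
Forms: `F 0 a = a`, `F 1 a = (k a - b c)/d`, `F 2 a = (c F 1 a + b d)/k`; multipliers `![1, d, k d]`, `α = ![1, k, k c]`, `β = ![0, -b c, b (d^2 - c^2)]` (`k d f = k c a + b (d^2 - c^2)`). Resultants: (0,1) `-b c`; (0,2) `b (d^2-c^2)`;
(1,2) `k b (d^2 - c^2) + k c b c = k b d^2`. `N := b * ((k c) * (d * |d^2 - c^2|)) ≠ 0` (`d ≠ c` as `d.Coprime c`, `c ≥ w^10 > 1`). `d y^TT ≤ 4 w^20 w ≤ HH` (`HH N w k ≥ w^400`).
WEIGHTS: `wt w q ^ 2 ≤ (1/4)^(om b + om c + om d) (1/4)^(om e)` (`wt_le`, squares), `a, f` rough (weight `0^0 = 1`), `1 - 3/4 = 1/4`.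
`sg 10 N ≤ sg 10 b * (sg 10 (k c) * sgx 10 (d |d^2-c^2|) (k c))`, `sg 10 (k c) ≤ sg 10 k * sg 10 c`.
-/

namespace PA39

open Finset Pasch

private theorem e0a_B0_nonneg (N w y : ℕ) (z : Kd) : 0 ≤ B0 N w y z := by
  unfold B0
  have h1 := (sg_pos 10 z.b).le
  have h2 := (sg_pos 10 z.c).le
  have h3 := (sg_pos 10 z.k).le
  have h4 := (sgx_pos 10 (z.d * ((z.d : ℤ) ^ 2 - z.c ^ 2).natAbs) (z.k * z.c)).le
  have h5 : 0 ≤ lam y := Real.rpow_nonneg (Real.log_natCast_nonneg y) _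
  positivity

private theorem e0a_yw {y w : ℕ} (h : Lev y w) : 2 ≤ w ∧ y ≤ w ^ 100 := by
  obtain ⟨hy, h1, _⟩ := h
  have hT := TT_pos
  have h2 : y ≤ y ^ TT := Nat.le_self_pow (by omega) y
  have h3 : 3 ≤ w := by omega
  refine ⟨by omega, ?_⟩
  calc y ≤ w := by omega
    _ ≤ w ^ 100 := Nat.le_self_pow (by norm_num) w

private theorem e0a_HH {N w k : ℕ} (hN : 1000 ≤ N) (hw : 2 ≤ w) (hk1 : 1 ≤ k) (hk : k ≤ w ^ 2) :
    4 * w ^ 21 ≤ HH N w k := by
  unfold HH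
  rw [Nat.le_sqrt', Nat.le_div_iff_mul_le (by omega)]
  calc (4 * w ^ 21) ^ 2 * k ≤ (4 * w ^ 21) ^ 2 * w ^ 2 := Nat.mul_le_mul_left _ hk
    _ = 16 * w ^ 44 := by ring
    _ ≤ 10 ^ 4 * w ^ N := Nat.mul_le_mul (by norm_num) (Nat.pow_le_pow_right (by omega) (by omega))

private theorem e0a_wt {N w y : ℕ} {q : Cf} (h : IsConf N w q) (hy : y ≤ w ^ 100) :
    wt w q ^ 2 ≤ (1 / 4) ^ (om y q.b + om y q.c + om y q.d) * (1 / 4) ^ (om y q.e) := by
  have h1 := wt_le h hy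
  have h2 := wt_nonneg w q
  calc wt w q ^ 2 ≤ ((1 / 2) ^ (om y q.b + om y q.c + om y q.d + om y q.e)) ^ 2 :=
        pow_le_pow_left₀ h2 h1 2
    _ = ((1 / 2 : ℝ) ^ 2) ^ (om y q.b + om y q.c + om y q.d + om y q.e) := by
        rw [← pow_mul, ← pow_mul, mul_comm]
    _ = (1 / 4) ^ (om y q.b + om y q.c + om y q.d) * (1 / 4) ^ (om y q.e) := by
        rw [← pow_add]; norm_num

/-- the three forms -/
private def e0aF (k b c d : ℕ) : Fin 3 → ℕ → ℕ :=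
  ![fun a => a, fun a => (k * a - b * c) / d, fun a => (c * ((k * a - b * c) / d) + b * d) / k]

private theorem e0a_F {N w : ℕ} {q : Cf} {z : Kd} (h : IsConf N w q) (hr : R0 q z) (hk : 1 ≤ z.k) :
    e0aF z.k z.b z.c z.d 0 q.a = q.a ∧ e0aF z.k z.b z.c z.d 1 q.a = q.e ∧
      e0aF z.k z.b z.c z.d 2 q.a = q.f := by
  obtain ⟨_, _, _, hd, _, _⟩ := conf_pos h
  have e1 := h.eq1
  have e2 := h.eq2
  rw [hr.rd, hr.rb, hr.rc, hr.rk] at e1
  rw [hr.rd, hr.rb, hr.rc, hr.rk] at e2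
  have hd' : 0 < z.d := by rw [← hr.rd]; omega
  have h1 : (z.k * q.a - z.b * z.c) / z.d = q.e := by
    rw [← e1, Nat.add_sub_cancel, Nat.mul_div_cancel_left _ hd']
  refine ⟨rfl, h1, ?_⟩
  show (z.c * ((z.k * q.a - z.b * z.c) / z.d) + z.b * z.d) / z.k = q.f
  rw [h1, e2, Nat.mul_div_cancel_left _ (by omega)]

theorem e0a (N : ℕ) (hN : 1000 ≤ N) : ∃ C : ℝ, 0 < C ∧ ∀ y w : ℕ, Lev y w → ∀ z : Kd, V0 N w z →
    ∀ S : Finset Cf, (∀ q ∈ S, IsConf N w q ∧ R0 q z) → ∑ q ∈ S, wt w q ^ 2 ≤ C * B0 N w y z := by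
  classical
  obtain ⟨C, hC, hag⟩ := ag
  refine ⟨C, hC, ?_⟩
  intro y w hL z hV S hS
  obtain ⟨hw2, hyw⟩ := e0a_yw hL
  have hy2 : 2 ≤ y := by have := hL.1; omega
  have hk1 : 1 ≤ z.k := hV.vk.k1
  rcases S.eq_empty_or_nonempty with rfl | ⟨q0, hq0⟩
  · rw [Finset.sum_empty]
    exact mul_nonneg hC.le (e0a_B0_nonneg N w y z)
  obtain ⟨h0, r0⟩ := hS q0 hq0
  obtain ⟨ha0, hb0, hc0, hd0, he0, hf0⟩ := conf_pos h0
  rw [r0.rb] at hb0
  rw [r0.rc] at hc0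
  rw [r0.rd] at hd0
  have hcop : z.d.Coprime z.k := by
    have := (conf_kcop h0).2
    rwa [r0.rd, r0.rk] at this
  have hDS := (mem_DS).1 hV.hd
  obtain ⟨⟨hd1, hd4⟩, hdc, _, _⟩ := hDS
  have hc1 : 1 < z.c := by
    calc 1 < 2 ^ 10 := by norm_num
      _ ≤ w ^ 10 := Nat.pow_le_pow_left hw2 10
      _ ≤ z.c := hV.vk.c1
  have hne : (z.d : ℤ) ^ 2 - z.c ^ 2 ≠ 0 := by
    intro h
    have h1 : (z.d : ℤ) ^ 2 = (z.c : ℤ) ^ 2 := by linarith
    have h2 : z.d ^ 2 = z.c ^ 2 := by exact_mod_cast h1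
    have h3 : z.d = z.c := Nat.pow_left_injective (n := 2) (by norm_num) h2
    rw [h3, Nat.coprime_self] at hdc
    omega
  set R : ℕ := ((z.d : ℤ) ^ 2 - z.c ^ 2).natAbs with hR
  have hR0 : R ≠ 0 := by rw [hR]; exact Int.natAbs_ne_zero.2 hne
  set N' : ℕ := z.b * ((z.k * z.c) * (z.d * R)) with hN'
  have hN'0 : N' ≠ 0 := by
    rw [hN']
    have : z.k ≠ 0 := by omega
    positivity
  have hH : z.d * y ^ TT ≤ HH N w z.k := by
    have h1 : y ^ TT ≤ w := hL.2.1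
    calc z.d * y ^ TT ≤ (4 * w ^ 20) * w :=
          Nat.mul_le_mul (hd4.trans (Nat.mul_le_mul_left 4 hV.vk.c2)) h1
      _ = 4 * w ^ 21 := by ring
      _ ≤ _ := e0a_HH hN hw2 hk1 hV.vk.k2
  -- the sieve
  have key := hag 3 (by norm_num) (by norm_num) y (HH N w z.k) z.d N' q0.a
    ![1, (z.d : ℤ), (z.k : ℤ) * z.d] ![1, (z.k : ℤ), (z.k : ℤ) * z.c]
    ![0, -((z.b : ℤ) * z.c), (z.b : ℤ) * ((z.d : ℤ) ^ 2 - z.c ^ 2)] ![4, 3, 4]
    (e0aF z.k z.b z.c z.d) (S.image (fun q => q.a)) hy2 hd1 hH hN'0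
    (by intro i; fin_cases i <;> simp)
    (by
      intro x hx
      obtain ⟨q, hq, rfl⟩ := Finset.mem_image.1 hx
      obtain ⟨h, r⟩ := hS q hq
      obtain ⟨g0, g1, g2⟩ := e0a_F h r hk1
      obtain ⟨pa, pb, pc, pd, pe, pf⟩ := conf_pos h
      have e1 := h.eq1
      have e2 := h.eq2
      rw [r.rd, r.rb, r.rc, r.rk] at e1
      rw [r.rd, r.rb, r.rc, r.rk] at e2
      have e1' := h0.eq1
      rw [r0.rd, r0.rb, r0.rc, r0.rk] at e1'
      have i1 : (z.d : ℤ) * q.e + z.b * z.c = z.k * q.a := by exact_mod_cast e1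
      have i2 : (z.c : ℤ) * q.e + z.b * z.d = z.k * q.f := by exact_mod_cast e2
      refine ⟨?_, ?_, ?_, ?_⟩
      · have := conf_HH h (by omega)
        rwa [r.rk] at this
      · have m1 : z.k * q.a ≡ z.k * q0.a [MOD z.d] := by
          rw [← e1, ← e1']
          exact ((Nat.modEq_zero_iff_dvd.2 (Dvd.intro _ rfl)).trans
            (Nat.modEq_zero_iff_dvd.2 (Dvd.intro _ rfl)).symm).add_right _
        exact Nat.ModEq.cancel_left_of_coprime hcop m1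
      · intro i
        fin_cases i
        · show e0aF z.k z.b z.c z.d 0 q.a ≠ 0
          rw [g0]; exact pa
        · show e0aF z.k z.b z.c z.d 1 q.a ≠ 0
          rw [g1]; exact pe
        · show e0aF z.k z.b z.c z.d 2 q.a ≠ 0
          rw [g2]; exact pf
      · intro i
        fin_cases i
        · show (1 : ℤ) * ((e0aF z.k z.b z.c z.d 0 q.a : ℕ) : ℤ) = 1 * (q.a : ℤ) + 0
          rw [g0]; ring
        · show (z.d : ℤ) * ((e0aF z.k z.b z.c z.d 1 q.a : ℕ) : ℤ) =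
            (z.k : ℤ) * (q.a : ℤ) + -((z.b : ℤ) * z.c)
          rw [g1]; linarith
        · show (z.k : ℤ) * z.d * ((e0aF z.k z.b z.c z.d 2 q.a : ℕ) : ℤ) =
            (z.k : ℤ) * z.c * (q.a : ℤ) + (z.b : ℤ) * ((z.d : ℤ) ^ 2 - z.c ^ 2)
          rw [g2]
          linear_combination (-(z.d : ℤ)) * i2 + (z.c : ℤ) * i1)
    (by
      intro p hp h10 _ hpN
      have hpp : Prime (p : ℤ) := Nat.prime_iff_prime_int.1 hp
      have nb : ¬ (p : ℤ) ∣ (z.b : ℤ) := by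
        intro h; apply hpN; rw [hN']
        exact Dvd.dvd.mul_right (by exact_mod_cast h) _
      have nk : ¬ (p : ℤ) ∣ (z.k : ℤ) := by
        intro h; apply hpN; rw [hN']
        exact Dvd.dvd.mul_left (Dvd.dvd.mul_right (Dvd.dvd.mul_right (by exact_mod_cast h) _) _) _
      have nc : ¬ (p : ℤ) ∣ (z.c : ℤ) := by
        intro h; apply hpN; rw [hN']
        exact Dvd.dvd.mul_left (Dvd.dvd.mul_right (Dvd.dvd.mul_left (by exact_mod_cast h) _) _) _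
      have nd : ¬ (p : ℤ) ∣ (z.d : ℤ) := by
        intro h; apply hpN; rw [hN']
        exact Dvd.dvd.mul_left (Dvd.dvd.mul_left (Dvd.dvd.mul_right (by exact_mod_cast h) _) _) _
      have nR : ¬ (p : ℤ) ∣ (z.d : ℤ) ^ 2 - z.c ^ 2 := by
        intro h; apply hpN; rw [hN']
        refine Dvd.dvd.mul_left (Dvd.dvd.mul_left (Dvd.dvd.mul_left ?_ _) _) _
        rw [hR]
        exact Int.natCast_dvd.1 h
      have n1 : ¬ (p : ℤ) ∣ 1 := hpp.not_dvd_one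
      have nm : ∀ {u v : ℤ}, ¬ (p : ℤ) ∣ u → ¬ (p : ℤ) ∣ v → ¬ (p : ℤ) ∣ u * v := by
        intro u v hu hv h
        rcases hpp.dvd_or_dvd h with h | h
        · exact hu h
        · exact hv h
      have r01 : ¬ (p : ℤ) ∣ (z.b : ℤ) * z.c := nm nb nc
      have r02 : ¬ (p : ℤ) ∣ (z.b : ℤ) * ((z.d : ℤ) ^ 2 - z.c ^ 2) := nm nb nR
      have r12 : ¬ (p : ℤ) ∣ (z.k : ℤ) * (z.b * (z.d * z.d)) := nm nk (nm nb (nm nd nd))
      have ng : ∀ {u v : ℤ}, ¬ (p : ℤ) ∣ v → (u = v ∨ u = -v) → ¬ (p : ℤ) ∣ u := by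
        intro u v hv h
        rcases h with rfl | rfl
        · exact hv
        · rwa [dvd_neg]
      refine ⟨fun h => nd (by exact_mod_cast h), ?_, ?_, ?_⟩
      · intro i
        fin_cases i
        · exact n1
        · exact nd
        · exact nm nk nd
      · intro i
        fin_cases i
        · exact n1
        · exact nk
        · exact nm nk nc
      · intro i i' hii
        fin_cases i <;> fin_cases i'
        · exact absurd rfl hii
        · refine ng r01 (Or.inr ?_)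
          show (1 : ℤ) * -((z.b : ℤ) * z.c) - (z.k : ℤ) * 0 = _
          ring
        · refine ng r02 (Or.inl ?_)
          show (1 : ℤ) * ((z.b : ℤ) * ((z.d : ℤ) ^ 2 - z.c ^ 2)) - (z.k : ℤ) * z.c * 0 = _
          ring
        · refine ng r01 (Or.inl ?_)
          show (z.k : ℤ) * 0 - 1 * -((z.b : ℤ) * z.c) = _
          ring
        · exact absurd rfl hii
        · refine ng r12 (Or.inl ?_)
          show (z.k : ℤ) * ((z.b : ℤ) * ((z.d : ℤ) ^ 2 - z.c ^ 2)) -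
            (z.k : ℤ) * z.c * -((z.b : ℤ) * z.c) = _
          ring
        · refine ng r02 (Or.inr ?_)
          show (z.k : ℤ) * z.c * 0 - 1 * ((z.b : ℤ) * ((z.d : ℤ) ^ 2 - z.c ^ 2)) = _
          ring
        · refine ng r12 (Or.inr ?_)
          show (z.k : ℤ) * z.c * -((z.b : ℤ) * z.c) -
            (z.k : ℤ) * ((z.b : ℤ) * ((z.d : ℤ) ^ 2 - z.c ^ 2)) = _
          ring
        · exact absurd rfl hii)
  have hsum : (∑ i : Fin 3, (![4, 3, 4] : Fin 3 → ℕ) i) = 11 := by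
    rw [Fin.sum_univ_three]; rfl
  rw [hsum] at key
  -- injectivity
  have hinj : Set.InjOn (fun q : Cf => q.a) (S : Set Cf) := by
    intro q hq q' hq' hqq
    obtain ⟨h, r⟩ := hS q hq
    obtain ⟨h', r'⟩ := hS q' hq'
    obtain ⟨_, g1, g2⟩ := e0a_F h r hk1
    obtain ⟨_, g1', g2'⟩ := e0a_F h' r' hk1
    have hqq' : q.a = q'.a := hqq
    rw [hqq'] at g1 g2
    have ee : q.e = q'.e := g1.symm.trans g1'
    have ef : q.f = q'.f := g2.symm.trans g2'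
    cases q
    cases q'
    simp only [Cf.mk.injEq]
    have k1 := r.rk.trans r'.rk.symm
    have k2 := r.rb.trans r'.rb.symm
    have k3 := r.rc.trans r'.rc.symm
    have k4 := r.rd.trans r'.rd.symm
    exact ⟨k1, hqq', k2, k3, k4, ee, ef⟩
  rw [Finset.sum_image hinj] at key
  set W : ℝ := (1 / 4) ^ (om y z.b + om y z.c + om y z.d) with hW
  have hW0 : 0 ≤ W := by rw [hW]; positivity
  have step : ∑ q ∈ S, wt w q ^ 2 ≤
      W * ∑ q ∈ S, ∏ i, (1 - (((![4, 3, 4] : Fin 3 → ℕ) i : ℕ) : ℝ) / 4) ^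
        (om y (e0aF z.k z.b z.c z.d i q.a)) := by
    rw [Finset.mul_sum]
    refine Finset.sum_le_sum ?_
    intro q hq
    obtain ⟨h, r⟩ := hS q hq
    obtain ⟨g0, g1, g2⟩ := e0a_F h r hk1
    have hw1 := e0a_wt h hyw
    rw [r.rb, r.rc, r.rd] at hw1
    refine hw1.trans (le_of_eq ?_)
    rw [Fin.prod_univ_three, g0, g1, g2, om_rough (rough_mono hyw h.ra),
      om_rough (rough_mono hyw h.rf), pow_zero, pow_zero, one_mul, mul_one, hW]
    congr 2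
    show (1 / 4 : ℝ) = 1 - ((3 : ℕ) : ℝ) / 4
    norm_num
  have hsg : sg 10 N' ≤ (sg 10 z.b * sg 10 z.c * sg 10 z.k) * sgx 10 (z.d * R) (z.k * z.c) := by
    have hk0 : z.k ≠ 0 := by omega
    have hdR : z.d * R ≠ 0 := mul_ne_zero hd0 hR0
    have s1 := sg_mul_le 10 (m := z.b) (n := (z.k * z.c) * (z.d * R)) hb0
      (mul_ne_zero (mul_ne_zero hk0 hc0) hdR)
    have s2 := sg_mul_le_sgx 10 (K := z.k * z.c) (n := z.d * R) (mul_ne_zero hk0 hc0) hdR
    have s3 := sg_mul_le 10 (m := z.k) (n := z.c) hk0 hc0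
    have p1 := (sg_pos 10 z.b).le
    have p2 := (sgx_pos 10 (z.d * R) (z.k * z.c)).le
    calc sg 10 N' ≤ sg 10 z.b * sg 10 ((z.k * z.c) * (z.d * R)) := s1
      _ ≤ sg 10 z.b * (sg 10 (z.k * z.c) * sgx 10 (z.d * R) (z.k * z.c)) :=
          mul_le_mul_of_nonneg_left s2 p1
      _ ≤ sg 10 z.b * ((sg 10 z.k * sg 10 z.c) * sgx 10 (z.d * R) (z.k * z.c)) :=
          mul_le_mul_of_nonneg_left (mul_le_mul_of_nonneg_right s3 p2) p1
      _ = _ := by ring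
  have hlam : 0 ≤ lam y := Real.rpow_nonneg (Real.log_natCast_nonneg y) _
  calc ∑ q ∈ S, wt w q ^ 2 ≤ _ := step
    _ ≤ W * (C * ((HH N w z.k : ℝ) / z.d) / lam y ^ 11 * sg 10 N') :=
        mul_le_mul_of_nonneg_left key hW0
    _ ≤ W * (C * ((HH N w z.k : ℝ) / z.d) / lam y ^ 11 *
        ((sg 10 z.b * sg 10 z.c * sg 10 z.k) * sgx 10 (z.d * R) (z.k * z.c))) := by
        refine mul_le_mul_of_nonneg_left (mul_le_mul_of_nonneg_left hsg ?_) hW0
        positivity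
    _ = C * B0 N w y z := by
        unfold B0
        rw [← hW, ← hR]
        ring

end PA39
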