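import Pool.Agent.LibPA39.Defs
import Pool.Agent.LibTwHL.M1

/-!
[PA N6b] **Rough squarefree integers**: `∑ 1/m ≤ C` (Mertens only).
PROOF. `1/m = ∏ p ∈ m.primeFactors, 1/p`, the primes of `m` lie in `(y, y^B]`, so the sum is at most `∏_{y < p ≤ y^B} (1 + 1/p)` (`Finset.prod_one_add`, `m ↦ m.primeFactors` is
injective on squarefree numbers) `≤ exp (∑_{y < p ≤ y^B} 1/p) ≤ exp (log (1 + B log y) - log (1 + log y) + 2C) ≤ (B+1) e^(2C)` (`TwHL.mertens`).
-/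

namespace PA39

open Finset Pasch

private theorem n6b_sum (C0 : ℝ) (hC0 : 0 < C0)
    (hM : ∀ x : ℕ, 1 ≤ x → |∑ p ∈ TwHL.PP x, 1 / (p : ℝ) - TwHL.LL x| ≤ C0) (B y : ℕ) (hy : 3 ≤ y) :
    ∑ p ∈ TwHL.PP (y ^ B) \ TwHL.PP y, 1 / (p : ℝ) ≤ Real.log (B + 1) + 2 * C0 := by
  have hB1 : (0 : ℝ) ≤ B := Nat.cast_nonneg B
  have hlB : 0 ≤ Real.log ((B : ℝ) + 1) := Real.log_nonneg (by linarith)
  rcases Nat.eq_zero_or_pos B with h0 | hB
  · subst h0
    have : TwHL.PP (y ^ 0) \ TwHL.PP y = ∅ := by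
      rw [Finset.sdiff_eq_empty_iff_subset]
      intro p hp
      unfold TwHL.PP at hp
      rw [Finset.mem_filter, Finset.mem_Icc] at hp
      have h1 := hp.2.two_le
      have h2 := hp.1.2
      rw [pow_zero] at h2
      omega
    rw [this, Finset.sum_empty]
    linarith
  · have hsub : TwHL.PP y ⊆ TwHL.PP (y ^ B) := by
      intro p hp
      unfold TwHL.PP at hp ⊢
      rw [Finset.mem_filter, Finset.mem_Icc] at hp ⊢
      refine ⟨⟨hp.1.1, hp.1.2.trans ?_⟩, hp.2⟩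
      exact Nat.le_self_pow (by omega) y
    have h1 := Finset.sum_sdiff hsub (f := fun p : ℕ => 1 / (p : ℝ))
    have h2 := abs_le.1 (hM y (by omega))
    have h3 := abs_le.1 (hM (y ^ B) (Nat.one_le_pow _ _ (by omega)))
    have hy3 : (3 : ℝ) ≤ y := by exact_mod_cast hy
    have hl : 0 ≤ Real.log y := Real.log_nonneg (by linarith)
    have hB0 : (0 : ℝ) ≤ B := Nat.cast_nonneg B
    have h4 : TwHL.LL (y ^ B) ≤ TwHL.LL y + Real.log (B + 1) := by
      unfold TwHL.LL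
      rw [← Real.log_mul (by linarith) (by linarith)]
      apply Real.log_le_log
      · have : 0 ≤ Real.log ((y ^ B : ℕ) : ℝ) := Real.log_natCast_nonneg _
        linarith
      · rw [Nat.cast_pow, Real.log_pow]
        nlinarith
    linarith [h2.1, h3.2]

private theorem n6b_inv {m : ℕ} (hs : Squarefree m) :
    (1 : ℝ) / m = ∏ p ∈ m.primeFactors, 1 / (p : ℝ) := by
  conv_lhs => rw [← Nat.prod_primeFactors_of_squarefree hs]
  rw [Nat.cast_prod, one_div, ← Finset.prod_inv_distrib]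
  exact Finset.prod_congr rfl fun p _ => (one_div _).symm

theorem rs (B : ℕ) : ∃ C : ℝ, 0 < C ∧ ∀ y : ℕ, 3 ≤ y → ∀ S : Finset ℕ,
    (∀ m ∈ S, 1 ≤ m ∧ m ≤ y ^ B ∧ Squarefree m ∧ Rough y m) → ∑ m ∈ S, (1 : ℝ) / m ≤ C := by
  obtain ⟨C0, hC0, hM⟩ := TwHL.mertens
  refine ⟨Real.exp (Real.log (B + 1) + 2 * C0), Real.exp_pos _, fun y hy S hS => ?_⟩
  set P := TwHL.PP (y ^ B) \ TwHL.PP y with hP
  have hmem : ∀ m ∈ S, m.primeFactors ∈ P.powerset := by
    intro m hm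
    obtain ⟨h1, h2, h3, h4⟩ := hS m hm
    rw [Finset.mem_powerset]
    intro p hp
    have hpp := Nat.prime_of_mem_primeFactors hp
    have hpd := Nat.dvd_of_mem_primeFactors hp
    rw [hP, Finset.mem_sdiff]
    unfold TwHL.PP
    rw [Finset.mem_filter, Finset.mem_filter, Finset.mem_Icc, Finset.mem_Icc]
    refine ⟨⟨⟨hpp.one_le, (Nat.le_of_dvd (by omega) hpd).trans h2⟩, hpp⟩, ?_⟩
    rintro ⟨⟨_, h5⟩, _⟩
    have := h4 p hpp hpd
    omega
  have hinj : ∀ m ∈ S, ∀ n ∈ S, m.primeFactors = n.primeFactors → m = n := by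
    intro m hm n hn h
    rw [← Nat.prod_primeFactors_of_squarefree (hS m hm).2.2.1,
      ← Nat.prod_primeFactors_of_squarefree (hS n hn).2.2.1, h]
  have h1 : ∑ m ∈ S, (1 : ℝ) / m ≤ ∑ t ∈ P.powerset, ∏ p ∈ t, 1 / (p : ℝ) := by
    rw [Finset.sum_congr rfl fun m hm => n6b_inv (hS m hm).2.2.1]
    rw [← Finset.sum_image (f := fun t : Finset ℕ => ∏ p ∈ t, 1 / (p : ℝ)) (g := Nat.primeFactors)
      (s := S) (fun m hm n hn h => hinj m hm n hn h)]
    apply Finset.sum_le_sum_of_subset_of_nonneg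
    · intro t ht
      obtain ⟨m, hm, rfl⟩ := Finset.mem_image.1 ht
      exact hmem m hm
    · intro t _ _
      exact Finset.prod_nonneg fun p _ => by positivity
  have h2 : ∑ t ∈ P.powerset, ∏ p ∈ t, 1 / (p : ℝ) = ∏ p ∈ P, (1 + 1 / (p : ℝ)) :=
    (Finset.prod_one_add P).symm
  have h3 : ∏ p ∈ P, (1 + 1 / (p : ℝ)) ≤ Real.exp (∑ p ∈ P, 1 / (p : ℝ)) := by
    rw [Real.exp_sum]
    apply Finset.prod_le_prod
    · intro p _
      positivity
    · intro p _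
      have := Real.add_one_le_exp (1 / (p : ℝ))
      linarith
  calc ∑ m ∈ S, (1 : ℝ) / m ≤ _ := h1
    _ = _ := h2
    _ ≤ _ := h3
    _ ≤ _ := Real.exp_le_exp.2 (n6b_sum C0 hC0 hM B y hy)

end PA39
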