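import Pool.Agent.LibPA39.C1k
import Pool.Agent.LibPA39.N9a

/-!
[PA SA] **Only pairs with `a = a'`** (Cauchy-Schwarz over the boundedly many `a`; idea of helper15).
PROOF. For a fixed value `n` of `n1`, the `a`'s of the configurations `q` with `n1 q = n` divide `n`, are `w^100`-rough, so they are products of subsets of the set `P` of the primes `> w^100` of `n` (`n` squarefree);
`n = a b c ≤ k a^2 ≤ 10^4 w^N < w^(N+1)` (`b c ≤ k a` by `eq1`; `w ≥ 10^5`), so `#P ≤ N` (indeed `(w^100)^#P ≤ n`) and there are at most `2^N` values of `a`. With `R n a = ∑ q ∈ S, n1 q = n, q.a = a, wt w q` and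
`(∑_a R n a)^2 ≤ 2^N ∑_a (R n a)^2` (`sq_sum_le_card_mul_sum_sq` over the image of `S.filter (n1 = n)` under `q ↦ q.a`). Sum over `n` in the image of `n1` (`Finset.sum_fiberwise_of_maps_to`; `∑ q ∈ S, ∑ q' ∈ S.filter (n1 q' = n1 q) = ∑ n, (∑ q, n1 q = n)^2`).
-/

namespace PA39

open Finset Pasch

private theorem sa_sq {ι κ : Type*} [DecidableEq κ] (S : Finset ι) (g : ι → κ) (f : ι → ℝ) :
    ∑ q ∈ S, ∑ q' ∈ S.filter (fun q' => g q' = g q), f q * f q' =
      ∑ i ∈ S.image g, (∑ q ∈ S.filter (fun q => g q = i), f q) ^ 2 := by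
  rw [← Finset.sum_fiberwise_of_maps_to (s := S) (t := S.image g) (g := g)
    (fun q hq => Finset.mem_image_of_mem g hq)]
  refine Finset.sum_congr rfl fun i _ => ?_
  rw [sq, Finset.sum_mul_sum]
  refine Finset.sum_congr rfl fun q hq => ?_
  rw [(Finset.mem_filter.1 hq).2]

private theorem sa_cs {ι κ : Type*} [DecidableEq κ] (S : Finset ι) (g : ι → κ) (f : ι → ℝ) (M : ℕ)
    (hM : (S.image g).card ≤ M) :
    (∑ q ∈ S, f q) ^ 2 ≤ M * ∑ q ∈ S, ∑ q' ∈ S.filter (fun q' => g q' = g q), f q * f q' := by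
  rw [sa_sq, ← Finset.sum_fiberwise_of_maps_to (s := S) (t := S.image g) (g := g)
    (fun q hq => Finset.mem_image_of_mem g hq)]
  refine sq_sum_le_card_mul_sum_sq.trans ?_
  refine mul_le_mul_of_nonneg_right (by exact_mod_cast hM) ?_
  exact Finset.sum_nonneg fun i _ => sq_nonneg _

private theorem sa_card {N w : ℕ} (hN : 1000 ≤ N) (hw : 10 ^ 5 ≤ w) (S : Finset Cf)
    (hS : ∀ q ∈ S, IsConf N w q) (n : ℕ) :
    ((S.filter (fun q => n1 q = n)).image (fun q => q.a)).card ≤ 2 ^ N := by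
  classical
  rcases Finset.eq_empty_or_nonempty (S.filter (fun q => n1 q = n)) with he | ⟨q0, hq0⟩
  · rw [he]
    simp
  rw [Finset.mem_filter] at hq0
  have hsq : ∀ q ∈ S, Squarefree (n1 q) := by
    intro q hq
    have h := (hS q hq).sqf
    unfold n1
    exact h.of_mul_left.of_mul_left.of_mul_left
  have hn0 : n ≠ 0 := by
    rw [← hq0.2]
    exact (hsq q0 hq0.1).ne_zero
  have hnle : n ≤ w ^ (N + 1) := by
    have h := hS q0 hq0.1
    have h1 : q0.b * q0.c ≤ q0.k * q0.a := by
      rw [← h.eq1]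
      exact Nat.le_add_left _ _
    calc n = q0.a * (q0.b * q0.c) := by
          rw [← hq0.2]
          unfold n1
          ring
      _ ≤ q0.a * (q0.k * q0.a) := Nat.mul_le_mul_left _ h1
      _ = q0.k * q0.a ^ 2 := by ring
      _ ≤ 10 ^ 4 * w ^ N := h.ahi
      _ ≤ w * w ^ N := Nat.mul_le_mul_right _ (le_trans (by norm_num) hw)
      _ = w ^ (N + 1) := by ring
  have hw1 : 1 < w := lt_of_lt_of_le (by norm_num) hw
  obtain ⟨P, hP⟩ : ∃ P : Finset ℕ, P = n.primeFactors.filter (fun p => w ^ 100 < p) := ⟨_, rfl⟩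
  have hPn : P.card ≤ N := by
    have h1 : (w ^ 100) ^ P.card ≤ w ^ (N + 1) := by
      calc (w ^ 100) ^ P.card = ∏ p ∈ P, w ^ 100 := by rw [Finset.prod_const]
        _ ≤ ∏ p ∈ P, p := by
            refine Finset.prod_le_prod' fun p hp => ?_
            rw [hP, Finset.mem_filter] at hp
            exact hp.2.le
        _ ≤ ∏ p ∈ n.primeFactors, p := by
            refine Finset.prod_le_prod_of_subset_of_one_le' ?_ fun p hp _ => ?_
            · rw [hP]
              exact Finset.filter_subset _ _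
            · exact (Nat.prime_of_mem_primeFactors hp).one_lt.le
        _ ≤ n := Nat.le_of_dvd (Nat.pos_of_ne_zero hn0) (Nat.prod_primeFactors_dvd n)
        _ ≤ w ^ (N + 1) := hnle
    rw [← pow_mul] at h1
    have h2 := (Nat.pow_le_pow_iff_right hw1).1 h1
    omega
  have hcard : ((S.filter (fun q => n1 q = n)).image (fun q => q.a)).card ≤ P.powerset.card := by
    refine Finset.card_le_card_of_injOn (fun a => a.primeFactors) ?_ ?_
    · intro a ha
      rw [Finset.mem_coe, Finset.mem_image] at ha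
      obtain ⟨q, hq, rfl⟩ := ha
      rw [Finset.mem_filter] at hq
      rw [Finset.mem_coe, Finset.mem_powerset]
      intro p hp
      have hpp := Nat.prime_of_mem_primeFactors hp
      have hpd := Nat.dvd_of_mem_primeFactors hp
      rw [hP, Finset.mem_filter, Nat.mem_primeFactors]
      refine ⟨⟨hpp, ?_, hn0⟩, (hS q hq.1).ra p hpp hpd⟩
      rw [← hq.2]
      unfold n1
      exact (hpd.mul_right _).mul_right _
    · intro a ha b hb hab
      rw [Finset.mem_coe, Finset.mem_image] at ha hb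
      obtain ⟨q, hq, rfl⟩ := ha
      obtain ⟨q', hq', rfl⟩ := hb
      rw [Finset.mem_filter] at hq hq'
      have s1 : Squarefree q.a := (hsq q hq.1).of_mul_left.of_mul_left
      have s2 : Squarefree q'.a := (hsq q' hq'.1).of_mul_left.of_mul_left
      have hab' : q.a.primeFactors = q'.a.primeFactors := hab
      rw [← Nat.prod_primeFactors_of_squarefree s1, ← Nat.prod_primeFactors_of_squarefree s2, hab']
  refine hcard.trans ?_
  rw [Finset.card_powerset]
  exact Nat.pow_le_pow_right (by norm_num) hPn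

theorem sa (N w : ℕ) (hN : 1000 ≤ N) (hw : 10 ^ 5 ≤ w) (S : Finset Cf) (hS : ∀ q ∈ S, IsConf N w q) :
    ∑ q ∈ S, ∑ q' ∈ S.filter (fun q' => n1 q' = n1 q), wt w q * wt w q' ≤
      2 ^ N * ∑ q ∈ S, ∑ q' ∈ S.filter (fun q' => n1 q' = n1 q ∧ q'.a = q.a), wt w q * wt w q' := by
  classical
  have e1 : ∑ q ∈ S, ∑ q' ∈ S.filter (fun q' => n1 q' = n1 q), wt w q * wt w q' =
      ∑ n ∈ S.image n1, (∑ q ∈ S.filter (fun q => n1 q = n), wt w q) ^ 2 :=
    sa_sq S n1 (wt w)
  have e2 : ∑ q ∈ S, ∑ q' ∈ S.filter (fun q' => n1 q' = n1 q ∧ q'.a = q.a), wt w q * wt w q' =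
      ∑ n ∈ S.image n1, ∑ q ∈ S.filter (fun q => n1 q = n),
        ∑ q' ∈ (S.filter (fun q => n1 q = n)).filter (fun q' => q'.a = q.a), wt w q * wt w q' := by
    rw [← Finset.sum_fiberwise_of_maps_to (s := S) (t := S.image n1) (g := n1)
      (fun q hq => Finset.mem_image_of_mem n1 hq)]
    refine Finset.sum_congr rfl fun n _ => Finset.sum_congr rfl fun q hq => ?_
    rw [Finset.filter_filter, (Finset.mem_filter.1 hq).2]
  rw [e1, e2, Finset.mul_sum]
  refine Finset.sum_le_sum fun n _ => ?_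
  have h := sa_cs (S.filter (fun q => n1 q = n)) (fun q => q.a) (wt w) (2 ^ N)
    (sa_card hN hw S hS n)
  push_cast at h
  exact h

end PA39
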