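import Pool.Agent.LibPA39.Defs

/-!
[PA T1] **Fractional weights in the upper bound sieve** (from `RD69.sieve_ub`).
PROOF. Write `if n ≡ ρ p i then g i else 1 = g i * 1 + (1 - g i) * (if n ≡ ρ p i then 0 else 1)`. For a fixed `p`,
`∏ i, (..) = ∑ T ∈ univ.powerset, (∏ i ∈ T, (1 - g i)) (∏ i ∈ univ \ T, g i) * (if ∃ i ∈ T, n ≡ ρ p i then 0 else 1)`
(`Finset.prod_add`). Product over `p ∈ P` (`Finset.prod_sum`: sum over functions `τ` in `P.pi (fun _ => univ.powerset)`), sum
over `n ∈ s`: for each `τ`, the number of `n ∈ s` with `n ≢ ρ p i` for all `p ∈ P`, `i ∈ τ p` is, by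
`(Classical.choose_spec RD69.sieve_ub).2 r y N P (Ω p := image (ρ p) (τ p))`, at most
`18 N ∏ p ∈ P, (1 - #(τ p) / p)` (`ρ p` injective, so `#Ω p = #τ p ≤ r`). Hence the sum is at most
`18 N ∏ p ∈ P, ∑ T, (∏ i ∈ T, (1 - g i)) (∏ i ∉ T, g i) (1 - #T / p)` (again `prod_sum`), and the inner sum equals
`1 - (∑ i, (1 - g i)) / p` (expectation of `#T`; induction on the finset, or `#T = ∑ i, [i ∈ T]` and `prod_add`).
A way with less dependent types: induction over the finset `P ×ˢ univ` of pairs `(p, i)`, keeping the statement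
the statement for all Ω: e.g. prove by induction on a finset `U ⊆ P ×ˢ univ` that for all `V` disjoint from `U`,
`∑ n ∈ s, ∏ (p,i) ∈ U, (if .. then g i else 1) * ∏ (p,i) ∈ V, (if .. then 0 else 1) ≤ 18 N ∏ p ∈ P, (1 - (∑ i, h p i) / p)` where
`h p i = 1 - g i` on `U`, `1` on `V`, `0` elsewhere: moving a pair from `V`-type (factor 0/1) and nothing to `U` is the convex
combination `g i * (statement without the pair) + (1 - g i) * (statement with the pair in V)`, and the right hand side is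
AFFINE in each `h p i` separately, so the combination is exact.
-/

namespace PA39

open Finset Pasch

/-- the left hand side with general weights -/
private noncomputable def t1F {r : ℕ} (W : Finset (ℕ × Fin r)) (ρ : ℕ → Fin r → ℕ) (s : Finset ℤ)
    (h : ℕ × Fin r → ℝ) : ℝ :=
  ∑ n ∈ s, ∏ x ∈ W, (if n ≡ (ρ x.1 x.2 : ℤ) [ZMOD x.1] then 1 - h x else 1)

/-- the right hand side with general weights -/
private noncomputable def t1R {r : ℕ} (P : Finset ℕ) (h : ℕ × Fin r → ℝ) : ℝ :=
  ∏ p ∈ P, (1 - (∑ i, h (p, i)) / p)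

private theorem t1F_affine {r : ℕ} (W : Finset (ℕ × Fin r)) (ρ : ℕ → Fin r → ℕ) (s : Finset ℤ)
    (h : ℕ × Fin r → ℝ) {x : ℕ × Fin r} (hx : x ∈ W) :
    t1F W ρ s h = (1 - h x) * t1F W ρ s (Function.update h x 0) + h x * t1F W ρ s (Function.update h x 1) := by
  classical
  unfold t1F
  rw [mul_sum, mul_sum, ← sum_add_distrib]
  refine sum_congr rfl fun n _ => ?_
  have key : ∀ c : ℝ, ∏ y ∈ W, (if n ≡ (ρ y.1 y.2 : ℤ) [ZMOD y.1] then 1 - Function.update h x c y else 1) =
      (if n ≡ (ρ x.1 x.2 : ℤ) [ZMOD x.1] then 1 - c else 1) *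
        ∏ y ∈ W.erase x, (if n ≡ (ρ y.1 y.2 : ℤ) [ZMOD y.1] then 1 - h y else 1) := by
    intro c
    rw [← mul_prod_erase W _ hx, Function.update_self]
    congr 1
    refine prod_congr rfl fun y hy => ?_
    rw [Function.update_of_ne (ne_of_mem_erase hy)]
  rw [key 0, key 1, ← mul_prod_erase W _ hx]
  split_ifs <;> ring

private theorem t1R_affine {r : ℕ} (P : Finset ℕ) (h : ℕ × Fin r → ℝ) {x : ℕ × Fin r} (hx : x.1 ∈ P) :
    t1R P h = (1 - h x) * t1R P (Function.update h x 0) + h x * t1R P (Function.update h x 1) := by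
  classical
  unfold t1R
  have key : ∀ c : ℝ, ∏ p ∈ P, (1 - (∑ i, Function.update h x c (p, i)) / p) =
      (1 - (c + ∑ i ∈ univ.erase x.2, h (x.1, i)) / x.1) * ∏ p ∈ P.erase x.1, (1 - (∑ i, h (p, i)) / p) := by
    intro c
    rw [← mul_prod_erase P _ hx]
    congr 1
    · congr 2
      rw [← add_sum_erase univ _ (mem_univ x.2)]
      congr 1
      · rw [Prod.mk.eta, Function.update_self]
      · refine sum_congr rfl fun i hi => ?_
        rw [Function.update_of_ne]
        intro e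
        exact ne_of_mem_erase hi (congrArg Prod.snd e)
    · refine prod_congr rfl fun p hp => ?_
      congr 2
      refine sum_congr rfl fun i _ => ?_
      rw [Function.update_of_ne]
      intro e
      exact ne_of_mem_erase hp (congrArg Prod.fst e)
  have k0 := key (h x)
  rw [Function.update_eq_self] at k0
  rw [k0, key 0, key 1]
  ring

private theorem t1_base (r y N : ℕ) (hr : 1 ≤ r) (hy : 2 ≤ y) (P : Finset ℕ) (ρ : ℕ → Fin r → ℕ)
    (hP : ∀ p ∈ P, p.Prime ∧ 2 * r ≤ p ∧ p ≤ y ∧ Function.Injective (ρ p) ∧ ∀ i, ρ p i < p)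
    (hN : y ^ (Classical.choose RD69.sieve_ub * r) ≤ N) (A : ℤ) (s : Finset ℤ) (hs : s ⊆ Ico A (A + N))
    (h : ℕ × Fin r → ℝ) (h01 : ∀ x ∈ P ×ˢ (univ : Finset (Fin r)), h x = 0 ∨ h x = 1) :
    t1F (P ×ˢ (univ : Finset (Fin r))) ρ s h ≤ 18 * N * t1R P h := by
  classical
  set Ω : ℕ → Finset ℕ := fun p => (univ.filter (fun i : Fin r => h (p, i) = 1)).image (ρ p) with hΩ
  set s' : Finset ℤ := s.filter (fun n => ∀ x ∈ P ×ˢ (univ : Finset (Fin r)), h x = 1 →
    ¬ n ≡ (ρ x.1 x.2 : ℤ) [ZMOD x.1]) with hs'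
  have hcard : ∀ p ∈ P, (#(Ω p) : ℝ) = ∑ i, h (p, i) := by
    intro p hp
    obtain ⟨_, _, _, h4, _⟩ := hP p hp
    rw [hΩ]
    simp only
    rw [card_image_of_injective _ h4, card_filter]
    push_cast
    refine sum_congr rfl fun i _ => ?_
    rcases h01 (p, i) (mem_product.mpr ⟨hp, mem_univ i⟩) with h0 | h1
    · rw [h0]; norm_num
    · rw [h1]; norm_num
  have hF : t1F (P ×ˢ (univ : Finset (Fin r))) ρ s h = (#s' : ℝ) := by
    unfold t1F
    rw [hs', card_filter]
    push_cast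
    refine sum_congr rfl fun n _ => ?_
    split_ifs with hc
    · refine prod_eq_one fun x hx => ?_
      split_ifs with hn
      · rcases h01 x hx with h0 | h1
        · rw [h0]; norm_num
        · exact absurd hn (hc x hx h1)
      · rfl
    · push Not at hc
      obtain ⟨x, hx, hx1, hn⟩ := hc
      refine prod_eq_zero hx ?_
      rw [if_pos hn, hx1]; norm_num
  rw [hF]
  have hmain := (Classical.choose_spec RD69.sieve_ub).2 r y N P Ω hr hy
    (fun p hp => by
      obtain ⟨h1, h2, h3, h4, h5⟩ := hP p hp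
      refine ⟨h1, h2, h3, ?_, ?_⟩
      · refine card_image_le.trans ((card_filter_le _ _).trans ?_)
        rw [card_univ, Fintype.card_fin]
      · intro a ha
        obtain ⟨i, _, rfl⟩ := mem_image.mp ha
        exact h5 i)
    hN A s' ((filter_subset _ _).trans hs)
    (fun p hp n hn a ha => by
      obtain ⟨i, hi, rfl⟩ := mem_image.mp ha
      exact (mem_filter.mp hn).2 (p, i) (mem_product.mpr ⟨hp, mem_univ i⟩) (mem_filter.mp hi).2)
  refine hmain.trans (le_of_eq ?_)
  unfold t1R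
  congr 1
  exact prod_congr rfl fun p hp => by rw [hcard p hp]

private theorem t1_gen (r y N : ℕ) (hr : 1 ≤ r) (hy : 2 ≤ y) (P : Finset ℕ) (ρ : ℕ → Fin r → ℕ)
    (hP : ∀ p ∈ P, p.Prime ∧ 2 * r ≤ p ∧ p ≤ y ∧ Function.Injective (ρ p) ∧ ∀ i, ρ p i < p)
    (hN : y ^ (Classical.choose RD69.sieve_ub * r) ≤ N) (A : ℤ) (s : Finset ℤ) (hs : s ⊆ Ico A (A + N))
    (U : Finset (ℕ × Fin r)) (hU : U ⊆ P ×ˢ (univ : Finset (Fin r))) :
    ∀ h : ℕ × Fin r → ℝ, (∀ x, 0 ≤ h x ∧ h x ≤ 1) →
      (∀ x ∈ P ×ˢ (univ : Finset (Fin r)), x ∉ U → h x = 0 ∨ h x = 1) →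
      t1F (P ×ˢ (univ : Finset (Fin r))) ρ s h ≤ 18 * N * t1R P h := by
  classical
  induction U using Finset.induction_on with
  | empty =>
    intro h _ h01
    exact t1_base r y N hr hy P ρ hP hN A s hs h (fun x hx => h01 x hx (notMem_empty x))
  | insert x U hxU ih =>
    intro h hh h01
    have hxW : x ∈ P ×ˢ (univ : Finset (Fin r)) := hU (mem_insert_self x U)
    have ih' := ih ((subset_insert x U).trans hU)
    have hc : ∀ c : ℝ, (c = 0 ∨ c = 1) →
        t1F (P ×ˢ (univ : Finset (Fin r))) ρ s (Function.update h x c) ≤ 18 * N * t1R P (Function.update h x c) := by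
      intro c hc
      apply ih'
      · intro z
        by_cases hz : z = x
        · subst hz
          rw [Function.update_self]
          rcases hc with rfl | rfl <;> norm_num
        · rw [Function.update_of_ne hz]
          exact hh z
      · intro z hz hzU
        by_cases hzx : z = x
        · subst hzx
          rw [Function.update_self]
          exact hc
        · rw [Function.update_of_ne hzx]
          exact h01 z hz (by rw [mem_insert]; push Not; exact ⟨hzx, hzU⟩)
    rw [t1F_affine _ ρ s h hxW, t1R_affine P h (mem_product.mp hxW).1]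
    have e0 := mul_le_mul_of_nonneg_left (hc 0 (Or.inl rfl)) (sub_nonneg.mpr (hh x).2)
    have e1 := mul_le_mul_of_nonneg_left (hc 1 (Or.inr rfl)) (hh x).1
    calc _ ≤ (1 - h x) * (18 * N * t1R P (Function.update h x 0)) +
          h x * (18 * N * t1R P (Function.update h x 1)) := add_le_add e0 e1
      _ = _ := by ring

theorem sf (r y N : ℕ) (hr : 1 ≤ r) (hy : 2 ≤ y) (P : Finset ℕ) (ρ : ℕ → Fin r → ℕ) (g : Fin r → ℝ)
    (hg : ∀ i, 0 ≤ g i ∧ g i ≤ 1)
    (hP : ∀ p ∈ P, p.Prime ∧ 2 * r ≤ p ∧ p ≤ y ∧ Function.Injective (ρ p) ∧ ∀ i, ρ p i < p)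
    (hN : y ^ (Classical.choose RD69.sieve_ub * r) ≤ N) (A : ℤ) (s : Finset ℤ) (hs : s ⊆ Ico A (A + N)) :
    ∑ n ∈ s, ∏ p ∈ P, ∏ i, (if n ≡ (ρ p i : ℤ) [ZMOD p] then g i else 1) ≤
      18 * N * ∏ p ∈ P, (1 - (∑ i, (1 - g i)) / p) := by
  classical
  have hm := t1_gen r y N hr hy P ρ hP hN A s hs (P ×ˢ (univ : Finset (Fin r))) subset_rfl
    (fun x => 1 - g x.2) (fun x => ⟨by have := (hg x.2).2; linarith, by have := (hg x.2).1; linarith⟩)
    (fun x hx hx' => absurd hx hx')
  unfold t1F t1R at hm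
  refine le_trans (le_of_eq ?_) hm
  refine sum_congr rfl fun n _ => ?_
  rw [prod_product]
  refine prod_congr rfl fun p _ => prod_congr rfl fun i _ => ?_
  simp only [sub_sub_cancel]

end PA39
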