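import Pool.Agent.LibPA39.T1

/-!
[PA T2] **Linear forms in an arithmetic progression** (from T1 `sf`).
PROOF. `s` empty: trivial. Else write `x = x1 + D t` with `x1 = x0 % D`, `0 ≤ t ≤ H / D`; the map `x ↦ t` is injective on `s`.
Apply `sf` with `P` = the finset of primes, `N := H / D + 1` (natural division), `A = 0`, `s' = ` the finset of the `t` (as
integers), and `ρ p i :=` the solution `t` mod `p` of `α i (x1 + D t) + β i ≡ 0` (in `ZMod p`:
`(-(β i)/(α i) - x1)/D`, `.val`), so `(p : ℤ) ∣ α i x + β i ↔ t ≡ ρ p i`; two equal values `ρ p i = ρ p i'` would give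
`p ∣ α i β i' - α i' β i`. `2 r ≤ 10 < p`. `y^(C r) ≤ y^TT ≤ H / D ≤ N` (`TT = 100 C`, `r ≤ 5`; `Nat.le_div_iff_mul_le`).
`18 N ≤ 36 (H / D)` as reals since `H / D ≥ 1`. (All factors `1 - (∑ (1 - g i))/p ≥ 0`.)
-/

namespace PA39

open Finset Pasch

theorem lsf (r : ℕ) (hr : 1 ≤ r) (hr5 : r ≤ 5) (y H D N x0 : ℕ) (α β : Fin r → ℤ) (g : Fin r → ℝ) (s : Finset ℕ)
    (hy : 2 ≤ y) (hD : 1 ≤ D) (hH : D * y ^ TT ≤ H) (hg : ∀ i, 0 ≤ g i ∧ g i ≤ 1)
    (hs : ∀ x ∈ s, x ≤ H ∧ x ≡ x0 [MOD D])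
    (hp : ∀ p : ℕ, p.Prime → 10 < p → p ≤ y → ¬ p ∣ N → ¬ p ∣ D ∧ (∀ i, ¬ (p : ℤ) ∣ α i) ∧
      ∀ i i', i ≠ i' → ¬ (p : ℤ) ∣ α i * β i' - α i' * β i) :
    ∑ x ∈ s, ∏ p ∈ (Icc 11 y).filter (fun p => p.Prime ∧ ¬ p ∣ N),
        ∏ i, (if (p : ℤ) ∣ α i * (x : ℤ) + β i then g i else 1) ≤
      36 * ((H : ℝ) / D) * ∏ p ∈ (Icc 11 y).filter (fun p => p.Prime ∧ ¬ p ∣ N),
        (1 - (∑ i, (1 - g i)) / (p : ℝ)) := by
  classical
  set P : Finset ℕ := (Icc 11 y).filter (fun p => p.Prime ∧ ¬ p ∣ N) with hPdef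
  have hPm : ∀ p ∈ P, p.Prime ∧ 11 ≤ p ∧ p ≤ y ∧ ¬ p ∣ N := by
    intro p hp'
    rw [hPdef, Finset.mem_filter, Finset.mem_Icc] at hp'
    exact ⟨hp'.2.1, hp'.1.1, hp'.1.2, hp'.2.2⟩
  -- sizes
  have hyT : y ^ TT ≤ H / D := by
    rw [Nat.le_div_iff_mul_le (by omega)]
    rw [mul_comm]; exact hH
  have hy1 : 1 ≤ y ^ TT := Nat.one_le_pow _ _ (by omega)
  have hDH : D ≤ H := le_trans (Nat.le_mul_of_pos_right D (by omega)) hH
  have hDr : (0 : ℝ) < D := by exact_mod_cast (by omega : 0 < D)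
  have hHD1 : (1 : ℝ) ≤ (H : ℝ) / D := by
    rw [le_div_iff₀ hDr, one_mul]; exact_mod_cast hDH
  have hfl : ((H / D : ℕ) : ℝ) ≤ (H : ℝ) / D := Nat.cast_div_le
  set x1 : ℕ := x0 % D with hx1
  set ρ : ℕ → Fin r → ℕ := fun p i =>
    (((-(β i : ZMod p)) * (α i : ZMod p)⁻¹ - (x1 : ZMod p)) * (D : ZMod p)⁻¹).val with hρ
  have hxs : ∀ x ∈ s, x = x1 + D * (x / D) := by
    intro x hx
    have h1 := (hs x hx).2
    have h2 : x % D = x0 % D := h1
    have h3 := Nat.mod_add_div x D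
    rw [h2] at h3
    rw [hx1]; exact h3.symm
  -- facts in `ZMod p`
  have hαz : ∀ p ∈ P, ∀ i, (α i : ZMod p) ≠ 0 := by
    intro p hp' i h0
    obtain ⟨h1, h2, h3, h4⟩ := hPm p hp'
    exact (hp p h1 (by omega) h3 h4).2.1 i ((ZMod.intCast_zmod_eq_zero_iff_dvd _ _).1 h0)
  have hDz : ∀ p ∈ P, (D : ZMod p) ≠ 0 := by
    intro p hp' h0
    obtain ⟨h1, h2, h3, h4⟩ := hPm p hp'
    exact (hp p h1 (by omega) h3 h4).1 ((ZMod.natCast_eq_zero_iff _ _).1 h0)
  have hρlt : ∀ p ∈ P, ∀ i, ρ p i < p := by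
    intro p hp' i
    obtain ⟨h1, h2, h3, h4⟩ := hPm p hp'
    have : Fact p.Prime := ⟨h1⟩
    exact ZMod.val_lt _
  have hρinj : ∀ p ∈ P, Function.Injective (ρ p) := by
    intro p hp' i i' hii
    by_contra hne
    obtain ⟨h1, h2, h3, h4⟩ := hPm p hp'
    have : Fact p.Prime := ⟨h1⟩
    have e1 := ZMod.val_injective p hii
    have a1 := hαz p hp' i
    have a2 := hαz p hp' i'
    have d1 := hDz p hp'
    have e2 := mul_right_cancel₀ (inv_ne_zero d1) e1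
    have e3 : (β i : ZMod p) * (α i : ZMod p)⁻¹ = (β i' : ZMod p) * (α i' : ZMod p)⁻¹ := by
      linear_combination -e2
    have e4 : (β i : ZMod p) * (α i' : ZMod p) = (β i' : ZMod p) * (α i : ZMod p) := by
      field_simp at e3
      linear_combination e3
    refine (hp p h1 (by omega) h3 h4).2.2 i i' hne ((ZMod.intCast_zmod_eq_zero_iff_dvd _ _).1 ?_)
    push_cast
    linear_combination -e4
  have hkey : ∀ p ∈ P, ∀ x ∈ s, ∀ i, (((x / D : ℕ) : ℤ) ≡ (ρ p i : ℤ) [ZMOD p]) ↔ (p : ℤ) ∣ α i * (x : ℤ) + β i := by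
    intro p hp' x hx i
    obtain ⟨h1, h2, h3, h4⟩ := hPm p hp'
    have : Fact p.Prime := ⟨h1⟩
    have a1 := hαz p hp' i
    have d1 := hDz p hp'
    rw [← ZMod.intCast_eq_intCast_iff, ← ZMod.intCast_zmod_eq_zero_iff_dvd]
    have e1 : (((ρ p i : ℕ) : ℤ) : ZMod p) =
        ((-(β i : ZMod p)) * (α i : ZMod p)⁻¹ - (x1 : ZMod p)) * (D : ZMod p)⁻¹ := by
      rw [Int.cast_natCast]
      exact ZMod.natCast_zmod_val _
    rw [e1]
    have e2 : (x : ZMod p) = (x1 : ZMod p) + (D : ZMod p) * ((x / D : ℕ) : ZMod p) := by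
      have := congrArg (fun z : ℕ => (z : ZMod p)) (hxs x hx)
      simpa using this
    generalize hT : ((x / D : ℕ) : ZMod p) = T at e2
    have e3 : ((α i * (x : ℤ) + β i : ℤ) : ZMod p) = (α i : ZMod p) * ((x1 : ZMod p) + (D : ZMod p) * T) + (β i : ZMod p) := by
      push_cast
      rw [e2]
    rw [e3, Int.cast_natCast, hT]
    constructor
    · intro h
      rw [h]
      field_simp
      ring
    · intro h
      have h5 : (α i : ZMod p) * (D : ZMod p) * T = -(β i : ZMod p) - (α i : ZMod p) * (x1 : ZMod p) := by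
        linear_combination h
      field_simp
      linear_combination h5
  -- the image of `s`
  set s' : Finset ℤ := s.image (fun x => ((x / D : ℕ) : ℤ)) with hs'
  have hinj : Set.InjOn (fun x : ℕ => ((x / D : ℕ) : ℤ)) (s : Set ℕ) := by
    intro x hx x' hx' hxx
    have h0 : ((x / D : ℕ) : ℤ) = ((x' / D : ℕ) : ℤ) := hxx
    have h1 : x / D = x' / D := Int.ofNat.inj h0
    have e1 := hxs x hx
    have e2 := hxs x' hx'
    rw [e1, e2, h1]
  have hsub : s' ⊆ Ico (0 : ℤ) (0 + ((H / D + 1 : ℕ) : ℤ)) := by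
    intro n hn
    rw [hs', Finset.mem_image] at hn
    obtain ⟨x, hx, rfl⟩ := hn
    rw [Finset.mem_Ico]
    have h1 : x / D ≤ H / D := Nat.div_le_div_right (hs x hx).1
    constructor
    · exact Int.natCast_nonneg _
    · rw [zero_add]; exact_mod_cast Nat.lt_succ_of_le h1
  have hCr : y ^ (Classical.choose RD69.sieve_ub * r) ≤ H / D + 1 := by
    have h1 : Classical.choose RD69.sieve_ub * r ≤ TT := by
      unfold TT
      rw [mul_comm 100]
      exact Nat.mul_le_mul_left _ (by omega)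
    have h2 : y ^ (Classical.choose RD69.sieve_ub * r) ≤ y ^ TT := Nat.pow_le_pow_right (by omega) h1
    omega
  have main := sf r y (H / D + 1) hr hy P ρ g hg
    (fun p hp' => ⟨(hPm p hp').1, by have := (hPm p hp').2.1; omega, (hPm p hp').2.2.1, hρinj p hp', hρlt p hp'⟩)
    hCr 0 s' hsub
  rw [hs', Finset.sum_image hinj] at main
  have e0 : ∑ x ∈ s, ∏ p ∈ P, ∏ i, (if (p : ℤ) ∣ α i * (x : ℤ) + β i then g i else 1) =
      ∑ x ∈ s, ∏ p ∈ P, ∏ i, (if ((x / D : ℕ) : ℤ) ≡ (ρ p i : ℤ) [ZMOD p] then g i else 1) := by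
    refine Finset.sum_congr rfl fun x hx => Finset.prod_congr rfl fun p hp' => Finset.prod_congr rfl fun i _ => ?_
    by_cases hc : (p : ℤ) ∣ α i * (x : ℤ) + β i
    · rw [if_pos hc, if_pos ((hkey p hp' x hx i).2 hc)]
    · rw [if_neg hc, if_neg (fun h => hc ((hkey p hp' x hx i).1 h))]
  rw [e0]
  refine main.trans ?_
  have hprod : 0 ≤ ∏ p ∈ P, (1 - (∑ i, (1 - g i)) / (p : ℝ)) := by
    refine Finset.prod_nonneg fun p hp' => ?_
    have h1 : (11 : ℝ) ≤ p := by exact_mod_cast (hPm p hp').2.1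
    have h2 : ∑ i, (1 - g i) ≤ 5 := by
      calc ∑ i, (1 - g i) ≤ ∑ _i : Fin r, (1 : ℝ) := Finset.sum_le_sum fun i _ => by linarith [(hg i).1]
        _ = r := by simp
        _ ≤ 5 := by exact_mod_cast hr5
    rw [sub_nonneg, div_le_one (by linarith)]
    linarith
  refine mul_le_mul_of_nonneg_right ?_ hprod
  push_cast
  linarith

end PA39
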